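import Pool.Agent.Lib.MP_711ea9_lc.LangLemmas
import Pool.Agent.Lib.MP_79a9b1_lc.Front
import Pool.Agent.Lib.MP_79a9b1_lc.Bsys
import Pool.Agent.Lib.MP_79a9b1_lc.Slp
import Pool.Agent.Lib.MP_79a9b1_lc.Statement

section

set_option autoImplicit false

/-!
# Conditional expressions and loops which fill an array
-/

namespace Pool.Agent.Lib.MP_79a9b1_lc

open Pool.Agent.Lib.MP_711ea9_lc (Expr Cmd Store Bdd)
open Pool.Agent.Lib.MP_711ea9_lc.Expr (const var get add sub div mod)

/-- `1` if the value is nonzero. -/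
def bl (e : Expr) : Expr := sub (const 1) (sub (const 1) e)

/-- Conditional expression. -/
def cnd (c f g : Expr) : Expr := add (div f (bl c)) (div g (sub (const 1) c))

/-- Equality. -/
def eqE (e f : Expr) : Expr := sub (const 1) (add (sub e f) (sub f e))

/-- Strict inequality. -/
def ltE (e f : Expr) : Expr := bl (sub f e)

/-- Inequality. -/
def leE (e f : Expr) : Expr := sub (const 1) (sub e f)

/-- Conjunction. -/
def andE (e f : Expr) : Expr := div (bl e) (bl f)

/-- Multiplication by a constant. -/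
def mulc : ℕ → Expr → Expr
  | 0, _ => const 0
  | k + 1, e => add (mulc k e) e

theorem bl_eval (σ : Store) (e : Expr) : (bl e).eval σ = if e.eval σ = 0 then 0 else 1 := by
  change 1 - (1 - e.eval σ) = _
  split_ifs with h
  · omega
  · omega

theorem cnd_eval (σ : Store) (c f g : Expr) :
    (cnd c f g).eval σ = if c.eval σ = 0 then g.eval σ else f.eval σ := by
  change f.eval σ / (bl c).eval σ + g.eval σ / (1 - c.eval σ) = _
  rw [bl_eval]
  split_ifs with h
  · rw [h, Nat.div_zero, Nat.sub_zero, Nat.div_one, Nat.zero_add]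
  · have h1 : 1 - c.eval σ = 0 := by omega
    rw [h1, Nat.div_zero, Nat.div_one, Nat.add_zero]

theorem eqE_eval (σ : Store) (e f : Expr) :
    (eqE e f).eval σ = if e.eval σ = f.eval σ then 1 else 0 := by
  change 1 - ((e.eval σ - f.eval σ) + (f.eval σ - e.eval σ)) = _
  split_ifs with h
  · omega
  · omega

theorem ltE_eval (σ : Store) (e f : Expr) :
    (ltE e f).eval σ = if e.eval σ < f.eval σ then 1 else 0 := by
  rw [ltE, bl_eval]
  change (if f.eval σ - e.eval σ = 0 then 0 else 1) = _
  split_ifs with h h2 h2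
  · omega
  · rfl
  · rfl
  · omega

theorem leE_eval (σ : Store) (e f : Expr) :
    (leE e f).eval σ = if e.eval σ ≤ f.eval σ then 1 else 0 := by
  change 1 - (e.eval σ - f.eval σ) = _
  split_ifs with h
  · omega
  · omega

theorem andE_eval (σ : Store) (e f : Expr) :
    (andE e f).eval σ = if e.eval σ ≠ 0 ∧ f.eval σ ≠ 0 then 1 else 0 := by
  change (bl e).eval σ / (bl f).eval σ = _
  rw [bl_eval, bl_eval]
  by_cases h1 : e.eval σ = 0 <;> by_cases h2 : f.eval σ = 0 <;> simp [h1, h2]

theorem mulc_eval (σ : Store) (k : ℕ) (e : Expr) : (mulc k e).eval σ = k * e.eval σ := by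
  induction k with
  | zero =>
    change 0 = _
    rw [Nat.zero_mul]
  | succ k ih =>
    change (mulc k e).eval σ + e.eval σ = _
    rw [ih, Nat.succ_mul]

/-- `if a = b then f else g`. -/
def ifEq (a b f g : Expr) : Expr := cnd (eqE a b) f g

/-- `if a < b then f else g`. -/
def ifLt (a b f g : Expr) : Expr := cnd (ltE a b) f g

/-- `if a ≤ b then f else g`. -/
def ifLe (a b f g : Expr) : Expr := cnd (leE a b) f g

theorem ifEq_eval (σ : Store) (a b f g : Expr) :
    (ifEq a b f g).eval σ = if a.eval σ = b.eval σ then f.eval σ else g.eval σ := by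
  rw [ifEq, cnd_eval, eqE_eval]
  by_cases h : a.eval σ = b.eval σ <;> simp [h]

theorem ifLt_eval (σ : Store) (a b f g : Expr) :
    (ifLt a b f g).eval σ = if a.eval σ < b.eval σ then f.eval σ else g.eval σ := by
  rw [ifLt, cnd_eval, ltE_eval]
  by_cases h : a.eval σ < b.eval σ <;> simp [h]

theorem ifLe_eval (σ : Store) (a b f g : Expr) :
    (ifLe a b f g).eval σ = if a.eval σ ≤ b.eval σ then f.eval σ else g.eval σ := by
  rw [ifLe, cnd_eval, leE_eval]
  by_cases h : a.eval σ ≤ b.eval σ <;> simp [h]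

end Pool.Agent.Lib.MP_79a9b1_lc
end

section

set_option autoImplicit false

/-!
# Loops which fill an array
-/

namespace Pool.Agent.Lib.MP_79a9b1_lc

open Pool.Agent.Lib.MP_711ea9_lc (Expr Cmd Store Bdd)
open Pool.Agent.Lib.MP_711ea9_lc.Expr (const var get add sub div mod)

/-- Fills the array `a`: for all `i` less than the value of the variable `x`, the entry `i` becomes
the value of the expression `E`, in which the variable `30` stands for `i`. -/
def fill (x a : ℕ) (E : Expr) : Cmd :=
  .seq (.set 30 (const 0))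
    (.loop (var x) (.seq (.put a (var 30) E) (.set 30 (add (var 30) (const 1)))))

/-- The effect of `fill`. -/
theorem fill_spec (x a : ℕ) (hx : x ≠ 30) (E : Expr) (σ : Store) (f : ℕ → ℕ)
    (hE : ∀ i < σ.var x, ∀ τ : Store, (∀ y, y ≠ 30 → τ.var y = σ.var y) →
      (∀ c, c ≠ a → τ.arr c = σ.arr c) → τ.var 30 = i → E.eval τ = f i) :
    (∀ y, y ≠ 30 → ((fill x a E).exec σ).var y = σ.var y) ∧
      (∀ c, c ≠ a → ((fill x a E).exec σ).arr c = σ.arr c) ∧
      ∀ i < σ.var x, ((fill x a E).exec σ).arr a i = f i := by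
  have hv : ∀ y, y ≠ 30 → ((fill x a E).exec σ).var y = σ.var y := by
    intro y hy
    apply Cmd.frame_var
    have h1 : Nat.beq 30 y = false := by
      cases h : Nat.beq 30 y with
      | false => rfl
      | true => exact absurd (Nat.eq_of_beq_eq_true h).symm hy
    simp only [fill, Cmd.wv, h1, Bool.or_false]
  have ha : ∀ c, c ≠ a → ((fill x a E).exec σ).arr c = σ.arr c := by
    intro c hc
    apply Cmd.frame_arr
    have h1 : Nat.beq a c = false := by
      cases h : Nat.beq a c with
      | false => rfl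
      | true => exact absurd (Nat.eq_of_beq_eq_true h).symm hc
    simp only [fill, Cmd.wa, h1, Bool.or_false]
  refine ⟨hv, ha, ?_⟩
  have hx' : (var x).eval ((Cmd.set 30 (const 0)).exec σ) = σ.var x := by
    change Function.update σ.var 30 _ x = _
    rw [Function.update_of_ne hx]
  have key := Cmd.loop_rule (c := .seq (.put a (var 30) E) (.set 30 (add (var 30) (const 1)))) hx'
    (fun i τ => τ.var 30 = i ∧ ∀ j < i, τ.arr a j = f j)
    (by
      refine ⟨?_, fun j hj => absurd hj (Nat.not_lt_zero j)⟩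
      change Function.update σ.var 30 _ 30 = _
      rw [Function.update_self]
      rfl)
    (by
      intro i hi τ h1 h2 h3
      obtain ⟨h30, h4⟩ := h3
      have hEv : E.eval τ = f i := by
        refine hE i hi τ ?_ ?_ h30
        · intro y hy
          have h5 : Nat.beq 30 y = false := by
            cases h : Nat.beq 30 y with
            | false => rfl
            | true => exact absurd (Nat.eq_of_beq_eq_true h).symm hy
          rw [h1 y (by simp only [Cmd.wv, h5, Bool.or_false])]
          change Function.update σ.var 30 _ y = _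
          rw [Function.update_of_ne hy]
        · intro c hc
          have h5 : Nat.beq a c = false := by
            cases h : Nat.beq a c with
            | false => rfl
            | true => exact absurd (Nat.eq_of_beq_eq_true h).symm hc
          rw [h2 c (by simp only [Cmd.wa, h5, Bool.or_false])]
          rfl
      have hvar : ((Cmd.seq (.put a (var 30) E) (.set 30 (add (var 30) (const 1)))).exec τ).var 30 =
          i + 1 := by
        change Function.update τ.var 30 (τ.var 30 + 1) 30 = _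
        rw [Function.update_self, h30]
      have harr : ((Cmd.seq (.put a (var 30) E) (.set 30 (add (var 30) (const 1)))).exec τ).arr a =
          Function.update (τ.arr a) i (f i) := by
        change Function.update τ.arr a (Function.update (τ.arr a) (τ.var 30) (E.eval τ)) a = _
        rw [Function.update_self, h30, hEv]
      refine ⟨hvar, fun j hj => ?_⟩
      rw [harr]
      by_cases hji : j = i
      · rw [hji, Function.update_self]
      · rw [Function.update_of_ne hji]
        exact h4 j (by omega))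
  exact key.2

/-- The number of steps of `fill`. -/
theorem fill_steps (x a : ℕ) (hx : x ≠ 30) (E : Expr) (σ : Store) :
    (fill x a E).steps σ ≤ 10 + (10 + E.size) * σ.var x := by
  have h := Cmd.steps_le σ.var (fun y => y = x) (fill x a E) σ ⟨trivial, rfl, trivial, trivial⟩
    (by
      rintro y rfl
      have h1 : Nat.beq 30 y = false := by
        cases h : Nat.beq 30 y with
        | false => rfl
        | true => exact absurd (Nat.eq_of_beq_eq_true h).symm hx
      simp only [fill, Cmd.wv, h1, Bool.or_false])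
    (fun _ _ => rfl)
  refine h.trans ?_
  have e1 : (fill x a E).bd σ.var = (1 + (1 + Nat.size 0)) +
      (2 + σ.var x * (1 + ((1 + 1 + E.size) + (1 + (1 + (1 + Nat.size 1) + 1))))) := rfl
  have e2 : Nat.size 0 = 0 := rfl
  have e3 : Nat.size 1 = 1 := Nat.size_one
  rw [e1, e2, e3]
  nlinarith [Nat.zero_le (σ.var x)]

end Pool.Agent.Lib.MP_79a9b1_lc
end

section

set_option autoImplicit false

/-!
# First part of the program: from a sentence to a system of equations

Variables: 0 and 1 are the numbers of terms and formulas, 4 is `nv`, 5 is `ne`, 6 is `M`,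
7 is `E0`, 8 is `n`, 9 is `N`, 10 is `N * N`, 30 is an index.
Arrays: 0, …, 5 the sentence, 6, …, 9 the system, 10, 11, 12 the straight-line program,
finally 0 the adjacency matrix.
-/

namespace Pool.Agent.Lib.MP_79a9b1_lc

open Pool.Agent.Lib.MP_711ea9_lc (Expr Cmd Store)
open Pool.Agent.Lib.MP_711ea9_lc.Expr (const var get add sub div mod)

/-- The sentence in the memory. -/
def rawOf (σ : Store) : Raw where
  a := σ.var 0
  b := σ.var 1
  tt := σ.arr 0
  ta := σ.arr 1
  tb := σ.arr 2
  ft := σ.arr 3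
  fa := σ.arr 4
  fb := σ.arr 5

/-- Expression for `Raw.V`. -/
def vE (k : Expr) : Expr := add (add (const 1) (var 0)) (mulc 8 k)

/-- Expression for `Raw.fTy`. -/
def fTyE (k r : Expr) : Expr :=
  ifEq (get 3 k) (const 0) (ifEq r (const 2) (const 0) (const 1))
    (ifEq (get 3 k) (const 1) (ifEq r (const 2) (const 0) (ifEq r (const 4) (const 0) (const 1)))
      (ifEq (get 3 k) (const 2) (const 1) (ifEq r (const 2) (const 0) (const 1))))

/-- Expression for `Raw.fI`. -/
def fIE (k r : Expr) : Expr :=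
  ifEq (get 3 k) (const 0)
    (ifEq r (const 0) (const 0) (ifEq r (const 1) (add (const 1) (get 4 k))
      (ifEq r (const 2) (add (vE k) (const 1)) (const 0))))
    (ifEq (get 3 k) (const 1)
      (ifEq r (const 0) (add (vE k) (const 2)) (ifEq r (const 1) (add (const 1) (get 4 k))
        (ifEq r (const 2) (vE k) (ifEq r (const 3) (add (vE k) (const 3))
          (ifEq r (const 4) (add (const 1) (get 4 k)) (const 0))))))
      (ifEq (get 3 k) (const 2) (const 0)
        (ifEq (get 3 k) (const 3)
          (ifEq r (const 0) (vE (get 4 k)) (ifEq r (const 1) (vE (get 5 k))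
            (ifEq r (const 2) (add (vE k) (const 4))
              (ifEq r (const 3) (add (vE (get 4 k)) (const 1)) (const 0)))))
          (ifEq r (const 0) (add (vE (get 4 k)) (const 1))
            (ifEq r (const 1) (add (vE (get 5 k)) (const 1))
              (ifEq r (const 2) (add (vE k) (const 4))
                (ifEq r (const 3) (vE (get 4 k)) (const 0))))))))

/-- Expression for `Raw.fJ`. -/
def fJE (k r : Expr) : Expr :=
  ifEq (get 3 k) (const 0)
    (ifEq r (const 0) (add (const 1) (get 4 k)) (ifEq r (const 1) (add (vE k) (const 2))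
      (const 0)))
    (ifEq (get 3 k) (const 1)
      (ifEq r (const 0) (add (vE k) (const 2)) (ifEq r (const 1) (add (vE k) (const 4))
        (ifEq r (const 2) (const 0) (ifEq r (const 3) (add (vE k) (const 3))
          (ifEq r (const 4) (add (vE k) (const 6)) (const 0))))))
      (ifEq (get 3 k) (const 2)
        (ifEq r (const 0) (add (vE (get 4 k)) (const 1)) (ifEq r (const 1) (vE (get 4 k))
          (const 0)))
        (ifEq (get 3 k) (const 3)
          (ifEq r (const 0) (vE (get 4 k)) (ifEq r (const 1) (vE (get 5 k))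
            (ifEq r (const 2) (add (vE k) (const 5))
              (ifEq r (const 3) (add (vE (get 5 k)) (const 1)) (const 0)))))
          (ifEq r (const 0) (add (vE (get 4 k)) (const 1))
            (ifEq r (const 1) (add (vE (get 5 k)) (const 1))
              (ifEq r (const 2) (add (vE k) (const 5))
                (ifEq r (const 3) (vE (get 5 k)) (const 0))))))))

/-- Expression for `Raw.fK`. -/
def fKE (k r : Expr) : Expr :=
  ifEq (get 3 k) (const 0)
    (ifEq r (const 0) (vE k) (ifEq r (const 1) (add (vE k) (const 4))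
      (ifEq r (const 2) (add (vE k) (const 4)) (const 0))))
    (ifEq (get 3 k) (const 1)
      (ifEq r (const 0) (add (vE k) (const 4)) (ifEq r (const 1) (add (vE k) (const 5))
        (ifEq r (const 2) (add (vE k) (const 5)) (ifEq r (const 3) (add (vE k) (const 6))
          (ifEq r (const 4) (add (vE k) (const 1)) (const 0))))))
      (ifEq (get 3 k) (const 2)
        (ifEq r (const 0) (vE k) (ifEq r (const 1) (add (vE k) (const 1)) (const 0)))
        (ifEq (get 3 k) (const 3)
          (ifEq r (const 0) (add (vE k) (const 4)) (ifEq r (const 1) (add (vE k) (const 5))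
            (ifEq r (const 2) (vE k) (ifEq r (const 3) (add (vE k) (const 1)) (const 0)))))
          (ifEq r (const 0) (add (vE k) (const 4)) (ifEq r (const 1) (add (vE k) (const 5))
            (ifEq r (const 2) (add (vE k) (const 1)) (ifEq r (const 3) (vE k) (const 0))))))))

/-- `if e < a then f else if e < a + 6 b then g ((e - a) / 6) ((e - a) % 6) else h`. -/
def splitE (f : Expr) (g : Expr → Expr → Expr) (h : Expr) : Expr :=
  ifLt (var 30) (var 0) f
    (ifLt (var 30) (add (var 0) (mulc 6 (var 1)))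
      (g (div (sub (var 30) (var 0)) (const 6)) (mod (sub (var 30) (var 0)) (const 6))) h)

/-- Expression for `Raw.eTy`. -/
def eTyE : Expr :=
  splitE (ifEq (get 0 (var 30)) (const 2) (const 0)
    (ifEq (get 0 (var 30)) (const 3) (const 0) (const 1))) fTyE (const 0)

/-- Expression for `Raw.eI`. -/
def eIE : Expr :=
  splitE (ifEq (get 0 (var 30)) (const 2) (add (const 1) (get 1 (var 30)))
    (ifEq (get 0 (var 30)) (const 3) (add (const 1) (var 30))
      (ifEq (get 0 (var 30)) (const 4) (add (const 1) (get 1 (var 30))) (const 0)))) fIE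
    (vE (sub (var 1) (const 1)))

/-- Expression for `Raw.eJ`. -/
def eJE : Expr :=
  splitE (ifEq (get 0 (var 30)) (const 2) (add (const 1) (get 2 (var 30)))
    (ifEq (get 0 (var 30)) (const 3) (add (const 1) (get 2 (var 30)))
      (ifEq (get 0 (var 30)) (const 4) (add (const 1) (get 2 (var 30))) (const 0)))) fJE
    (vE (sub (var 1) (const 1)))

/-- Expression for `Raw.eK`. -/
def eKE : Expr :=
  splitE (ifEq (get 0 (var 30)) (const 2) (add (const 1) (var 30))
    (ifEq (get 0 (var 30)) (const 3) (add (const 1) (get 1 (var 30)))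
      (ifEq (get 0 (var 30)) (const 4) (add (const 1) (var 30))
        (ifEq (get 0 (var 30)) (const 1) (add (const 1) (var 30)) (const 0))))) fKE
    (vE (sub (var 1) (const 1)))

theorem vE_eval (σ : Store) (k : Expr) : (vE k).eval σ = (rawOf σ).V (k.eval σ) := by
  simp only [vE, Expr.eval, mulc_eval, Raw.V, rawOf]

theorem fTyE_eval (σ : Store) (k r : Expr) :
    (fTyE k r).eval σ = (rawOf σ).fTy (k.eval σ) (r.eval σ) := by
  simp only [fTyE, Expr.eval, ifEq_eval, Raw.fTy]
  all_goals rfl

theorem fIE_eval (σ : Store) (k r : Expr) :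
    (fIE k r).eval σ = (rawOf σ).fI (k.eval σ) (r.eval σ) := by
  simp only [fIE, Expr.eval, ifEq_eval, vE_eval, Raw.fI]
  all_goals rfl

theorem fJE_eval (σ : Store) (k r : Expr) :
    (fJE k r).eval σ = (rawOf σ).fJ (k.eval σ) (r.eval σ) := by
  simp only [fJE, Expr.eval, ifEq_eval, vE_eval, Raw.fJ]
  all_goals rfl

theorem fKE_eval (σ : Store) (k r : Expr) :
    (fKE k r).eval σ = (rawOf σ).fK (k.eval σ) (r.eval σ) := by
  simp only [fKE, Expr.eval, ifEq_eval, vE_eval, Raw.fK]
  all_goals rfl

theorem splitE_eval (σ : Store) (f h : Expr) (g : Expr → Expr → Expr) (G : ℕ → ℕ → ℕ)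
    (hg : ∀ k r, (g k r).eval σ = G (k.eval σ) (r.eval σ)) :
    (splitE f g h).eval σ = if σ.var 30 < (rawOf σ).a then f.eval σ
      else if σ.var 30 < (rawOf σ).a + 6 * (rawOf σ).b then
        G ((σ.var 30 - (rawOf σ).a) / 6) ((σ.var 30 - (rawOf σ).a) % 6) else h.eval σ := by
  simp only [splitE, Expr.eval, ifLt_eval, mulc_eval, hg]
  all_goals rfl

theorem eTyE_eval (σ : Store) : eTyE.eval σ = (rawOf σ).eTy (σ.var 30) := by
  rw [eTyE, splitE_eval σ _ _ _ (rawOf σ).fTy (fTyE_eval σ)]
  simp only [Expr.eval, ifEq_eval, Raw.eTy]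
  all_goals rfl

theorem eIE_eval (σ : Store) : eIE.eval σ = (rawOf σ).eI (σ.var 30) := by
  rw [eIE, splitE_eval σ _ _ _ (rawOf σ).fI (fIE_eval σ)]
  simp only [Expr.eval, ifEq_eval, vE_eval, Raw.eI]
  all_goals rfl

theorem eJE_eval (σ : Store) : eJE.eval σ = (rawOf σ).eJ (σ.var 30) := by
  rw [eJE, splitE_eval σ _ _ _ (rawOf σ).fJ (fJE_eval σ)]
  simp only [Expr.eval, ifEq_eval, vE_eval, Raw.eJ]
  all_goals rfl

theorem eKE_eval (σ : Store) : eKE.eval σ = (rawOf σ).eK (σ.var 30) := by
  rw [eKE, splitE_eval σ _ _ _ (rawOf σ).fK (fKE_eval σ)]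
  simp only [Expr.eval, ifEq_eval, vE_eval, Raw.eK]
  all_goals rfl

end Pool.Agent.Lib.MP_79a9b1_lc
end

section

set_option autoImplicit false

/-!
# Second part of the program: from a system of equations to a straight-line program
-/

namespace Pool.Agent.Lib.MP_79a9b1_lc

open Pool.Agent.Lib.MP_711ea9_lc (Expr Cmd Store)
open Pool.Agent.Lib.MP_711ea9_lc.Expr (const var get add sub div mod)

/-- The system in the memory. -/
def bsysOf (σ : Store) : BSYS where
  nv := σ.var 4
  ne := σ.var 5
  ty := σ.arr 6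
  i := σ.arr 7
  j := σ.arr 8
  k := σ.arr 9

/-- Expression for `BSYS.q`. -/
def qE (i : Expr) : Expr := add (add (mulc 6 (var 6)) (const 2)) (mulc 2 i)

/-- Expression for `BSYS.p`. -/
def pE (i : Expr) : Expr := add (add (mulc 6 (var 6)) (const 3)) (mulc 2 i)

/-- Expression for `BSYS.fY`. -/
def fYE (e r : Expr) : Expr :=
  ifEq (get 6 e) (const 0)
    (ifEq r (const 0) (pE (get 7 e)) (ifEq r (const 1) (pE (get 8 e))
      (ifEq r (const 2) (qE (get 9 e)) (ifEq r (const 3) (qE (get 7 e))
        (ifEq r (const 4) (qE (get 8 e)) (pE (get 9 e)))))))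
    (ifEq r (const 0) (pE (get 8 e)) (ifEq r (const 1) (qE (get 8 e))
      (ifEq r (const 2) (qE (get 9 e)) (ifEq r (const 3) (qE (get 8 e))
        (ifEq r (const 4) (pE (get 8 e)) (pE (get 9 e)))))))

/-- Expression for `BSYS.fX`. -/
def fXE (e r : Expr) : Expr :=
  ifEq r (const 0) (pE (get 7 e)) (ifEq r (const 1) (qE (get 7 e))
    (ifEq r (const 2) (mulc 3 (var 6)) (ifEq r (const 3) (pE (get 7 e))
      (ifEq r (const 4) (qE (get 7 e)) (mulc 3 (var 6))))))

/-- Expression for `BSYS.eOp`. -/
def eOpE (e o : Expr) : Expr :=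
  ifLt o (const 18)
    (ifLt (mod o (const 3)) (const 2) (const 1) (ifEq (get 6 e) (const 0) (const 1) (const 3)))
    (ifEq o (const 23) (const 1) (ifEq o (const 26) (const 1) (const 2)))

/-- Expression for `BSYS.eA`. -/
def eAE (e o c : Expr) : Expr :=
  ifLt o (const 18)
    (ifEq (mod o (const 3)) (const 0) (fYE e (div o (const 3)))
      (ifEq (mod o (const 3)) (const 1) (sub (add c o) (const 1))
        (ifEq (get 6 e) (const 0) (sub (add c o) (const 2)) (fXE e (div o (const 3))))))
    (ifEq o (const 18) (add c (const 2)) (ifEq o (const 19) (add c (const 18))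
      (ifEq o (const 20) (add c (const 11)) (ifEq o (const 21) (add c (const 20))
        (ifEq o (const 22) (add c (const 21)) (ifEq o (const 23) (add c (const 22))
          (ifEq o (const 24) (add c (const 19)) (ifEq o (const 25) (add c (const 19))
            (ifEq o (const 26) (add c (const 25)) (add c (const 21)))))))))))

/-- Expression for `BSYS.eB`. -/
def eBE (o c : Expr) : Expr :=
  ifLt o (const 18) (sub (add c o) (const 1))
    (ifEq o (const 18) (add c (const 5)) (ifEq o (const 19) (add c (const 8))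
      (ifEq o (const 20) (add c (const 14)) (ifEq o (const 21) (add c (const 17))
        (ifEq o (const 22) (mulc 6 (var 6)) (ifEq o (const 23) (const 0)
          (ifEq o (const 24) (add c (const 23)) (ifEq o (const 25) (mulc 6 (var 6))
            (ifEq o (const 26) (const 0) (add c (const 26)))))))))))

/-- The common form of the three expressions of the straight-line program. -/
def lineE (f0 f1 f2 f3 f4 f5 : Expr) (g : Expr → Expr → Expr → Expr) : Expr :=
  ifEq (var 30) (const 0) f0
    (ifLe (var 30) (mulc 6 (var 6)) (ifEq (mod (var 30) (const 3)) (const 0) f1 f2)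
      (ifEq (var 30) (add (mulc 6 (var 6)) (const 1)) f3
        (ifLt (var 30) (var 7) (ifEq (var 30) (add (mulc 6 (var 6)) (const 3)) f4 f5)
          (g (div (sub (var 30) (var 7)) (const 28)) (mod (sub (var 30) (var 7)) (const 28))
            (sub (var 30) (mod (sub (var 30) (var 7)) (const 28)))))))

/-- Expression for `BSYS.sOp`. -/
def sOpE : Expr := lineE (const 0) (const 3) (const 1) (const 2) (const 2) (const 0)
  (fun e o _ => eOpE e o)

/-- Expression for `BSYS.sA`. -/
def sAE : Expr := lineE (const 0) (sub (var 30) (const 3)) (sub (var 30) (const 1)) (const 0)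
  (add (mulc 6 (var 6)) (const 2)) (const 0) eAE

/-- Expression for `BSYS.sB`. -/
def sBE : Expr := lineE (const 0) (sub (var 30) (const 1)) (const 0) (const 2) (mulc 3 (var 6))
  (const 0) (fun _ o c => eBE o c)

theorem sOpE_eval (σ : Store) (h6 : σ.var 6 = (bsysOf σ).M) (h7 : σ.var 7 = (bsysOf σ).E0) :
    sOpE.eval σ = (bsysOf σ).sOp (σ.var 30) := by
  simp only [sOpE, lineE, eOpE, ifEq_eval, ifLt_eval, ifLe_eval, mulc_eval, Expr.eval, h6, h7,
    BSYS.sOp, BSYS.eOp]
  all_goals rfl

theorem sAE_eval (σ : Store) (h6 : σ.var 6 = (bsysOf σ).M) (h7 : σ.var 7 = (bsysOf σ).E0) :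
    sAE.eval σ = (bsysOf σ).sA (σ.var 30) := by
  simp only [sAE, lineE, eAE, fYE, fXE, qE, pE, ifEq_eval, ifLt_eval, ifLe_eval, mulc_eval,
    Expr.eval, h6, h7, BSYS.sA, BSYS.eA, BSYS.fY, BSYS.fX, BSYS.q, BSYS.p]
  all_goals rfl

theorem sBE_eval (σ : Store) (h6 : σ.var 6 = (bsysOf σ).M) (h7 : σ.var 7 = (bsysOf σ).E0) :
    sBE.eval σ = (bsysOf σ).sB (σ.var 30) := by
  simp only [sBE, lineE, eBE, ifEq_eval, ifLt_eval, ifLe_eval, mulc_eval, Expr.eval, h6, h7,
    BSYS.sB, BSYS.eB]
  all_goals rfl

end Pool.Agent.Lib.MP_79a9b1_lc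
end

section

set_option autoImplicit false

/-!
# The graph of a straight-line program as an explicit function of numbers
-/

namespace Pool.Agent.Lib.MP_79a9b1_lc

/-- Number of an axis. -/
def flatA (n : ℕ) : Ax n → ℕ
  | .inl (k, σ) => 12 * k + σ.idx
  | .inr false => 12 * n
  | .inr true => 12 * n + 1

/-- Number of a row. -/
def flatR (n : ℕ) : Rw n → ℕ
  | .inl (k, τ) => 5 * k + τ.idx
  | .inr (some (k, σ), t) => 5 * n + 2 * (12 * k + σ.idx) + (if t then 1 else 0)
  | .inr (none, t) => 5 * n + 2 * (12 * n) + (if t then 1 else 0)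

/-- Number of a vertex. -/
def flatV (n : ℕ) : NV (Ax n) (Rw n) → ℕ
  | .e0 => 0
  | .e a => 1 + flatA n a
  | .p a => 1 + (12 * n + 2) + flatA n a
  | .r x => 1 + 2 * (12 * n + 2) + flatR n x

theorem flat_Sg_idx_lt (σ : Sg) : σ.idx < 12 := by cases σ <;> decide

theorem flat_Rs_idx_lt (τ : Rs) : τ.idx < 5 := by cases τ <;> decide

theorem flat_Sg_idx_inj {σ ρ : Sg} (h : σ.idx = ρ.idx) : σ = ρ := by
  cases σ <;> cases ρ <;> simp [Sg.idx] at h ⊢

theorem flat_Rs_idx_inj {σ ρ : Rs} (h : σ.idx = ρ.idx) : σ = ρ := by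
  cases σ <;> cases ρ <;> simp [Rs.idx] at h ⊢

theorem flatA_lt (n : ℕ) (a : Ax n) : flatA n a < 12 * n + 2 := by
  rcases a with ⟨k, σ⟩ | (_ | _)
  · have h1 := k.isLt
    have h2 := flat_Sg_idx_lt σ
    simp only [flatA]
    omega
  · simp only [flatA]; omega
  · simp only [flatA]; omega

theorem flatR_lt (n : ℕ) (x : Rw n) : flatR n x < 29 * n + 2 := by
  rcases x with ⟨k, τ⟩ | ⟨(_ | ⟨k, σ⟩), t⟩
  · have h1 := k.isLt
    have h2 := flat_Rs_idx_lt τ
    simp only [flatR]
    omega
  · simp only [flatR]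
    split_ifs <;> omega
  · have h1 := k.isLt
    have h2 := flat_Sg_idx_lt σ
    simp only [flatR]
    split_ifs <;> omega

theorem flatA_inj (n : ℕ) : Function.Injective (flatA n) := by
  intro a b h
  rcases a with ⟨k, σ⟩ | (_ | _) <;> rcases b with ⟨l, ρ⟩ | (_ | _) <;> simp only [flatA] at h
  · have h1 := k.isLt
    have h2 := l.isLt
    have h3 := flat_Sg_idx_lt σ
    have h4 := flat_Sg_idx_lt ρ
    have h5 : (k : ℕ) = l := by omega
    have h6 : σ.idx = ρ.idx := by omega
    rw [Fin.ext h5, flat_Sg_idx_inj h6]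
  all_goals first
    | rfl
    | (exfalso
       have h1 := k.isLt
       have h3 := flat_Sg_idx_lt σ
       omega)
    | (exfalso
       have h1 := l.isLt
       have h3 := flat_Sg_idx_lt ρ
       omega)
    | (exfalso; omega)

theorem flatR_inj (n : ℕ) : Function.Injective (flatR n) := by
  intro a b h
  rcases a with ⟨k, τ⟩ | ⟨(_ | ⟨k, σ⟩), t⟩ <;> rcases b with ⟨l, τ'⟩ | ⟨(_ | ⟨l, σ'⟩), t'⟩ <;>
    simp only [flatR] at h
  · have h1 := k.isLt
    have h2 := l.isLt
    have h3 := flat_Rs_idx_lt τ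
    have h4 := flat_Rs_idx_lt τ'
    have h5 : (k : ℕ) = l := by omega
    have h6 : τ.idx = τ'.idx := by omega
    rw [Fin.ext h5, flat_Rs_idx_inj h6]
  · exfalso
    have h1 := k.isLt
    have h3 := flat_Rs_idx_lt τ
    split_ifs at h <;> omega
  · exfalso
    have h1 := k.isLt
    have h3 := flat_Rs_idx_lt τ
    split_ifs at h <;> omega
  · exfalso
    have h1 := l.isLt
    have h3 := flat_Rs_idx_lt τ'
    split_ifs at h <;> omega
  · cases t <;> cases t' <;> simp at h ⊢
  · exfalso
    have h1 := l.isLt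
    have h3 := flat_Sg_idx_lt σ'
    split_ifs at h <;> omega
  · exfalso
    have h1 := l.isLt
    have h3 := flat_Rs_idx_lt τ'
    split_ifs at h <;> omega
  · exfalso
    have h1 := k.isLt
    have h3 := flat_Sg_idx_lt σ
    split_ifs at h <;> omega
  · have h1 := k.isLt
    have h2 := l.isLt
    have h3 := flat_Sg_idx_lt σ
    have h4 := flat_Sg_idx_lt σ'
    have h5 : (k : ℕ) = l := by split_ifs at h <;> omega
    have h6 : σ.idx = σ'.idx := by split_ifs at h <;> omega
    have h7 : t = t' := by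
      cases t <;> cases t' <;> simp at h ⊢ <;> omega
    rw [Fin.ext h5, flat_Sg_idx_inj h6, h7]

theorem flatV_lt (n : ℕ) (v : NV (Ax n) (Rw n)) : flatV n v < 53 * n + 7 := by
  cases v with
  | e0 => simp only [flatV]; omega
  | e a =>
    have := flatA_lt n a
    simp only [flatV]; omega
  | p a =>
    have := flatA_lt n a
    simp only [flatV]; omega
  | r x =>
    have := flatR_lt n x
    simp only [flatV]; omega

theorem flatV_inj (n : ℕ) : Function.Injective (flatV n) := by
  intro u v h
  cases u with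
  | e0 => cases v with
    | e0 => rfl
    | e b => simp only [flatV] at h; omega
    | p b => simp only [flatV] at h; omega
    | r y => simp only [flatV] at h; omega
  | e a => 
    have ha := flatA_lt n a
    cases v with
    | e0 => simp only [flatV] at h; omega
    | e b => 
      simp only [flatV] at h
      have : flatA n a = flatA n b := by omega
      rw [flatA_inj n this]
    | p b => simp only [flatV] at h; omega
    | r y => simp only [flatV] at h; omega
  | p a => 
    have ha := flatA_lt n a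
    cases v with
    | e0 => simp only [flatV] at h; omega
    | e b => 
      have hb := flatA_lt n b
      simp only [flatV] at h; omega
    | p b => 
      simp only [flatV] at h
      have : flatA n a = flatA n b := by omega
      rw [flatA_inj n this]
    | r y => simp only [flatV] at h; omega
  | r x => 
    cases v with
    | e0 => simp only [flatV] at h; omega
    | e b => 
      have hb := flatA_lt n b
      simp only [flatV] at h; omega
    | p b => 
      have hb := flatA_lt n b
      simp only [flatV] at h; omega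
    | r y => 
      simp only [flatV] at h
      have : flatR n x = flatR n y := by omega
      rw [flatR_inj n this]

/-- The numbering of the vertices. -/
theorem flatV_equiv (n : ℕ) :
    ∃ e : NV (Ax n) (Rw n) ≃ Fin (53 * n + 7), ∀ v, ((e v : Fin (53 * n + 7)) : ℕ) = flatV n v := by
  let f : NV (Ax n) (Rw n) → Fin (53 * n + 7) := fun v => ⟨flatV n v, flatV_lt n v⟩
  have hinj : Function.Injective f := by
    intro u v h
    exact flatV_inj n (congrArg Fin.val h)
  have hcard : Fintype.card (NV (Ax n) (Rw n)) = Fintype.card (Fin (53 * n + 7)) := by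
    rw [NV.card, SLP.card_Ax, SLP.card_Rw, Fintype.card_fin]
    ring
  have hbij : Function.Bijective f :=
    (Fintype.bijective_iff_injective_and_card f).mpr ⟨hinj, hcard⟩
  exact ⟨Equiv.ofBijective f hbij, fun v => rfl⟩

end Pool.Agent.Lib.MP_79a9b1_lc
end

section

set_option autoImplicit false

/-!
# The adjacency matrix of the graph of a straight-line program
-/

namespace Pool.Agent.Lib.MP_79a9b1_lc

namespace SLP

variable (P : SLP)

/-- Type of an incidence (`0` none, `1` proper, `2` full), rows `s`. -/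
def tS (m σ k : ℕ) : ℕ :=
  if σ = 0 then
    (if m = k then 1 else if P.op k = 1 ∧ P.a k = m then 2
      else if P.op m = 1 ∧ P.a m = k then 2 else 0)
  else if σ = 1 then (if 2 ≤ P.op k ∧ P.a k = m then 2 else 0)
  else if σ = 2 then (if 2 ≤ P.op k ∧ P.b k = m then 2 else 0)
  else if σ = 5 then (if 2 ≤ P.op k ∧ m = k then 2 else 0)
  else if σ = 6 then
    (if P.op k = 1 ∧ m = k then 2 else if 1 ≤ P.op k ∧ P.a k = m then 2 else 0)
  else if σ = 7 then (if 2 ≤ P.op k ∧ P.b k = m then 2 else 0)
  else if σ = 11 then (if 2 ≤ P.op k ∧ m = k then 2 else 0)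
  else 0

/-- Type of an incidence of a row of a sort `τ ≠ 0` of line `m` with an axis of the same line. -/
def tG (τ o σ : ℕ) : ℕ :=
  if τ = 1 then
    (if σ = 1 then 1 else if σ = 3 then 2 else if σ = 6 then 2 else if σ = 8 then 2 else 0)
  else if τ = 2 then
    (if σ = 2 then 1 else if σ = 3 then (if o = 3 then 2 else 0)
      else if σ = 4 then (if o = 2 then 2 else 0) else if σ = 7 then 2
      else if σ = 9 then 2 else 0)
  else if τ = 3 then
    (if σ = 1 then 2 else if σ = 2 then (if o = 2 then 2 else 0) else if σ = 3 then 1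
      else if σ = 4 then (if o = 2 then 1 else 0) else if σ = 5 then 2 else if σ = 8 then 2
      else if σ = 9 then (if o = 2 then 2 else 0) else if σ = 10 then 2 else 0)
  else
    (if σ = 0 then 2 else if σ = 2 then (if o = 3 then 2 else 0)
      else if σ = 3 then (if o = 2 then 2 else 1) else if σ = 4 then (if o = 2 then 2 else 0)
      else if σ = 5 then 1 else if σ = 9 then (if o = 3 then 2 else 0) else if σ = 10 then 2
      else if σ = 11 then 2 else 0)

/-- Type of an incidence, all rows which are not calibrators. -/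
def tM (τ m σ k : ℕ) : ℕ :=
  if τ = 0 then P.tS m σ k
  else if P.op m < 2 then 0
  else if m = k then tG τ (P.op m) σ
  else if σ = 0 then
    (if τ = 1 ∧ P.a m = k then 2 else if τ = 2 ∧ P.b m = k then 2 else 0)
  else 0

/-- Type of the incidence of the row `x` and the axis `a`. -/
def tN (x a : ℕ) : ℕ :=
  if x < 5 * P.n then
    (if a < 12 * P.n then P.tM (x % 5) (x / 5) (a % 12) (a / 12) else 0)
  else if (x - 5 * P.n) / 2 < 12 * P.n then
    (if a = (x - 5 * P.n) / 2 then 2
      else if ((x - 5 * P.n) / 2) % 12 < 6 then (if a = 12 * P.n + 1 then 2 else 0)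
      else (if a = 12 * P.n then 2 else 0))
  else (if a < 12 * P.n then 0 else 2)

/-- The edges between rows which are not calibrators, up to symmetry. -/
def eM (τ m ρ k : ℕ) : ℕ :=
  if τ = 0 then
    (if ρ = 0 then (if P.op k = 1 ∧ P.a k = m then 1 else 0)
      else if ρ = 1 then (if 2 ≤ P.op k ∧ P.a k = m then 1 else 0)
      else if ρ = 2 then (if 2 ≤ P.op k ∧ P.b k = m then 1 else 0) else 0)
  else if m = k ∧ 2 ≤ P.op k then
    (if τ = 1 then (if ρ = 3 then 1 else 0)
      else if τ = 2 then (if ρ = 3 ∧ P.op k = 2 then 1 else if ρ = 4 ∧ P.op k = 3 then 1 else 0)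
      else if τ = 3 then (if ρ = 4 then 1 else 0)
      else (if ρ = 0 then 1 else 0))
  else 0

/-- The edges. -/
def eN (x y : ℕ) : ℕ :=
  if x = y then 0
  else if x < 5 * P.n then
    (if y < 5 * P.n then
      (if 0 < P.eM (x % 5) (x / 5) (y % 5) (y / 5) + P.eM (y % 5) (y / 5) (x % 5) (x / 5) then 1
        else 0)
      else 0)
  else if y < 5 * P.n then 0
  else if (x - 5 * P.n) / 2 = (y - 5 * P.n) / 2 then 1 else 0

/-- The adjacency matrix for `u < v`. -/
def aL (u v : ℕ) : ℕ :=
  if v < 1 + (12 * P.n + 2) then 0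
  else if v < 1 + 2 * (12 * P.n + 2) then
    (if u < 1 + (12 * P.n + 2) then
      (if u = 0 then 1 else if u + (12 * P.n + 2) = v then 1 else 0) else 1)
  else
    (if u = 0 then 1
      else if u < 1 + (12 * P.n + 2) then
        (if P.tN (v - (1 + 2 * (12 * P.n + 2))) (u - 1) = 0 then 0 else 1)
      else if u < 1 + 2 * (12 * P.n + 2) then
        (if P.tN (v - (1 + 2 * (12 * P.n + 2))) (u - (1 + (12 * P.n + 2))) = 2 then 0 else 1)
      else
        (if P.eN (u - (1 + 2 * (12 * P.n + 2))) (v - (1 + 2 * (12 * P.n + 2))) = 0 then 1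
          else 0))

/-- The adjacency matrix. -/
def aN (u v : ℕ) : ℕ := if u < v then P.aL u v else if v < u then P.aL v u else 0

/-- All operations have codes at most `3`. -/
def Op3 : Prop := ∀ k < P.n, P.op k ≤ 3

/-- Number of a type. -/
def tyN : Ty → ℕ
  | .no => 0 | .pa => 1 | .fu => 2

end SLP

end Pool.Agent.Lib.MP_79a9b1_lc
end

section

set_option autoImplicit false

/-!
# Third part of the program: from a straight-line program to the adjacency matrix
-/

namespace Pool.Agent.Lib.MP_79a9b1_lc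

open Pool.Agent.Lib.MP_711ea9_lc (Expr Cmd Store)
open Pool.Agent.Lib.MP_711ea9_lc.Expr (const var get add sub div mod)

/-- The straight-line program in the memory. -/
def slpOf (σ : Store) : SLP where
  n := σ.var 8
  op := σ.arr 10
  a := σ.arr 11
  b := σ.arr 12

/-- `if 2 ≤ op k ∧ x = y then c else 0`. -/
def binE (k x y c : Expr) : Expr := ifLe (const 2) (get 10 k) (ifEq x y c (const 0)) (const 0)

/-- Expression for `SLP.tS`. -/
def tSE (m s k : Expr) : Expr :=
  ifEq s (const 0)
    (ifEq m k (const 1) (cnd (andE (eqE (get 10 k) (const 1)) (eqE (get 11 k) m)) (const 2)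
      (cnd (andE (eqE (get 10 m) (const 1)) (eqE (get 11 m) k)) (const 2) (const 0))))
    (ifEq s (const 1) (binE k (get 11 k) m (const 2))
      (ifEq s (const 2) (binE k (get 12 k) m (const 2))
        (ifEq s (const 5) (binE k m k (const 2))
          (ifEq s (const 6)
            (cnd (andE (eqE (get 10 k) (const 1)) (eqE m k)) (const 2)
              (cnd (andE (leE (const 1) (get 10 k)) (eqE (get 11 k) m)) (const 2) (const 0)))
            (ifEq s (const 7) (binE k (get 12 k) m (const 2))
              (ifEq s (const 11) (binE k m k (const 2)) (const 0)))))))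

/-- Expression for `SLP.tG`. -/
def tGE (t o s : Expr) : Expr :=
  ifEq t (const 1)
    (ifEq s (const 1) (const 1) (ifEq s (const 3) (const 2) (ifEq s (const 6) (const 2)
      (ifEq s (const 8) (const 2) (const 0)))))
    (ifEq t (const 2)
      (ifEq s (const 2) (const 1) (ifEq s (const 3) (ifEq o (const 3) (const 2) (const 0))
        (ifEq s (const 4) (ifEq o (const 2) (const 2) (const 0)) (ifEq s (const 7) (const 2)
          (ifEq s (const 9) (const 2) (const 0))))))
      (ifEq t (const 3)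
        (ifEq s (const 1) (const 2) (ifEq s (const 2) (ifEq o (const 2) (const 2) (const 0))
          (ifEq s (const 3) (const 1) (ifEq s (const 4) (ifEq o (const 2) (const 1) (const 0))
            (ifEq s (const 5) (const 2) (ifEq s (const 8) (const 2)
              (ifEq s (const 9) (ifEq o (const 2) (const 2) (const 0))
                (ifEq s (const 10) (const 2) (const 0)))))))))
        (ifEq s (const 0) (const 2) (ifEq s (const 2) (ifEq o (const 3) (const 2) (const 0))
          (ifEq s (const 3) (ifEq o (const 2) (const 2) (const 1))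
            (ifEq s (const 4) (ifEq o (const 2) (const 2) (const 0))
              (ifEq s (const 5) (const 1)
                (ifEq s (const 9) (ifEq o (const 3) (const 2) (const 0))
                  (ifEq s (const 10) (const 2) (ifEq s (const 11) (const 2) (const 0))))))))))) 

/-- Expression for `SLP.tM`. -/
def tME (t m s k : Expr) : Expr :=
  ifEq t (const 0) (tSE m s k)
    (ifLt (get 10 m) (const 2) (const 0)
      (ifEq m k (tGE t (get 10 m) s)
        (ifEq s (const 0)
          (cnd (andE (eqE t (const 1)) (eqE (get 11 m) k)) (const 2)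
            (cnd (andE (eqE t (const 2)) (eqE (get 12 m) k)) (const 2) (const 0)))
          (const 0))))

/-- Expression for `SLP.tN`. -/
def tNE (x a : Expr) : Expr :=
  ifLt x (mulc 5 (var 8))
    (ifLt a (mulc 12 (var 8))
      (tME (mod x (const 5)) (div x (const 5)) (mod a (const 12)) (div a (const 12))) (const 0))
    (ifLt (div (sub x (mulc 5 (var 8))) (const 2)) (mulc 12 (var 8))
      (ifEq a (div (sub x (mulc 5 (var 8))) (const 2)) (const 2)
        (ifLt (mod (div (sub x (mulc 5 (var 8))) (const 2)) (const 12)) (const 6)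
          (ifEq a (add (mulc 12 (var 8)) (const 1)) (const 2) (const 0))
          (ifEq a (mulc 12 (var 8)) (const 2) (const 0))))
      (ifLt a (mulc 12 (var 8)) (const 0) (const 2)))

/-- Expression for `SLP.eM`. -/
def eME (t m r k : Expr) : Expr :=
  ifEq t (const 0)
    (ifEq r (const 0) (cnd (andE (eqE (get 10 k) (const 1)) (eqE (get 11 k) m)) (const 1)
        (const 0))
      (ifEq r (const 1) (binE k (get 11 k) m (const 1))
        (ifEq r (const 2) (binE k (get 12 k) m (const 1)) (const 0))))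
    (cnd (andE (eqE m k) (leE (const 2) (get 10 k)))
      (ifEq t (const 1) (ifEq r (const 3) (const 1) (const 0))
        (ifEq t (const 2)
          (cnd (andE (eqE r (const 3)) (eqE (get 10 k) (const 2))) (const 1)
            (cnd (andE (eqE r (const 4)) (eqE (get 10 k) (const 3))) (const 1) (const 0)))
          (ifEq t (const 3) (ifEq r (const 4) (const 1) (const 0))
            (ifEq r (const 0) (const 1) (const 0)))))
      (const 0))

/-- Expression for `SLP.eN`. -/
def eNE (x y : Expr) : Expr :=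
  ifEq x y (const 0)
    (ifLt x (mulc 5 (var 8))
      (ifLt y (mulc 5 (var 8))
        (ifLt (const 0)
          (add (eME (mod x (const 5)) (div x (const 5)) (mod y (const 5)) (div y (const 5)))
            (eME (mod y (const 5)) (div y (const 5)) (mod x (const 5)) (div x (const 5))))
          (const 1) (const 0))
        (const 0))
      (ifLt y (mulc 5 (var 8)) (const 0)
        (ifEq (div (sub x (mulc 5 (var 8))) (const 2)) (div (sub y (mulc 5 (var 8))) (const 2))
          (const 1) (const 0))))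

/-- Expression for `12 * n + 2`. -/
def dE : Expr := add (mulc 12 (var 8)) (const 2)

/-- Expression for `SLP.aL`. -/
def aLE (u v : Expr) : Expr :=
  ifLt v (add (const 1) dE) (const 0)
    (ifLt v (add (const 1) (mulc 2 dE))
      (ifLt u (add (const 1) dE)
        (ifEq u (const 0) (const 1) (ifEq (add u dE) v (const 1) (const 0))) (const 1))
      (ifEq u (const 0) (const 1)
        (ifLt u (add (const 1) dE)
          (ifEq (tNE (sub v (add (const 1) (mulc 2 dE))) (sub u (const 1))) (const 0) (const 0)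
            (const 1))
          (ifLt u (add (const 1) (mulc 2 dE))
            (ifEq (tNE (sub v (add (const 1) (mulc 2 dE))) (sub u (add (const 1) dE))) (const 2)
              (const 0) (const 1))
            (ifEq (eNE (sub u (add (const 1) (mulc 2 dE))) (sub v (add (const 1) (mulc 2 dE))))
              (const 0) (const 1) (const 0))))))

/-- Expression for `SLP.aN`. -/
def aNE (u v : Expr) : Expr :=
  ifLt u v (aLE u v) (ifLt v u (aLE v u) (const 0))

theorem binE_eval (σ : Store) (k x y c : Expr) :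
    (binE k x y c).eval σ = if 2 ≤ σ.arr 10 (k.eval σ) ∧ x.eval σ = y.eval σ then c.eval σ
      else 0 := by
  simp only [binE, ifLe_eval, ifEq_eval, Expr.eval]
  split_ifs <;> simp_all

theorem cndAnd_eval (σ : Store) (a b f g : Expr) :
    (cnd (andE a b) f g).eval σ = if a.eval σ ≠ 0 ∧ b.eval σ ≠ 0 then f.eval σ
      else g.eval σ := by
  rw [cnd_eval, andE_eval]
  split_ifs <;> simp_all

theorem eqE_ne (σ : Store) (a b : Expr) : (eqE a b).eval σ ≠ 0 ↔ a.eval σ = b.eval σ := by
  rw [eqE_eval]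
  split_ifs <;> simp_all

theorem leE_ne (σ : Store) (a b : Expr) : (leE a b).eval σ ≠ 0 ↔ a.eval σ ≤ b.eval σ := by
  rw [leE_eval]
  split_ifs <;> simp_all

theorem tSE_eval (σ : Store) (m s k : Expr) :
    (tSE m s k).eval σ = (slpOf σ).tS (m.eval σ) (s.eval σ) (k.eval σ) := by
  simp only [tSE, ifEq_eval, binE_eval, cndAnd_eval, eqE_ne, leE_ne, Expr.eval, SLP.tS]
  all_goals rfl

theorem tGE_eval (σ : Store) (t o s : Expr) :
    (tGE t o s).eval σ = SLP.tG (t.eval σ) (o.eval σ) (s.eval σ) := by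
  simp only [tGE, ifEq_eval, Expr.eval, SLP.tG]
  all_goals rfl

theorem tME_eval (σ : Store) (t m s k : Expr) :
    (tME t m s k).eval σ = (slpOf σ).tM (t.eval σ) (m.eval σ) (s.eval σ) (k.eval σ) := by
  simp only [tME, ifEq_eval, ifLt_eval, tSE_eval, tGE_eval, cndAnd_eval, eqE_ne, Expr.eval,
    SLP.tM]
  all_goals rfl

theorem tNE_eval (σ : Store) (x a : Expr) :
    (tNE x a).eval σ = (slpOf σ).tN (x.eval σ) (a.eval σ) := by
  simp only [tNE, ifEq_eval, ifLt_eval, tME_eval, mulc_eval, Expr.eval, SLP.tN]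
  all_goals rfl

theorem eME_eval (σ : Store) (t m r k : Expr) :
    (eME t m r k).eval σ = (slpOf σ).eM (t.eval σ) (m.eval σ) (r.eval σ) (k.eval σ) := by
  simp only [eME, ifEq_eval, binE_eval, cndAnd_eval, eqE_ne, leE_ne, Expr.eval, SLP.eM]
  all_goals rfl

theorem eNE_eval (σ : Store) (x y : Expr) :
    (eNE x y).eval σ = (slpOf σ).eN (x.eval σ) (y.eval σ) := by
  simp only [eNE, ifEq_eval, ifLt_eval, eME_eval, mulc_eval, Expr.eval, SLP.eN]
  all_goals rfl

theorem dE_eval (σ : Store) : dE.eval σ = 12 * (slpOf σ).n + 2 := by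
  simp only [dE, mulc_eval, Expr.eval]
  all_goals rfl

theorem aLE_eval (σ : Store) (u v : Expr) :
    (aLE u v).eval σ = (slpOf σ).aL (u.eval σ) (v.eval σ) := by
  simp only [aLE, ifEq_eval, ifLt_eval, tNE_eval, eNE_eval, mulc_eval, dE_eval, Expr.eval,
    SLP.aL]

theorem aNE_eval (σ : Store) (u v : Expr) :
    (aNE u v).eval σ = (slpOf σ).aN (u.eval σ) (v.eval σ) := by
  simp only [aNE, ifLt_eval, aLE_eval, Expr.eval, SLP.aN]

end Pool.Agent.Lib.MP_79a9b1_lc
end

section

set_option autoImplicit false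

/-!
# The program
-/

namespace Pool.Agent.Lib.MP_79a9b1_lc

open Pool.Agent.Lib.MP_711ea9_lc (Expr Cmd Store)
open Pool.Agent.Lib.MP_711ea9_lc.Expr (const var get add sub div mod)

/-- The sizes. -/
def pInit : Cmd :=
  .seq (.set 4 (add (add (const 1) (var 0)) (mulc 8 (var 1))))
    (.seq (.set 5 (add (add (var 0) (mulc 6 (var 1))) (const 1)))
      (.seq (.set 6 (add (add (mulc 3 (var 4)) (var 5)) (const 20)))
        (.seq (.set 7 (add (add (mulc 6 (var 6)) (const 2)) (mulc 2 (var 4))))
          (.seq (.set 8 (add (var 7) (mulc 28 (var 5))))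
            (.seq (.set 9 (add (mulc 53 (var 8)) (const 7)))
              (.seq (.set 10 (const 0)) (.loop (var 9) (.set 10 (add (var 10) (var 9))))))))))

/-- From the sentence to the system. -/
def pA : Cmd :=
  .seq (fill 5 6 eTyE) (.seq (fill 5 7 eIE) (.seq (fill 5 8 eJE) (fill 5 9 eKE)))

/-- From the system to the straight-line program. -/
def pB : Cmd := .seq (fill 8 10 sOpE) (.seq (fill 8 11 sAE) (fill 8 12 sBE))

/-- From the straight-line program to the adjacency matrix. -/
def pC : Cmd :=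
  .seq (fill 10 0 (aNE (div (var 30) (var 9)) (mod (var 30) (var 9))))
    (.seq (.set 1 (add (mulc 41 (var 8)) (const 4))) (.set 0 (var 9)))

/-- The program. -/
def prog : Cmd := .seq pInit (.seq pA (.seq pB pC))

end Pool.Agent.Lib.MP_79a9b1_lc
end

section

set_option autoImplicit false

/-!
# The number of steps of the program
-/

namespace Pool.Agent.Lib.MP_79a9b1_lc

open Pool.Agent.Lib.MP_711ea9_lc (Expr Cmd Store)
open Pool.Agent.Lib.MP_711ea9_lc.Expr (const var get add sub div mod)

namespace ProgStepsAux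

/-- the first commands of `pInit` -/
def pI9 : Cmd := .seq (.set 4 (add (add (const 1) (var 0)) (mulc 8 (var 1))))
    (.seq (.set 5 (add (add (var 0) (mulc 6 (var 1))) (const 1)))
      (.seq (.set 6 (add (add (mulc 3 (var 4)) (var 5)) (const 20)))
        (.seq (.set 7 (add (add (mulc 6 (var 6)) (const 2)) (mulc 2 (var 4))))
          (.seq (.set 8 (add (var 7) (mulc 28 (var 5))))
            (.seq (.set 9 (add (mulc 53 (var 8)) (const 7)))
              (.set 10 (const 0)))))))

/-- the last command of `pInit` -/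
def pL : Cmd := .loop (var 9) (.set 10 (add (var 10) (var 9)))

theorem pInit_exec (σ : Store) : pInit.exec σ = pL.exec (pI9.exec σ) := rfl

theorem pInit_steps (σ : Store) : pInit.steps σ = pI9.steps σ + pL.steps (pI9.exec σ) := by
  simp only [pInit, pI9, pL, Cmd.steps, Cmd.exec]
  ring

theorem iter_add (τ : Store) (k : ℕ) :
    ((((Cmd.set 10 (add (var 10) (var 9))).exec)^[k] τ).var 10 = τ.var 10 + k * τ.var 9) ∧
    (∀ y, y ≠ 10 → (((Cmd.set 10 (add (var 10) (var 9))).exec)^[k] τ).var y = τ.var y) := by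
  induction k with
  | zero => simp
  | succ k ih =>
    rw [Function.iterate_succ_apply']
    obtain ⟨h1, h2⟩ := ih
    refine ⟨?_, ?_⟩
    · rw [Cmd.exec_set]
      simp only [Function.update_self, Expr.eval]
      rw [h1, h2 9 (by decide)]
      ring
    · intro y hy
      rw [Cmd.exec_set]
      simp only [Function.update_of_ne hy]
      exact h2 y hy

theorem pI9_vars (σ : Store) :
    (pI9.exec σ).var 5 = σ.var 0 + 6 * σ.var 1 + 1 ∧
    (pI9.exec σ).var 8 = 54 * σ.var 0 + 364 * σ.var 1 + 176 ∧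
    (pI9.exec σ).var 9 = 2862 * σ.var 0 + 19292 * σ.var 1 + 9335 ∧
    (pI9.exec σ).var 10 = 0 := by
  refine ⟨?_, ?_, ?_, ?_⟩ <;>
    simp [pI9, Cmd.exec, Expr.eval, mulc_eval] <;> ring

theorem pInit_vars (σ : Store) :
    (pInit.exec σ).var 5 = σ.var 0 + 6 * σ.var 1 + 1 ∧
    (pInit.exec σ).var 8 = 54 * σ.var 0 + 364 * σ.var 1 + 176 ∧
    (pInit.exec σ).var 10 = (2862 * σ.var 0 + 19292 * σ.var 1 + 9335) *
      (2862 * σ.var 0 + 19292 * σ.var 1 + 9335) := by
  obtain ⟨h5, h8, h9, h10⟩ := pI9_vars σ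
  rw [pInit_exec]
  obtain ⟨h1, h2⟩ := iter_add (pI9.exec σ) ((pI9.exec σ).var 9)
  refine ⟨?_, ?_, ?_⟩
  · rw [← h5]; exact h2 5 (by decide)
  · rw [← h8]; exact h2 8 (by decide)
  · refine h1.trans ?_
    rw [h10, h9, zero_add]

theorem pI9_steps : ∃ c : ℕ, ∀ σ : Store, pI9.steps σ = c := by
  exact ⟨pI9.steps ⟨fun _ => 0, fun _ _ => 0⟩, fun σ => by simp only [pI9, Cmd.steps]⟩

theorem pL_steps (σ : Store) : pL.steps σ = 2 + σ.var 9 * 5 := by
  simp only [pL, Cmd.steps, Expr.size, Expr.eval, Finset.sum_const, Finset.card_range, smul_eq_mul]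

theorem frame (c : Cmd) (σ : Store) (y : ℕ) (h : c.wv y = false) :
    (c.exec σ).var y = σ.var y := Cmd.frame_var c σ y h

theorem pA_steps (σ : Store) : pA.steps σ ≤ 40 + (40 + eTyE.size + eIE.size + eJE.size + eKE.size) *
    σ.var 5 := by
  have e1 : pA.steps σ = (fill 5 6 eTyE).steps σ + ((fill 5 7 eIE).steps ((fill 5 6 eTyE).exec σ) +
      ((fill 5 8 eJE).steps ((fill 5 7 eIE).exec ((fill 5 6 eTyE).exec σ)) +
        (fill 5 9 eKE).steps ((fill 5 8 eJE).exec ((fill 5 7 eIE).exec ((fill 5 6 eTyE).exec σ))))) :=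
    rfl
  have h1 := fill_steps 5 6 (by decide) eTyE σ
  have h2 := fill_steps 5 7 (by decide) eIE ((fill 5 6 eTyE).exec σ)
  have h3 := fill_steps 5 8 (by decide) eJE ((fill 5 7 eIE).exec ((fill 5 6 eTyE).exec σ))
  have h4 := fill_steps 5 9 (by decide) eKE
    ((fill 5 8 eJE).exec ((fill 5 7 eIE).exec ((fill 5 6 eTyE).exec σ)))
  have w1 : ∀ (a : ℕ) (E : Expr) (τ : Store), ((fill 5 a E).exec τ).var 5 = τ.var 5 :=
    fun a E τ => Cmd.frame_var _ τ 5 rfl
  rw [w1, w1, w1] at h4
  rw [w1, w1] at h3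
  rw [w1] at h2
  rw [e1]
  have : (40 + eTyE.size + eIE.size + eJE.size + eKE.size) * σ.var 5 =
    (10 + eTyE.size) * σ.var 5 + (10 + eIE.size) * σ.var 5 + (10 + eJE.size) * σ.var 5 +
      (10 + eKE.size) * σ.var 5 := by ring
  omega

theorem pB_steps (σ : Store) : pB.steps σ ≤ 30 + (30 + sOpE.size + sAE.size + sBE.size) *
    σ.var 8 := by
  have e1 : pB.steps σ = (fill 8 10 sOpE).steps σ + ((fill 8 11 sAE).steps ((fill 8 10 sOpE).exec σ) +
      (fill 8 12 sBE).steps ((fill 8 11 sAE).exec ((fill 8 10 sOpE).exec σ))) := rfl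
  have h1 := fill_steps 8 10 (by decide) sOpE σ
  have h2 := fill_steps 8 11 (by decide) sAE ((fill 8 10 sOpE).exec σ)
  have h3 := fill_steps 8 12 (by decide) sBE ((fill 8 11 sAE).exec ((fill 8 10 sOpE).exec σ))
  have w1 : ∀ (a : ℕ) (E : Expr) (τ : Store), ((fill 8 a E).exec τ).var 8 = τ.var 8 :=
    fun a E τ => Cmd.frame_var _ τ 8 rfl
  rw [w1, w1] at h3
  rw [w1] at h2
  rw [e1]
  have : (30 + sOpE.size + sAE.size + sBE.size) * σ.var 8 =
    (10 + sOpE.size) * σ.var 8 + (10 + sAE.size) * σ.var 8 + (10 + sBE.size) * σ.var 8 := by ring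
  omega

theorem pC_steps : ∃ c : ℕ, ∀ σ : Store, pC.steps σ ≤ c + c * σ.var 10 := by
  obtain ⟨E, hE⟩ : ∃ E : Expr, E = aNE (div (var 30) (var 9)) (mod (var 30) (var 9)) := ⟨_, rfl⟩
  refine ⟨10 + E.size + ((1 + (add (mulc 41 (var 8)) (const 4)).size) + (1 + (var 9).size)),
    fun σ => ?_⟩
  have e1 : pC.steps σ = (fill 10 0 E).steps σ +
    ((1 + (add (mulc 41 (var 8)) (const 4)).size) + (1 + (var 9).size)) := by rw [hE]; rfl
  have h1 := fill_steps 10 0 (by decide) E σ
  rw [e1]
  generalize ((1 + (add (mulc 41 (var 8)) (const 4)).size) + (1 + (var 9).size)) = K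
  nlinarith [Nat.zero_le (K * σ.var 10), Nat.zero_le (E.size * σ.var 10)]

theorem arith (cI cA cB cC K L S v5 v8 v9 v10 z1 z2 z3 : ℕ) (b1 : 1 ≤ S) (b5 : v5 ≤ 6 * S)
    (b8 : v8 ≤ 364 * S) (b9 : v9 * 5 ≤ L * S) (b10 : v10 ≤ K * S) (hA : z1 ≤ 40 + cA * v5)
    (hB : z2 ≤ 30 + cB * v8) (hC : z3 ≤ cC + cC * v10) :
    cI + (2 + v9 * 5) + (z1 + (z2 + z3)) ≤
      (cI + 2 + L + (40 + 6 * cA) + (30 + 364 * cB) + (cC + K * cC)) * S := by
  have c5 : cA * v5 ≤ 6 * (cA * S) := by
    calc _ ≤ cA * (6 * S) := Nat.mul_le_mul_left _ b5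
      _ = _ := by ring
  have c8 : cB * v8 ≤ 364 * (cB * S) := by
    calc _ ≤ cB * (364 * S) := Nat.mul_le_mul_left _ b8
      _ = _ := by ring
  have c10 : cC * v10 ≤ K * cC * S := by
    calc _ ≤ cC * (K * S) := Nat.mul_le_mul_left _ b10
      _ = _ := by ring
  have d1 : cI ≤ cI * S := Nat.le_mul_of_pos_right _ b1
  have d2 : cC ≤ cC * S := Nat.le_mul_of_pos_right _ b1
  have d3 : (cI + 2 + L + (40 + 6 * cA) + (30 + 364 * cB) + (cC + K * cC)) * S =
    cI * S + 2 * S + L * S + (40 * S + 6 * (cA * S)) +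
      (30 * S + 364 * (cB * S)) + (cC * S + K * cC * S) := by ring
  rw [d3]
  linarith

theorem arith2 (n m s : ℕ) (hs : s = n + m + 1) :
    1 ≤ s ^ 2 ∧ n + 6 * m + 1 ≤ 6 * s ^ 2 ∧ 54 * n + 364 * m + 176 ≤ 364 * s ^ 2 ∧
      2862 * n + 19292 * m + 9335 ≤ 19292 * s := by
  have hs1 : 1 ≤ s := by omega
  have hs2 : s ≤ s ^ 2 := by nlinarith
  refine ⟨?_, ?_, ?_, ?_⟩ <;> omega

end ProgStepsAux

open ProgStepsAux in
/-- The number of steps of the program. -/
theorem prog_steps : ∃ c : ℕ, ∀ σ : Store,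
    prog.steps σ ≤ c * (σ.var 0 + σ.var 1 + 1) ^ 2 := by
  obtain ⟨cI, hI⟩ := pI9_steps
  obtain ⟨cC, hC⟩ := pC_steps
  obtain ⟨cA, hcA⟩ : ∃ cA : ℕ, cA = 40 + eTyE.size + eIE.size + eJE.size + eKE.size := ⟨_, rfl⟩
  obtain ⟨cB, hcB⟩ : ∃ cB : ℕ, cB = 30 + sOpE.size + sAE.size + sBE.size := ⟨_, rfl⟩
  obtain ⟨q, hq⟩ : ∃ q : ℕ, q = 19292 := ⟨_, rfl⟩
  refine ⟨cI + 2 + 5 * q + (40 + 6 * cA) + (30 + 364 * cB) + (cC + q ^ 2 * cC), fun σ => ?_⟩
  have e1 : prog.steps σ = pInit.steps σ + (pA.steps (pInit.exec σ) +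
    (pB.steps (pA.exec (pInit.exec σ)) + pC.steps (pB.exec (pA.exec (pInit.exec σ))))) := rfl
  obtain ⟨h5, h8, h10⟩ := pInit_vars σ
  have h9 := (pI9_vars σ).2.2.1
  have hA := pA_steps (pInit.exec σ)
  have hB := pB_steps (pA.exec (pInit.exec σ))
  have hC' := hC (pB.exec (pA.exec (pInit.exec σ)))
  have wA8 : (pA.exec (pInit.exec σ)).var 8 = (pInit.exec σ).var 8 := Cmd.frame_var _ _ 8 rfl
  have wA10 : (pA.exec (pInit.exec σ)).var 10 = (pInit.exec σ).var 10 := Cmd.frame_var _ _ 10 rfl
  have wB10 : (pB.exec (pA.exec (pInit.exec σ))).var 10 = (pA.exec (pInit.exec σ)).var 10 :=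
    Cmd.frame_var _ _ 10 rfl
  rw [wB10, wA10] at hC'
  rw [wA8, ← hcB] at hB
  rw [← hcA] at hA
  obtain ⟨a1, a2, a3, a4⟩ := arith2 (σ.var 0) (σ.var 1) _ rfl
  obtain ⟨w, hw⟩ : ∃ w : ℕ, w = 2862 * σ.var 0 + 19292 * σ.var 1 + 9335 := ⟨_, rfl⟩
  rw [← hw] at a4 h9 h10
  rw [← hq] at a4
  rw [e1, pInit_steps, hI, pL_steps]
  refine arith cI cA cB cC (q ^ 2) (5 * q) _ ((pInit.exec σ).var 5) ((pInit.exec σ).var 8)
    ((pI9.exec σ).var 9) ((pInit.exec σ).var 10) _ _ _ a1 ?_ ?_ ?_ ?_ hA hB hC'
  · rw [h5]; exact a2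
  · rw [h8]; exact a3
  · rw [h9]
    calc w * 5 ≤ (q * (σ.var 0 + σ.var 1 + 1)) * 5 := Nat.mul_le_mul_right _ a4
      _ = 5 * q * (σ.var 0 + σ.var 1 + 1) := by ring
      _ ≤ 5 * q * (σ.var 0 + σ.var 1 + 1) ^ 2 :=
        Nat.mul_le_mul_left _ (Nat.le_self_pow (by decide) _)
  · rw [h10]
    calc w * w ≤ (q * (σ.var 0 + σ.var 1 + 1)) * (q * (σ.var 0 + σ.var 1 + 1)) :=
          Nat.mul_le_mul a4 a4
      _ = q ^ 2 * (σ.var 0 + σ.var 1 + 1) ^ 2 := by ring

end Pool.Agent.Lib.MP_79a9b1_lc
end

section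

set_option autoImplicit false

/-!
# The running time of the program
-/

namespace Pool.Agent.Lib.MP_79a9b1_lc

open Pool.Agent.Lib.MP_711ea9_lc (Expr Cmd Store Bdd)
open Pool.Agent.Lib.MP_711ea9_lc.Expr (const var get add sub div mod)

theorem progcost_tnode (n : TNode) : n.code ≤ 4 := by
  cases n <;> simp [TNode.code]

theorem progcost_fnode (n : FNode) : n.code ≤ 4 := by
  cases n <;> simp [FNode.code]

theorem progcost_bdd (I : ETR) (hI : I.WF) : Bdd I.input (I.size + 3) := by
  obtain ⟨w1, w2, w3, w4, w5⟩ := hI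
  have hp : I.size < 2 ^ (I.size + 3) :=
    Nat.lt_two_pow_self.trans_le (Nat.pow_le_pow_right (by norm_num) (by omega))
  have hp4 : 4 < 2 ^ (I.size + 3) := by
    have : 2 ^ 3 ≤ 2 ^ (I.size + 3) := Nat.pow_le_pow_right (by norm_num) (by omega)
    omega
  have hs : I.size = I.terms.length + I.forms.length := rfl
  have hlt : ∀ {α : Type} {l : List α} {k : ℕ} {x : α}, l[k]? = some x → k < l.length := by
    intro α l k x h
    by_contra hk
    rw [List.getElem?_eq_none (by omega)] at h
    exact absurd h (by simp)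
  constructor
  · intro x
    simp only [ETR.input]
    split_ifs <;> omega
  · intro c k
    simp only [ETR.input]
    rcases hk : I.terms[k]? with _ | t <;> rcases hk' : I.forms[k]? with _ | f <;>
      simp only [Option.map_none, Option.map_some, Option.getD_none, Option.getD_some]
    · split_ifs <;> omega
    · have hb := hlt hk'
      have h1 := progcost_fnode f
      have h2 : f.fst ≤ I.size ∧ f.snd ≤ I.size := by
        cases f with
        | eq0 i => have := w2 k i (Or.inl hk'); simp only [FNode.fst, FNode.snd]; omega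
        | pos i => have := w2 k i (Or.inr hk'); simp only [FNode.fst, FNode.snd]; omega
        | not i => have := w3 k i hk'; simp only [FNode.fst, FNode.snd]; omega
        | and i j => have := w4 k i j (Or.inl hk'); simp only [FNode.fst, FNode.snd]; omega
        | or i j => have := w4 k i j (Or.inr hk'); simp only [FNode.fst, FNode.snd]; omega
      split_ifs <;> omega
    · have hb := hlt hk
      have h1 := progcost_tnode t
      have h2 : t.fst ≤ I.size ∧ t.snd ≤ I.size := by
        cases t with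
        | var => simp only [TNode.fst, TNode.snd]; omega
        | one => simp only [TNode.fst, TNode.snd]; omega
        | add i j => have := w1 k i j (Or.inl hk); simp only [TNode.fst, TNode.snd]; omega
        | sub i j =>
          have := w1 k i j (Or.inr (Or.inl hk)); simp only [TNode.fst, TNode.snd]; omega
        | mul i j =>
          have := w1 k i j (Or.inr (Or.inr hk)); simp only [TNode.fst, TNode.snd]; omega
      split_ifs <;> omega
    · have hb := hlt hk
      have hb' := hlt hk'
      have h1 := progcost_tnode t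
      have h1' := progcost_fnode f
      have h2 : t.fst ≤ I.size ∧ t.snd ≤ I.size := by
        cases t with
        | var => simp only [TNode.fst, TNode.snd]; omega
        | one => simp only [TNode.fst, TNode.snd]; omega
        | add i j => have := w1 k i j (Or.inl hk); simp only [TNode.fst, TNode.snd]; omega
        | sub i j =>
          have := w1 k i j (Or.inr (Or.inl hk)); simp only [TNode.fst, TNode.snd]; omega
        | mul i j =>
          have := w1 k i j (Or.inr (Or.inr hk)); simp only [TNode.fst, TNode.snd]; omega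
      have h3 : f.fst ≤ I.size ∧ f.snd ≤ I.size := by
        cases f with
        | eq0 i => have := w2 k i (Or.inl hk'); simp only [FNode.fst, FNode.snd]; omega
        | pos i => have := w2 k i (Or.inr hk'); simp only [FNode.fst, FNode.snd]; omega
        | not i => have := w3 k i hk'; simp only [FNode.fst, FNode.snd]; omega
        | and i j => have := w4 k i j (Or.inl hk'); simp only [FNode.fst, FNode.snd]; omega
        | or i j => have := w4 k i j (Or.inr hk'); simp only [FNode.fst, FNode.snd]; omega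
      split_ifs <;> omega

theorem prog_cost : ∃ c : ℕ, ∀ I : ETR, I.WF → prog.cost I.input ≤ c * (I.size + 1) ^ c := by
  obtain ⟨c, hc⟩ := prog_steps
  refine ⟨c * (c + 4) + 4, fun I hI => ?_⟩
  have h1 := (Cmd.bound prog (progcost_bdd I hI)).2
  have h2 : prog.steps I.input ≤ c * (I.size + 1) ^ 2 := hc I.input
  generalize prog.steps I.input = st at h1 h2
  have hs1 : 1 ≤ I.size + 1 := by omega
  generalize hS : I.size + 1 = s at *
  have hs : I.size + 3 = s + 2 := by omega
  rw [hs] at h1
  refine h1.trans ?_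
  have h3 : s + 2 + st + 1 ≤ (c + 4) * s ^ 2 := by
    have : s ≤ s ^ 2 := Nat.le_self_pow (by norm_num) s
    have h5 : 1 ≤ s ^ 2 := Nat.one_le_pow _ _ hs1
    calc s + 2 + st + 1 ≤ s ^ 2 + 2 * s ^ 2 + c * s ^ 2 + s ^ 2 := by omega
      _ = (c + 4) * s ^ 2 := by ring
  calc st * (s + 2 + st + 1) ≤ (c * s ^ 2) * ((c + 4) * s ^ 2) := Nat.mul_le_mul h2 h3
    _ = c * (c + 4) * s ^ 4 := by ring
    _ ≤ (c * (c + 4) + 4) * s ^ (c * (c + 4) + 4) :=
      Nat.mul_le_mul (by omega) (Nat.pow_le_pow_right hs1 (by omega))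

end Pool.Agent.Lib.MP_79a9b1_lc
end

section

set_option autoImplicit false

/-!
# The straight-line program of a system is well formed
-/

namespace Pool.Agent.Lib.MP_79a9b1_lc

namespace BSYS

variable (S : BSYS)

theorem bsyswf_fY (hS : S.WF) (e : ℕ) (he : e < S.ne) (r : ℕ) : S.fY e r < S.E0 := by
  have h1 := hS.i e he
  have h2 := hS.j e he
  have h3 := hS.k e he
  unfold fY p q E0
  split_ifs <;> omega

theorem bsyswf_fX (hS : S.WF) (e : ℕ) (he : e < S.ne) (r : ℕ) : S.fX e r < S.E0 := by
  have h1 := hS.i e he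
  have h2 := hS.j e he
  have h3 := hS.k e he
  unfold fX p q E0
  split_ifs <;> omega

theorem bsyswf_one (hS : S.WF) (e : ℕ) (he : e < S.ne) (o c : ℕ) (ho : o < 28) (hc : S.E0 ≤ c)
    (h : S.eOp e o = 1) : S.eA e o c < c + o := by
  have h1 := S.bsyswf_fY hS e he (o / 3)
  unfold eOp at h
  unfold eA
  split_ifs at h ⊢ <;> omega

theorem bsyswf_bin (hS : S.WF) (e : ℕ) (he : e < S.ne) (o c : ℕ) (ho : o < 28) (hc : S.E0 ≤ c)
    (h : S.eOp e o = 2 ∨ S.eOp e o = 3) :
    S.eA e o c < c + o ∧ S.eB o c < c + o ∧ S.eA e o c ≠ S.eB o c := by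
  have h1 := S.bsyswf_fX hS e he (o / 3)
  have hE : 6 * S.M < S.E0 := by unfold E0; omega
  by_cases ho' : o < 18
  · unfold eOp at h
    unfold eA eB
    rw [if_pos ho'] at h ⊢
    rw [if_pos ho']
    split_ifs at h ⊢ <;> omega
  · have hcases : o = 18 ∨ o = 19 ∨ o = 20 ∨ o = 21 ∨ o = 22 ∨ o = 23 ∨ o = 24 ∨ o = 25 ∨
        o = 26 ∨ o = 27 := by omega
    unfold eOp at h
    unfold eA eB
    rcases hcases with rfl | rfl | rfl | rfl | rfl | rfl | rfl | rfl | rfl | rfl <;>
      simp at h ⊢ <;> omega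

theorem slp_wf (hS : S.WF) : S.slp.WF := by
  have hM : 20 ≤ S.M := by unfold M; omega
  have hE : S.E0 = 6 * S.M + 2 + 2 * S.nv := rfl
  constructor
  · intro l hl h
    change l < S.E0 + 28 * S.ne at hl
    change S.sOp l = 1 at h
    change S.sA l < l
    by_cases hlt : l < S.E0
    · unfold sOp at h
      unfold sA
      split_ifs at h ⊢ <;> omega
    · unfold sOp at h
      unfold sA
      rw [if_neg (by omega), if_neg (by omega), if_neg (by omega), if_neg (by omega)] at h ⊢
      have h28 : (l - S.E0) % 28 < 28 := Nat.mod_lt _ (by norm_num)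
      have he : (l - S.E0) / 28 < S.ne := by
        rw [Nat.div_lt_iff_lt_mul (by norm_num)]
        omega
      have hle : (l - S.E0) % 28 ≤ l - S.E0 := Nat.mod_le _ _
      have := S.bsyswf_one hS _ he _ (l - (l - S.E0) % 28) h28 (by omega) h
      omega
  · intro l hl h
    change l < S.E0 + 28 * S.ne at hl
    change S.sOp l = 2 ∨ S.sOp l = 3 at h
    change S.sA l < l ∧ S.sB l < l ∧ S.sA l ≠ S.sB l
    by_cases hlt : l < S.E0
    · unfold sOp at h
      unfold sA sB
      split_ifs at h ⊢ <;> first | omega | exact (h.elim False.elim False.elim)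
    · unfold sOp at h
      unfold sA sB
      rw [if_neg (by omega), if_neg (by omega), if_neg (by omega), if_neg (by omega)] at h
      rw [if_neg (by omega), if_neg (by omega), if_neg (by omega), if_neg (by omega),
        if_neg (by omega), if_neg (by omega), if_neg (by omega), if_neg (by omega)]
      have h28 : (l - S.E0) % 28 < 28 := Nat.mod_lt _ (by norm_num)
      have he : (l - S.E0) / 28 < S.ne := by
        rw [Nat.div_lt_iff_lt_mul (by norm_num)]
        omega
      have hle : (l - S.E0) % 28 ≤ l - S.E0 := Nat.mod_le _ _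
      have := S.bsyswf_bin hS _ he _ (l - (l - S.E0) % 28) h28 (by omega) h
      refine ⟨?_, ?_, this.2.2⟩
      · have := this.1
        omega
      · have := this.2.1
        omega

end BSYS

end Pool.Agent.Lib.MP_79a9b1_lc
end

section

set_option autoImplicit false

/-!
# Only the entries in the range matter
-/

namespace Pool.Agent.Lib.MP_79a9b1_lc

theorem SLP.sat_congr (P Q : SLP) (hn : P.n = Q.n) (h1 : ∀ k < P.n, P.op k = Q.op k)
    (h2 : ∀ k < P.n, P.a k = Q.a k) (h3 : ∀ k < P.n, P.b k = Q.b k) (h : P.Sat) : Q.Sat := by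
  obtain ⟨v, hv⟩ := h
  refine ⟨v, fun k hk => ?_⟩
  rw [← hn] at hk
  rw [← h1 k hk, ← h2 k hk, ← h3 k hk]
  exact hv k hk

theorem SLP.wf_congr (P Q : SLP) (hn : P.n = Q.n) (h1 : ∀ k < P.n, P.op k = Q.op k)
    (h2 : ∀ k < P.n, P.a k = Q.a k) (h3 : ∀ k < P.n, P.b k = Q.b k) (h : P.WF) : Q.WF := by
  refine ⟨fun k hk ho => ?_, fun k hk ho => ?_⟩
  · rw [← hn] at hk
    rw [← h1 k hk] at ho
    rw [← h2 k hk]
    exact h.one k hk ho
  · rw [← hn] at hk
    have ho' : P.bin k := by
      unfold SLP.bin at ho ⊢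
      rw [h1 k hk]
      exact ho
    rw [← h2 k hk, ← h3 k hk]
    exact h.bin k hk ho'

theorem BSYS.solv_congr (S T : BSYS) (he : S.ne = T.ne) (h1 : ∀ e < S.ne, S.ty e = T.ty e)
    (h2 : ∀ e < S.ne, S.i e = T.i e) (h3 : ∀ e < S.ne, S.j e = T.j e)
    (h4 : ∀ e < S.ne, S.k e = T.k e) (h : S.Solv) : T.Solv := by
  obtain ⟨x, hx0, hx⟩ := h
  refine ⟨x, hx0, fun e hh => ?_⟩
  rw [← he] at hh
  have := hx e hh
  unfold BSYS.res at this ⊢
  rw [← h1 e hh, ← h2 e hh, ← h3 e hh, ← h4 e hh]
  exact this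

theorem BSYS.wf_congr (S T : BSYS) (hv : S.nv = T.nv) (he : S.ne = T.ne)
    (h2 : ∀ e < S.ne, S.i e = T.i e) (h3 : ∀ e < S.ne, S.j e = T.j e)
    (h4 : ∀ e < S.ne, S.k e = T.k e) (h : S.WF) : T.WF := by
  refine ⟨hv ▸ h.pos, fun e hh => ?_, fun e hh => ?_, fun e hh => ?_⟩
  · rw [← he] at hh
    rw [← h2 e hh, ← hv]
    exact h.i e hh
  · rw [← he] at hh
    rw [← h3 e hh, ← hv]
    exact h.j e hh
  · rw [← he] at hh
    rw [← h4 e hh, ← hv]
    exact h.k e hh

theorem BSYS.slp_op3 (S : BSYS) : S.slp.Op3 := by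
  intro k _
  change S.sOp k ≤ 3
  unfold BSYS.sOp BSYS.eOp
  split_ifs <;> decide

end Pool.Agent.Lib.MP_79a9b1_lc
end

section

set_option autoImplicit false

/-!
# The second and third stages of the program
-/

namespace Pool.Agent.Lib.MP_79a9b1_lc

open Pool.Agent.Lib.MP_711ea9_lc (Expr Cmd Store)
open Pool.Agent.Lib.MP_711ea9_lc.Expr (const var get add sub div mod)

private theorem rawOf_congr_ab {σ τ : Store} (h : ∀ y, y ≠ 30 → τ.var y = σ.var y)
    (h' : ∀ c, c < 6 → τ.arr c = σ.arr c) : rawOf τ = rawOf σ := by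
  simp only [rawOf, h 0 (by decide), h 1 (by decide), h' 0 (by decide), h' 1 (by decide),
    h' 2 (by decide), h' 3 (by decide), h' 4 (by decide), h' 5 (by decide)]

private theorem bsysOf_congr_ab {σ τ : Store} (h : ∀ y, y ≠ 30 → τ.var y = σ.var y)
    (h' : ∀ c, c < 10 → τ.arr c = σ.arr c) : bsysOf τ = bsysOf σ := by
  simp only [bsysOf, h 4 (by decide), h 5 (by decide), h' 6 (by decide), h' 7 (by decide),
    h' 8 (by decide), h' 9 (by decide)]

theorem pA_spec (σ : Store) :
    (∀ x, x ≠ 30 → (pA.exec σ).var x = σ.var x) ∧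
      (∀ e < σ.var 5, (pA.exec σ).arr 6 e = (rawOf σ).eTy e) ∧
      (∀ e < σ.var 5, (pA.exec σ).arr 7 e = (rawOf σ).eI e) ∧
      (∀ e < σ.var 5, (pA.exec σ).arr 8 e = (rawOf σ).eJ e) ∧
      (∀ e < σ.var 5, (pA.exec σ).arr 9 e = (rawOf σ).eK e) := by
  obtain ⟨a1, b1, c1⟩ := fill_spec 5 6 (by decide) eTyE σ (rawOf σ).eTy (by
    intro i _ τ h1 h2 h3
    rw [eTyE_eval, h3, rawOf_congr_ab h1 fun c hc => h2 c (by omega)])
  set σ₁ := (fill 5 6 eTyE).exec σ with hσ₁
  obtain ⟨a2, b2, c2⟩ := fill_spec 5 7 (by decide) eIE σ₁ (rawOf σ).eI (by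
    intro i _ τ h1 h2 h3
    rw [eIE_eval, h3, rawOf_congr_ab (σ := σ) (fun y hy => (h1 y hy).trans (a1 y hy))
      fun c hc => (h2 c (by omega)).trans (b1 c (by omega))])
  set σ₂ := (fill 5 7 eIE).exec σ₁ with hσ₂
  obtain ⟨a3, b3, c3⟩ := fill_spec 5 8 (by decide) eJE σ₂ (rawOf σ).eJ (by
    intro i _ τ h1 h2 h3
    rw [eJE_eval, h3, rawOf_congr_ab (σ := σ)
      (fun y hy => ((h1 y hy).trans (a2 y hy)).trans (a1 y hy))
      fun c hc => ((h2 c (by omega)).trans (b2 c (by omega))).trans (b1 c (by omega))])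
  set σ₃ := (fill 5 8 eJE).exec σ₂ with hσ₃
  obtain ⟨a4, b4, c4⟩ := fill_spec 5 9 (by decide) eKE σ₃ (rawOf σ).eK (by
    intro i _ τ h1 h2 h3
    rw [eKE_eval, h3, rawOf_congr_ab (σ := σ)
      (fun y hy => (((h1 y hy).trans (a3 y hy)).trans (a2 y hy)).trans (a1 y hy))
      fun c hc => (((h2 c (by omega)).trans (b3 c (by omega))).trans (b2 c (by omega))).trans
        (b1 c (by omega))])
  have h5 : σ₁.var 5 = σ.var 5 := a1 5 (by decide)
  have h5' : σ₂.var 5 = σ.var 5 := (a2 5 (by decide)).trans h5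
  have h5'' : σ₃.var 5 = σ.var 5 := (a3 5 (by decide)).trans h5'
  have hE : pA.exec σ = (fill 5 9 eKE).exec σ₃ := rfl
  rw [hE]
  refine ⟨fun x hx => (((a4 x hx).trans (a3 x hx)).trans (a2 x hx)).trans (a1 x hx), ?_, ?_, ?_,
    ?_⟩
  · intro e he
    rw [b4 6 (by decide), b3 6 (by decide), b2 6 (by decide)]
    exact c1 e he
  · intro e he
    rw [b4 7 (by decide), b3 7 (by decide)]
    exact c2 e (by rw [h5]; exact he)
  · intro e he
    rw [b4 8 (by decide)]
    exact c3 e (by rw [h5']; exact he)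
  · intro e he
    exact c4 e (by rw [h5'']; exact he)

theorem pB_spec (σ : Store) (h6 : σ.var 6 = (bsysOf σ).M) (h7 : σ.var 7 = (bsysOf σ).E0) :
    (∀ x, x ≠ 30 → (pB.exec σ).var x = σ.var x) ∧
      (∀ l < σ.var 8, (pB.exec σ).arr 10 l = (bsysOf σ).sOp l) ∧
      (∀ l < σ.var 8, (pB.exec σ).arr 11 l = (bsysOf σ).sA l) ∧
      (∀ l < σ.var 8, (pB.exec σ).arr 12 l = (bsysOf σ).sB l) := by
  obtain ⟨a1, b1, c1⟩ := fill_spec 8 10 (by decide) sOpE σ (bsysOf σ).sOp (by
    intro i _ τ h1 h2 h3
    have e : bsysOf τ = bsysOf σ := bsysOf_congr_ab h1 fun c hc => h2 c (by omega)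
    rw [sOpE_eval τ (by rw [e, h1 6 (by decide)]; exact h6) (by rw [e, h1 7 (by decide)]; exact h7),
      h3, e])
  set σ₁ := (fill 8 10 sOpE).exec σ with hσ₁
  obtain ⟨a2, b2, c2⟩ := fill_spec 8 11 (by decide) sAE σ₁ (bsysOf σ).sA (by
    intro i _ τ h1 h2 h3
    have h1' : ∀ y, y ≠ 30 → τ.var y = σ.var y := fun y hy => (h1 y hy).trans (a1 y hy)
    have e : bsysOf τ = bsysOf σ := bsysOf_congr_ab h1' fun c hc =>
      (h2 c (by omega)).trans (b1 c (by omega))
    rw [sAE_eval τ (by rw [e, h1' 6 (by decide)]; exact h6)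
      (by rw [e, h1' 7 (by decide)]; exact h7), h3, e])
  set σ₂ := (fill 8 11 sAE).exec σ₁ with hσ₂
  obtain ⟨a3, b3, c3⟩ := fill_spec 8 12 (by decide) sBE σ₂ (bsysOf σ).sB (by
    intro i _ τ h1 h2 h3
    have h1' : ∀ y, y ≠ 30 → τ.var y = σ.var y :=
      fun y hy => ((h1 y hy).trans (a2 y hy)).trans (a1 y hy)
    have e : bsysOf τ = bsysOf σ := bsysOf_congr_ab h1' fun c hc =>
      ((h2 c (by omega)).trans (b2 c (by omega))).trans (b1 c (by omega))
    rw [sBE_eval τ (by rw [e, h1' 6 (by decide)]; exact h6)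
      (by rw [e, h1' 7 (by decide)]; exact h7), h3, e])
  have h8 : σ₁.var 8 = σ.var 8 := a1 8 (by decide)
  have h8' : σ₂.var 8 = σ.var 8 := (a2 8 (by decide)).trans h8
  have hE : pB.exec σ = (fill 8 12 sBE).exec σ₂ := rfl
  rw [hE]
  refine ⟨fun x hx => ((a3 x hx).trans (a2 x hx)).trans (a1 x hx), ?_, ?_, ?_⟩
  · intro l hl
    rw [b3 10 (by decide), b2 10 (by decide)]
    exact c1 l hl
  · intro l hl
    rw [b3 11 (by decide)]
    exact c2 l (by rw [h8]; exact hl)
  · intro l hl
    exact c3 l (by rw [h8']; exact hl)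

end Pool.Agent.Lib.MP_79a9b1_lc
end

section

set_option autoImplicit false

/-!
# The last stage of the program
-/

namespace Pool.Agent.Lib.MP_79a9b1_lc

open Pool.Agent.Lib.MP_711ea9_lc (Expr Cmd Store)
open Pool.Agent.Lib.MP_711ea9_lc.Expr (const var get add sub div mod)

theorem pC_spec (σ : Store) :
    (pC.exec σ).var 0 = σ.var 9 ∧ (pC.exec σ).var 1 = 41 * σ.var 8 + 4 ∧
      (∀ t < σ.var 10, (pC.exec σ).arr 0 t = (slpOf σ).aN (t / σ.var 9) (t % σ.var 9)) := by
  obtain ⟨a1, b1, c1⟩ := fill_spec 10 0 (by decide)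
    (aNE (div (var 30) (var 9)) (mod (var 30) (var 9))) σ
    (fun t => (slpOf σ).aN (t / σ.var 9) (t % σ.var 9)) (by
    intro i _ τ h1 h2 h3
    have e : slpOf τ = slpOf σ := by
      simp only [slpOf, h1 8 (by decide), h2 10 (by decide), h2 11 (by decide), h2 12 (by decide)]
    rw [aNE_eval, e]
    show (slpOf σ).aN (τ.var 30 / τ.var 9) (τ.var 30 % τ.var 9) = _
    rw [h3, h1 9 (by decide)])
  set σ₁ := (fill 10 0 (aNE (div (var 30) (var 9)) (mod (var 30) (var 9)))).exec σ with hσ₁
  have hE : pC.exec σ = (Cmd.seq (.set 1 (add (mulc 41 (var 8)) (const 4)))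
    (.set 0 (var 9))).exec σ₁ := rfl
  rw [hE]
  refine ⟨?_, ?_, ?_⟩
  · show Function.update (Function.update σ₁.var 1
      ((add (mulc 41 (var 8)) (const 4)).eval σ₁)) 0
      (Function.update σ₁.var 1 ((add (mulc 41 (var 8)) (const 4)).eval σ₁) 9) 0 = σ.var 9
    rw [Function.update_self, Function.update_of_ne (by decide)]
    exact a1 9 (by decide)
  · show Function.update (Function.update σ₁.var 1
      ((add (mulc 41 (var 8)) (const 4)).eval σ₁)) 0
      (Function.update σ₁.var 1 ((add (mulc 41 (var 8)) (const 4)).eval σ₁) 9) 1 =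
        41 * σ.var 8 + 4
    rw [Function.update_of_ne (by decide), Function.update_self]
    show (mulc 41 (var 8)).eval σ₁ + 4 = _
    rw [mulc_eval]
    show 41 * σ₁.var 8 + 4 = _
    rw [a1 8 (by decide)]
  · intro t ht
    exact c1 t ht

end Pool.Agent.Lib.MP_79a9b1_lc
end

section

set_option autoImplicit false

/-!
# The first stage of the program
-/

namespace Pool.Agent.Lib.MP_79a9b1_lc

open Pool.Agent.Lib.MP_711ea9_lc (Expr Cmd Store)
open Pool.Agent.Lib.MP_711ea9_lc.Expr (const var get add sub div mod)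

theorem progInit_iter (σ : Store) (k : ℕ) :
    (Cmd.exec (.set 10 (add (var 10) (var 9))))^[k] σ =
      ⟨Function.update σ.var 10 (σ.var 10 + k * σ.var 9), σ.arr⟩ := by
  induction k with
  | zero =>
    simp
  | succ k ih =>
    rw [Function.iterate_succ_apply', ih]
    simp only [Cmd.exec, Expr.eval, Function.update_idem, Function.update_self]
    rw [Function.update_of_ne (by norm_num)]
    congr 2
    ring

theorem pInit_spec (σ : Store) :
    (pInit.exec σ).arr = σ.arr ∧ (pInit.exec σ).var 0 = σ.var 0 ∧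
      (pInit.exec σ).var 1 = σ.var 1 ∧ (pInit.exec σ).var 4 = (rawOf σ).bsys.nv ∧
      (pInit.exec σ).var 5 = (rawOf σ).bsys.ne ∧ (pInit.exec σ).var 6 = (rawOf σ).bsys.M ∧
      (pInit.exec σ).var 7 = (rawOf σ).bsys.E0 ∧ (pInit.exec σ).var 8 = (rawOf σ).bsys.slp.n ∧
      (pInit.exec σ).var 9 = 53 * (rawOf σ).bsys.slp.n + 7 ∧
      (pInit.exec σ).var 10 =
        (53 * (rawOf σ).bsys.slp.n + 7) * (53 * (rawOf σ).bsys.slp.n + 7) := by
  unfold pInit
  simp only [Cmd.exec]
  have h := progInit_iter
  simp only [Cmd.exec] at h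
  rw [h]
  simp [Expr.eval, mulc_eval, Function.update, rawOf, Raw.bsys, BSYS.slp, BSYS.E0, BSYS.M]

end Pool.Agent.Lib.MP_79a9b1_lc
end
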