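import Pool.Agent.Lib.MP_79a9b1_lc.Mg.G001

section

set_option autoImplicit false

/-!
# Types and edges as numbers
-/

namespace Pool.Agent.Lib.MP_79a9b1_lc

namespace SLP

variable (P : SLP)

theorem tM_eq (hW : P.WF) (hP : P.Op3) (τ : Rs) (m : ℕ) (hm : m < P.n) (σ : Sg) (k : ℕ) (hk : k < P.n) :
    P.tM τ.idx m σ.idx k = tyN (P.tyM τ m σ k) := by
  have hPm := hP m hm
  have hPk := hP k hk
  have h1m := hW.one m hm
  have h1k := hW.one k hk
  have h2m := hW.bin m hm
  have h2k := hW.bin k hk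
  have hmm : P.op m = 0 ∨ P.op m = 1 ∨ P.op m = 2 ∨ P.op m = 3 := by omega
  have hkk : P.op k = 0 ∨ P.op k = 1 ∨ P.op k = 2 ∨ P.op k = 3 := by omega
  by_cases hmk : m = k
  · subst hmk
    cases τ <;> cases σ <;> simp only [tM, tS, tG, tyM, Rs.idx, Sg.idx, bin] <;>
      rcases hmm with h | h | h | h <;> simp [h, tyN] <;>
      first
        | done
        | (simp only [h, bin] at h1m h2m; split_ifs <;> simp_all)
  · cases τ <;> cases σ <;> simp only [tM, tS, tG, tyM, Rs.idx, Sg.idx, bin] <;>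
      rcases hmm with h | h | h | h <;> rcases hkk with h' | h' | h' | h' <;>
      simp [h, h', hmk, tyN] <;>
      first
        | done
        | (split_ifs <;> simp_all)

theorem eM_eq (hW : P.WF) (hP : P.Op3) (τ : Rs) (m : ℕ) (hm : m < P.n) (ρ : Rs) (k : ℕ) (hk : k < P.n) :
    P.eM τ.idx m ρ.idx k = if P.edM τ m ρ k then 1 else 0 := by
  have hPk := hP k hk
  have hkk : P.op k = 0 ∨ P.op k = 1 ∨ P.op k = 2 ∨ P.op k = 3 := by omega
  cases τ <;> cases ρ <;> simp only [eM, edM, Rs.idx, bin] <;>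
    rcases hkk with h' | h' | h' | h' <;> simp [h']

end SLP

end Pool.Agent.Lib.MP_79a9b1_lc
end

section

set_option autoImplicit false

/-!
# Types and edges as functions of numbers
-/

namespace Pool.Agent.Lib.MP_79a9b1_lc

theorem Sg.idx_lt12 (σ : Sg) : σ.idx < 12 := by cases σ <;> decide

theorem Rs.idx_lt5 (τ : Rs) : τ.idx < 5 := by cases τ <;> decide

theorem Sg.idx_injN {σ ρ : Sg} (h : σ.idx = ρ.idx) : σ = ρ := by
  cases σ <;> cases ρ <;> simp [Sg.idx] at h ⊢

theorem Sg.idx_lt6 (σ : Sg) : σ.idx < 6 ↔ SLP.isMain σ = true := by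
  cases σ <;> simp [Sg.idx, SLP.isMain]

/-- number of a calibrated axis -/
def cidx (n : ℕ) : Option (Fin n × Sg) → ℕ
  | none => 12 * n
  | some (k, σ) => 12 * (k : ℕ) + σ.idx

theorem cidx_inj {n : ℕ} {c c' : Option (Fin n × Sg)} (h : cidx n c = cidx n c') : c = c' := by
  rcases c with _ | ⟨k, σ⟩ <;> rcases c' with _ | ⟨l, ρ⟩
  · rfl
  · simp only [cidx] at h
    have := ρ.idx_lt12
    have := l.isLt
    omega
  · simp only [cidx] at h
    have := σ.idx_lt12
    have := k.isLt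
    omega
  · simp only [cidx] at h
    have := ρ.idx_lt12
    have := σ.idx_lt12
    have hkl : (k : ℕ) = l := by omega
    have h2 : σ.idx = ρ.idx := by omega
    rw [Fin.ext hkl, Sg.idx_injN h2]

namespace SLP

variable (P : SLP)

theorem tN_eq (hW : P.WF) (hP : P.Op3) (x : Rw P.n) (a : Ax P.n) :
    P.tN (flatR P.n x) (flatA P.n a) = tyN (P.ty x a) := by
  rcases x with ⟨m, τ⟩ | ⟨_ | ⟨k, σ⟩, t⟩
  · have hτ := τ.idx_lt5
    have hm := m.isLt
    have h1 : 5 * (m : ℕ) + τ.idx < 5 * P.n := by omega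
    rcases a with ⟨l, ρ⟩ | b
    · have hρ := ρ.idx_lt12
      have hl := l.isLt
      have h2 : 12 * (l : ℕ) + ρ.idx < 12 * P.n := by omega
      have e1 : (5 * (m : ℕ) + τ.idx) % 5 = τ.idx := by omega
      have e2 : (5 * (m : ℕ) + τ.idx) / 5 = m := by omega
      have e3 : (12 * (l : ℕ) + ρ.idx) % 12 = ρ.idx := by omega
      have e4 : (12 * (l : ℕ) + ρ.idx) / 12 = l := by omega
      simp only [flatR, flatA, tN, ty, if_pos h1, if_pos h2, e1, e2, e3, e4]
      exact P.tM_eq hW hP τ m hm ρ l hl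
    · cases b <;> simp [flatR, flatA, tN, ty, h1, tyN]
  · have h1 : ∀ c : ℕ, ¬ 5 * P.n + 2 * (12 * P.n) + c < 5 * P.n := by intro c; omega
    have h2 : (5 * P.n + 2 * (12 * P.n) + (if t = true then 1 else 0) - 5 * P.n) / 2 =
        12 * P.n := by split_ifs <;> omega
    simp only [flatR, tN, if_neg (h1 _), h2, lt_irrefl, if_false]
    rcases a with ⟨l, ρ⟩ | b
    · have hρ := ρ.idx_lt12
      have hl := l.isLt
      have h3 : 12 * (l : ℕ) + ρ.idx < 12 * P.n := by omega
      simp [flatA, h3, ty, tyN]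
    · cases b <;> simp [flatA, ty, tyN]
  · have hσ := σ.idx_lt12
    have hk := k.isLt
    have h1 : ∀ c : ℕ, ¬ 5 * P.n + 2 * (12 * (k : ℕ) + σ.idx) + c < 5 * P.n := by
      intro c; omega
    have h2 : (5 * P.n + 2 * (12 * (k : ℕ) + σ.idx) + (if t = true then 1 else 0) - 5 * P.n) / 2 =
        12 * k + σ.idx := by split_ifs <;> omega
    have h3 : 12 * (k : ℕ) + σ.idx < 12 * P.n := by omega
    have h4 : (12 * (k : ℕ) + σ.idx) % 12 = σ.idx := by omega
    simp only [flatR, tN, if_neg (h1 _), h2, if_pos h3, h4, σ.idx_lt6]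
    rcases a with ⟨l, ρ⟩ | b
    · have hρ := ρ.idx_lt12
      have hl := l.isLt
      have h5 : 12 * (l : ℕ) + ρ.idx ≠ 12 * P.n := by omega
      have h6 : 12 * (l : ℕ) + ρ.idx ≠ 12 * P.n + 1 := by omega
      have h7 : (12 * (l : ℕ) + ρ.idx = 12 * k + σ.idx) ↔ (k, σ) = (l, ρ) := by
        constructor
        · intro h
          have hkl : (k : ℕ) = l := by omega
          have : σ.idx = ρ.idx := by omega
          rw [Fin.ext hkl, Sg.idx_injN this]
        · intro h
          rw [Prod.mk.injEq] at h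
          rw [h.1, h.2]
      simp only [flatA, h5, h6, h7, if_false, ty, ite_self]
      split_ifs <;> rfl
    · have h5 : 12 * P.n ≠ 12 * (k : ℕ) + σ.idx := by omega
      have h6 : 12 * P.n + 1 ≠ 12 * (k : ℕ) + σ.idx := by omega
      cases b <;> cases hM : isMain σ <;> simp [flatA, ty, tyN, h5, h6, hM]

theorem eN_eq (hW : P.WF) (hP : P.Op3) (x y : Rw P.n) :
    P.eN (flatR P.n x) (flatR P.n y) = if P.ed x y then 1 else 0 := by
  by_cases hxy : x = y
  · subst hxy
    have hx : ¬ P.ed x x := P.net.irrefl x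
    rw [if_neg hx]
    simp [eN]
  have hne : flatR P.n x ≠ flatR P.n y := fun h => hxy (flatR_inj P.n h)
  rw [eN, if_neg hne]
  have hinl : ∀ (m : Fin P.n) (τ : Rs), flatR P.n (.inl (m, τ)) < 5 * P.n := by
    intro m τ
    have := τ.idx_lt5
    have := m.isLt
    simp only [flatR]
    omega
  have hinr : ∀ c, ¬ flatR P.n (.inr c) < 5 * P.n := by
    rintro ⟨_ | ⟨k, σ⟩, t⟩ <;> simp only [flatR] <;> omega
  have hhalf : ∀ c t, (flatR P.n (.inr (c, t)) - 5 * P.n) / 2 = cidx P.n c := by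
    rintro (_ | ⟨k, σ⟩) t <;> simp only [flatR, cidx] <;> split_ifs <;> omega
  rcases x with ⟨m, τ⟩ | ⟨c, t⟩ <;> rcases y with ⟨k, ρ⟩ | ⟨c', t'⟩
  · rw [if_pos (hinl m τ), if_pos (hinl k ρ)]
    have hτ := τ.idx_lt5
    have hρ := ρ.idx_lt5
    have e1 : (5 * (m : ℕ) + τ.idx) % 5 = τ.idx := by omega
    have e2 : (5 * (m : ℕ) + τ.idx) / 5 = m := by omega
    have e3 : (5 * (k : ℕ) + ρ.idx) % 5 = ρ.idx := by omega
    have e4 : (5 * (k : ℕ) + ρ.idx) / 5 = k := by omega
    simp only [flatR, e1, e2, e3, e4]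
    rw [P.eM_eq hW hP τ m m.isLt ρ k k.isLt, P.eM_eq hW hP ρ k k.isLt τ m m.isLt]
    have hne' : ¬ (m = k ∧ τ = ρ) := by
      rintro ⟨rfl, rfl⟩; exact hxy rfl
    simp only [ed, hne', not_false_iff, true_and]
    by_cases h1 : P.edM τ m ρ k <;> by_cases h2 : P.edM ρ k τ m <;> simp [h1, h2]
  · rw [if_pos (hinl m τ), if_neg (hinr _)]
    simp [ed]
  · rw [if_neg (hinr _), if_pos (hinl k ρ)]
    simp [ed]
  · rw [if_neg (hinr _), if_neg (hinr _), hhalf, hhalf]
    by_cases hc : c = c'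
    · have ht : t ≠ t' := by
        rintro rfl; exact hxy (by rw [hc])
      have hed : P.ed (.inr (c, t)) (.inr (c', t')) := ⟨hc, ht⟩
      rw [if_pos (by rw [hc]), if_pos hed]
    · have hed : ¬ P.ed (.inr (c, t)) (.inr (c', t')) := fun h => hc h.1
      rw [if_neg (fun h => hc (cidx_inj h)), if_neg hed]

end SLP

end Pool.Agent.Lib.MP_79a9b1_lc
end

section

set_option autoImplicit false

/-!
# The adjacency matrix as a function of numbers
-/

namespace Pool.Agent.Lib.MP_79a9b1_lc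

namespace SLP

variable (P : SLP)

theorem flatG_aN_comm (u v : ℕ) : P.aN u v = P.aN v u := by
  unfold aN
  rcases lt_trichotomy u v with h | h | h
  · rw [if_pos h, if_neg (by omega), if_pos h]
  · subst h; rfl
  · rw [if_neg (by omega), if_pos h, if_pos h]

theorem flatG_aN_self (u : ℕ) : P.aN u u = 0 := by
  unfold aN
  rw [if_neg (lt_irrefl _), if_neg (lt_irrefl _)]

theorem flatG_V0 (n : ℕ) : flatV n .e0 = 0 := rfl

theorem flatG_Ve (n : ℕ) (a : Ax n) : flatV n (.e a) = 1 + flatA n a := rfl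

theorem flatG_Vp (n : ℕ) (a : Ax n) : flatV n (.p a) = 1 + (12 * n + 2) + flatA n a := rfl

theorem flatG_Vr (n : ℕ) (x : Rw n) : flatV n (.r x) = 1 + 2 * (12 * n + 2) + flatR n x := rfl

theorem flatG_e0_e (a : Ax P.n) : P.aN (flatV P.n .e0) (flatV P.n (.e a)) = 0 := by
  have ha := flatA_lt P.n a
  rw [flatG_V0, flatG_Ve]
  unfold aN aL
  rw [if_pos (by omega), if_pos (by omega)]

theorem flatG_e0_p (a : Ax P.n) : P.aN (flatV P.n .e0) (flatV P.n (.p a)) = 1 := by
  have ha := flatA_lt P.n a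
  rw [flatG_V0, flatG_Vp]
  unfold aN aL
  rw [if_pos (by omega), if_neg (by omega), if_pos (by omega), if_pos (by omega), if_pos rfl]

theorem flatG_e0_r (x : Rw P.n) : P.aN (flatV P.n .e0) (flatV P.n (.r x)) = 1 := by
  rw [flatG_V0, flatG_Vr]
  unfold aN aL
  rw [if_pos (by omega), if_neg (by omega), if_neg (by omega), if_pos rfl]

theorem flatG_e_e (a b : Ax P.n) : P.aN (flatV P.n (.e a)) (flatV P.n (.e b)) = 0 := by
  have ha := flatA_lt P.n a
  have hb := flatA_lt P.n b
  rw [flatG_Ve, flatG_Ve]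
  unfold aN aL
  rcases lt_trichotomy (1 + flatA P.n a) (1 + flatA P.n b) with h | h | h
  · rw [if_pos h, if_pos (by omega)]
  · rw [if_neg (by omega), if_neg (by omega)]
  · rw [if_neg (by omega), if_pos h, if_pos (by omega)]

theorem flatG_e_p (a b : Ax P.n) :
    P.aN (flatV P.n (.e a)) (flatV P.n (.p b)) = if a = b then 1 else 0 := by
  have ha := flatA_lt P.n a
  have hb := flatA_lt P.n b
  rw [flatG_Ve, flatG_Vp]
  unfold aN aL
  rw [if_pos (by omega), if_neg (by omega), if_pos (by omega), if_pos (by omega),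
    if_neg (by omega)]
  by_cases h : a = b
  · subst h
    rw [if_pos (by omega), if_pos rfl]
  · rw [if_neg h, if_neg]
    intro h'
    exact h (flatA_inj P.n (by omega))

theorem flatG_e_r (hW : P.WF) (hP : P.Op3) (a : Ax P.n) (x : Rw P.n) :
    P.aN (flatV P.n (.e a)) (flatV P.n (.r x)) = if tyN (P.ty x a) = 0 then 0 else 1 := by
  have ha := flatA_lt P.n a
  rw [flatG_Ve, flatG_Vr]
  unfold aN aL
  rw [if_pos (by omega), if_neg (by omega), if_neg (by omega), if_neg (by omega),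
    if_pos (by omega)]
  have h1 : 1 + 2 * (12 * P.n + 2) + flatR P.n x - (1 + 2 * (12 * P.n + 2)) = flatR P.n x := by
    omega
  have h2 : 1 + flatA P.n a - 1 = flatA P.n a := by omega
  rw [h1, h2, P.tN_eq hW hP]

theorem flatG_p_p (a b : Ax P.n) (hab : a ≠ b) :
    P.aN (flatV P.n (.p a)) (flatV P.n (.p b)) = 1 := by
  have ha := flatA_lt P.n a
  have hb := flatA_lt P.n b
  have hne : flatA P.n a ≠ flatA P.n b := fun h => hab (flatA_inj P.n h)
  rw [flatG_Vp, flatG_Vp]
  unfold aN aL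
  rcases lt_trichotomy (flatA P.n a) (flatA P.n b) with h | h | h
  · rw [if_pos (by omega), if_neg (by omega), if_pos (by omega), if_neg (by omega)]
  · exact absurd h hne
  · rw [if_neg (by omega), if_pos (by omega), if_neg (by omega), if_pos (by omega),
      if_neg (by omega)]

theorem flatG_p_r (hW : P.WF) (hP : P.Op3) (a : Ax P.n) (x : Rw P.n) :
    P.aN (flatV P.n (.p a)) (flatV P.n (.r x)) = if tyN (P.ty x a) = 2 then 0 else 1 := by
  have ha := flatA_lt P.n a
  rw [flatG_Vp, flatG_Vr]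
  unfold aN aL
  rw [if_pos (by omega), if_neg (by omega), if_neg (by omega), if_neg (by omega),
    if_neg (by omega), if_pos (by omega)]
  have h1 : 1 + 2 * (12 * P.n + 2) + flatR P.n x - (1 + 2 * (12 * P.n + 2)) = flatR P.n x := by
    omega
  have h2 : 1 + (12 * P.n + 2) + flatA P.n a - (1 + (12 * P.n + 2)) = flatA P.n a := by omega
  rw [h1, h2, P.tN_eq hW hP]

theorem flatG_r_r (hW : P.WF) (hP : P.Op3) (x y : Rw P.n) (hxy : x ≠ y) :
    P.aN (flatV P.n (.r x)) (flatV P.n (.r y)) = if P.ed x y then 0 else 1 := by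
  have hne : flatR P.n x ≠ flatR P.n y := fun h => hxy (flatR_inj P.n h)
  have h1 : ∀ z : Rw P.n,
      1 + 2 * (12 * P.n + 2) + flatR P.n z - (1 + 2 * (12 * P.n + 2)) = flatR P.n z := by
    intro z; omega
  have hsymm : P.ed y x ↔ P.ed x y := ⟨P.net.symm y x, P.net.symm x y⟩
  rw [flatG_Vr, flatG_Vr]
  unfold aN aL
  rcases lt_trichotomy (flatR P.n x) (flatR P.n y) with h | h | h
  · rw [if_pos (by omega), if_neg (by omega), if_neg (by omega), if_neg (by omega),
      if_neg (by omega), if_neg (by omega), h1, h1, P.eN_eq hW hP]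
    by_cases he : P.ed x y <;> simp [he]
  · exact absurd h hne
  · rw [if_neg (by omega), if_pos (by omega), if_neg (by omega), if_neg (by omega),
      if_neg (by omega), if_neg (by omega), if_neg (by omega), h1, h1, P.eN_eq hW hP]
    by_cases he : P.ed x y
    · have he' : P.ed y x := hsymm.mpr he
      simp [he, he']
    · have he' : ¬ P.ed y x := fun h => he (hsymm.mp h)
      simp [he, he']

theorem flatG_sup (x : Rw P.n) (a : Ax P.n) : P.net.sup x a ↔ tyN (P.ty x a) ≠ 0 := by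
  unfold Net.sup net
  simp only
  cases P.ty x a <;> simp [tyN]

theorem flatG_full (x : Rw P.n) (a : Ax P.n) : P.net.full x a ↔ tyN (P.ty x a) = 2 := by
  unfold net
  simp only
  cases P.ty x a <;> simp [tyN]

theorem flatG_main (hW : P.WF) (hP : P.Op3) (u v : NV (Ax P.n) (Rw P.n)) :
    (P.net.graph.Adj u v ∧ P.aN (flatV P.n u) (flatV P.n v) = 1) ∨
      (¬ P.net.graph.Adj u v ∧ P.aN (flatV P.n u) (flatV P.n v) = 0) := by
  by_cases huv : u = v
  · subst huv
    exact Or.inr ⟨fun h => h.1 rfl, P.flatG_aN_self _⟩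
  have key : ∀ u v : NV (Ax P.n) (Rw P.n), u ≠ v → (¬ P.net.nadj u v) →
      P.net.graph.Adj u v := fun u v h1 h2 => ⟨h1, h2⟩
  have key' : ∀ u v : NV (Ax P.n) (Rw P.n), P.net.nadj u v →
      ¬ P.net.graph.Adj u v := fun u v h1 h2 => h2.2 h1
  cases u with
  | e0 => cases v with
    | e0 => exact absurd rfl huv
    | e b => exact Or.inr ⟨key' _ _ trivial, P.flatG_e0_e b⟩
    | p b => exact Or.inl ⟨key _ _ huv (by simp [Net.nadj]), P.flatG_e0_p b⟩
    | r y => exact Or.inl ⟨key _ _ huv (by simp [Net.nadj]), P.flatG_e0_r y⟩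
  | e a => cases v with
    | e0 => exact Or.inr ⟨key' _ _ trivial, (P.flatG_aN_comm _ _).trans (P.flatG_e0_e a)⟩
    | e b => exact Or.inr ⟨key' _ _ trivial, P.flatG_e_e a b⟩
    | p b =>
      by_cases h : a = b
      · exact Or.inl ⟨key _ _ huv (fun h' => h' h), by rw [P.flatG_e_p, if_pos h]⟩
      · exact Or.inr ⟨key' _ _ h, by rw [P.flatG_e_p, if_neg h]⟩
    | r y =>
      by_cases h : tyN (P.ty y a) = 0
      · refine Or.inr ⟨key' _ _ ?_, by rw [P.flatG_e_r hW hP, if_pos h]⟩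
        show ¬ P.net.sup y a
        rw [P.flatG_sup]
        exact fun h' => h' h
      · refine Or.inl ⟨key _ _ huv ?_, by rw [P.flatG_e_r hW hP, if_neg h]⟩
        show ¬ ¬ P.net.sup y a
        rw [P.flatG_sup]
        exact fun h' => h' h
  | p a => cases v with
    | e0 =>
      exact Or.inl ⟨key _ _ huv (by simp [Net.nadj]), (P.flatG_aN_comm _ _).trans (P.flatG_e0_p a)⟩
    | e b =>
      by_cases h : a = b
      · exact Or.inl ⟨key _ _ huv (fun h' => h' h), by
          rw [P.flatG_aN_comm, P.flatG_e_p, if_pos h.symm]⟩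
      · exact Or.inr ⟨key' _ _ h, by
          rw [P.flatG_aN_comm, P.flatG_e_p, if_neg (fun h' => h h'.symm)]⟩
    | p b =>
      have hab : a ≠ b := fun h => huv (by rw [h])
      exact Or.inl ⟨key _ _ huv (by simp [Net.nadj]), P.flatG_p_p a b hab⟩
    | r y =>
      by_cases h : tyN (P.ty y a) = 2
      · refine Or.inr ⟨key' _ _ ?_, by rw [P.flatG_p_r hW hP, if_pos h]⟩
        show P.net.full y a
        rwa [P.flatG_full]
      · refine Or.inl ⟨key _ _ huv ?_, by rw [P.flatG_p_r hW hP, if_neg h]⟩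
        show ¬ P.net.full y a
        rwa [P.flatG_full]
  | r x => cases v with
    | e0 =>
      exact Or.inl ⟨key _ _ huv (by simp [Net.nadj]), (P.flatG_aN_comm _ _).trans (P.flatG_e0_r x)⟩
    | e b =>
      by_cases h : tyN (P.ty x b) = 0
      · refine Or.inr ⟨key' _ _ ?_, by rw [P.flatG_aN_comm, P.flatG_e_r hW hP, if_pos h]⟩
        show ¬ P.net.sup x b
        rw [P.flatG_sup]
        exact fun h' => h' h
      · refine Or.inl ⟨key _ _ huv ?_, by rw [P.flatG_aN_comm, P.flatG_e_r hW hP, if_neg h]⟩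
        show ¬ ¬ P.net.sup x b
        rw [P.flatG_sup]
        exact fun h' => h' h
    | p b =>
      by_cases h : tyN (P.ty x b) = 2
      · refine Or.inr ⟨key' _ _ ?_, by rw [P.flatG_aN_comm, P.flatG_p_r hW hP, if_pos h]⟩
        show P.net.full x b
        rwa [P.flatG_full]
      · refine Or.inl ⟨key _ _ huv ?_, by rw [P.flatG_aN_comm, P.flatG_p_r hW hP, if_neg h]⟩
        show ¬ P.net.full x b
        rwa [P.flatG_full]
    | r y =>
      have hxy : x ≠ y := fun h => huv (by rw [h])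
      by_cases h : P.ed x y
      · exact Or.inr ⟨key' _ _ h, by rw [P.flatG_r_r hW hP x y hxy, if_pos h]⟩
      · exact Or.inl ⟨key _ _ huv h, by rw [P.flatG_r_r hW hP x y hxy, if_neg h]⟩

theorem aN_of_adj (hW : P.WF) (hP : P.Op3) (u v : NV (Ax P.n) (Rw P.n)) (h : P.net.graph.Adj u v) :
    P.aN (flatV P.n u) (flatV P.n v) = 1 := by
  rcases P.flatG_main hW hP u v with h' | h'
  · exact h'.2
  · exact absurd h h'.1

theorem aN_of_not_adj (hW : P.WF) (hP : P.Op3) (u v : NV (Ax P.n) (Rw P.n)) (h : ¬ P.net.graph.Adj u v) :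
    P.aN (flatV P.n u) (flatV P.n v) = 0 := by
  rcases P.flatG_main hW hP u v with h' | h'
  · exact absurd h'.1 h
  · exact h'.2

end SLP

end Pool.Agent.Lib.MP_79a9b1_lc
end
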