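import Pool.Agent.Lib.MP_79a9b1_lc.Front
import Pool.Agent.Lib.MP_79a9b1_lc.Defs
import Pool.Agent.Lib.MP_79a9b1_lc.Net

section

set_option autoImplicit false

/-!
# A true sentence has a solvable system
-/

namespace Pool.Agent.Lib.MP_79a9b1_lc

theorem fronta_rec {β : Type} (b : ℕ) (rel : ℕ → (ℕ → β) → β → Prop) (y₀ : ℕ → β)
    (hrel : ∀ k < b, ∀ y : ℕ → β, (∀ j < k, rel j y (y j)) → ∃ c, rel k y c)
    (hloc : ∀ k < b, ∀ (y y' : ℕ → β) (c : β), (∀ j < k, y j = y' j) → rel k y c → rel k y' c) :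
    ∃ y : ℕ → β, ∀ k < b, rel k y (y k) := by
  have key : ∀ n ≤ b, ∃ y : ℕ → β, ∀ k < n, rel k y (y k) := by
    intro n
    induction n with
    | zero => exact fun _ => ⟨y₀, fun k hk => absurd hk (by omega)⟩
    | succ n ih =>
      intro hn
      obtain ⟨y, hy⟩ := ih (by omega)
      obtain ⟨c, hc⟩ := hrel n (by omega) y hy
      refine ⟨Function.update y n c, fun k hk => ?_⟩
      have hj : ∀ j < k, y j = Function.update y n c j := fun j hj =>
        (Function.update_of_ne (by omega) _ _).symm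
      by_cases hkn : k = n
      · subst hkn
        rw [Function.update_self]
        exact hloc k (by omega) y _ c hj hc
      · rw [Function.update_of_ne hkn]
        exact hloc k (by omega) y _ (y k) hj (hy k (by omega))
  exact key b le_rfl

/-- Witnesses for `t = 0`. -/
theorem fronta_zero (t : ℝ) : ∃ c : ℕ → ℝ, c 0 = t ∧ t * c 2 = c 4 ∧ c 1 + 1 = c 4 ∧
    (t = 0 → c 0 = 0) ∧ (t ≠ 0 → c 1 = 0) := by
  by_cases ht : t = 0
  · refine ⟨fun i => if i = 1 then -1 else 0, ?_, ?_, ?_, ?_, ?_⟩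
    · simp [ht]
    · simp
    · simp
    · intro _
      simp
    · intro h
      exact absurd ht h
  · refine ⟨fun i => if i = 0 then t else if i = 2 then t⁻¹ else if i = 4 then 1 else 0,
      ?_, ?_, ?_, ?_, ?_⟩
    · simp
    · simp [ht]
    · simp
    · intro h
      exact absurd h ht
    · intro _
      simp

/-- Witnesses for `0 < t`. -/
theorem fronta_pos (t : ℝ) : ∃ c : ℕ → ℝ, c 2 * c 2 = c 4 ∧ t * c 4 = c 5 ∧ c 0 + 1 = c 5 ∧
    c 3 * c 3 = c 6 ∧ t + c 6 = c 1 ∧ (0 < t → c 0 = 0) ∧ (¬ 0 < t → c 1 = 0) := by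
  by_cases ht : 0 < t
  · have h1 : (√ t)⁻¹ * (√ t)⁻¹ = t⁻¹ := by
      rw [← mul_inv, Real.mul_self_sqrt ht.le]
    refine ⟨fun i => if i = 1 then t else if i = 2 then (√ t)⁻¹ else if i = 4 then t⁻¹ else
      if i = 5 then 1 else 0, ?_, ?_, ?_, ?_, ?_, ?_, ?_⟩
    · simpa using h1
    · simp [ht.ne']
    · simp
    · simp
    · simp
    · intro _
      simp
    · intro h
      exact absurd ht h
  · have h1 : √ (-t) * √ (-t) = -t := Real.mul_self_sqrt (by linarith)
    refine ⟨fun i => if i = 0 then -1 else if i = 3 then √ (-t) else if i = 6 then -t else 0,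
      ?_, ?_, ?_, ?_, ?_, ?_, ?_⟩
    · simp
    · simp
    · simp
    · simpa using h1
    · simp
    · intro h
      exact absurd h ht
    · intro _
      simp

namespace Raw

variable (R : Raw)

/-- The equations and the invariants of the formula `k`, in terms of its variables `c` and the
variables `y` of the earlier formulas. -/
def frontaRel (v : ℕ → ℝ) (s : ℕ → Prop) (k : ℕ) (y : ℕ → ℕ → ℝ) (c : ℕ → ℝ) : Prop :=
  (R.ft k = 0 → c 0 = v (R.fa k) ∧ v (R.fa k) * c 2 = c 4 ∧ c 1 + 1 = c 4) ∧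
  (R.ft k = 1 → c 2 * c 2 = c 4 ∧ v (R.fa k) * c 4 = c 5 ∧ c 0 + 1 = c 5 ∧ c 3 * c 3 = c 6 ∧
    v (R.fa k) + c 6 = c 1) ∧
  (R.ft k = 2 → c 0 = y (R.fa k) 1 ∧ c 1 = y (R.fa k) 0) ∧
  (R.ft k = 3 → y (R.fa k) 0 * y (R.fa k) 0 = c 4 ∧ y (R.fb k) 0 * y (R.fb k) 0 = c 5 ∧
    c 4 + c 5 = c 0 ∧ y (R.fa k) 1 * y (R.fb k) 1 = c 1) ∧
  (R.ft k = 4 → y (R.fa k) 1 * y (R.fa k) 1 = c 4 ∧ y (R.fb k) 1 * y (R.fb k) 1 = c 5 ∧
    c 4 + c 5 = c 1 ∧ y (R.fa k) 0 * y (R.fb k) 0 = c 0) ∧
  (s k → c 0 = 0) ∧ (¬ s k → c 1 = 0)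

theorem fronta_exists (hR : R.WF) (v : ℕ → ℝ) (s : ℕ → Prop)
    (hs : ∀ k < R.b, (R.ft k = 0 → (s k ↔ v (R.fa k) = 0)) ∧
      (R.ft k = 1 → (s k ↔ 0 < v (R.fa k))) ∧
      (R.ft k = 2 → (s k ↔ ¬ s (R.fa k))) ∧ (R.ft k = 3 → (s k ↔ s (R.fa k) ∧ s (R.fb k))) ∧
      (R.ft k = 4 → (s k ↔ s (R.fa k) ∨ s (R.fb k)))) :
    ∃ y : ℕ → ℕ → ℝ, ∀ k < R.b, R.frontaRel v s k y (y k) := by
  refine fronta_rec R.b (R.frontaRel v s) (fun _ _ => 0) ?_ ?_
  · intro k hk y hy
    have h4 := hR.ft k hk
    have h5 : R.ft k = 0 ∨ R.ft k = 1 ∨ R.ft k = 2 ∨ R.ft k = 3 ∨ R.ft k = 4 := by omega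
    obtain ⟨g0, g1, g2, g3, g4⟩ := hs k hk
    rcases h5 with h | h | h | h | h
    · obtain ⟨c, c1, c2, c3, c4, c5⟩ := fronta_zero (v (R.fa k))
      have g := g0 h
      refine ⟨c, fun _ => ⟨c1, c2, c3⟩, fun e => ?_, fun e => ?_, fun e => ?_, fun e => ?_,
        fun e => c4 (g.1 e), fun e => c5 fun e' => e (g.2 e')⟩ <;> omega
    · obtain ⟨c, c1, c2, c3, c4, c5, c6, c7⟩ := fronta_pos (v (R.fa k))
      have g := g1 h
      refine ⟨c, fun e => ?_, fun _ => ⟨c1, c2, c3, c4, c5⟩, fun e => ?_, fun e => ?_,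
        fun e => ?_, fun e => c6 (g.1 e), fun e => c7 fun e' => e (g.2 e')⟩ <;> omega
    · have ha := hy _ (hR.g k hk (by omega))
      have g := g2 h
      refine ⟨fun i => if i = 0 then y (R.fa k) 1 else y (R.fa k) 0, fun e => ?_, fun e => ?_,
        fun _ => ⟨rfl, rfl⟩, fun e => ?_, fun e => ?_, fun e => ?_, fun e => ?_⟩
      · omega
      · omega
      · omega
      · omega
      · exact ha.2.2.2.2.2.2 (g.1 e)
      · refine ha.2.2.2.2.2.1 ?_
        by_contra e'
        exact e (g.2 e')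
    · have ha := hy _ (hR.g k hk (by omega))
      have hb := hy _ (hR.h k hk (by omega))
      have g := g3 h
      refine ⟨fun i => if i = 4 then y (R.fa k) 0 * y (R.fa k) 0 else
        if i = 5 then y (R.fb k) 0 * y (R.fb k) 0 else
        if i = 0 then y (R.fa k) 0 * y (R.fa k) 0 + y (R.fb k) 0 * y (R.fb k) 0 else
          y (R.fa k) 1 * y (R.fb k) 1, fun e => ?_, fun e => ?_, fun e => ?_,
        fun _ => ⟨rfl, rfl, rfl, rfl⟩, fun e => ?_, fun e => ?_, fun e => ?_⟩
      · omega
      · omega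
      · omega
      · omega
      · have e1 := ha.2.2.2.2.2.1 (g.1 e).1
        have e2 := hb.2.2.2.2.2.1 (g.1 e).2
        show y (R.fa k) 0 * y (R.fa k) 0 + y (R.fb k) 0 * y (R.fb k) 0 = 0
        rw [e1, e2]
        ring
      · show y (R.fa k) 1 * y (R.fb k) 1 = 0
        by_cases e1 : s (R.fa k)
        · have e2 : ¬ s (R.fb k) := fun e2 => e (g.2 ⟨e1, e2⟩)
          rw [hb.2.2.2.2.2.2 e2, mul_zero]
        · rw [ha.2.2.2.2.2.2 e1, zero_mul]
    · have ha := hy _ (hR.g k hk (by omega))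
      have hb := hy _ (hR.h k hk (by omega))
      have g := g4 h
      refine ⟨fun i => if i = 4 then y (R.fa k) 1 * y (R.fa k) 1 else
        if i = 5 then y (R.fb k) 1 * y (R.fb k) 1 else
        if i = 1 then y (R.fa k) 1 * y (R.fa k) 1 + y (R.fb k) 1 * y (R.fb k) 1 else
          y (R.fa k) 0 * y (R.fb k) 0, fun e => ?_, fun e => ?_, fun e => ?_,
        fun e => ?_, fun _ => ⟨rfl, rfl, rfl, rfl⟩, fun e => ?_, fun e => ?_⟩
      · omega
      · omega
      · omega
      · omega
      · show y (R.fa k) 0 * y (R.fb k) 0 = 0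
        rcases g.1 e with e1 | e1
        · rw [ha.2.2.2.2.2.1 e1, zero_mul]
        · rw [hb.2.2.2.2.2.1 e1, mul_zero]
      · have e1 : ¬ s (R.fa k) := fun e1 => e (g.2 (Or.inl e1))
        have e2 : ¬ s (R.fb k) := fun e2 => e (g.2 (Or.inr e2))
        show y (R.fa k) 1 * y (R.fa k) 1 + y (R.fb k) 1 * y (R.fb k) 1 = 0
        rw [ha.2.2.2.2.2.2 e1, hb.2.2.2.2.2.2 e2]
        ring
  · intro k hk y y' c hy hc
    obtain ⟨h0, h1, h2, h3, h4, h5, h6⟩ := hc
    refine ⟨h0, h1, fun h => ?_, fun h => ?_, fun h => ?_, h5, h6⟩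
    · rw [← hy _ (hR.g k hk (by omega))]
      exact h2 h
    · rw [← hy _ (hR.g k hk (by omega)), ← hy _ (hR.h k hk (by omega))]
      exact h3 h
    · rw [← hy _ (hR.g k hk (by omega)), ← hy _ (hR.h k hk (by omega))]
      exact h4 h

theorem solv_of_holds (hR : R.WF) (h : R.Holds) : R.bsys.Solv := by
  obtain ⟨v, s, hv, hs, hroot⟩ := h
  obtain ⟨y, hy⟩ := R.fronta_exists hR v s hs
  obtain ⟨x, hx⟩ : ∃ x : ℕ → ℝ, x = fun i => if i = 0 then 1 else if i < 1 + R.a then v (i - 1)
      else y ((i - 1 - R.a) / 8) ((i - 1 - R.a) % 8) := ⟨_, rfl⟩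
  have hx0 : x 0 = 1 := by rw [hx]; rfl
  have hxt : ∀ k < R.a, x (1 + k) = v k := by
    intro k hk
    rw [hx]
    simp only
    rw [if_neg (by omega), if_pos (by omega), Nat.add_sub_cancel_left]
  have hxf : ∀ k c, c < 8 → x (R.V k + c) = y k c := by
    intro k c hc
    have hV : R.V k + c = 1 + R.a + 8 * k + c := rfl
    rw [hV, hx]
    simp only
    rw [if_neg (by omega), if_neg (by omega)]
    have e1 : (1 + R.a + 8 * k + c - 1 - R.a) / 8 = k := by omega
    have e2 : (1 + R.a + 8 * k + c - 1 - R.a) % 8 = c := by omega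
    rw [e1, e2]
  have hxf0 : ∀ k, x (R.V k) = y k 0 := fun k => hxf k 0 (by norm_num)
  refine ⟨x, hx0, fun e he => ?_⟩
  have he' : e < R.a + 6 * R.b + 1 := he
  rcases lt_or_ge e R.a with h1 | h1
  · simp only [BSYS.res, bsys, eTy, eI, eJ, eK, if_pos h1]
    have h4 := hR.tt e h1
    have h5 : R.tt e = 0 ∨ R.tt e = 1 ∨ R.tt e = 2 ∨ R.tt e = 3 ∨ R.tt e = 4 := by omega
    obtain ⟨g1, g2, g3, g4⟩ := hv e h1
    rcases h5 with h | h | h | h | h
    · simp [h, hx0]
    · simp [h, hx0, hxt e h1, g1 h]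
    · have ha := hR.t e h1 (by omega)
      simp [h, hxt e h1, g2 h, hxt (R.ta e) (by omega), hxt (R.tb e) (by omega)]
    · have ha := hR.t e h1 (by omega)
      simp [h, hxt e h1, g3 h, hxt (R.ta e) (by omega), hxt (R.tb e) (by omega)]
    · have ha := hR.t e h1 (by omega)
      simp [h, hxt e h1, g4 h, hxt (R.ta e) (by omega), hxt (R.tb e) (by omega)]
  · rcases lt_or_ge e (R.a + 6 * R.b) with h2 | h2
    · have e1 : ¬ e < R.a := by omega
      simp only [BSYS.res, bsys, eTy, eI, eJ, eK, if_neg e1, if_pos h2]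
      obtain ⟨k, hk⟩ : ∃ k, k = (e - R.a) / 6 := ⟨_, rfl⟩
      obtain ⟨r, hr⟩ : ∃ r, r = (e - R.a) % 6 := ⟨_, rfl⟩
      rw [← hk, ← hr]
      have hkb : k < R.b := by omega
      have hr6 : r = 0 ∨ r = 1 ∨ r = 2 ∨ r = 3 ∨ r = 4 ∨ r = 5 := by omega
      have h4 := hR.ft k hkb
      have h5 : R.ft k = 0 ∨ R.ft k = 1 ∨ R.ft k = 2 ∨ R.ft k = 3 ∨ R.ft k = 4 := by omega
      obtain ⟨g0, g1, g2, g3, g4, -, -⟩ := hy k hkb
      have f1 := hxf k 1 (by norm_num)
      have f2 := hxf k 2 (by norm_num)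
      have f3 := hxf k 3 (by norm_num)
      have f4 := hxf k 4 (by norm_num)
      have f5 := hxf k 5 (by norm_num)
      have f6 := hxf k 6 (by norm_num)
      have fa1 := hxf (R.fa k) 1 (by norm_num)
      have fb1 := hxf (R.fb k) 1 (by norm_num)
      rcases h5 with h | h | h | h | h
      · obtain ⟨q1, q2, q3⟩ := g0 h
        have ha := hxt (R.fa k) (hR.f k hkb (by omega))
        rcases hr6 with r0 | r0 | r0 | r0 | r0 | r0 <;>
          simp [fTy, fI, fJ, fK, h, r0, hx0, hxf0, f1, f2, f4, ha] <;> linarith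
      · obtain ⟨q1, q2, q3, q4, q5⟩ := g1 h
        have ha := hxt (R.fa k) (hR.f k hkb (by omega))
        rcases hr6 with r0 | r0 | r0 | r0 | r0 | r0 <;>
          simp [fTy, fI, fJ, fK, h, r0, hx0, hxf0, f1, f2, f3, f4, f5, f6, ha] <;> linarith
      · obtain ⟨q1, q2⟩ := g2 h
        rcases hr6 with r0 | r0 | r0 | r0 | r0 | r0 <;>
          simp [fTy, fI, fJ, fK, h, r0, hx0, hxf0, f1, fa1] <;> linarith
      · obtain ⟨q1, q2, q3, q4⟩ := g3 h
        rcases hr6 with r0 | r0 | r0 | r0 | r0 | r0 <;>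
          simp [fTy, fI, fJ, fK, h, r0, hx0, hxf0, f1, f4, f5, fa1, fb1] <;> linarith
      · obtain ⟨q1, q2, q3, q4⟩ := g4 h
        rcases hr6 with r0 | r0 | r0 | r0 | r0 | r0 <;>
          simp [fTy, fI, fJ, fK, h, r0, hx0, hxf0, f1, f4, f5, fa1, fb1] <;> linarith
    · have e1 : ¬ e < R.a := by omega
      have e2 : ¬ e < R.a + 6 * R.b := by omega
      simp only [BSYS.res, bsys, eTy, eI, eJ, eK, if_neg e1, if_neg e2, if_true, hxf0]
      have hb := hR.pos
      rw [(hy (R.b - 1) (by omega)).2.2.2.2.2.1 hroot]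
      ring

end Raw

end Pool.Agent.Lib.MP_79a9b1_lc
end

section

set_option autoImplicit false

/-!
# A sentence with a solvable system is true
-/

namespace Pool.Agent.Lib.MP_79a9b1_lc

theorem frontb_rec {β : Type} (b : ℕ) (rel : ℕ → (ℕ → β) → β → Prop) (y₀ : ℕ → β)
    (hrel : ∀ k < b, ∀ y : ℕ → β, (∀ j < k, rel j y (y j)) → ∃ c, rel k y c)
    (hloc : ∀ k < b, ∀ (y y' : ℕ → β) (c : β), (∀ j < k, y j = y' j) → rel k y c → rel k y' c) :
    ∃ y : ℕ → β, ∀ k < b, rel k y (y k) := by
  have key : ∀ n ≤ b, ∃ y : ℕ → β, ∀ k < n, rel k y (y k) := by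
    intro n
    induction n with
    | zero => exact fun _ => ⟨y₀, fun k hk => absurd hk (by omega)⟩
    | succ n ih =>
      intro hn
      obtain ⟨y, hy⟩ := ih (by omega)
      obtain ⟨c, hc⟩ := hrel n (by omega) y hy
      refine ⟨Function.update y n c, fun k hk => ?_⟩
      have hj : ∀ j < k, y j = Function.update y n c j := fun j hj =>
        (Function.update_of_ne (by omega) _ _).symm
      by_cases hkn : k = n
      · subst hkn
        rw [Function.update_self]
        exact hloc k (by omega) y _ c hj hc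
      · rw [Function.update_of_ne hkn]
        exact hloc k (by omega) y _ (y k) hj (hy k (by omega))
  exact key b le_rfl

namespace Raw

variable (R : Raw)

/-- The truth values of the formulas. -/
theorem frontb_exists (hR : R.WF) (v : ℕ → ℝ) : ∃ s : ℕ → Prop,
    ∀ k < R.b, (R.ft k = 0 → (s k ↔ v (R.fa k) = 0)) ∧ (R.ft k = 1 → (s k ↔ 0 < v (R.fa k))) ∧
      (R.ft k = 2 → (s k ↔ ¬ s (R.fa k))) ∧ (R.ft k = 3 → (s k ↔ s (R.fa k) ∧ s (R.fb k))) ∧
      (R.ft k = 4 → (s k ↔ s (R.fa k) ∨ s (R.fb k))) := by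
  refine frontb_rec R.b (fun k s c => (R.ft k = 0 → (c ↔ v (R.fa k) = 0)) ∧
      (R.ft k = 1 → (c ↔ 0 < v (R.fa k))) ∧
      (R.ft k = 2 → (c ↔ ¬ s (R.fa k))) ∧ (R.ft k = 3 → (c ↔ s (R.fa k) ∧ s (R.fb k))) ∧
      (R.ft k = 4 → (c ↔ s (R.fa k) ∨ s (R.fb k)))) (fun _ => True) ?_ ?_
  · intro k hk s _
    have h4 := hR.ft k hk
    have h5 : R.ft k = 0 ∨ R.ft k = 1 ∨ R.ft k = 2 ∨ R.ft k = 3 ∨ R.ft k = 4 := by omega
    rcases h5 with h | h | h | h | h
    · exact ⟨v (R.fa k) = 0, by simp [h]⟩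
    · exact ⟨0 < v (R.fa k), by simp [h]⟩
    · exact ⟨¬ s (R.fa k), by simp [h]⟩
    · exact ⟨s (R.fa k) ∧ s (R.fb k), by simp [h]⟩
    · exact ⟨s (R.fa k) ∨ s (R.fb k), by simp [h]⟩
  · intro k hk s s' c hs hc
    obtain ⟨h0, h1, h2, h3, h4⟩ := hc
    refine ⟨h0, h1, fun h => ?_, fun h => ?_, fun h => ?_⟩
    · rw [← hs _ (hR.g k hk (by omega))]
      exact h2 h
    · rw [← hs _ (hR.g k hk (by omega)), ← hs _ (hR.h k hk (by omega))]
      exact h3 h
    · rw [← hs _ (hR.g k hk (by omega)), ← hs _ (hR.h k hk (by omega))]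
      exact h4 h

/-- The equations of the formula `k`. -/
theorem frontb_eq {x : ℕ → ℝ} (hx : ∀ e < R.bsys.ne, R.bsys.res x e = 0) {k r : ℕ}
    (hk : k < R.b) (hr : r < 6) :
    (if R.fTy k r = 0 then x (R.fI k r) + x (R.fJ k r) - x (R.fK k r)
      else x (R.fI k r) * x (R.fJ k r) - x (R.fK k r)) = 0 := by
  have h1 : R.a + (6 * k + r) < R.bsys.ne := by
    show _ < R.a + 6 * R.b + 1
    omega
  have h2 := hx _ h1
  have e1 : ¬ R.a + (6 * k + r) < R.a := by omega
  have e2 : R.a + (6 * k + r) < R.a + 6 * R.b := by omega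
  have e3 : (R.a + (6 * k + r) - R.a) / 6 = k := by omega
  have e4 : (R.a + (6 * k + r) - R.a) % 6 = r := by omega
  simp only [BSYS.res, bsys, eTy, eI, eJ, eK, if_neg e1, if_pos e2, e3, e4] at h2
  exact h2

theorem holds_of_solv (hR : R.WF) (h : R.bsys.Solv) : R.Holds := by
  obtain ⟨x, hx0, hx⟩ := h
  obtain ⟨s, hs⟩ := R.frontb_exists hR fun k => x (1 + k)
  refine ⟨fun k => x (1 + k), s, ?_, hs, ?_⟩
  · intro k hk
    have h1 : k < R.bsys.ne := by
      show k < R.a + 6 * R.b + 1
      omega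
    have h2 := hx k h1
    simp only [BSYS.res, bsys, eTy, eI, eJ, eK, if_pos hk] at h2
    refine ⟨fun h => ?_, fun h => ?_, fun h => ?_, fun h => ?_⟩
    · simp only [h, OfNat.one_ne_ofNat, if_false, if_true, one_ne_zero, hx0] at h2
      linarith
    · simp only [h, if_true] at h2
      linarith
    · norm_num [h] at h2
      linarith
    · norm_num [h] at h2
      linarith
  · have key : ∀ k < R.b, (x (R.V k) = 0 → s k) ∧ (x (R.V k + 1) = 0 → ¬ s k) := by
      intro k
      induction k using Nat.strong_induction_on with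
      | _ k ih =>
        intro hk
        have q0 := R.frontb_eq hx hk (r := 0) (by norm_num)
        have q1 := R.frontb_eq hx hk (r := 1) (by norm_num)
        have q2 := R.frontb_eq hx hk (r := 2) (by norm_num)
        have q3 := R.frontb_eq hx hk (r := 3) (by norm_num)
        have q4 := R.frontb_eq hx hk (r := 4) (by norm_num)
        have h4 := hR.ft k hk
        have h5 : R.ft k = 0 ∨ R.ft k = 1 ∨ R.ft k = 2 ∨ R.ft k = 3 ∨ R.ft k = 4 := by omega
        obtain ⟨g0, g1, g2, g3, g4⟩ := hs k hk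
        rcases h5 with h | h | h | h | h
        · simp [fTy, fI, fJ, fK, h, hx0] at q0 q1 q2
          rw [g0 h]
          constructor
          · intro h6
            linarith
          · intro h6 h7
            rw [h7, zero_mul] at q1
            linarith
        · simp [fTy, fI, fJ, fK, h] at q0 q1 q2 q3 q4
          rw [g1 h]
          constructor
          · intro h6
            rw [h6, hx0] at q2
            by_contra h7
            push Not at h7
            have h8 : 0 ≤ x (R.V k + 4) := by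
              have := mul_self_nonneg (x (R.V k + 2))
              linarith
            have h9 := mul_nonneg (neg_nonneg.2 h7) h8
            linarith
          · intro h6
            rw [h6] at q4
            have := mul_self_nonneg (x (R.V k + 3))
            push Not
            linarith
        · simp [fTy, fI, fJ, fK, h, hx0] at q0 q1
          obtain ⟨i1, i2⟩ := ih _ (hR.g k hk (by omega)) (by have := hR.g k hk (by omega); omega)
          rw [g2 h]
          constructor
          · intro h6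
            exact i2 (by linarith)
          · intro h6 h7
            exact h7 (i1 (by linarith))
        · simp [fTy, fI, fJ, fK, h] at q0 q1 q2 q3
          obtain ⟨i1, i2⟩ := ih _ (hR.g k hk (by omega)) (by have := hR.g k hk (by omega); omega)
          obtain ⟨j1, j2⟩ := ih _ (hR.h k hk (by omega)) (by have := hR.h k hk (by omega); omega)
          rw [g3 h]
          constructor
          · intro h6
            have a1 := mul_self_nonneg (x (R.V (R.fa k)))
            have a2 := mul_self_nonneg (x (R.V (R.fb k)))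
            refine ⟨i1 (mul_self_eq_zero.1 (by linarith)), j1 (mul_self_eq_zero.1 (by linarith))⟩
          · intro h6 h7
            rw [h6] at q3
            rcases mul_eq_zero.1 (sub_eq_zero.1 q3) with h8 | h8
            · exact i2 h8 h7.1
            · exact j2 h8 h7.2
        · simp [fTy, fI, fJ, fK, h] at q0 q1 q2 q3
          obtain ⟨i1, i2⟩ := ih _ (hR.g k hk (by omega)) (by have := hR.g k hk (by omega); omega)
          obtain ⟨j1, j2⟩ := ih _ (hR.h k hk (by omega)) (by have := hR.h k hk (by omega); omega)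
          rw [g4 h]
          constructor
          · intro h6
            rw [h6] at q3
            rcases mul_eq_zero.1 (sub_eq_zero.1 q3) with h8 | h8
            · exact Or.inl (i1 h8)
            · exact Or.inr (j1 h8)
          · intro h6
            have a1 := mul_self_nonneg (x (R.V (R.fa k) + 1))
            have a2 := mul_self_nonneg (x (R.V (R.fb k) + 1))
            push Not
            exact ⟨i2 (mul_self_eq_zero.1 (by linarith)), j2 (mul_self_eq_zero.1 (by linarith))⟩
    have hb := hR.pos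
    have h1 : R.a + 6 * R.b < R.bsys.ne := by
      show _ < R.a + 6 * R.b + 1
      omega
    have h2 := hx _ h1
    have e1 : ¬ R.a + 6 * R.b < R.a := by omega
    have e2 : ¬ R.a + 6 * R.b < R.a + 6 * R.b := by omega
    simp only [BSYS.res, bsys, eTy, eI, eJ, eK, if_neg e1, if_neg e2, if_true] at h2
    exact (key (R.b - 1) (by omega)).1 (by linarith)

end Raw

end Pool.Agent.Lib.MP_79a9b1_lc
end

section

set_option autoImplicit false

/-!
# Sentences as numbers
-/

namespace Pool.Agent.Lib.MP_79a9b1_lc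

theorem ETR.raw_wf (I : ETR) (h : I.WF) : I.raw.WF := by
  obtain ⟨h1, h2, h3, h4, h5⟩ := h
  refine ⟨?_, ?_, ?_, ?_, ?_, ?_, ?_⟩
  · intro k hk hc
    have hk' : k < I.terms.length := hk
    have e : I.terms[k]? = some I.terms[k] := List.getElem?_eq_getElem hk'
    have a1 := h1 k
    simp only [ETR.raw] at hc ⊢
    rw [e] at hc a1 ⊢
    generalize I.terms[k] = x at hc a1 ⊢
    cases x with
    | var => simp [TNode.code] at hc
    | one => simp [TNode.code] at hc
    | add i j => simpa [TNode.fst, TNode.snd] using a1 i j (Or.inl rfl)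
    | sub i j => simpa [TNode.fst, TNode.snd] using a1 i j (Or.inr (Or.inl rfl))
    | mul i j => simpa [TNode.fst, TNode.snd] using a1 i j (Or.inr (Or.inr rfl))
  · intro k hk
    have hk' : k < I.terms.length := hk
    have e : I.terms[k]? = some I.terms[k] := List.getElem?_eq_getElem hk'
    simp only [ETR.raw]
    rw [e]
    generalize I.terms[k] = x
    cases x <;> simp [TNode.code]
  · intro k hk
    have hk' : k < I.forms.length := hk
    have e : I.forms[k]? = some I.forms[k] := List.getElem?_eq_getElem hk'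
    simp only [ETR.raw]
    rw [e]
    generalize I.forms[k] = x
    cases x <;> simp [FNode.code]
  · intro k hk hc
    have hk' : k < I.forms.length := hk
    have e : I.forms[k]? = some I.forms[k] := List.getElem?_eq_getElem hk'
    have a2 := h2 k
    simp only [ETR.raw] at hc ⊢
    rw [e] at hc a2 ⊢
    generalize I.forms[k] = x at hc a2 ⊢
    cases x with
    | eq0 i => simpa [FNode.fst] using a2 i (Or.inl rfl)
    | pos i => simpa [FNode.fst] using a2 i (Or.inr rfl)
    | not i => simp [FNode.code] at hc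
    | and i j => simp [FNode.code] at hc
    | or i j => simp [FNode.code] at hc
  · intro k hk hc
    have hk' : k < I.forms.length := hk
    have e : I.forms[k]? = some I.forms[k] := List.getElem?_eq_getElem hk'
    have a3 := h3 k
    have a4 := h4 k
    simp only [ETR.raw] at hc ⊢
    rw [e] at hc a3 a4 ⊢
    generalize I.forms[k] = x at hc a3 a4 ⊢
    cases x with
    | eq0 i => simp [FNode.code] at hc
    | pos i => simp [FNode.code] at hc
    | not i => simpa [FNode.fst] using a3 i rfl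
    | and i j => simpa [FNode.fst] using (a4 i j (Or.inl rfl)).1
    | or i j => simpa [FNode.fst] using (a4 i j (Or.inr rfl)).1
  · intro k hk hc
    have hk' : k < I.forms.length := hk
    have e : I.forms[k]? = some I.forms[k] := List.getElem?_eq_getElem hk'
    have a4 := h4 k
    simp only [ETR.raw] at hc ⊢
    rw [e] at hc a4 ⊢
    generalize I.forms[k] = x at hc a4 ⊢
    cases x with
    | eq0 i => simp [FNode.code] at hc
    | pos i => simp [FNode.code] at hc
    | not i => simp [FNode.code] at hc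
    | and i j => simpa [FNode.snd] using (a4 i j (Or.inl rfl)).2
    | or i j => simpa [FNode.snd] using (a4 i j (Or.inr rfl)).2
  · show 0 < I.forms.length
    exact List.length_pos_iff.mpr h5

theorem frontC_t (I : ETR) (v : ℕ → ℝ) :
    I.TVal v ↔ ∀ k < I.raw.a, (I.raw.tt k = 1 → v k = 1) ∧
      (I.raw.tt k = 2 → v k = v (I.raw.ta k) + v (I.raw.tb k)) ∧
      (I.raw.tt k = 3 → v k = v (I.raw.ta k) - v (I.raw.tb k)) ∧
      (I.raw.tt k = 4 → v k = v (I.raw.ta k) * v (I.raw.tb k)) := by
  unfold ETR.TVal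
  refine forall_congr' fun k => ?_
  by_cases hk : k < I.terms.length
  · have e : I.terms[k]? = some I.terms[k] := List.getElem?_eq_getElem hk
    have hk' : k < I.raw.a := hk
    simp only [hk', forall_true_left]
    simp only [ETR.raw]
    rw [e]
    generalize I.terms[k] = x
    cases x <;> simp [TNode.code, TNode.fst, TNode.snd]
  · have e : I.terms[k]? = none := List.getElem?_eq_none (not_lt.mp hk)
    have hk' : ¬ k < I.raw.a := hk
    simp [e, hk']

theorem frontC_f (I : ETR) (v : ℕ → ℝ) (s : ℕ → Prop) :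
    I.FVal v s ↔ ∀ k < I.raw.b, (I.raw.ft k = 0 → (s k ↔ v (I.raw.fa k) = 0)) ∧
      (I.raw.ft k = 1 → (s k ↔ 0 < v (I.raw.fa k))) ∧
      (I.raw.ft k = 2 → (s k ↔ ¬ s (I.raw.fa k))) ∧
      (I.raw.ft k = 3 → (s k ↔ s (I.raw.fa k) ∧ s (I.raw.fb k))) ∧
      (I.raw.ft k = 4 → (s k ↔ s (I.raw.fa k) ∨ s (I.raw.fb k))) := by
  unfold ETR.FVal
  refine forall_congr' fun k => ?_
  by_cases hk : k < I.forms.length
  · have e : I.forms[k]? = some I.forms[k] := List.getElem?_eq_getElem hk
    have hk' : k < I.raw.b := hk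
    simp only [hk', forall_true_left]
    simp only [ETR.raw]
    rw [e]
    generalize I.forms[k] = x
    cases x <;> simp [FNode.code, FNode.fst, FNode.snd]
  · have e : I.forms[k]? = none := List.getElem?_eq_none (not_lt.mp hk)
    have hk' : ¬ k < I.raw.b := hk
    simp [e, hk']

theorem ETR.raw_holds (I : ETR) (h : I.WF) : I.raw.Holds ↔ I.Holds := by
  unfold Raw.Holds ETR.Holds
  refine exists_congr fun v => exists_congr fun s => ?_
  rw [frontC_t, frontC_f]
  rfl

end Pool.Agent.Lib.MP_79a9b1_lc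
end

section

set_option autoImplicit false

/-!
# The system of a sentence is well formed
-/

namespace Pool.Agent.Lib.MP_79a9b1_lc

namespace Raw

variable (R : Raw)

theorem frontWF_split {e : ℕ} (h1 : ¬ e < R.a) (h2 : e < R.a + 6 * R.b) :
    (e - R.a) / 6 < R.b := by
  omega

theorem frontWF_fI (hR : R.WF) {k r : ℕ} (hk : k < R.b) : R.fI k r < 1 + R.a + 8 * R.b := by
  have h1 := hR.ft k hk
  have h2 := hR.f k hk
  have h3 := hR.g k hk
  have h4 := hR.h k hk
  unfold Raw.fI Raw.V
  split_ifs <;> omega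

theorem frontWF_fJ (hR : R.WF) {k r : ℕ} (hk : k < R.b) : R.fJ k r < 1 + R.a + 8 * R.b := by
  have h1 := hR.ft k hk
  have h2 := hR.f k hk
  have h3 := hR.g k hk
  have h4 := hR.h k hk
  unfold Raw.fJ Raw.V
  split_ifs <;> omega

theorem frontWF_fK (hR : R.WF) {k r : ℕ} (hk : k < R.b) : R.fK k r < 1 + R.a + 8 * R.b := by
  have h1 := hR.ft k hk
  have h2 := hR.f k hk
  have h3 := hR.g k hk
  have h4 := hR.h k hk
  unfold Raw.fK Raw.V
  split_ifs <;> omega

theorem bsys_wf (hR : R.WF) : R.bsys.WF := by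
  have hb := hR.pos
  refine ⟨?_, fun e he => ?_, fun e he => ?_, fun e he => ?_⟩
  · change 0 < 1 + R.a + 8 * R.b
    omega
  · change R.eI e < 1 + R.a + 8 * R.b
    unfold Raw.eI
    by_cases h1 : e < R.a
    · have h2 := hR.t e h1
      rw [if_pos h1]
      split_ifs <;> omega
    · rw [if_neg h1]
      by_cases h2 : e < R.a + 6 * R.b
      · rw [if_pos h2]
        exact frontWF_fI R hR (frontWF_split R h1 h2)
      · rw [if_neg h2]
        unfold Raw.V
        omega
  · change R.eJ e < 1 + R.a + 8 * R.b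
    unfold Raw.eJ
    by_cases h1 : e < R.a
    · have h2 := hR.t e h1
      rw [if_pos h1]
      split_ifs <;> omega
    · rw [if_neg h1]
      by_cases h2 : e < R.a + 6 * R.b
      · rw [if_pos h2]
        exact frontWF_fJ R hR (frontWF_split R h1 h2)
      · rw [if_neg h2]
        unfold Raw.V
        omega
  · change R.eK e < 1 + R.a + 8 * R.b
    unfold Raw.eK
    by_cases h1 : e < R.a
    · have h2 := hR.t e h1
      rw [if_pos h1]
      split_ifs <;> omega
    · rw [if_neg h1]
      by_cases h2 : e < R.a + 6 * R.b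
      · rw [if_pos h2]
        exact frontWF_fK R hR (frontWF_split R h1 h2)
      · rw [if_neg h2]
        unfold Raw.V
        omega

end Raw

end Pool.Agent.Lib.MP_79a9b1_lc
end

section

set_option autoImplicit false

/-!
# Matrices with one negative eigenvalue
-/

namespace Pool.Agent.Lib.MP_79a9b1_lc

open Matrix

lemma mat_symm {V : Type} [Fintype V] (M : Matrix V V ℝ) (hM : M.IsHermitian) (x y : V → ℝ) :
    y ⬝ᵥ (M *ᵥ x) = x ⬝ᵥ (M *ᵥ y) := by
  have ht : Mᵀ = M := by
    have := hM.eq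
    rwa [conjTranspose_eq_transpose_of_trivial] at this
  rw [dotProduct_mulVec, ← mulVec_transpose, ht, dotProduct_comm]

/-- Reverse Cauchy–Schwarz inequality for a form which is nonnegative on a hyperplane. -/
theorem rcs_of_functional {V : Type} [Fintype V] (M : Matrix V V ℝ) (hM : M.IsHermitian)
    (l : V → ℝ) (h : ∀ y : V → ℝ, l ⬝ᵥ y = 0 → 0 ≤ y ⬝ᵥ (M *ᵥ y)) (x y : V → ℝ)
    (hx : x ⬝ᵥ (M *ᵥ x) < 0) :
    (x ⬝ᵥ (M *ᵥ x)) * (y ⬝ᵥ (M *ᵥ y)) ≤ (x ⬝ᵥ (M *ᵥ y)) ^ 2 := by
  have hl : l ⬝ᵥ x ≠ 0 := fun h0 => absurd (h x h0) (not_le.mpr hx)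
  obtain ⟨s, hs⟩ : ∃ s : ℝ, l ⬝ᵥ (y + s • x) = 0 := by
    refine ⟨-(l ⬝ᵥ y) / (l ⬝ᵥ x), ?_⟩
    rw [dotProduct_add, dotProduct_smul, smul_eq_mul, div_mul_cancel₀ _ hl]
    ring
  have h1 := h _ hs
  have hsym := mat_symm M hM x y
  have h2 : (y + s • x) ⬝ᵥ (M *ᵥ (y + s • x)) =
      y ⬝ᵥ (M *ᵥ y) + 2 * s * (x ⬝ᵥ (M *ᵥ y)) + s ^ 2 * (x ⬝ᵥ (M *ᵥ x)) := by
    rw [mulVec_add, mulVec_smul, add_dotProduct, dotProduct_add, dotProduct_add, dotProduct_smul,
      smul_dotProduct, smul_dotProduct, dotProduct_smul, hsym]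
    simp only [smul_eq_mul]
    ring
  rw [h2] at h1
  nlinarith [sq_nonneg (s * (x ⬝ᵥ (M *ᵥ x)) + x ⬝ᵥ (M *ᵥ y)), mul_nonneg h1 (neg_nonneg.mpr hx.le)]

lemma mat_quad {V : Type} [Fintype V] [DecidableEq V] (M : Matrix V V ℝ) (h : M.IsHermitian)
    (x y : V → ℝ) : x ⬝ᵥ (M *ᵥ y) =
      ∑ i, h.eigenvalues i * ((h.eigenvectorBasis i : V → ℝ) ⬝ᵥ x) *
        ((h.eigenvectorBasis i : V → ℝ) ⬝ᵥ y) := by
  have hM : M = (h.eigenvectorUnitary : Matrix V V ℝ) * diagonal h.eigenvalues *
      (h.eigenvectorUnitary : Matrix V V ℝ)ᵀ := by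
    have := h.spectral_theorem
    rw [Unitary.conjStarAlgAut_apply] at this
    conv_lhs => rw [this]
    rfl
  have hx : ∀ z : V → ℝ, ∀ i, ((h.eigenvectorUnitary : Matrix V V ℝ)ᵀ *ᵥ z) i =
      (h.eigenvectorBasis i : V → ℝ) ⬝ᵥ z := by
    intro z i
    rfl
  conv_lhs => rw [hM]
  rw [← mulVec_mulVec, ← mulVec_mulVec, dotProduct_mulVec, ← mulVec_transpose]
  simp only [dotProduct, mulVec_diagonal] at hx ⊢
  refine Finset.sum_congr rfl fun i _ => ?_
  rw [hx, hx]
  ring

lemma mat_ortho {V : Type} [Fintype V] [DecidableEq V] (M : Matrix V V ℝ) (h : M.IsHermitian)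
    (i j : V) : ((h.eigenvectorBasis i : V → ℝ) ⬝ᵥ (h.eigenvectorBasis j : V → ℝ)) =
      if i = j then 1 else 0 := by
  have := orthonormal_iff_ite.mp h.eigenvectorBasis.orthonormal i j
  rw [← this, EuclideanSpace.inner_eq_star_dotProduct, dotProduct_comm]
  simp

/-- Exactly one negative eigenvalue: the form has a negative vector and satisfies the reverse
Cauchy–Schwarz inequality. -/
theorem one_neg_iff {V : Type} [Fintype V] [DecidableEq V] (M : Matrix V V ℝ)
    (h : M.IsHermitian) :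
    (Finset.univ.filter fun i => h.eigenvalues i < 0).card = 1 ↔
      (∃ x : V → ℝ, x ⬝ᵥ (M *ᵥ x) < 0) ∧ ∀ x y : V → ℝ, x ⬝ᵥ (M *ᵥ x) < 0 →
        (x ⬝ᵥ (M *ᵥ x)) * (y ⬝ᵥ (M *ᵥ y)) ≤ (x ⬝ᵥ (M *ᵥ y)) ^ 2 := by
  have hq : ∀ i : V, (h.eigenvectorBasis i : V → ℝ) ⬝ᵥ
      (M *ᵥ (h.eigenvectorBasis i : V → ℝ)) = h.eigenvalues i := by
    intro i
    rw [h.mulVec_eigenvectorBasis, dotProduct_smul, mat_ortho]
    simp
  constructor
  · intro h1
    obtain ⟨i0, hi0⟩ := Finset.card_eq_one.mp h1
    have hneg : ∀ i, h.eigenvalues i < 0 ↔ i = i0 := by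
      intro i
      have := congrArg (fun s => i ∈ s) hi0
      simpa using this
    refine ⟨⟨(h.eigenvectorBasis i0 : V → ℝ), by rw [hq]; exact (hneg i0).mpr rfl⟩, ?_⟩
    intro x y hx
    refine rcs_of_functional M h (h.eigenvectorBasis i0 : V → ℝ) ?_ x y hx
    intro z hz
    rw [mat_quad M h]
    refine Finset.sum_nonneg fun i _ => ?_
    by_cases hi : i = i0
    · rw [hi, hz]
      simp
    · have : 0 ≤ h.eigenvalues i := not_lt.mp fun h' => hi ((hneg i).mp h')
      rw [mul_assoc]
      exact mul_nonneg this (mul_self_nonneg _)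
  · rintro ⟨⟨x, hx⟩, hrcs⟩
    rw [Finset.card_eq_one]
    obtain ⟨i, hi⟩ : ∃ i, h.eigenvalues i < 0 := by
      by_contra hcon
      push Not at hcon
      refine absurd hx (not_lt.mpr ?_)
      rw [mat_quad M h]
      refine Finset.sum_nonneg fun i _ => ?_
      rw [mul_assoc]
      exact mul_nonneg (hcon i) (mul_self_nonneg _)
    refine ⟨i, ?_⟩
    ext j
    simp only [Finset.mem_filter, Finset.mem_univ, true_and, Finset.mem_singleton]
    constructor
    · intro hj
      by_contra hne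
      have h2 := hrcs (h.eigenvectorBasis i : V → ℝ) (h.eigenvectorBasis j : V → ℝ)
        (by rw [hq]; exact hi)
      rw [hq, hq, h.mulVec_eigenvectorBasis, dotProduct_smul, mat_ortho, if_neg (Ne.symm hne)] at h2
      simp only [smul_zero] at h2
      nlinarith
    · rintro rfl
      exact hi

end Pool.Agent.Lib.MP_79a9b1_lc
end

section

set_option autoImplicit false

/-!
# Basic properties of the invariant
-/

namespace Pool.Agent.Lib.MP_79a9b1_lc

open Matrix

/-- The invariant is at least `k > 0` if and only if some matrix has corank at least `k`. -/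
theorem le_mu_iff {V : Type} [Fintype V] [DecidableEq V] (G : SimpleGraph V) (k : ℕ)
    (hk : 0 < k) :
    k ≤ mu G ↔ ∃ M : Matrix V V ℝ, CdV G M ∧ k ≤ Fintype.card V - M.rank := by
  have hb : BddAbove {k | ∃ M : Matrix V V ℝ, CdV G M ∧ k = Fintype.card V - M.rank} := by
    refine ⟨Fintype.card V, ?_⟩
    rintro _ ⟨M, _, rfl⟩
    exact Nat.sub_le _ _
  constructor
  · intro h
    have hne : {k | ∃ M : Matrix V V ℝ, CdV G M ∧ k = Fintype.card V - M.rank}.Nonempty := by
      by_contra hcon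
      rw [Set.not_nonempty_iff_eq_empty] at hcon
      have h1 : mu G = 0 := by
        unfold mu
        rw [hcon]
        exact csSup_empty
      omega
    obtain ⟨M, hM, hM2⟩ := Nat.sSup_mem hne hb
    exact ⟨M, hM, hM2 ▸ h⟩
  · rintro ⟨M, hM, hk2⟩
    exact hk2.trans (le_csSup hb ⟨M, hM, rfl⟩)

theorem muiso_form {V W : Type} [Fintype V] [Fintype W] (e : V ≃ W) (M : Matrix V V ℝ)
    (x y : W → ℝ) :
    x ⬝ᵥ ((M.submatrix e.symm e.symm) *ᵥ y) = (x ∘ e) ⬝ᵥ (M *ᵥ (y ∘ e)) := by
  rw [Matrix.submatrix_mulVec_equiv, dotProduct_comp_equiv_symm, Equiv.symm_symm]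

theorem muiso_cdv {V W : Type} [Fintype V] [DecidableEq V] [Fintype W] [DecidableEq W]
    (e : V ≃ W) (G : SimpleGraph V) (H : SimpleGraph W)
    (h : ∀ u v, G.Adj u v ↔ H.Adj (e u) (e v)) (M : Matrix V V ℝ) (hM : CdV G M) :
    CdV H (M.submatrix e.symm e.symm) where
  herm := hM.herm.submatrix _
  neg i j hij := by
    rw [Matrix.submatrix_apply]
    apply hM.neg
    rw [h, Equiv.apply_symm_apply, Equiv.apply_symm_apply]
    exact hij
  zero i j hij hadj := by
    rw [Matrix.submatrix_apply]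
    apply hM.zero
    · exact fun h1 => hij (e.symm.injective h1)
    · rw [h, Equiv.apply_symm_apply, Equiv.apply_symm_apply]
      exact hadj
  one := by
    rw [one_neg_iff]
    obtain ⟨⟨x, hx⟩, h2⟩ := (one_neg_iff M hM.herm).mp hM.one
    refine ⟨⟨x ∘ e.symm, ?_⟩, ?_⟩
    · rw [muiso_form]
      have h3 : (x ∘ e.symm) ∘ e = x := by
        funext v
        simp
      rw [h3]
      exact hx
    · intro x y hxy
      rw [muiso_form] at hxy
      rw [muiso_form, muiso_form, muiso_form]
      exact h2 _ _ hxy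
  sap X hX h0 hadj hMX := by
    have h1 : X.submatrix e e = 0 := by
      apply hM.sap
      · exact hX.submatrix _
      · intro i
        exact h0 _
      · intro i j hij
        exact hadj _ _ ((h i j).mp hij)
      · have h2 : M * X.submatrix e e = ((M.submatrix e.symm e.symm) * X).submatrix e e := by
          rw [← Matrix.submatrix_mul_equiv _ _ _ e, Matrix.submatrix_submatrix]
          simp
        rw [h2, hMX]
        rfl
    ext i j
    have h2 := congrFun (congrFun h1 (e.symm i)) (e.symm j)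
    simpa using h2

/-- The invariant of isomorphic graphs is the same. -/
theorem mu_congr {V W : Type} [Fintype V] [DecidableEq V] [Fintype W] [DecidableEq W]
    (e : V ≃ W) (G : SimpleGraph V) (H : SimpleGraph W)
    (h : ∀ u v, G.Adj u v ↔ H.Adj (e u) (e v)) : mu G = mu H := by
  unfold mu
  congr 1
  ext k
  constructor
  · rintro ⟨M, hM, rfl⟩
    refine ⟨_, muiso_cdv e G H h M hM, ?_⟩
    rw [Matrix.rank_submatrix, Fintype.card_congr e]
  · rintro ⟨M, hM, rfl⟩
    refine ⟨_, muiso_cdv e.symm H G (fun u v => ?_) M hM, ?_⟩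
    · rw [h, Equiv.apply_symm_apply, Equiv.apply_symm_apply]
    · rw [Matrix.rank_submatrix, Fintype.card_congr e]

end Pool.Agent.Lib.MP_79a9b1_lc
end

section

set_option autoImplicit false

/-!
# The matrix of a solution of the network
-/

namespace Pool.Agent.Lib.MP_79a9b1_lc

open Matrix

namespace Net

variable {A X : Type} [Fintype A] [DecidableEq A] [Fintype X] [DecidableEq X] (N : Net A X)

/-- The negative coordinate of a vertex. -/
def cc : NV A X → ℝ
  | .e _ => 0
  | _ => -1

/-- The positive coordinates of a vertex. -/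
noncomputable def ww (Y : A → ℝ) (ξ : X → A → ℝ) : NV A X → A → ℝ
  | .e0, _ => 0
  | .e a, b => if a = b then 1 else 0
  | .p a, b => if a = b then -(1 / √(Y a)) else 0
  | .r x, b => -(√(Y b) * ξ x b)

/-- The matrix of a solution. -/
noncomputable def mat (Y : A → ℝ) (ξ : X → A → ℝ) : Matrix (NV A X) (NV A X) ℝ :=
  Matrix.of fun u v => (∑ a, ww Y ξ u a * ww Y ξ v a) - cc u * cc v

theorem mat_herm (Y : A → ℝ) (ξ : X → A → ℝ) : (mat Y ξ).IsHermitian := by
  ext u v
  simp only [mat, Matrix.conjTranspose_apply, Matrix.of_apply, star_trivial]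
  rw [mul_comm (cc v)]
  congr 1
  exact Finset.sum_congr rfl fun a _ => mul_comm _ _

omit [Fintype X] [DecidableEq X] in
theorem netb1_symm (Y : A → ℝ) (ξ : X → A → ℝ) (u v : NV A X) : mat Y ξ u v = mat Y ξ v u := by
  simp only [mat, Matrix.of_apply]
  rw [mul_comm (cc v)]
  congr 1
  exact Finset.sum_congr rfl fun a _ => mul_comm _ _

theorem mat_entries (Y : A → ℝ) (ξ : X → A → ℝ) (h : N.Sol Y ξ) :
    (∀ i j, N.graph.Adj i j → mat Y ξ i j < 0) ∧
      ∀ i j, i ≠ j → ¬ N.graph.Adj i j → mat Y ξ i j = 0 := by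
  have hsq : ∀ a, 0 < √(Y a) := fun a => Real.sqrt_pos.mpr (h.pos a)
  have e0e : ∀ a, mat Y ξ .e0 (.e a) = 0 := by
    intro a
    simp [mat, ww, cc]
  have e0p : ∀ a, mat Y ξ .e0 (.p a) = -1 := by
    intro a
    simp [mat, ww, cc]
  have e0r : ∀ x, mat Y ξ .e0 (.r x) = -1 := by
    intro a
    simp [mat, ww, cc]
  have ee : ∀ a b, a ≠ b → mat Y ξ (.e a) (.e b) = 0 := by
    intro a b hab
    simp [mat, ww, cc, hab]
  have ep : ∀ a b, a ≠ b → mat Y ξ (.e a) (.p b) = 0 := by
    intro a b hab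
    simp [mat, ww, cc, hab]
  have epp : ∀ a, mat Y ξ (.e a) (.p a) = -(1 / √(Y a)) := by
    intro a
    simp [mat, ww, cc]
  have er : ∀ a x, mat Y ξ (.e a) (.r x) = -(√(Y a) * ξ x a) := by
    intro a x
    simp [mat, ww, cc]
  have pp : ∀ a b, a ≠ b → mat Y ξ (.p a) (.p b) = -1 := by
    intro a b hab
    simp [mat, ww, cc, hab]
  have pr : ∀ a x, mat Y ξ (.p a) (.r x) = ξ x a - 1 := by
    intro a x
    have h1 : ∑ b, ww Y ξ (.p a) b * ww Y ξ (.r x) b = ξ x a := by
      simp only [ww, ite_mul, zero_mul, Finset.sum_ite_eq, Finset.mem_univ, if_true]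
      have := (hsq a).ne'
      field_simp
    simp only [mat, Matrix.of_apply, h1, cc]
    ring
  have rr : ∀ x y, mat Y ξ (.r x) (.r y) = (∑ a, Y a * ξ x a * ξ y a) - 1 := by
    intro x y
    have h1 : ∑ b, ww Y ξ (.r x) b * ww Y ξ (.r y) b = ∑ a, Y a * ξ x a * ξ y a := by
      refine Finset.sum_congr rfl fun a _ => ?_
      simp only [ww]
      have h2 := Real.mul_self_sqrt (h.pos a).le
      calc -(√(Y a) * ξ x a) * -(√(Y a) * ξ y a) = (√(Y a) * √(Y a)) * ξ x a * ξ y a := by ring
        _ = _ := by rw [h2]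
    simp only [mat, Matrix.of_apply, h1, cc]
    ring
  have hpos : ∀ x a, N.sup x a → 0 < ξ x a := by
    rintro x a (h1 | h1)
    · rw [h.full x a h1]
      exact one_pos
    · exact (h.part x a h1).1
  have hlt : ∀ x a, ¬ N.full x a → ξ x a < 1 := by
    intro x a h1
    by_cases h2 : N.part x a
    · exact (h.part x a h2).2
    · rw [h.none x a (fun h3 => h3.elim h1 h2)]
      exact one_pos
  constructor
  · rintro i j ⟨hne, hn⟩
    have key : ∀ a x, ¬ ¬ N.sup x a → mat Y ξ (.e a) (.r x) < 0 := by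
      intro a x h1
      rw [er]
      have := mul_pos (hsq a) (hpos x a (not_not.mp h1))
      linarith
    have keyp : ∀ a x, ¬ N.full x a → mat Y ξ (.p a) (.r x) < 0 := by
      intro a x h1
      rw [pr]
      have := hlt x a h1
      linarith
    have keye : ∀ a, mat Y ξ (.e a) (.p a) < 0 := by
      intro a
      rw [epp]
      have := one_div_pos.mpr (hsq a)
      linarith
    cases i with
    | e0 =>
      cases j with
      | e0 => exact absurd rfl hne
      | e a => exact absurd trivial hn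
      | p a => rw [e0p]; norm_num
      | r x => rw [e0r]; norm_num
    | e a =>
      cases j with
      | e0 => exact absurd trivial hn
      | e b => exact absurd trivial hn
      | p b =>
        have hab : a = b := not_not.mp hn
        subst hab
        exact keye a
      | r x => exact key a x hn
    | p a =>
      cases j with
      | e0 => rw [netb1_symm, e0p]; norm_num
      | e b =>
        have hab : a = b := not_not.mp hn
        subst hab
        rw [netb1_symm]
        exact keye a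
      | p b =>
        have hab : a ≠ b := fun h1 => hne (by rw [h1])
        rw [pp a b hab]
        norm_num
      | r x => exact keyp a x hn
    | r x =>
      cases j with
      | e0 => rw [netb1_symm, e0r]; norm_num
      | e a => rw [netb1_symm]; exact key a x hn
      | p a => rw [netb1_symm]; exact keyp a x hn
      | r y =>
        have hxy : x ≠ y := fun h1 => hne (by rw [h1])
        rw [rr]
        have := h.nonedge x y hxy hn
        linarith
  · intro i j hne hadj
    have hn : N.nadj i j := by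
      by_contra h1
      exact hadj ⟨hne, h1⟩
    have key : ∀ a x, ¬ N.sup x a → mat Y ξ (.e a) (.r x) = 0 := by
      intro a x h1
      rw [er, h.none x a h1]
      ring
    have keyp : ∀ a x, N.full x a → mat Y ξ (.p a) (.r x) = 0 := by
      intro a x h1
      rw [pr, h.full x a h1]
      ring
    cases i with
    | e0 =>
      cases j with
      | e0 => exact absurd rfl hne
      | e a => exact e0e a
      | p a => exact absurd hn (by simp [nadj])
      | r x => exact absurd hn (by simp [nadj])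
    | e a =>
      cases j with
      | e0 => rw [netb1_symm]; exact e0e a
      | e b => exact ee a b fun h1 => hne (by rw [h1])
      | p b => exact ep a b hn
      | r x => exact key a x hn
    | p a =>
      cases j with
      | e0 => exact absurd hn (by simp [nadj])
      | e b => rw [netb1_symm]; exact ep b a (Ne.symm hn)
      | p b => exact absurd hn (by simp [nadj])
      | r x => exact keyp a x hn
    | r x =>
      cases j with
      | e0 => exact absurd hn (by simp [nadj])
      | e a => rw [netb1_symm]; exact key a x hn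
      | p a => rw [netb1_symm]; exact keyp a x hn
      | r y =>
        rw [rr, h.edge x y hn]
        ring

end Net

end Pool.Agent.Lib.MP_79a9b1_lc
end

section

set_option autoImplicit false

/-!
# Negative eigenvalue and rank of the matrix
-/

namespace Pool.Agent.Lib.MP_79a9b1_lc

open Matrix

namespace Net

variable {A X : Type} [Fintype A] [DecidableEq A] [Fintype X] [DecidableEq X] (N : Net A X)

theorem netB2_quad (Y : A → ℝ) (ξ : X → A → ℝ) (y : NV A X → ℝ) :
    y ⬝ᵥ (mat Y ξ *ᵥ y) =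
      (∑ a, (∑ u, ww Y ξ u a * y u) ^ 2) - (∑ u, cc u * y u) ^ 2 := by
  have h1 : ∀ u v, y u * (mat Y ξ u v * y v) =
      (∑ a, (ww Y ξ u a * y u) * (ww Y ξ v a * y v)) - (cc u * y u) * (cc v * y v) := by
    intro u v
    change y u * (((∑ a, ww Y ξ u a * ww Y ξ v a) - cc u * cc v) * y v) = _
    rw [sub_mul, mul_sub, Finset.sum_mul, Finset.mul_sum]
    congr 1
    · exact Finset.sum_congr rfl fun a _ => by ring
    · ring
  have h2 : y ⬝ᵥ (mat Y ξ *ᵥ y) = ∑ u, ∑ v, y u * (mat Y ξ u v * y v) := by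
    simp only [dotProduct, mulVec, Finset.mul_sum]
  rw [h2]
  simp only [h1, Finset.sum_sub_distrib]
  congr 1
  · have h3 : ∀ u, ∑ v, ∑ a, (ww Y ξ u a * y u) * (ww Y ξ v a * y v) =
        ∑ a, (ww Y ξ u a * y u) * ∑ v, ww Y ξ v a * y v := by
      intro u
      rw [Finset.sum_comm]
      exact Finset.sum_congr rfl fun a _ => by rw [Finset.mul_sum]
    simp only [h3]
    rw [Finset.sum_comm]
    refine Finset.sum_congr rfl fun a _ => ?_
    rw [← Finset.sum_mul, sq]
  · rw [sq, Finset.sum_mul]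
    exact Finset.sum_congr rfl fun u _ => by rw [Finset.mul_sum]

theorem mat_one (Y : A → ℝ) (ξ : X → A → ℝ) (h : (mat Y ξ).IsHermitian) :
    (Finset.univ.filter fun i => h.eigenvalues i < 0).card = 1 := by
  rw [one_neg_iff]
  refine ⟨⟨Pi.single .e0 1, ?_⟩, fun x y hx => ?_⟩
  · rw [netB2_quad]
    have h1 : ∀ a, ∑ u, ww Y ξ u a * (Pi.single (M := fun _ => ℝ) NV.e0 1 : NV A X → ℝ) u = 0 := by
      intro a
      rw [Finset.sum_eq_single NV.e0]
      · simp [ww]
      · intro u _ hu
        rw [Pi.single_eq_of_ne hu, mul_zero]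
      · intro hu
        exact absurd (Finset.mem_univ _) hu
    have h2 : ∑ u, cc u * (Pi.single (M := fun _ => ℝ) NV.e0 1 : NV A X → ℝ) u = -1 := by
      rw [Finset.sum_eq_single NV.e0]
      · simp [cc]
      · intro u _ hu
        rw [Pi.single_eq_of_ne hu, mul_zero]
      · intro hu
        exact absurd (Finset.mem_univ _) hu
    simp only [h1, h2]
    norm_num
  · refine rcs_of_functional (mat Y ξ) h cc (fun z hz => ?_) x y hx
    rw [netB2_quad]
    have h1 : ∑ u, cc u * z u = 0 := hz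
    rw [h1]
    have h2 : 0 ≤ ∑ a, (∑ u, ww Y ξ u a * z u) ^ 2 := Finset.sum_nonneg fun a _ => sq_nonneg _
    linarith

/-- left factor -/
noncomputable def netB2L (Y : A → ℝ) (ξ : X → A → ℝ) : Matrix (NV A X) (Option A) ℝ :=
  Matrix.of fun u o => match o with
    | none => -cc u
    | some a => ww Y ξ u a

/-- right factor -/
noncomputable def netB2R (Y : A → ℝ) (ξ : X → A → ℝ) : Matrix (Option A) (NV A X) ℝ :=
  Matrix.of fun o u => match o with
    | none => cc u
    | some a => ww Y ξ u a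

theorem mat_rank (Y : A → ℝ) (ξ : X → A → ℝ) : (mat Y ξ).rank ≤ Fintype.card A + 1 := by
  have h1 : mat Y ξ = netB2L Y ξ * netB2R Y ξ := by
    ext u v
    rw [Matrix.mul_apply, Fintype.sum_option]
    change (∑ a, ww Y ξ u a * ww Y ξ v a) - cc u * cc v =
      -cc u * cc v + ∑ a, ww Y ξ u a * ww Y ξ v a
    ring
  rw [h1]
  refine (Matrix.rank_mul_le_left _ _).trans ((Matrix.rank_le_card_width _).trans (le_of_eq ?_))
  rw [Fintype.card_option]

end Net

end Pool.Agent.Lib.MP_79a9b1_lc
end
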