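import Pool.Agent.Lib.MP_79a9b1_lc.Mg.G003
import Pool.Agent.Lib.MP_79a9b1_lc.Slp

section

set_option autoImplicit false

/-!
# The strong Arnold property of the matrix
-/

namespace Pool.Agent.Lib.MP_79a9b1_lc

open Matrix

namespace Net

variable {A X : Type} [Fintype A] [DecidableEq A] [Fintype X] [DecidableEq X] (N : Net A X)

omit [DecidableEq A] [DecidableEq X] in
theorem netb3_sum (f : NV A X → ℝ) :
    ∑ v, f v = f .e0 + ∑ a, f (.e a) + (∑ a, f (.p a) + ∑ x, f (.r x)) := by
  rw [← (NV.toSum (A := A) (X := X)).symm.sum_comp f]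
  simp [Fintype.sum_sum_type, NV.toSum]

theorem netb3_mul (Y : A → ℝ) (ξ : X → A → ℝ) (Z : Matrix (NV A X) (NV A X) ℝ) (u w : NV A X) :
    (mat Y ξ * Z) u w = (∑ a, ww Y ξ u a * ∑ v, ww Y ξ v a * Z v w) - cc u * ∑ v, cc v * Z v w := by
  rw [Matrix.mul_apply]
  simp only [mat, Matrix.of_apply, sub_mul, Finset.sum_sub_distrib, Finset.sum_mul, Finset.mul_sum]
  congr 1
  · rw [Finset.sum_comm]
    refine Finset.sum_congr rfl fun a _ => Finset.sum_congr rfl fun v _ => by ring
  · refine Finset.sum_congr rfl fun v _ => by ring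

theorem mat_sap (Y : A → ℝ) (ξ : X → A → ℝ) (h : N.Sol Y ξ) (hr : N.Reg Y ξ)
    (Z : Matrix (NV A X) (NV A X) ℝ) (h1 : Z.IsSymm) (h2 : ∀ i, Z i i = 0)
    (h3 : ∀ i j, N.graph.Adj i j → Z i j = 0) (h4 : mat Y ξ * Z = 0) : Z = 0 := by
  have hs : ∀ i j, Z i j = Z j i := fun i j => h1.apply j i
  have hC : ∀ w, Z .e0 w + ∑ a, Z (.p a) w + ∑ x, Z (.r x) w = 0 := by
    intro w
    have h5 := congrFun (congrFun h4 .e0) w
    rw [netb3_mul, netb3_sum (fun v => cc v * Z v w)] at h5
    simp only [cc, ww, zero_mul, Finset.sum_const_zero, Matrix.zero_apply, neg_mul, one_mul,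
      Finset.sum_neg_distrib] at h5
    linarith
  have hG : ∀ b w, √(Y b) * Z (.e b) w - Z (.p b) w - Y b * ∑ x, ξ x b * Z (.r x) w = 0 := by
    intro b w
    have hY := h.pos b
    have hY2 : √(Y b) * √(Y b) = Y b := Real.mul_self_sqrt hY.le
    have hY3 : √(Y b) ≠ 0 := (Real.sqrt_pos.2 hY).ne'
    have h5 := congrFun (congrFun h4 (.e b)) w
    rw [netb3_mul] at h5
    have h6 : ∑ a, ww Y ξ (.e b) a * ∑ v, ww Y ξ v a * Z v w = ∑ v, ww Y ξ v b * Z v w := by
      rw [Finset.sum_eq_single b]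
      · simp [ww]
      · intro c _ hc
        simp [ww, Ne.symm hc]
      · simp
    rw [h6, netb3_sum (fun v => ww Y ξ v b * Z v w)] at h5
    simp only [cc, ww, zero_mul, Matrix.zero_apply, sub_zero, ite_mul, one_mul,
      Finset.sum_ite_eq', Finset.sum_ite_eq, Finset.mem_univ, if_true, zero_add] at h5
    have h7 : ∑ x, -(√(Y b) * ξ x b) * Z (.r x) w = -(√(Y b) * ∑ x, ξ x b * Z (.r x) w) := by
      rw [Finset.mul_sum, ← Finset.sum_neg_distrib]
      exact Finset.sum_congr rfl fun x _ => by ring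
    rw [h7] at h5
    have h8 := congrArg (fun t => √(Y b) * t) h5
    simp only [mul_zero] at h8
    have h9 : √(Y b) * (-(1 / √(Y b)) * Z (.p b) w) = - Z (.p b) w := by
      field_simp
    have h10 : √(Y b) * (-(√(Y b) * ∑ x, ξ x b * Z (.r x) w)) = -(Y b * ∑ x, ξ x b * Z (.r x) w) := by
      rw [mul_neg, ← mul_assoc, hY2]
    rw [mul_add, mul_add, h9, h10] at h8
    linarith
  -- zeros
  have z0p : ∀ a, Z .e0 (.p a) = 0 := fun a => h3 _ _ ⟨by simp, by simp [nadj]⟩
  have z0r : ∀ x, Z .e0 (.r x) = 0 := fun x => h3 _ _ ⟨by simp, by simp [nadj]⟩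
  have zpp : ∀ a b, Z (.p a) (.p b) = 0 := by
    intro a b
    by_cases hab : a = b
    · subst hab; exact h2 _
    · exact h3 _ _ ⟨by simpa using hab, by simp [nadj]⟩
  have zpr : ∀ a x, ¬ N.full x a → Z (.p a) (.r x) = 0 := fun a x hx =>
    h3 _ _ ⟨by simp, by simpa [nadj] using hx⟩
  have zrr : ∀ x y, ¬ N.edge x y → Z (.r x) (.r y) = 0 := by
    intro x y hxy
    by_cases hab : x = y
    · subst hab; exact h2 _
    · exact h3 _ _ ⟨by simpa using hab, by simpa [nadj] using hxy⟩
  have zer : ∀ a x, N.sup x a → Z (.e a) (.r x) = 0 := fun a x hx =>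
    h3 _ _ ⟨by simp, by simpa [nadj] using hx⟩
  have key := hr (fun x y => Z (.r x) (.r y)) (fun a x => Z (.p a) (.r x))
    (fun x y => hs _ _) zrr zpr
    (fun x => by
      have h5 := hC (.r x)
      rw [z0r] at h5
      have h6 : ∑ y, Z (.r x) (.r y) = ∑ y, Z (.r y) (.r x) :=
        Finset.sum_congr rfl fun y _ => hs _ _
      rw [h6]
      linarith)
    (fun x a hx => by
      have h5 := hG a (.r x)
      rw [zer a x hx] at h5
      have h6 : ∑ y, ξ y a * Z (.r x) (.r y) = ∑ y, ξ y a * Z (.r y) (.r x) :=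
        Finset.sum_congr rfl fun y _ => by rw [hs (.r x) (.r y)]
      rw [h6]
      linarith)
    (fun a => by
      have h5 := hC (.p a)
      rw [z0p] at h5
      have h6 : ∑ x, Z (.p a) (.r x) = ∑ x, Z (.r x) (.p a) :=
        Finset.sum_congr rfl fun y _ => hs _ _
      simp only [zpp, Finset.sum_const_zero] at h5
      rw [h6]
      linarith)
  obtain ⟨kr, kp⟩ := key
  have krp : ∀ x a, Z (.r x) (.p a) = 0 := fun x a => by rw [hs]; exact kp a x
  have sq : ∀ b, √(Y b) ≠ 0 := fun b => (Real.sqrt_pos.2 (h.pos b)).ne'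
  have ker : ∀ a x, Z (.e a) (.r x) = 0 := by
    intro a x
    have h5 := hG a (.r x)
    simp only [kr, kp, mul_zero, Finset.sum_const_zero, sub_zero] at h5
    exact (mul_eq_zero.1 h5).resolve_left (sq a)
  have kre : ∀ x a, Z (.r x) (.e a) = 0 := fun x a => by rw [hs]; exact ker a x
  have kep : ∀ a b, Z (.e a) (.p b) = 0 := by
    intro a b
    have h5 := hG a (.p b)
    simp only [zpp, krp, mul_zero, Finset.sum_const_zero, sub_zero] at h5
    exact (mul_eq_zero.1 h5).resolve_left (sq a)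
  have kpe : ∀ a b, Z (.p a) (.e b) = 0 := fun a b => by rw [hs]; exact kep b a
  have kee : ∀ a b, Z (.e a) (.e b) = 0 := by
    intro a b
    have h5 := hG a (.e b)
    simp only [kpe, kre, mul_zero, Finset.sum_const_zero, sub_zero] at h5
    exact (mul_eq_zero.1 h5).resolve_left (sq a)
  have k0e : ∀ b, Z .e0 (.e b) = 0 := by
    intro b
    have h5 := hC (.e b)
    simp only [kpe, kre, Finset.sum_const_zero, add_zero] at h5
    exact h5
  ext u v
  rw [Matrix.zero_apply]
  cases u with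
  | e0 =>
    cases v with
    | e0 => exact h2 _
    | e a => exact k0e a
    | p a => exact z0p a
    | r x => exact z0r x
  | e b =>
    cases v with
    | e0 => rw [hs]; exact k0e b
    | e a => exact kee b a
    | p a => exact kep b a
    | r x => exact ker b x
  | p b =>
    cases v with
    | e0 => rw [hs]; exact z0p b
    | e a => exact kpe b a
    | p a => exact zpp b a
    | r x => exact kp b x
  | r y =>
    cases v with
    | e0 => rw [hs]; exact z0r y
    | e a => exact kre y a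
    | p a => exact krp y a
    | r x => exact kr y x

end Net

end Pool.Agent.Lib.MP_79a9b1_lc
end

section

set_option autoImplicit false

/-!
# From a regular solution of the network to a matrix
-/

namespace Pool.Agent.Lib.MP_79a9b1_lc

open Matrix

namespace Net

variable {A X : Type} [Fintype A] [DecidableEq A] [Fintype X] [DecidableEq X] (N : Net A X)

/-- A regular solution of the network gives a matrix of large corank. -/
theorem cdv_of_sol (Y : A → ℝ) (ξ : X → A → ℝ) (h : N.Sol Y ξ) (hr : N.Reg Y ξ) :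
    CdV N.graph (mat Y ξ) :=
  ⟨mat_herm Y ξ, (N.mat_entries Y ξ h).1, (N.mat_entries Y ξ h).2, mat_one Y ξ _,
    N.mat_sap Y ξ h hr⟩

end Net

end Pool.Agent.Lib.MP_79a9b1_lc
end

section

set_option autoImplicit false

/-!
# Elimination in the network of a straight-line program
-/

namespace Pool.Agent.Lib.MP_79a9b1_lc

namespace SLP

variable (P : SLP)

/-- The elimination step. -/
theorem pivot {Y : Ax P.n → ℝ} {ξ : Rw P.n → Ax P.n → ℝ} (h : P.net.Sol Y ξ)
    (Z : Rw P.n → Rw P.n → ℝ) (W : Ax P.n → Rw P.n → ℝ)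
    (hZ : ∀ x y, ¬ P.ed x y → Z x y = 0) (hW : ∀ a x, P.ty x a ≠ .fu → W a x = 0)
    (h1 : ∀ x a, P.ty x a ≠ .no → Y a * ∑ y, ξ y a * Z x y + W a x = 0)
    (x : Rw P.n) (a : Ax P.n) (y₀ : Rw P.n) (ha : P.ty x a = .pa) (hy : P.ty y₀ a = .fu)
    (hrest : ∀ y, y ≠ y₀ → P.ed x y → Z x y = 0 ∨ P.ty y a = .no) : Z x y₀ = 0 := by
  have h2 := h1 x a (by rw [ha]; decide)
  rw [hW a x (by rw [ha]; decide), add_zero] at h2
  have h3 : ∑ y, ξ y a * Z x y = 0 := (mul_eq_zero.1 h2).resolve_left (h.pos a).ne'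
  rw [Finset.sum_eq_single y₀] at h3
  · rwa [h.full y₀ a hy, one_mul] at h3
  · intro y _ hne
    by_cases hed : P.ed x y
    · rcases hrest y hne hed with h4 | h4
      · rw [h4, mul_zero]
      · rw [h.none y a ?_, zero_mul]
        rintro (h5 | h5)
        · have h6 : P.ty y a = .fu := h5
          rw [h4] at h6
          exact absurd h6 (by decide)
        · have h6 : P.ty y a = .pa := h5
          rw [h4] at h6
          exact absurd h6 (by decide)
    · rw [hZ x y hed, mul_zero]
  · intro h4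
    exact absurd (Finset.mem_univ y₀) h4

private theorem regmain_nbr {k : Fin P.n} {τ : Rs} {y : Rw P.n} (h : P.ed (Sum.inl (k, τ)) y) :
    ∃ (l : Fin P.n) (ρ : Rs), y = Sum.inl (l, ρ) ∧ (P.edM τ k ρ l ∨ P.edM ρ l τ k) := by
  rcases y with ⟨l, ρ⟩ | ⟨d, r⟩
  · exact ⟨l, ρ, rfl, h.2⟩
  · exact absurd h (by simp [ed])

/-- All entries of `Z` between rows which are not calibrators vanish. -/
theorem main_zero (hP : P.WF) {Y : Ax P.n → ℝ} {ξ : Rw P.n → Ax P.n → ℝ} (h : P.net.Sol Y ξ)
    (Z : Rw P.n → Rw P.n → ℝ) (W : Ax P.n → Rw P.n → ℝ) (hsy : ∀ x y, Z x y = Z y x)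
    (hZ : ∀ x y, ¬ P.ed x y → Z x y = 0) (hW : ∀ a x, P.ty x a ≠ .fu → W a x = 0)
    (h1 : ∀ x a, P.ty x a ≠ .no → Y a * ∑ y, ξ y a * Z x y + W a x = 0)
    (m : Fin P.n) (τ : Rs) (y : Rw P.n) : Z (Sum.inl (m, τ)) y = 0 := by
  have piv := P.pivot h Z W hZ hW h1
  have hE : ∀ N, ∀ k : Fin P.n, P.n - k.1 = N → ∀ (τ ρ : Rs) (m : Fin P.n),
      P.edM τ m ρ k → Z (Sum.inl (m, τ)) (Sum.inl (k, ρ)) = 0 := by
    intro N
    induction N using Nat.strong_induction_on with
    | _ N ih =>
    intro k hk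
    have later : ∀ l : Fin P.n, k.1 < l.1 → ∀ (τ ρ : Rs) (m : Fin P.n),
        P.edM τ m ρ l → Z (Sum.inl (m, τ)) (Sum.inl (l, ρ)) = 0 := fun l hl =>
      ih (P.n - l.1) (by omega) l rfl
    -- the edges from `s_k` to later lines
    have hs : ∀ (l : Fin P.n) (ρ : Rs), P.edM .s k ρ l →
        Z (Sum.inl (k, .s)) (Sum.inl (l, ρ)) = 0 := by
      intro l ρ hed
      refine later l ?_ .s ρ k hed
      cases ρ with
      | s =>
        have h2 : P.op l = 1 ∧ P.a l = k := hed
        have h3 := hP.one l l.2 h2.1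
        omega
      | r1 =>
        have h2 : P.bin l ∧ P.a l = k := hed
        have h3 := hP.bin l l.2 h2.1
        omega
      | r2 =>
        have h2 : P.bin l ∧ P.b l = k := hed
        have h3 := hP.bin l l.2 h2.1
        omega
      | w => exact absurd hed (by simp [edM])
      | u => exact absurd hed (by simp [edM])
    by_cases hb : P.bin k
    · obtain ⟨hak, hbk, -⟩ := hP.bin k k.2 hb
      have hop1 : P.op k ≠ 1 := by
        rcases hb with h2 | h2 <;> omega
      -- (s, u)
      have e1 : Z (Sum.inl (k, .s)) (Sum.inl (k, .u)) = 0 := by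
        refine piv (Sum.inl (k, .s)) (Sum.inl (k, .al)) (Sum.inl (k, .u)) (by simp [ty, tyM])
          (by simp [ty, tyM, hb]) ?_
        intro y hy hed
        obtain ⟨l, ρ, rfl, h2 | h2⟩ := P.regmain_nbr hed
        · exact Or.inl (hs l ρ h2)
        · exfalso
          cases ρ with
          | s => exact hop1 (show P.op k = 1 ∧ P.a k = l from h2).1
          | u =>
            have h3 : P.bin k ∧ (l : ℕ) = k := h2
            exact hy (by rw [Fin.ext h3.2])
          | r1 => exact absurd h2 (by simp [edM])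
          | r2 => exact absurd h2 (by simp [edM])
          | w => exact absurd h2 (by simp [edM])
      -- (u, w)
      have e2 : Z (Sum.inl (k, .u)) (Sum.inl (k, .w)) = 0 := by
        refine piv (Sum.inl (k, .u)) (Sum.inl (k, .om)) (Sum.inl (k, .w)) (by simp [ty, tyM, hb])
          (by simp [ty, tyM, hb]) ?_
        intro y hy hed
        obtain ⟨l, ρ, rfl, h2 | h2⟩ := P.regmain_nbr hed
        · cases ρ with
          | s =>
            have h3 : P.bin l ∧ (k : ℕ) = l := h2
            left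
            rw [← Fin.ext h3.2, hsy]
            exact e1
          | r1 => exact absurd h2 (by simp [edM])
          | r2 => exact absurd h2 (by simp [edM])
          | w => exact absurd h2 (by simp [edM])
          | u => exact absurd h2 (by simp [edM])
        · cases ρ with
          | s => exact absurd h2 (by simp [edM])
          | r1 => exact absurd h2 (by simp [edM])
          | r2 =>
            right
            simp [ty, tyM]
          | w =>
            have h3 : P.bin k ∧ (l : ℕ) = k := h2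
            exact absurd (by rw [Fin.ext h3.2]) hy
          | u => exact absurd h2 (by simp [edM])
      -- (w, r2) for a sum
      have e3 : P.op k = 2 → Z (Sum.inl (k, .w)) (Sum.inl (k, .r2)) = 0 := by
        intro hop
        refine piv (Sum.inl (k, .w)) (Sum.inl (k, .g2)) (Sum.inl (k, .r2)) (by simp [ty, tyM, hop])
          (by simp [ty, tyM, hop]) ?_
        intro y hy hed
        obtain ⟨l, ρ, rfl, h2 | h2⟩ := P.regmain_nbr hed
        · cases ρ with
          | s => exact absurd h2 (by simp [edM])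
          | r1 => exact absurd h2 (by simp [edM])
          | r2 => exact absurd h2 (by simp [edM])
          | w => exact absurd h2 (by simp [edM])
          | u =>
            have h3 : P.bin l ∧ (k : ℕ) = l := h2
            left
            rw [← Fin.ext h3.2, hsy]
            exact e2
        · cases ρ with
          | s => exact absurd h2 (by simp [edM])
          | r1 =>
            right
            simp [ty, tyM]
          | r2 =>
            have h3 : P.op k = 2 ∧ (l : ℕ) = k := h2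
            exact absurd (by rw [Fin.ext h3.2]) hy
          | w => exact absurd h2 (by simp [edM])
          | u => exact absurd h2 (by simp [edM])
      -- (u, r2) for a product
      have e3' : P.op k = 3 → Z (Sum.inl (k, .u)) (Sum.inl (k, .r2)) = 0 := by
        intro hop
        refine piv (Sum.inl (k, .u)) (Sum.inl (k, .g1)) (Sum.inl (k, .r2)) (by simp [ty, tyM, hop])
          (by simp [ty, tyM, hop]) ?_
        intro y hy hed
        obtain ⟨l, ρ, rfl, h2 | h2⟩ := P.regmain_nbr hed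
        · cases ρ with
          | s =>
            have h3 : P.bin l ∧ (k : ℕ) = l := h2
            left
            rw [← Fin.ext h3.2, hsy]
            exact e1
          | r1 => exact absurd h2 (by simp [edM])
          | r2 => exact absurd h2 (by simp [edM])
          | w => exact absurd h2 (by simp [edM])
          | u => exact absurd h2 (by simp [edM])
        · cases ρ with
          | s => exact absurd h2 (by simp [edM])
          | r1 => exact absurd h2 (by simp [edM])
          | r2 =>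
            have h3 : P.op k = 3 ∧ (l : ℕ) = k := h2
            exact absurd (by rw [Fin.ext h3.2]) hy
          | w =>
            have h3 : P.bin k ∧ (l : ℕ) = k := h2
            left
            rw [Fin.ext h3.2]
            exact e2
          | u => exact absurd h2 (by simp [edM])
      -- (w, r1)
      have e4 : Z (Sum.inl (k, .w)) (Sum.inl (k, .r1)) = 0 := by
        refine piv (Sum.inl (k, .w)) (Sum.inl (k, .g1)) (Sum.inl (k, .r1)) (by simp [ty, tyM, hb])
          (by simp [ty, tyM, hb]) ?_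
        intro y hy hed
        obtain ⟨l, ρ, rfl, h2 | h2⟩ := P.regmain_nbr hed
        · cases ρ with
          | s => exact absurd h2 (by simp [edM])
          | r1 => exact absurd h2 (by simp [edM])
          | r2 => exact absurd h2 (by simp [edM])
          | w => exact absurd h2 (by simp [edM])
          | u =>
            have h3 : P.bin l ∧ (k : ℕ) = l := h2
            left
            rw [← Fin.ext h3.2, hsy]
            exact e2
        · cases ρ with
          | s => exact absurd h2 (by simp [edM])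
          | r1 =>
            have h3 : P.bin k ∧ (l : ℕ) = k := h2
            exact absurd (by rw [Fin.ext h3.2]) hy
          | r2 =>
            have h3 : P.op k = 2 ∧ (l : ℕ) = k := h2
            left
            rw [Fin.ext h3.2]
            exact e3 h3.1
          | w => exact absurd h2 (by simp [edM])
          | u => exact absurd h2 (by simp [edM])
      -- (r2, s)
      have e5 : ∀ m : Fin P.n, P.b k = m →
          Z (Sum.inl (k, .r2)) (Sum.inl (m, .s)) = 0 := by
        intro m hm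
        refine piv (Sum.inl (k, .r2)) (Sum.inl (k, .b2)) (Sum.inl (m, .s)) (by simp [ty, tyM, hb])
          (by simp [ty, tyM, hb, hm]) ?_
        intro y hy hed
        obtain ⟨l, ρ, rfl, h2 | h2⟩ := P.regmain_nbr hed
        · cases ρ with
          | s => exact absurd h2 (by simp [edM])
          | r1 => exact absurd h2 (by simp [edM])
          | r2 => exact absurd h2 (by simp [edM])
          | w =>
            have h3 : P.op l = 2 ∧ (k : ℕ) = l := h2
            left
            rw [← Fin.ext h3.2, hsy]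
            exact e3 (by rw [h3.2]; exact h3.1)
          | u =>
            have h3 : P.op l = 3 ∧ (k : ℕ) = l := h2
            left
            rw [← Fin.ext h3.2, hsy]
            exact e3' (by rw [h3.2]; exact h3.1)
        · cases ρ with
          | s =>
            have h3 : P.bin k ∧ P.b k = l := h2
            exact absurd (by rw [Fin.ext (h3.2.symm.trans hm)]) hy
          | r1 => exact absurd h2 (by simp [edM])
          | r2 => exact absurd h2 (by simp [edM])
          | w => exact absurd h2 (by simp [edM])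
          | u => exact absurd h2 (by simp [edM])
      -- (r1, s)
      have e6 : ∀ m : Fin P.n, P.a k = m →
          Z (Sum.inl (k, .r1)) (Sum.inl (m, .s)) = 0 := by
        intro m hm
        refine piv (Sum.inl (k, .r1)) (Sum.inl (k, .b1)) (Sum.inl (m, .s)) (by simp [ty, tyM, hb])
          (by simp [ty, tyM, hb, hm]) ?_
        intro y hy hed
        obtain ⟨l, ρ, rfl, h2 | h2⟩ := P.regmain_nbr hed
        · cases ρ with
          | s => exact absurd h2 (by simp [edM])
          | r1 => exact absurd h2 (by simp [edM])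
          | r2 => exact absurd h2 (by simp [edM])
          | w =>
            have h3 : P.bin l ∧ (k : ℕ) = l := h2
            left
            rw [← Fin.ext h3.2, hsy]
            exact e4
          | u => exact absurd h2 (by simp [edM])
        · cases ρ with
          | s =>
            have h3 : P.bin k ∧ P.a k = l := h2
            exact absurd (by rw [Fin.ext (h3.2.symm.trans hm)]) hy
          | r1 => exact absurd h2 (by simp [edM])
          | r2 => exact absurd h2 (by simp [edM])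
          | w => exact absurd h2 (by simp [edM])
          | u => exact absurd h2 (by simp [edM])
      -- all the edges
      intro τ ρ m hed
      rw [hsy]
      cases τ <;> cases ρ <;> try (simp [edM] at hed; done)
      · exact absurd (show P.op k = 1 ∧ P.a k = m from hed).1 hop1
      · exact e6 m (show P.bin k ∧ P.a k = m from hed).2
      · exact e5 m (show P.bin k ∧ P.b k = m from hed).2
      · rw [Fin.ext (show P.bin k ∧ (m : ℕ) = k from hed).2]
        exact e4
      · have h3 : P.op k = 2 ∧ (m : ℕ) = k := hed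
        rw [Fin.ext h3.2]
        exact e3 h3.1
      · have h3 : P.op k = 3 ∧ (m : ℕ) = k := hed
        rw [Fin.ext h3.2]
        exact e3' h3.1
      · rw [Fin.ext (show P.bin k ∧ (m : ℕ) = k from hed).2]
        exact e2
      · rw [Fin.ext (show P.bin k ∧ (m : ℕ) = k from hed).2]
        exact e1
    · by_cases hop : P.op k = 1
      · have hak := hP.one k k.2 hop
        intro τ ρ m hed
        cases τ <;> cases ρ <;> try (simp [edM, hb] at hed; done)
        · have hm : P.a k = m := (show P.op k = 1 ∧ P.a k = m from hed).2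
          have hmk : (m : ℕ) ≠ k := by omega
          rw [hsy]
          refine piv (Sum.inl (k, .s)) (Sum.inl (k, .al)) (Sum.inl (m, .s)) (by simp [ty, tyM])
            ?_ ?_
          · change (if (m : ℕ) = k then Ty.pa else
              if (P.op k = 1 ∧ P.a k = m) ∨ (P.op m = 1 ∧ P.a m = k) then Ty.fu else Ty.no) = Ty.fu
            rw [if_neg hmk, if_pos (Or.inl ⟨hop, hm⟩)]
          · intro y hy hed
            obtain ⟨l, ρ, rfl, h2 | h2⟩ := P.regmain_nbr hed
            · exact Or.inl (hs l ρ h2)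
            · exfalso
              cases ρ with
              | s =>
                have h3 : P.op k = 1 ∧ P.a k = l := h2
                exact hy (by rw [Fin.ext (h3.2.symm.trans hm)])
              | u => exact hb (show P.bin k ∧ (l : ℕ) = k from h2).1
              | r1 => exact absurd h2 (by simp [edM])
              | r2 => exact absurd h2 (by simp [edM])
              | w => exact absurd h2 (by simp [edM])
        · have h3 : P.op k = 2 ∧ (m : ℕ) = k := hed
          omega
        · have h3 : P.op k = 3 ∧ (m : ℕ) = k := hed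
          omega
      · intro τ ρ m hed
        exfalso
        cases τ <;> cases ρ <;> try (simp [edM, hb, hop] at hed; done)
        · exact hb (Or.inl (show P.op k = 2 ∧ (m : ℕ) = k from hed).1)
        · exact hb (Or.inr (show P.op k = 3 ∧ (m : ℕ) = k from hed).1)
  by_cases hed : P.ed (Sum.inl (m, τ)) y
  · obtain ⟨l, ρ, rfl, h2 | h2⟩ := P.regmain_nbr hed
    · exact hE _ l rfl τ ρ m h2
    · rw [hsy]
      exact hE _ m rfl ρ τ l h2
  · exact hZ _ _ hed

end SLP

end Pool.Agent.Lib.MP_79a9b1_lc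
end

section

set_option autoImplicit false

/-!
# Solutions of the network of a straight-line program are regular
-/

namespace Pool.Agent.Lib.MP_79a9b1_lc

namespace SLP

variable (P : SLP)

theorem reg_of_sol (hP : P.WF) (Y : Ax P.n → ℝ) (ξ : Rw P.n → Ax P.n → ℝ)
    (h : P.net.Sol Y ξ) : P.net.Reg Y ξ := by
  intro Z W hsy hZ0 hW0 _ h1' h2
  have hZ : ∀ x y, ¬ P.ed x y → Z x y = 0 := hZ0
  have hW : ∀ a x, P.ty x a ≠ .fu → W a x = 0 := hW0
  have h1 : ∀ x a, P.ty x a ≠ .no → Y a * ∑ y, ξ y a * Z x y + W a x = 0 := by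
    intro x a hxa
    apply h1' x a
    change P.ty x a = .fu ∨ P.ty x a = .pa
    cases h3 : P.ty x a with
    | no => exact absurd h3 hxa
    | pa => exact Or.inr rfl
    | fu => exact Or.inl rfl
  have hmain := P.main_zero hP h Z W hsy hZ hW h1
  have hWl : ∀ a (x : Fin P.n × Rs), W a (Sum.inl x) = 0 := by
    rintro a ⟨m, τ⟩
    by_cases hfu : P.ty (Sum.inl (m, τ)) a = .fu
    · have h3 := h1 (Sum.inl (m, τ)) a (by rw [hfu]; decide)
      rw [Finset.sum_eq_zero (fun y _ => by rw [hmain, mul_zero]), mul_zero, zero_add] at h3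
      exact h3
    · exact hW _ _ hfu
  -- the entries of the calibrators
  let z : Option (Fin P.n × Sg) → ℝ := fun c => Z (Sum.inr (c, false)) (Sum.inr (c, true))
  have hz : ∀ c t, Z (Sum.inr (c, t)) (Sum.inr (c, !t)) = z c := by
    intro c t
    cases t
    · rfl
    · exact hsy _ _
  have htyeq : ∀ c t t' a, P.ty (Sum.inr (c, t)) a = P.ty (Sum.inr (c, t')) a := by
    intro c t t' a
    rcases c with _ | ⟨k, σ⟩ <;> rcases a with ⟨l, ρ⟩ | s <;> rfl
  have hWr : ∀ a c t, P.ty (Sum.inr (c, t)) a = .fu → W a (Sum.inr (c, t)) = -(Y a * z c) := by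
    intro a c t hfu
    have h3 := h1 (Sum.inr (c, t)) a (by rw [hfu]; decide)
    rw [Finset.sum_eq_single (Sum.inr (c, !t))] at h3
    · have h4 : ξ (Sum.inr (c, !t)) a = 1 := by
        apply h.full
        change P.ty (Sum.inr (c, !t)) a = .fu
        rw [htyeq c (!t) t a, hfu]
      rw [h4, one_mul, hz] at h3
      linarith
    · intro y _ hy
      rcases y with y | ⟨d, r⟩
      · rw [hsy, hmain, mul_zero]
      · rw [hZ _ _, mul_zero]
        rintro ⟨h5, h6⟩
        apply hy
        subst h5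
        have h7 : r = !t := by
          cases t <;> cases r <;> first | rfl | exact absurd rfl h6
        rw [h7]
    · intro h4
      exact absurd (Finset.mem_univ _) h4
  have hsum : ∀ a, ∑ c, ∑ t, W a (Sum.inr (c, t)) = 0 := by
    intro a
    have h3 := h2 a
    rw [Fintype.sum_sum_type, Finset.sum_eq_zero (fun x _ => hWl a x), zero_add,
      Fintype.sum_prod_type] at h3
    exact h3
  have hzsome : ∀ k σ, z (some (k, σ)) = 0 := by
    intro k σ
    have h3 := hsum (Sum.inl (k, σ))
    rw [Finset.sum_eq_single (some (k, σ))] at h3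
    · have hfu : ∀ t, P.ty (Sum.inr (some (k, σ), t)) (Sum.inl (k, σ)) = .fu := by
        intro t
        simp [ty]
      rw [Fintype.sum_bool, hWr _ _ _ (hfu true), hWr _ _ _ (hfu false)] at h3
      have h4 : Y (Sum.inl (k, σ)) * z (some (k, σ)) = 0 := by linarith
      exact (mul_eq_zero.1 h4).resolve_left (h.pos _).ne'
    · intro c _ hc
      refine Finset.sum_eq_zero fun t _ => hW _ _ ?_
      rcases c with _ | ⟨l, ρ⟩
      · simp [ty]
      · have h5 : ¬ ((l, ρ) = (k, σ)) := fun h5 => hc (by rw [h5])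
        simp only [ty, if_neg h5]
        decide
    · intro h4
      exact absurd (Finset.mem_univ _) h4
  have hznone : z none = 0 := by
    have h3 := hsum (Sum.inr false)
    rw [Finset.sum_eq_single none] at h3
    · have hfu : ∀ t, P.ty (Sum.inr (none, t)) (Sum.inr false) = .fu := by
        intro t
        simp [ty]
      rw [Fintype.sum_bool, hWr _ _ _ (hfu true), hWr _ _ _ (hfu false)] at h3
      have h4 : Y (Sum.inr false) * z none = 0 := by linarith
      exact (mul_eq_zero.1 h4).resolve_left (h.pos _).ne'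
    · intro c _ hc
      refine Finset.sum_eq_zero fun t _ => ?_
      rcases c with _ | ⟨l, ρ⟩
      · exact absurd rfl hc
      · by_cases hfu : P.ty (Sum.inr (some (l, ρ), t)) (Sum.inr false) = .fu
        · rw [hWr _ _ _ hfu, hzsome, mul_zero, neg_zero]
        · exact hW _ _ hfu
    · intro h4
      exact absurd (Finset.mem_univ _) h4
  have hzall : ∀ c, z c = 0 := by
    rintro (_ | ⟨k, σ⟩)
    · exact hznone
    · exact hzsome k σ
  have hZall : ∀ x y, Z x y = 0 := by
    rintro (⟨m, τ⟩ | ⟨c, t⟩) y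
    · exact hmain m τ y
    · rcases y with ⟨m, τ⟩ | ⟨d, r⟩
      · rw [hsy]
        exact hmain m τ _
      · by_cases hed : P.ed (Sum.inr (c, t)) (Sum.inr (d, r))
        · obtain ⟨h5, h6⟩ := hed
          subst h5
          have h7 : r = !t := by
            cases t <;> cases r <;> first | rfl | exact absurd rfl h6
          rw [h7, hz]
          exact hzall c
        · exact hZ _ _ hed
  refine ⟨hZall, fun a x => ?_⟩
  by_cases hfu : P.ty x a = .fu
  · have h3 := h1 x a (by rw [hfu]; decide)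
    rw [Finset.sum_eq_zero (fun y _ => by rw [hZall, mul_zero]), mul_zero, zero_add] at h3
    exact h3
  · exact hW _ _ hfu

end SLP

end Pool.Agent.Lib.MP_79a9b1_lc
end

section

set_option autoImplicit false

/-!
# Coordinates with prescribed values
-/

namespace Pool.Agent.Lib.MP_79a9b1_lc

namespace SLP

variable (P : SLP)

/-- A row which is not a calibrator. -/
abbrev ro (τ : Rs) (k : Fin P.n) : Rw P.n := Sum.inl (k, τ)

/-- An axis which is not a reference axis. -/
abbrev ax (σ : Sg) (k : Fin P.n) : Ax P.n := Sum.inl (k, σ)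

/-- Weights `y` on main axes, `1 - y` on spacers; coordinates `1` on full axes, `0` outside the
support. -/
structure Pre (y : ℝ) (Y : Ax P.n → ℝ) (ξ : Rw P.n → Ax P.n → ℝ) : Prop where
  main : ∀ k σ, isMain σ = true → Y (P.ax σ k) = y
  spac : ∀ k σ, isMain σ = false → Y (P.ax σ k) = 1 - y
  fu : ∀ x a, P.ty x a = .fu → ξ x a = 1
  no : ∀ x a, P.ty x a = .no → ξ x a = 0

theorem edgeDef_two {Y : Ax P.n → ℝ} {ξ : Rw P.n → Ax P.n → ℝ}
    (hfu : ∀ x a, P.ty x a = .fu → ξ x a = 1) (hno : ∀ x a, P.ty x a = .no → ξ x a = 0)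
    {p q : Rw P.n} (a1 a2 : Ax P.n) (h12 : a1 ≠ a2) (f1 : P.ty p a1 = .fu) (f2 : P.ty p a2 = .fu)
    (g1 : P.ty q a1 = .fu) (g2 : P.ty q a2 = .fu)
    (hz : ∀ a, a ≠ a1 → a ≠ a2 → P.ty p a = .no) :
    ∑ a, Y a * ξ p a * ξ q a = Y a1 + Y a2 := by
  classical
  rw [← Finset.sum_subset (Finset.subset_univ ({a1, a2} : Finset (Ax P.n)))]
  · rw [Finset.sum_pair h12, hfu _ _ f1, hfu _ _ f2, hfu _ _ g1, hfu _ _ g2]
    ring
  · intro a _ ha
    simp only [Finset.mem_insert, Finset.mem_singleton, not_or] at ha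
    rw [hno _ _ (hz a ha.1 ha.2)]
    ring

theorem sum_cal_some {Y : Ax P.n → ℝ} {ξ : Rw P.n → Ax P.n → ℝ}
    (hfu : ∀ x a, P.ty x a = .fu → ξ x a = 1) (hno : ∀ x a, P.ty x a = .no → ξ x a = 0)
    (k : Fin P.n) (σ : Sg) (t r : Bool) :
    ∑ a, Y a * ξ (Sum.inr (some (k, σ), t)) a * ξ (Sum.inr (some (k, σ), r)) a =
      Y (P.ax σ k) + Y (Sum.inr (isMain σ)) := by
  refine edgeDef_two P hfu hno _ _ (by simp) (by simp [ty]) (by simp [ty]) (by simp [ty])
    (by simp [ty]) fun a h1 h2 => ?_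
  rcases a with ⟨l, ρ⟩ | b
  · have h3 : ¬ (k, σ) = (l, ρ) := fun e => h1 (by rw [← e])
    simp only [ty, if_neg h3]
  · have h3 : ¬ b = isMain σ := fun e => h2 (by rw [e])
    simp only [ty, if_neg h3]

theorem sum_cal_none {Y : Ax P.n → ℝ} {ξ : Rw P.n → Ax P.n → ℝ}
    (hfu : ∀ x a, P.ty x a = .fu → ξ x a = 1) (hno : ∀ x a, P.ty x a = .no → ξ x a = 0)
    (t r : Bool) :
    ∑ a, Y a * ξ (Sum.inr (none, t)) a * ξ (Sum.inr (none, r)) a =
      Y (Sum.inr false) + Y (Sum.inr true) := by
  refine edgeDef_two P hfu hno _ _ (by simp) (by simp [ty]) (by simp [ty]) (by simp [ty])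
    (by simp [ty]) fun a h1 h2 => ?_
  rcases a with ⟨l, ρ⟩ | b
  · simp only [ty]
  · cases b
    · exact absurd rfl h1
    · exact absurd rfl h2

end SLP

end Pool.Agent.Lib.MP_79a9b1_lc
end

section

set_option autoImplicit false

/-!
# The sums which belong to the edges, first part
-/

namespace Pool.Agent.Lib.MP_79a9b1_lc

namespace SLP

variable {P : SLP} {y : ℝ} {Y : Ax P.n → ℝ} {ξ : Rw P.n → Ax P.n → ℝ}

theorem edgeSum1_three (h : P.Pre y Y ξ) {p q : Rw P.n} (a1 a2 a3 : Ax P.n) (h12 : a1 ≠ a2)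
    (h13 : a1 ≠ a3) (h23 : a2 ≠ a3)
    (hz : ∀ a, a ≠ a1 → a ≠ a2 → a ≠ a3 → P.ty p a = .no ∨ P.ty q a = .no) :
    ∑ a, Y a * ξ p a * ξ q a = Y a1 * ξ p a1 * ξ q a1 + Y a2 * ξ p a2 * ξ q a2 +
      Y a3 * ξ p a3 * ξ q a3 := by
  classical
  rw [← Finset.sum_subset (Finset.subset_univ ({a1, a2, a3} : Finset (Ax P.n)))]
  · rw [Finset.sum_insert (by simp [h12, h13]), Finset.sum_pair h23]
    ring
  · intro a _ ha
    simp only [Finset.mem_insert, Finset.mem_singleton, not_or] at ha
    rcases hz a ha.1 ha.2.1 ha.2.2 with h1 | h1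
    · rw [h.no _ _ h1]
      ring
    · rw [h.no _ _ h1]
      ring

theorem sum_ss (hP : P.WF) (h : P.Pre y Y ξ) {i k : Fin P.n} (ho : P.op k = 1)
    (hi : P.a k = i) :
    ∑ a, Y a * ξ (P.ro .s i) a * ξ (P.ro .s k) a =
      y * (ξ (P.ro .s i) (P.ax .al i) + ξ (P.ro .s k) (P.ax .al k)) + (1 - y) := by
  have hk := hP.one k k.2 ho
  have hik : (i : ℕ) < k := by omega
  have hne : i ≠ k := fun e => by rw [e] at hik; exact lt_irrefl _ hik
  rw [edgeSum1_three h (P.ax .al i) (P.ax .al k) (P.ax .f1 k)]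
  · rw [h.main i .al rfl, h.main k .al rfl, h.spac k .f1 rfl]
    rw [h.fu (P.ro .s k) (P.ax .al i), h.fu (P.ro .s i) (P.ax .al k), h.fu (P.ro .s i) (P.ax .f1 k),
      h.fu (P.ro .s k) (P.ax .f1 k)]
    · ring
    · simp [ty, tyM, ho]
    · simp [ty, tyM, ho, hi]
    · have h1 : (i : ℕ) ≠ k := by omega
      simp [ty, tyM, ho, hi, h1]
    · have h1 : (k : ℕ) ≠ i := by omega
      simp [ty, tyM, ho, hi, h1]
  · simp [hne]
  · simp
  · simp
  · intro a h1 h2 h3
    rcases a with ⟨l, σ⟩ | t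
    · have ol := hP.one l l.2
      have oi := hP.one i i.2
      cases σ <;> simp only [ty, tyM, ne_eq, Sum.inl.injEq, Prod.mk.injEq, Fin.ext_iff, and_true,
        reduceCtorEq, and_false, not_false_eq_true] at h1 h2 h3 ⊢ <;> grind
    · exact Or.inl rfl

theorem sum_us (hP : P.WF) (h : P.Pre y Y ξ) {k : Fin P.n} (ho : P.bin k) :
    ∑ a, Y a * ξ (P.ro .u k) a * ξ (P.ro .s k) a =
      y * (ξ (P.ro .u k) (P.ax .om k) + ξ (P.ro .s k) (P.ax .al k)) + (1 - y) := by
  have hk := hP.bin k k.2 ho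
  have ho' : P.op k = 2 ∨ P.op k = 3 := ho
  rw [edgeSum1_three h (P.ax .om k) (P.ax .al k) (P.ax .f6 k)]
  · rw [h.main k .om rfl, h.main k .al rfl, h.spac k .f6 rfl]
    rw [h.fu (P.ro .s k) (P.ax .om k), h.fu (P.ro .u k) (P.ax .al k), h.fu (P.ro .u k) (P.ax .f6 k),
      h.fu (P.ro .s k) (P.ax .f6 k)]
    · ring
    · simp [ty, tyM, ho]
    · simp [ty, tyM, ho]
    · simp [ty, tyM, ho]
    · simp [ty, tyM, ho]
  · simp
  · simp
  · simp
  · intro a h1 h2 h3
    rcases a with ⟨l, σ⟩ | t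
    · have ol := hP.one l l.2
      have bl := hP.bin l l.2
      simp only [bin] at bl ho
      cases σ <;> simp only [ty, tyM, bin, ne_eq, Sum.inl.injEq, Prod.mk.injEq, Fin.ext_iff,
        and_true, reduceCtorEq, and_false, not_false_eq_true] at h1 h2 h3 ⊢ <;> grind
    · exact Or.inl rfl

end SLP

end Pool.Agent.Lib.MP_79a9b1_lc
end

section

set_option autoImplicit false

/-!
# The sums which belong to the edges, second part
-/

namespace Pool.Agent.Lib.MP_79a9b1_lc

namespace SLP

variable {P : SLP} {y : ℝ} {Y : Ax P.n → ℝ} {ξ : Rw P.n → Ax P.n → ℝ}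

theorem edgeSum2_three (h : P.Pre y Y ξ) {p q : Rw P.n} (a1 a2 a3 : Ax P.n) (h12 : a1 ≠ a2)
    (h13 : a1 ≠ a3) (h23 : a2 ≠ a3)
    (hz : ∀ a, a ≠ a1 → a ≠ a2 → a ≠ a3 → P.ty p a = .no ∨ P.ty q a = .no) :
    ∑ a, Y a * ξ p a * ξ q a = Y a1 * ξ p a1 * ξ q a1 + Y a2 * ξ p a2 * ξ q a2 +
      Y a3 * ξ p a3 * ξ q a3 := by
  classical
  rw [← Finset.sum_subset (Finset.subset_univ ({a1, a2, a3} : Finset (Ax P.n)))]
  · rw [Finset.sum_insert (by simp [h12, h13]), Finset.sum_pair h23]
    ring
  · intro a _ ha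
    simp only [Finset.mem_insert, Finset.mem_singleton, not_or] at ha
    rcases hz a ha.1 ha.2.1 ha.2.2 with h1 | h1
    · rw [h.no _ _ h1]
      ring
    · rw [h.no _ _ h1]
      ring

theorem sum_sr1 (hP : P.WF) (h : P.Pre y Y ξ) {i k : Fin P.n} (ho : P.bin k) (hi : P.a k = i) :
    ∑ a, Y a * ξ (P.ro .s i) a * ξ (P.ro .r1 k) a =
      y * (ξ (P.ro .s i) (P.ax .al i) + ξ (P.ro .r1 k) (P.ax .b1 k)) + (1 - y) := by
  have hk := hP.bin k k.2 ho
  rw [edgeSum2_three h (P.ax .al i) (P.ax .b1 k) (P.ax .f1 k)]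
  · rw [h.main i .al rfl, h.main k .b1 rfl, h.spac k .f1 rfl]
    rw [h.fu (P.ro .r1 k) (P.ax .al i), h.fu (P.ro .s i) (P.ax .b1 k),
      h.fu (P.ro .s i) (P.ax .f1 k), h.fu (P.ro .r1 k) (P.ax .f1 k)]
    · ring
    · simp [ty, tyM, ho]
    · simp [ty, tyM, ho, hi]
    · simp [ty, tyM, ho, hi]
    · simp [ty, tyM, ho, hi]
  · simp
  · simp
  · simp
  · intro a h1 h2 h3
    rcases a with ⟨l, σ⟩ | t
    · have ol := hP.one l l.2
      have bl := hP.bin l l.2
      simp only [bin] at bl ho
      cases σ <;> simp only [ty, tyM, bin, ne_eq, Sum.inl.injEq, Prod.mk.injEq, Fin.ext_iff,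
        and_true, reduceCtorEq, and_false, not_false_eq_true] at h1 h2 h3 ⊢ <;> grind
    · exact Or.inl rfl

theorem sum_sr2 (hP : P.WF) (h : P.Pre y Y ξ) {j k : Fin P.n} (ho : P.bin k) (hj : P.b k = j) :
    ∑ a, Y a * ξ (P.ro .s j) a * ξ (P.ro .r2 k) a =
      y * (ξ (P.ro .s j) (P.ax .al j) + ξ (P.ro .r2 k) (P.ax .b2 k)) + (1 - y) := by
  have hk := hP.bin k k.2 ho
  rw [edgeSum2_three h (P.ax .al j) (P.ax .b2 k) (P.ax .f2 k)]
  · rw [h.main j .al rfl, h.main k .b2 rfl, h.spac k .f2 rfl]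
    rw [h.fu (P.ro .r2 k) (P.ax .al j), h.fu (P.ro .s j) (P.ax .b2 k),
      h.fu (P.ro .s j) (P.ax .f2 k), h.fu (P.ro .r2 k) (P.ax .f2 k)]
    · ring
    · simp [ty, tyM, ho]
    · simp [ty, tyM, ho, hj]
    · simp [ty, tyM, ho, hj]
    · simp [ty, tyM, ho, hj]
  · simp
  · simp
  · simp
  · intro a h1 h2 h3
    rcases a with ⟨l, σ⟩ | t
    · have ol := hP.one l l.2
      have bl := hP.bin l l.2
      simp only [bin] at bl ho
      cases σ <;> simp only [ty, tyM, bin, ne_eq, Sum.inl.injEq, Prod.mk.injEq, Fin.ext_iff,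
        and_true, reduceCtorEq, and_false, not_false_eq_true] at h1 h2 h3 ⊢ <;> grind
    · exact Or.inl rfl

end SLP

end Pool.Agent.Lib.MP_79a9b1_lc
end

section

set_option autoImplicit false

/-!
# The sums which belong to the edges, third part
-/

namespace Pool.Agent.Lib.MP_79a9b1_lc

namespace SLP

variable {P : SLP} {y : ℝ} {Y : Ax P.n → ℝ} {ξ : Rw P.n → Ax P.n → ℝ}

theorem edgeSum3_three (h : P.Pre y Y ξ) {p q : Rw P.n} (a1 a2 a3 : Ax P.n) (h12 : a1 ≠ a2)
    (h13 : a1 ≠ a3) (h23 : a2 ≠ a3)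
    (hz : ∀ a, a ≠ a1 → a ≠ a2 → a ≠ a3 → P.ty p a = .no ∨ P.ty q a = .no) :
    ∑ a, Y a * ξ p a * ξ q a = Y a1 * ξ p a1 * ξ q a1 + Y a2 * ξ p a2 * ξ q a2 +
      Y a3 * ξ p a3 * ξ q a3 := by
  classical
  rw [← Finset.sum_subset (Finset.subset_univ ({a1, a2, a3} : Finset (Ax P.n)))]
  · rw [Finset.sum_insert (by simp [h12, h13]), Finset.sum_pair h23]
    ring
  · intro a _ ha
    simp only [Finset.mem_insert, Finset.mem_singleton, not_or] at ha
    rcases hz a ha.1 ha.2.1 ha.2.2 with h1 | h1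
    · rw [h.no _ _ h1]
      ring
    · rw [h.no _ _ h1]
      ring

theorem sum_r1w (hP : P.WF) (h : P.Pre y Y ξ) {k : Fin P.n} (ho : P.bin k) :
    ∑ a, Y a * ξ (P.ro .r1 k) a * ξ (P.ro .w k) a =
      y * (ξ (P.ro .r1 k) (P.ax .b1 k) + ξ (P.ro .w k) (P.ax .g1 k)) + (1 - y) := by
  rw [edgeSum3_three h (P.ax .b1 k) (P.ax .g1 k) (P.ax .f3 k)]
  · rw [h.main k .b1 rfl, h.main k .g1 rfl, h.spac k .f3 rfl]
    rw [h.fu (P.ro .w k) (P.ax .b1 k),
      h.fu (P.ro .r1 k) (P.ax .g1 k),
      h.fu (P.ro .r1 k) (P.ax .f3 k),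
      h.fu (P.ro .w k) (P.ax .f3 k)]
    · ring
    · simp [ty, tyM, ho]
    · simp [ty, tyM, ho]
    · simp [ty, tyM, ho]
    · simp [ty, tyM, ho]
  · simp
  · simp
  · simp
  · intro a h1 h2 h3
    rcases a with ⟨l, σ⟩ | t
    · have ol := hP.one l l.2
      have bl := hP.bin l l.2
      simp only [bin] at bl ho
      cases σ <;> simp only [ty, tyM, bin, ne_eq, Sum.inl.injEq, Prod.mk.injEq, Fin.ext_iff,
        and_true, reduceCtorEq, and_false, not_false_eq_true] at h1 h2 h3 ⊢ <;> grind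
    · exact Or.inl rfl

theorem sum_r2w (hP : P.WF) (h : P.Pre y Y ξ) {k : Fin P.n} (ho : P.op k = 2) :
    ∑ a, Y a * ξ (P.ro .r2 k) a * ξ (P.ro .w k) a =
      y * (ξ (P.ro .r2 k) (P.ax .b2 k) + ξ (P.ro .w k) (P.ax .g2 k)) + (1 - y) := by
  rw [edgeSum3_three h (P.ax .b2 k) (P.ax .g2 k) (P.ax .f4 k)]
  · rw [h.main k .b2 rfl, h.main k .g2 rfl, h.spac k .f4 rfl]
    rw [h.fu (P.ro .w k) (P.ax .b2 k),
      h.fu (P.ro .r2 k) (P.ax .g2 k),
      h.fu (P.ro .r2 k) (P.ax .f4 k),
      h.fu (P.ro .w k) (P.ax .f4 k)]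
    · ring
    · simp [ty, tyM, bin, ho]
    · simp [ty, tyM, bin, ho]
    · simp [ty, tyM, bin, ho]
    · simp [ty, tyM, bin, ho]
  · simp
  · simp
  · simp
  · intro a h1 h2 h3
    rcases a with ⟨l, σ⟩ | t
    · have ol := hP.one l l.2
      have bl := hP.bin l l.2
      simp only [bin] at bl
      cases σ <;> simp only [ty, tyM, bin, ne_eq, Sum.inl.injEq, Prod.mk.injEq, Fin.ext_iff,
        and_true, reduceCtorEq, and_false, not_false_eq_true] at h1 h2 h3 ⊢ <;> grind
    · exact Or.inl rfl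

theorem sum_r2u (hP : P.WF) (h : P.Pre y Y ξ) {k : Fin P.n} (ho : P.op k = 3) :
    ∑ a, Y a * ξ (P.ro .r2 k) a * ξ (P.ro .u k) a =
      y * (ξ (P.ro .r2 k) (P.ax .b2 k) + ξ (P.ro .u k) (P.ax .g1 k)) + (1 - y) := by
  rw [edgeSum3_three h (P.ax .b2 k) (P.ax .g1 k) (P.ax .f4 k)]
  · rw [h.main k .b2 rfl, h.main k .g1 rfl, h.spac k .f4 rfl]
    rw [h.fu (P.ro .u k) (P.ax .b2 k),
      h.fu (P.ro .r2 k) (P.ax .g1 k),
      h.fu (P.ro .r2 k) (P.ax .f4 k),
      h.fu (P.ro .u k) (P.ax .f4 k)]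
    · ring
    · simp [ty, tyM, bin, ho]
    · simp [ty, tyM, bin, ho]
    · simp [ty, tyM, bin, ho]
    · simp [ty, tyM, bin, ho]
  · simp
  · simp
  · simp
  · intro a h1 h2 h3
    rcases a with ⟨l, σ⟩ | t
    · have ol := hP.one l l.2
      have bl := hP.bin l l.2
      simp only [bin] at bl
      cases σ <;> simp only [ty, tyM, bin, ne_eq, Sum.inl.injEq, Prod.mk.injEq, Fin.ext_iff,
        and_true, reduceCtorEq, and_false, not_false_eq_true] at h1 h2 h3 ⊢ <;> grind
    · exact Or.inl rfl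

end SLP

end Pool.Agent.Lib.MP_79a9b1_lc
end

section

set_option autoImplicit false

/-!
# The sums which belong to the edges, fourth part
-/

namespace Pool.Agent.Lib.MP_79a9b1_lc

namespace SLP

variable {P : SLP} {y : ℝ} {Y : Ax P.n → ℝ} {ξ : Rw P.n → Ax P.n → ℝ}

theorem edgeSum4_three (h : P.Pre y Y ξ) {p q : Rw P.n} (a1 a2 a3 : Ax P.n) (h12 : a1 ≠ a2)
    (h13 : a1 ≠ a3) (h23 : a2 ≠ a3)
    (hz : ∀ a, a ≠ a1 → a ≠ a2 → a ≠ a3 → P.ty p a = .no ∨ P.ty q a = .no) :
    ∑ a, Y a * ξ p a * ξ q a = Y a1 * ξ p a1 * ξ q a1 + Y a2 * ξ p a2 * ξ q a2 +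
      Y a3 * ξ p a3 * ξ q a3 := by
  classical
  rw [← Finset.sum_subset (Finset.subset_univ ({a1, a2, a3} : Finset (Ax P.n)))]
  · rw [Finset.sum_insert (by simp [h12, h13]), Finset.sum_pair h23]
    ring
  · intro a _ ha
    simp only [Finset.mem_insert, Finset.mem_singleton, not_or] at ha
    rcases hz a ha.1 ha.2.1 ha.2.2 with h1 | h1
    · rw [h.no _ _ h1]
      ring
    · rw [h.no _ _ h1]
      ring

theorem edgeSum4_four (h : P.Pre y Y ξ) {p q : Rw P.n} (a1 a2 a3 a4 : Ax P.n) (h12 : a1 ≠ a2)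
    (h13 : a1 ≠ a3) (h14 : a1 ≠ a4) (h23 : a2 ≠ a3) (h24 : a2 ≠ a4) (h34 : a3 ≠ a4)
    (hz : ∀ a, a ≠ a1 → a ≠ a2 → a ≠ a3 → a ≠ a4 → P.ty p a = .no ∨ P.ty q a = .no) :
    ∑ a, Y a * ξ p a * ξ q a = Y a1 * ξ p a1 * ξ q a1 + Y a2 * ξ p a2 * ξ q a2 +
      Y a3 * ξ p a3 * ξ q a3 + Y a4 * ξ p a4 * ξ q a4 := by
  classical
  rw [← Finset.sum_subset (Finset.subset_univ ({a1, a2, a3, a4} : Finset (Ax P.n)))]
  · rw [Finset.sum_insert (by simp [h12, h13, h14]), Finset.sum_insert (by simp [h23, h24]),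
      Finset.sum_pair h34]
    ring
  · intro a _ ha
    simp only [Finset.mem_insert, Finset.mem_singleton, not_or] at ha
    rcases hz a ha.1 ha.2.1 ha.2.2.1 ha.2.2.2 with h1 | h1
    · rw [h.no _ _ h1]
      ring
    · rw [h.no _ _ h1]
      ring

theorem sum_wu_add (hP : P.WF) (h : P.Pre y Y ξ) {k : Fin P.n} (ho : P.op k = 2) :
    ∑ a, Y a * ξ (P.ro .w k) a * ξ (P.ro .u k) a =
      y * (ξ (P.ro .u k) (P.ax .om k) + ξ (P.ro .w k) (P.ax .g1 k) +
        ξ (P.ro .w k) (P.ax .g2 k)) + (1 - y) := by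
  rw [edgeSum4_four h (P.ax .om k) (P.ax .g1 k) (P.ax .g2 k) (P.ax .f5 k)]
  · rw [h.main k .om rfl, h.main k .g1 rfl, h.main k .g2 rfl, h.spac k .f5 rfl]
    rw [h.fu (P.ro .w k) (P.ax .om k),
      h.fu (P.ro .u k) (P.ax .g1 k),
      h.fu (P.ro .u k) (P.ax .g2 k),
      h.fu (P.ro .w k) (P.ax .f5 k),
      h.fu (P.ro .u k) (P.ax .f5 k)]
    · ring
    · simp [ty, tyM, bin, ho]
    · simp [ty, tyM, bin, ho]
    · simp [ty, tyM, bin, ho]
    · simp [ty, tyM, bin, ho]
    · simp [ty, tyM, bin, ho]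
  · simp
  · simp
  · simp
  · simp
  · simp
  · simp
  · intro a h1 h2 h3 h4
    rcases a with ⟨l, σ⟩ | t
    · have ol := hP.one l l.2
      have bl := hP.bin l l.2
      simp only [bin] at bl
      cases σ <;> simp only [ty, tyM, bin, ne_eq, Sum.inl.injEq, Prod.mk.injEq, Fin.ext_iff,
        and_true, reduceCtorEq, and_false, not_false_eq_true] at h1 h2 h3 h4 ⊢ <;> grind
    · exact Or.inl rfl

theorem sum_wu_mul (hP : P.WF) (h : P.Pre y Y ξ) {k : Fin P.n} (ho : P.op k = 3) :
    ∑ a, Y a * ξ (P.ro .w k) a * ξ (P.ro .u k) a =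
      y * (ξ (P.ro .u k) (P.ax .om k) + ξ (P.ro .w k) (P.ax .g1 k) *
        ξ (P.ro .u k) (P.ax .g1 k)) + (1 - y) := by
  rw [edgeSum4_three h (P.ax .om k) (P.ax .g1 k) (P.ax .f5 k)]
  · rw [h.main k .om rfl, h.main k .g1 rfl, h.spac k .f5 rfl]
    rw [h.fu (P.ro .w k) (P.ax .om k),
      h.fu (P.ro .w k) (P.ax .f5 k),
      h.fu (P.ro .u k) (P.ax .f5 k)]
    · ring
    · simp [ty, tyM, bin, ho]
    · simp [ty, tyM, bin, ho]
    · simp [ty, tyM, bin, ho]
  · simp
  · simp
  · simp
  · intro a h1 h2 h3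
    rcases a with ⟨l, σ⟩ | t
    · have ol := hP.one l l.2
      have bl := hP.bin l l.2
      simp only [bin] at bl
      cases σ <;> simp only [ty, tyM, bin, ne_eq, Sum.inl.injEq, Prod.mk.injEq, Fin.ext_iff,
        and_true, reduceCtorEq, and_false, not_false_eq_true] at h1 h2 h3 ⊢ <;> grind
    · exact Or.inl rfl

end SLP

end Pool.Agent.Lib.MP_79a9b1_lc
end

section

end
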