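import Pool.Agent.Lib.MP_79a9b1_lc.Net
import Pool.Agent.Lib.MP_79a9b1_lc.Mg.G003
import Pool.Agent.Lib.MP_79a9b1_lc.Mg.G005

section

set_option autoImplicit false

/-!
# The frame is independent
-/

namespace Pool.Agent.Lib.MP_79a9b1_lc

open Matrix

namespace Net

variable {A X : Type} [Fintype A] [DecidableEq A] [Fintype X] [DecidableEq X] (N : Net A X)

/-- The frame: the vertices `e0` and `e a`. -/
def fr : Option A → NV A X
  | none => .e0
  | some a => .e a

omit [Fintype A] [DecidableEq A] [Fintype X] [DecidableEq X] in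
lemma neta1_fr_inj {c d : Option A} (h : (fr c : NV A X) = fr d) : c = d := by
  cases c <;> cases d <;> simp_all [fr]

lemma neta1_zero_fr {M : Matrix (NV A X) (NV A X) ℝ} (hM : CdV N.graph M) {c d : Option A}
    (h : c ≠ d) : M (fr c) (fr d) = 0 := by
  refine hM.zero _ _ (fun h' => h (neta1_fr_inj h')) ?_
  rintro ⟨-, h2⟩
  apply h2
  cases c <;> cases d <;> simp_all [fr, nadj]

lemma neta1_zero_ep {M : Matrix (NV A X) (NV A X) ℝ} (hM : CdV N.graph M) {a b : A}
    (h : a ≠ b) : M (.e a) (.p b) = 0 := by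
  refine hM.zero _ _ (by simp) ?_
  rintro ⟨-, h2⟩
  exact h2 h

lemma neta1_symm {M : Matrix (NV A X) (NV A X) ℝ} (hM : CdV N.graph M) (u v : NV A X) :
    M u v = M v u := by
  have := hM.herm.apply v u
  simpa using this

lemma neta1_zero_pe {M : Matrix (NV A X) (NV A X) ℝ} (hM : CdV N.graph M) {a b : A}
    (h : a ≠ b) : M (.p a) (.e b) = 0 := by
  rw [neta1_symm N hM]
  exact neta1_zero_ep N hM h.symm

lemma neta1_neg_ep {M : Matrix (NV A X) (NV A X) ℝ} (hM : CdV N.graph M) (a : A) :
    M (.e a) (.p a) < 0 := by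
  refine hM.neg _ _ ⟨by simp, ?_⟩
  intro h
  exact h rfl

lemma neta1_neg_e0p {M : Matrix (NV A X) (NV A X) ℝ} (hM : CdV N.graph M) (a : A) :
    M .e0 (.p a) < 0 := by
  refine hM.neg _ _ ⟨by simp, ?_⟩
  intro h
  exact h

lemma neta1_form {V : Type} [Fintype V] [DecidableEq V] (M : Matrix V V ℝ) (u v w z : V)
    (t s : ℝ) : (Pi.single u 1 + t • Pi.single v 1 : V → ℝ) ⬝ᵥ
      (M *ᵥ (Pi.single w 1 + s • Pi.single z 1 : V → ℝ)) =
      M u w + s * M u z + t * M v w + t * s * M v z := by
  rw [mulVec_add, mulVec_smul, mulVec_single_one, mulVec_single_one, add_dotProduct,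
    dotProduct_add, dotProduct_add, dotProduct_smul, smul_dotProduct, smul_dotProduct,
    dotProduct_smul]
  simp only [single_one_dotProduct, Matrix.col_apply, smul_eq_mul]
  ring

/-- The rows of the matrix which belong to the frame are independent. -/
theorem frame_indep (hA : 2 ≤ Fintype.card A) (M : Matrix (NV A X) (NV A X) ℝ)
    (hM : CdV N.graph M) :
    LinearIndependent ℝ fun c : Option A => M (fr c) := by
  rw [Fintype.linearIndependent_iff]
  intro y hy
  have hcol : ∀ v, ∑ c, y c * M (fr c) v = 0 := by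
    intro v
    have := congrFun hy v
    simpa [Finset.sum_apply] using this
  have h1 : ∀ c, y c * M (fr c) (fr c) = 0 := by
    intro c
    have := hcol (fr c)
    rwa [Finset.sum_eq_single c (fun d _ hd => by rw [neta1_zero_fr N hM hd, mul_zero])
      (fun h => absurd (Finset.mem_univ c) h)] at this
  have h2 : ∀ a, y none * M .e0 (.p a) + y (some a) * M (.e a) (.p a) = 0 := by
    intro a
    have := hcol (.p a)
    rw [Fintype.sum_option, Finset.sum_eq_single a (fun d _ hd => by
      show y (some d) * M (.e d) (.p a) = 0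
      rw [neta1_zero_ep N hM hd, mul_zero]) (fun h => absurd (Finset.mem_univ a) h)] at this
    exact this
  by_cases hn : y none = 0
  · intro c
    rcases c with _ | a
    · exact hn
    · have := h2 a
      rw [hn, zero_mul, zero_add] at this
      exact (mul_eq_zero.mp this).resolve_right (neta1_neg_ep N hM a).ne
  · exfalso
    have h3 : ∀ a, M (.e a) (.e a) = 0 := by
      intro a
      have h4 := h1 (some a)
      refine (mul_eq_zero.mp h4).resolve_left ?_
      intro h5
      have := h2 a
      rw [h5, zero_mul, add_zero] at this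
      exact (mul_ne_zero hn (neta1_neg_e0p N hM a).ne) this
    obtain ⟨a, b, hab⟩ := Fintype.one_lt_card_iff.mp (by omega : 1 < Fintype.card A)
    have hrcs := ((one_neg_iff M hM.herm).mp hM.one).2
    set c := M (.p a) (.p b) with hc
    have hα := neta1_neg_ep N hM a
    have hβ := neta1_neg_ep N hM b
    obtain ⟨t, ht0, ht1, ht2⟩ : ∃ t : ℝ, 0 ≤ t ∧
        M (.p a) (.p a) + 2 * t * M (.e a) (.p a) ≤ -(1 + |c|) ∧
        M (.p b) (.p b) + 2 * t * M (.e b) (.p b) ≤ -(1 + |c|) := by
      refine ⟨max 0 (max ((M (.p a) (.p a) + (1 + |c|)) / (-(2 * M (.e a) (.p a))))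
        ((M (.p b) (.p b) + (1 + |c|)) / (-(2 * M (.e b) (.p b))))), le_max_left _ _, ?_, ?_⟩
      · have h5 := (div_le_iff₀ (by linarith : 0 < -(2 * M (.e a) (.p a)))).mp
          ((le_max_left _ _).trans (le_max_right 0 (max ((M (.p a) (.p a) + (1 + |c|)) /
            (-(2 * M (.e a) (.p a))))
            ((M (.p b) (.p b) + (1 + |c|)) / (-(2 * M (.e b) (.p b)))))))
        linarith
      · have h5 := (div_le_iff₀ (by linarith : 0 < -(2 * M (.e b) (.p b)))).mp
          ((le_max_right _ _).trans (le_max_right 0 (max ((M (.p a) (.p a) + (1 + |c|)) /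
            (-(2 * M (.e a) (.p a))))
            ((M (.p b) (.p b) + (1 + |c|)) / (-(2 * M (.e b) (.p b)))))))
        linarith
    have hx := neta1_form M (.p a) (.e a) (.p a) (.e a) t t
    have hy' := neta1_form M (.p b) (.e b) (.p b) (.e b) t t
    have hxy := neta1_form M (.p a) (.e a) (.p b) (.e b) t t
    rw [h3, neta1_symm N hM (.p a) (.e a)] at hx
    rw [h3, neta1_symm N hM (.p b) (.e b)] at hy'
    have hee : M (.e a) (.e b) = 0 :=
      neta1_zero_fr N hM (c := some a) (d := some b) (by simpa using hab)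
    rw [hee, neta1_zero_pe N hM hab, neta1_zero_ep N hM hab] at hxy
    have habs := abs_nonneg c
    have hxn : (Pi.single (.p a) 1 + t • Pi.single (.e a) 1 : NV A X → ℝ) ⬝ᵥ
      (M *ᵥ (Pi.single (.p a) 1 + t • Pi.single (.e a) 1 : NV A X → ℝ)) ≤ -(1 + |c|) := by
      rw [hx]; linarith
    have hyn : (Pi.single (.p b) 1 + t • Pi.single (.e b) 1 : NV A X → ℝ) ⬝ᵥ
      (M *ᵥ (Pi.single (.p b) 1 + t • Pi.single (.e b) 1 : NV A X → ℝ)) ≤ -(1 + |c|) := by
      rw [hy']; linarith
    have h6 := hrcs (Pi.single (.p a) 1 + t • Pi.single (.e a) 1)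
      (Pi.single (.p b) 1 + t • Pi.single (.e b) 1) (by linarith)
    rw [hxy] at h6
    have h7 : (M (.p a) (.p b) + t * 0 + t * 0 + t * t * 0) ^ 2 = |c| ^ 2 := by
      rw [sq_abs]; ring
    rw [h7] at h6
    nlinarith [mul_nonneg_of_nonpos_of_nonpos (by linarith [hxn] :
      (Pi.single (.p a) 1 + t • Pi.single (.e a) 1 : NV A X → ℝ) ⬝ᵥ
      (M *ᵥ (Pi.single (.p a) 1 + t • Pi.single (.e a) 1 : NV A X → ℝ)) + (1 + |c|) ≤ 0)
      (by linarith [hyn] : (Pi.single (.p b) 1 + t • Pi.single (.e b) 1 : NV A X → ℝ) ⬝ᵥ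
      (M *ᵥ (Pi.single (.p b) 1 + t • Pi.single (.e b) 1 : NV A X → ℝ)) + (1 + |c|) ≤ 0)]

end Net

end Pool.Agent.Lib.MP_79a9b1_lc
end

section

set_option autoImplicit false

/-!
# The frame determines the matrix
-/

namespace Pool.Agent.Lib.MP_79a9b1_lc

open Matrix

namespace Net

variable {A X : Type} [Fintype A] [DecidableEq A] [Fintype X] [DecidableEq X] (N : Net A X)

/-- If the rank is at most `|A| + 1`, the frame determines the matrix. -/
theorem frame_formula (hA : 2 ≤ Fintype.card A) (M : Matrix (NV A X) (NV A X) ℝ)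
    (hM : CdV N.graph M) (hr : M.rank ≤ Fintype.card A + 1) :
    (∀ c : Option A, M (fr c) (fr c) ≠ 0) ∧
      ∀ u v, M u v = ∑ c : Option A, M u (fr c) * M v (fr c) / M (fr c) (fr c) := by
  have hli := N.frame_indep hA M hM
  have hspan : Submodule.span ℝ (Set.range fun c : Option A => M (fr c)) =
      Submodule.span ℝ (Set.range M.row) := by
    apply Submodule.eq_of_le_of_finrank_le
    · apply Submodule.span_mono
      rintro _ ⟨c, rfl⟩
      exact ⟨fr c, rfl⟩
    · rw [← rank_eq_finrank_span_row, finrank_span_eq_card hli, Fintype.card_option]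
      exact hr
  have hk : ∀ v, ∃ k : Option A → ℝ, ∀ u, M v u = ∑ c, k c * M (fr c) u := by
    intro v
    have h1 : M v ∈ Submodule.span ℝ (Set.range fun c : Option A => M (fr c)) := by
      rw [hspan]
      exact Submodule.subset_span ⟨v, rfl⟩
    obtain ⟨k, hk⟩ := (Submodule.mem_span_range_iff_exists_fun ℝ).mp h1
    refine ⟨k, fun u => ?_⟩
    rw [← hk]
    simp [Finset.sum_apply]
  have hkc : ∀ v (k : Option A → ℝ), (∀ u, M v u = ∑ c, k c * M (fr c) u) →
      ∀ c, M v (fr c) = k c * M (fr c) (fr c) := by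
    intro v k hk c
    rw [hk, Finset.sum_eq_single c (fun d _ hd => by rw [neta1_zero_fr N hM hd, mul_zero])
      (fun h => absurd (Finset.mem_univ c) h)]
  have hne : ∀ c : Option A, M (fr c) (fr c) ≠ 0 := by
    intro c h0
    rcases c with _ | a
    · obtain ⟨a⟩ : Nonempty A := Fintype.card_pos_iff.mp (by omega)
      obtain ⟨k, hk⟩ := hk (.p a)
      have h1 := hkc _ k hk none
      rw [h0, mul_zero, neta1_symm N hM] at h1
      exact (neta1_neg_e0p N hM a).ne h1
    · obtain ⟨k, hk⟩ := hk (.p a)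
      have h1 := hkc _ k hk (some a)
      rw [h0, mul_zero, neta1_symm N hM] at h1
      exact (neta1_neg_ep N hM a).ne h1
  refine ⟨hne, fun u v => ?_⟩
  obtain ⟨k, hk⟩ := hk u
  rw [hk v]
  refine Finset.sum_congr rfl fun c _ => ?_
  rw [hkc u k hk c, neta1_symm N hM v (fr c)]
  field_simp [hne c]

end Net

end Pool.Agent.Lib.MP_79a9b1_lc
end

section

set_option autoImplicit false

/-!
# Signs of the diagonal entries of the frame
-/

namespace Pool.Agent.Lib.MP_79a9b1_lc

open Matrix

namespace Net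

variable {A X : Type} [Fintype A] [DecidableEq A] [Fintype X] [DecidableEq X] (N : Net A X)

/-- The diagonal entry of `e0` is negative, the others are positive. -/
theorem frame_signs (hA : 2 ≤ Fintype.card A) (M : Matrix (NV A X) (NV A X) ℝ)
    (hM : CdV N.graph M) (hr : M.rank ≤ Fintype.card A + 1) :
    M .e0 .e0 < 0 ∧ ∀ a, 0 < M (.e a) (.e a) := by
  obtain ⟨hne, hf⟩ := N.frame_formula hA M hM hr
  have h0 : M .e0 .e0 < 0 := by
    obtain ⟨a, b, hab⟩ := Fintype.one_lt_card_iff.mp (by omega : 1 < Fintype.card A)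
    have h1 := hf (.p a) (.p b)
    have h2 : M (.p a) (.p b) < 0 := by
      refine hM.neg _ _ ⟨by simpa using hab, ?_⟩
      intro h
      exact h
    rw [Fintype.sum_option, Finset.sum_eq_zero (fun c _ => ?_), add_zero] at h1
    · have h3 : 0 < M (.p a) (fr none) * M (.p b) (fr none) := by
        refine mul_pos_of_neg_of_neg ?_ ?_
        · rw [neta1_symm N hM]
          exact neta1_neg_e0p N hM a
        · rw [neta1_symm N hM]
          exact neta1_neg_e0p N hM b
      by_contra h4
      push Not at h4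
      have h5 : 0 ≤ M (.p a) (fr none) * M (.p b) (fr none) / M (fr none) (fr none) :=
        div_nonneg h3.le h4
      linarith
    · show M (.p a) (.e c) * M (.p b) (.e c) / M (.e c) (.e c) = 0
      by_cases hc : a = c
      · rw [neta1_zero_pe N hM (a := b) (b := c) (fun h => hab (hc.trans h.symm))]
        simp
      · rw [neta1_zero_pe N hM hc]
        simp
  refine ⟨h0, fun a => ?_⟩
  refine lt_of_le_of_ne ?_ (hne (some a)).symm
  by_contra h1
  push Not at h1
  have hrcs := ((one_neg_iff M hM.herm).mp hM.one).2 (Pi.single .e0 1) (Pi.single (.e a) 1)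
  simp only [mulVec_single_one, single_one_dotProduct, Matrix.col_apply] at hrcs
  have h2 : M .e0 (.e a) = 0 := neta1_zero_fr N hM (c := none) (d := some a) (by simp)
  have h3 := hrcs h0
  rw [h2] at h3
  have h4 : M (.e a) (.e a) < 0 := h1
  nlinarith [mul_pos_of_neg_of_neg h0 h4]

end Net

end Pool.Agent.Lib.MP_79a9b1_lc
end

section

set_option autoImplicit false

/-!
# From a matrix to a solution of the network
-/

namespace Pool.Agent.Lib.MP_79a9b1_lc

open Matrix

namespace Net

variable {A X : Type} [Fintype A] [DecidableEq A] [Fintype X] [DecidableEq X] (N : Net A X)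

/-- From a matrix to a solution of the network. -/
theorem sol_of_cdv (hA : 2 ≤ Fintype.card A) (M : Matrix (NV A X) (NV A X) ℝ)
    (hM : CdV N.graph M) (hr : M.rank ≤ Fintype.card A + 1) :
    ∃ (Y : A → ℝ) (ξ : X → A → ℝ), N.Sol Y ξ := by
  obtain ⟨-, hform⟩ := frame_formula N hA M hM hr
  obtain ⟨hd0, hd⟩ := frame_signs N hA M hM hr
  have hneg : ∀ u v, u ≠ v → ¬ N.nadj u v → M u v < 0 := fun u v h h' => hM.neg u v ⟨h, h'⟩
  have hzero : ∀ u v, u ≠ v → N.nadj u v → M u v = 0 := fun u v h h' =>
    hM.zero u v h fun h'' => h''.2 h'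
  -- the entries next to the frame
  have hp0 : ∀ a, M (.p a) .e0 < 0 := fun a => hneg _ _ (by simp) (by simp [nadj])
  have hr0 : ∀ x, M (.r x) .e0 < 0 := fun x => hneg _ _ (by simp) (by simp [nadj])
  have hpa : ∀ a, M (.p a) (.e a) < 0 := fun a => hneg _ _ (by simp) (by simp [nadj])
  have hpb : ∀ a b, a ≠ b → M (.p a) (.e b) = 0 := fun a b h => hzero _ _ (by simp) (by simpa [nadj])
  have hre : ∀ x a, N.sup x a → M (.r x) (.e a) < 0 := fun x a h =>
    hneg _ _ (by simp) (by simpa [nadj])
  have hre' : ∀ x a, ¬ N.sup x a → M (.r x) (.e a) = 0 := fun x a h =>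
    hzero _ _ (by simp) (by simpa [nadj])
  have hform' : ∀ u v, M u v = M u .e0 * M v .e0 / M .e0 .e0 +
      ∑ a, M u (.e a) * M v (.e a) / M (.e a) (.e a) := by
    intro u v
    rw [hform u v, Fintype.sum_option]
    rfl
  set d0 : ℝ := M .e0 .e0 with hd0'
  set om : A → ℝ := fun a => -d0 / M (.e a) (.e a) with hom
  set la : A → ℝ := fun a => M (.p a) (.e a) / M (.p a) .e0 with hla
  set t : X → A → ℝ := fun x a => M (.r x) (.e a) / M (.r x) .e0 with ht
  have hompos : ∀ a, 0 < om a := fun a => div_pos (by linarith) (hd a)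
  have hlapos : ∀ a, 0 < la a := fun a => div_pos_of_neg_of_neg (hpa a) (hp0 a)
  have hpr : ∀ a x, M (.p a) (.r x) =
      (M (.p a) .e0 * M (.r x) .e0 / (-d0)) * (-1 + om a * la a * t x a) := by
    intro a x
    rw [hform' (.p a) (.r x), Finset.sum_eq_single a]
    · have h1 := (hp0 a).ne
      have h2 := (hr0 x).ne
      have h3 := (hd a).ne'
      have h4 := hd0.ne
      simp only [hom, hla, ht]
      field_simp
      ring
    · intro b _ hb
      rw [hpb a b hb.symm]
      simp
    · intro h
      exact absurd (Finset.mem_univ a) h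
  have hrr : ∀ x y, M (.r x) (.r y) =
      (M (.r x) .e0 * M (.r y) .e0 / (-d0)) * (-1 + ∑ a, om a * t x a * t y a) := by
    intro x y
    rw [hform' (.r x) (.r y), mul_add, Finset.mul_sum]
    have h1 := (hr0 x).ne
    have h2 := (hr0 y).ne
    have h4 := hd0.ne
    congr 1
    · field_simp
    · refine Finset.sum_congr rfl fun a _ => ?_
      have h3 := (hd a).ne'
      simp only [hom, ht]
      field_simp
  have hK1 : ∀ a x, 0 < M (.p a) .e0 * M (.r x) .e0 / (-d0) := fun a x =>
    div_pos (mul_pos_of_neg_of_neg (hp0 a) (hr0 x)) (by linarith)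
  have hK2 : ∀ x y, 0 < M (.r x) .e0 * M (.r y) .e0 / (-d0) := fun x y =>
    div_pos (mul_pos_of_neg_of_neg (hr0 x) (hr0 y)) (by linarith)
  have hsum : ∀ x y, ∑ a, 1 / (om a * la a ^ 2) * (om a * la a * t x a) * (om a * la a * t y a) =
      ∑ a, om a * t x a * t y a := by
    intro x y
    refine Finset.sum_congr rfl fun a _ => ?_
    have h1 := (hompos a).ne'
    have h2 := (hlapos a).ne'
    field_simp
  refine ⟨fun a => 1 / (om a * la a ^ 2), fun x a => om a * la a * t x a, ?_, ?_, ?_, ?_, ?_, ?_⟩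
  · intro a
    have h1 := hompos a
    have h2 := hlapos a
    positivity
  · intro x a hxa
    have h1 : M (.p a) (.r x) = 0 := hzero _ _ (by simp) (by simpa [nadj])
    rw [hpr a x] at h1
    have h2 := (mul_eq_zero.mp h1).resolve_left (hK1 a x).ne'
    change om a * la a * t x a = 1
    linarith
  · intro x a hxa
    have hnf : ¬ N.full x a := fun h => N.disj x a h hxa
    constructor
    · have h1 : 0 < t x a := div_pos_of_neg_of_neg (hre x a (Or.inr hxa)) (hr0 x)
      have h2 := hompos a
      have h3 := hlapos a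
      change 0 < om a * la a * t x a
      positivity
    · have h1 : M (.p a) (.r x) < 0 := hneg _ _ (by simp) (by simpa [nadj])
      rw [hpr a x] at h1
      have h2 := (pos_iff_neg_of_mul_neg h1).mp (hK1 a x)
      change om a * la a * t x a < 1
      linarith
  · intro x a hxa
    have h1 : t x a = 0 := by simp [ht, hre' x a hxa]
    rw [h1, mul_zero]
  · intro x y hxy
    have hne : x ≠ y := by
      rintro rfl
      exact N.irrefl x hxy
    have h1 : M (.r x) (.r y) = 0 := hzero _ _ (by simpa using hne) (by simpa [nadj])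
    rw [hrr x y] at h1
    have h2 := (mul_eq_zero.mp h1).resolve_left (hK2 x y).ne'
    simp only [hsum]
    linarith
  · intro x y hne hxy
    have h1 : M (.r x) (.r y) < 0 := hneg _ _ (by simpa using hne) (by simpa [nadj])
    rw [hrr x y] at h1
    have h2 := (pos_iff_neg_of_mul_neg h1).mp (hK2 x y)
    simp only [hsum]
    linarith

end Net

end Pool.Agent.Lib.MP_79a9b1_lc
end

section

set_option autoImplicit false

/-!
# The invariant of the graph of a network
-/

namespace Pool.Agent.Lib.MP_79a9b1_lc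

namespace Net

variable {A X : Type} [Fintype A] [DecidableEq A] [Fintype X] [DecidableEq X] (N : Net A X)

theorem sol_of_le_mu (hA : 2 ≤ Fintype.card A)
    (h : Fintype.card A + Fintype.card X ≤ mu N.graph) :
    ∃ (Y : A → ℝ) (ξ : X → A → ℝ), N.Sol Y ξ := by
  obtain ⟨M, hM, hr⟩ := (le_mu_iff N.graph _ (by omega)).1 h
  rw [NV.card] at hr
  exact N.sol_of_cdv hA M hM (by omega)

theorem le_mu_of_sol (hA : 2 ≤ Fintype.card A) (Y : A → ℝ) (ξ : X → A → ℝ) (h : N.Sol Y ξ)
    (hr : N.Reg Y ξ) : Fintype.card A + Fintype.card X ≤ mu N.graph := by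
  refine (le_mu_iff N.graph _ (by omega)).2 ⟨mat Y ξ, N.cdv_of_sol Y ξ h hr, ?_⟩
  have := mat_rank (X := X) Y ξ
  rw [NV.card]
  omega

end Net

end Pool.Agent.Lib.MP_79a9b1_lc
end
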