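import Pool.Agent.Lib.MP_79a9b1_lc.Slp

section

set_option autoImplicit false

/-!
# Rows `s` which are not joined by an edge have at most one common axis
-/

namespace Pool.Agent.Lib.MP_79a9b1_lc

namespace SLP

variable (P : SLP)

theorem oneCommonS_aux {m l : ℕ} (hml : m ≠ l)
    (h1 : ¬ P.edM .s m .s l) (h2 : ¬ P.edM .s l .s m) {σ : Sg} {k : ℕ}
    (a1 : P.tyM .s m σ k ≠ .no) (a2 : P.tyM .s l σ k ≠ .no) :
    σ = .al ∧ ((P.op k = 1 ∧ P.a k = m) ∨ (P.op m = 1 ∧ P.a m = k)) ∧
      ((P.op k = 1 ∧ P.a k = l) ∨ (P.op l = 1 ∧ P.a l = k)) := by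
  simp only [edM] at h1 h2
  cases σ <;> simp only [tyM, bin, ne_eq, ite_eq_right_iff, reduceCtorEq, imp_false, not_not,
    not_true_eq_false] at a1 a2 <;> grind

theorem one_common_ss (hP : P.WF) {m l : ℕ} (hm : m < P.n) (hl : l < P.n) (hml : m ≠ l)
    (h1 : ¬ P.edM .s m .s l) (h2 : ¬ P.edM .s l .s m) {σ ρ : Sg} {k q : ℕ} (hk : k < P.n)
    (hq : q < P.n) (a1 : P.tyM .s m σ k ≠ .no) (a2 : P.tyM .s l σ k ≠ .no)
    (b1 : P.tyM .s m ρ q ≠ .no) (b2 : P.tyM .s l ρ q ≠ .no) : σ = ρ ∧ k = q := by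
  obtain ⟨rfl, c1, c2⟩ := oneCommonS_aux P hml h1 h2 a1 a2
  obtain ⟨rfl, d1, d2⟩ := oneCommonS_aux P hml h1 h2 b1 b2
  have e1 := hP.one m hm
  have e2 := hP.one l hl
  have e3 := hP.one k hk
  have e4 := hP.one q hq
  refine ⟨rfl, ?_⟩
  by_contra hkq
  omega

end SLP

end Pool.Agent.Lib.MP_79a9b1_lc
end

section

set_option autoImplicit false

/-!
# A row `s` and a row of another sort which are not joined by an edge have at most one common axis
-/

namespace Pool.Agent.Lib.MP_79a9b1_lc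

namespace SLP

variable (P : SLP)

theorem one_common_st (hP : P.WF) {τ : Rs} (hτ : τ ≠ .s) {m l : ℕ} (hm : m < P.n) (hl : l < P.n)
    (h1 : ¬ P.edM .s m τ l) (h2 : ¬ P.edM τ l .s m) {σ ρ : Sg} {k q : ℕ} (hk : k < P.n)
    (hq : q < P.n) (a1 : P.tyM .s m σ k ≠ .no) (a2 : P.tyM τ l σ k ≠ .no)
    (b1 : P.tyM .s m ρ q ≠ .no) (b2 : P.tyM τ l ρ q ≠ .no) : σ = ρ ∧ k = q := by
  have e1 := hP.one m hm
  have e2 := hP.one l hl
  have f1 := hP.bin m hm
  have f2 := hP.bin l hl
  clear hk hq
  simp only [bin] at f1 f2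
  cases τ
  · exact absurd rfl hτ
  all_goals
    simp only [edM, bin, not_false_eq_true] at h1 h2
    cases σ <;> simp only [tyM, bin, ne_eq, not_true_eq_false] at a1 a2 <;>
    cases ρ <;> simp only [tyM, bin, ne_eq, not_true_eq_false] at b1 b2 <;> grind

end SLP

end Pool.Agent.Lib.MP_79a9b1_lc
end

section

set_option autoImplicit false

/-!
# Two rows of sorts other than `s` which are not joined by an edge have at most one common axis
-/

namespace Pool.Agent.Lib.MP_79a9b1_lc

namespace SLP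

variable (P : SLP)

theorem one_common_tt (hP : P.WF) {τ υ : Rs} (hτ : τ ≠ .s) (hυ : υ ≠ .s) {m l : ℕ} (hm : m < P.n)
    (hl : l < P.n) (hml : ¬ (m = l ∧ τ = υ)) (h1 : ¬ P.edM τ m υ l) (h2 : ¬ P.edM υ l τ m)
    {σ ρ : Sg} {k q : ℕ} (hk : k < P.n) (hq : q < P.n) (a1 : P.tyM τ m σ k ≠ .no)
    (a2 : P.tyM υ l σ k ≠ .no) (b1 : P.tyM τ m ρ q ≠ .no) (b2 : P.tyM υ l ρ q ≠ .no) :
    σ = ρ ∧ k = q := by
  have f1 := hP.bin m hm
  have f2 := hP.bin l hl
  simp only [bin] at f1 f2
  cases τ
  · exact absurd rfl hτ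
  all_goals
    cases υ
    · exact absurd rfl hυ
    all_goals
      simp only [edM, bin, not_false_eq_true] at h1 h2
      cases σ <;> simp only [tyM, bin, ne_eq, not_true_eq_false] at a1 a2 <;>
      cases ρ <;> simp only [tyM, bin, ne_eq, not_true_eq_false] at b1 b2 <;> grind

end SLP

end Pool.Agent.Lib.MP_79a9b1_lc
end

section

set_option autoImplicit false

/-!
# Rows which are not joined by an edge have at most one common axis
-/

namespace Pool.Agent.Lib.MP_79a9b1_lc

namespace SLP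

variable (P : SLP)

/-- The calibrators of `c` have at most two axes. -/
theorem oneCommon_cal {c : Option (Fin P.n × Sg)} {t : Bool} {a : Ax P.n}
    (h : P.ty (.inr (c, t)) a ≠ .no) :
    (∃ k σ, c = some (k, σ) ∧ (a = .inl (k, σ) ∨ a = .inr (isMain σ))) ∨
      (c = none ∧ ∃ s, a = .inr s) := by
  rcases c with _ | ⟨k, σ⟩
  · rcases a with ⟨l, ρ⟩ | s
    · exact absurd rfl h
    · exact Or.inr ⟨rfl, s, rfl⟩
  · refine Or.inl ⟨k, σ, rfl, ?_⟩
    rcases a with ⟨l, ρ⟩ | s
    · left
      simp only [ty] at h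
      split_ifs at h with h'
      · rw [h']
      · exact absurd rfl h
    · right
      simp only [ty] at h
      split_ifs at h with h'
      · rw [h']
      · exact absurd rfl h

/-- The rows of lines have no reference axis. -/
theorem oneCommon_line {x : Fin P.n × Rs} {a : Ax P.n} (h : P.ty (.inl x) a ≠ .no) :
    ∃ k σ, a = .inl (k, σ) := by
  rcases a with ⟨l, ρ⟩ | s
  · exact ⟨l, ρ, rfl⟩
  · exact absurd rfl h

theorem oneCommon_line_cal {x : Fin P.n × Rs} {c : Option (Fin P.n × Sg)} {t : Bool} {a b : Ax P.n}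
    (a1 : P.ty (.inl x) a ≠ .no) (a2 : P.ty (.inr (c, t)) a ≠ .no) (b1 : P.ty (.inl x) b ≠ .no)
    (b2 : P.ty (.inr (c, t)) b ≠ .no) : a = b := by
  obtain ⟨k, σ, rfl⟩ := oneCommon_line P a1
  obtain ⟨l, ρ, rfl⟩ := oneCommon_line P b1
  rcases oneCommon_cal P a2 with ⟨k', σ', rfl, h | h⟩ | ⟨rfl, s, h⟩
  · rcases oneCommon_cal P b2 with ⟨k'', σ'', h2, h' | h'⟩ | ⟨h2, s, h'⟩
    · rw [Option.some_inj] at h2
      rw [h, h', h2]
    · exact absurd h' (by simp)
    · exact absurd h' (by simp)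
  · exact absurd h (by simp)
  · exact absurd h (by simp)

/-- Two different rows which are not joined by an edge have at most one common axis. -/
theorem one_common (hP : P.WF) (x y : Rw P.n) (hxy : x ≠ y) (hne : ¬ P.ed x y) (a b : Ax P.n)
    (a1 : P.ty x a ≠ .no) (a2 : P.ty y a ≠ .no) (b1 : P.ty x b ≠ .no) (b2 : P.ty y b ≠ .no) :
    a = b := by
  rcases x with ⟨m, τ⟩ | ⟨c, t⟩ <;> rcases y with ⟨l, υ⟩ | ⟨d, r⟩
  · obtain ⟨k, σ, rfl⟩ := oneCommon_line P a1
    obtain ⟨q, ρ, rfl⟩ := oneCommon_line P b1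
    have hml : ¬ (m = l ∧ τ = υ) := fun h => hxy (by rw [h.1, h.2])
    have h1 : ¬ P.edM τ m υ l := fun h => hne ⟨hml, Or.inl h⟩
    have h2 : ¬ P.edM υ l τ m := fun h => hne ⟨hml, Or.inr h⟩
    have key : σ = ρ ∧ (k : ℕ) = q := by
      by_cases hτ : τ = .s
      · subst hτ
        by_cases hυ : υ = .s
        · subst hυ
          exact one_common_ss P hP m.2 l.2 (fun h => hml ⟨Fin.ext h, rfl⟩) h1 h2 k.2 q.2 a1 a2 b1 b2
        · exact one_common_st P hP hυ m.2 l.2 h1 h2 k.2 q.2 a1 a2 b1 b2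
      · by_cases hυ : υ = .s
        · subst hυ
          exact one_common_st P hP hτ l.2 m.2 h2 h1 k.2 q.2 a2 a1 b2 b1
        · exact one_common_tt P hP hτ hυ m.2 l.2 (fun h => hml ⟨Fin.ext h.1, h.2⟩) h1 h2 k.2 q.2
            a1 a2 b1 b2
    rw [key.1, Fin.ext key.2]
  · exact oneCommon_line_cal P a1 a2 b1 b2
  · exact oneCommon_line_cal P a2 a1 b2 b1
  · by_cases hcd : c = d
    · subst hcd
      exfalso
      refine hne ⟨rfl, fun h => hxy (by rw [h])⟩
    · rcases oneCommon_cal P a1 with ⟨k, σ, rfl, ha⟩ | ⟨rfl, s, ha⟩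
      · rcases oneCommon_cal P b1 with ⟨k', σ', h', hb⟩ | ⟨h', s, hb⟩
        · rw [Option.some_inj, Prod.mk.injEq] at h'
          obtain ⟨rfl, rfl⟩ := h'
          rcases ha with rfl | rfl <;> rcases hb with rfl | rfl
          · rfl
          · rcases oneCommon_cal P a2 with ⟨k', σ', h', ha'⟩ | ⟨h', s, ha'⟩
            · rcases ha' with ha' | ha'
              · exfalso
                apply hcd
                rw [h']
                simpa using ha'
              · exact absurd ha' (by simp)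
            · exact absurd ha' (by simp)
          · rcases oneCommon_cal P b2 with ⟨k', σ', h', ha'⟩ | ⟨h', s, ha'⟩
            · rcases ha' with ha' | ha'
              · exfalso
                apply hcd
                rw [h']
                simpa using ha'
              · exact absurd ha' (by simp)
            · exact absurd ha' (by simp)
          · rfl
        · exact absurd h' (by simp)
      · rcases oneCommon_cal P b1 with ⟨k', σ', h', hb⟩ | ⟨-, s', hb⟩
        · exact absurd h' (by simp)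
        · subst ha hb
          rcases oneCommon_cal P a2 with ⟨k', σ', rfl, ha'⟩ | ⟨h', s, ha'⟩
          · rcases ha' with ha' | ha'
            · exact absurd ha' (by simp)
            · rcases oneCommon_cal P b2 with ⟨k'', σ'', h'', hb'⟩ | ⟨h', s, hb'⟩
              · rw [Option.some_inj, Prod.mk.injEq] at h''
                obtain ⟨rfl, rfl⟩ := h''
                rcases hb' with hb' | hb'
                · exact absurd hb' (by simp)
                · rw [ha', hb']
              · exact absurd h' (by simp)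
          · exact absurd h'.symm hcd

end SLP

end Pool.Agent.Lib.MP_79a9b1_lc
end
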