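import Pool.Agent.Lib.MP_79a9b1_lc.Mg.G008

section

set_option autoImplicit false

/-!
# Elimination
-/

namespace Pool.Agent.Lib.MP_79a9b1_lc

open MvPolynomial

namespace Elim

/-- Substitute `0` for the first variable. -/
noncomputable def kill : MvPolynomial (Fin 2) ℤ →ₐ[ℤ] MvPolynomial (Fin 2) ℤ :=
  aeval ![0, X 1]

theorem aeval_kill (R : MvPolynomial (Fin 2) ℤ) (t u : ℝ) :
    aeval ![t, u] (kill R) = aeval ![0, u] R := by
  unfold kill
  rw [MvPolynomial.comp_aeval_apply]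
  congr 2
  funext j
  fin_cases j <;> simp

theorem l1_kill_le (R : MvPolynomial (Fin 2) ℤ) : l1 (kill R) ≤ l1 R := by
  have h1 : kill R = ∑ m ∈ R.support, C (R.coeff m) * (0 ^ (m 0) * X 1 ^ (m 1)) := by
    unfold kill
    rw [aeval_def, eval₂_eq']
    refine Finset.sum_congr rfl fun m _ => ?_
    simp [Fin.prod_univ_two, algebraMap_eq]
  rw [h1]
  refine (l1_sum_le _ _).trans ?_
  unfold l1
  refine Finset.sum_le_sum fun m _ => ?_
  change l1 _ ≤ _
  refine (l1_mul_le _ _).trans ?_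
  rw [l1_C]
  refine mul_le_of_le_one_right (abs_nonneg _) ?_
  refine (l1_mul_le _ _).trans ?_
  have h2 : l1 ((X 1 : MvPolynomial (Fin 2) ℤ) ^ (m 1)) ≤ 1 := by
    refine (l1_pow_le _ _).trans ?_
    rw [l1_X, one_pow]
  have h3 : l1 ((0 : MvPolynomial (Fin 2) ℤ) ^ (m 0)) ≤ 1 := by
    rcases Nat.eq_zero_or_pos (m 0) with h | h
    · rw [h, pow_zero, l1_one]
    · rw [zero_pow h.ne', l1_zero]; exact zero_le_one
  exact mul_le_one₀ h3 (l1_nonneg _) h2

/-- Euler's relation. -/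
theorem euler {n : ℕ} (P : MvPolynomial (Fin n) ℤ) (x : Fin n → ℝ) :
    6 * aeval x P - ∑ i, x i * aeval x (pderiv i P) =
      ∑ α ∈ P.support, ((6 - ∑ i, (α i : ℤ)) * P.coeff α : ℤ) * ∏ i, x i ^ (α i) := by
  have h1 : aeval x P = ∑ α ∈ P.support, ((P.coeff α : ℤ) : ℝ) * ∏ i, x i ^ (α i) := by
    rw [aeval_def, eval₂_eq']
    rfl
  have h2 : ∀ i, x i * aeval x (pderiv i P) =
      ∑ α ∈ P.support, (α i : ℝ) * (((P.coeff α : ℤ) : ℝ) * ∏ i, x i ^ (α i)) := by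
    intro i
    have h3 : X i * pderiv i P = ∑ α ∈ P.support, (α i) • monomial α (P.coeff α) := by
      conv_lhs => rw [as_sum P]
      rw [map_sum, Finset.mul_sum]
      exact Finset.sum_congr rfl fun α _ => X_mul_pderiv_monomial
    have h4 : x i * aeval x (pderiv i P) = aeval x (X i * pderiv i P) := by
      rw [map_mul, aeval_X]
    rw [h4, h3, map_sum]
    refine Finset.sum_congr rfl fun α _ => ?_
    rw [map_nsmul, aeval_monomial, nsmul_eq_mul]
    congr 2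
    exact Finsupp.prod_fintype _ _ fun i => pow_zero _
  rw [Finset.sum_congr rfl fun i _ => h2 i, h1, Finset.sum_comm, Finset.mul_sum,
    ← Finset.sum_sub_distrib]
  refine Finset.sum_congr rfl fun α _ => ?_
  rw [← Finset.sum_mul]
  push_cast
  ring

end Elim

open Elim

/-- The critical values satisfy a polynomial equation. -/
theorem exists_elim {n : ℕ} (P : MvPolynomial (Fin n) ℤ) (L : ℝ) (hL1 : 1 ≤ L)
    (hdeg : P.totalDegree ≤ 4) (hL : l1 P ≤ L) :
    ∃ D : MvPolynomial (Fin 2) ℤ, D ≠ 0 ∧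
      l1 D ≤ (1 + 6 * L * (4 * L) ^ (4 * n + 4)) ^ (5 ^ n) ∧
      ∀ (x : Fin n → ℝ) (t u : ℝ), (∀ i, x i ^ 5 = -u * aeval x (pderiv i P)) →
        t = 6 * aeval x P - ∑ i, x i * aeval x (pderiv i P) → aeval ![t, u] D = 0 := by
  classical
  choose R hR1 hR2 using reduce P L hL1 hdeg hL
  let A : Matrix (Fin n → Fin 5) (Fin n → Fin 5) (MvPolynomial (Fin 2) ℤ) := fun β β' =>
    ∑ α ∈ P.support, C ((6 - ∑ i, (α i : ℤ)) * P.coeff α) *
      kill (R (fun i => α i + (β i : ℕ)) β')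
  have hsupp : ∀ α ∈ P.support, ∑ i, α i ≤ 4 := by
    intro α hα
    have := (le_totalDegree hα).trans hdeg
    rwa [Finsupp.sum_fintype _ _ fun _ => rfl] at this
  have h4L : 1 ≤ 4 * L := by linarith
  -- row sums
  have hrow : ∀ β, ∑ β', l1 (A β β') ≤ 6 * L * (4 * L) ^ (4 * n + 4) := by
    intro β
    calc ∑ β', l1 (A β β')
        ≤ ∑ β', ∑ α ∈ P.support, 6 * |((P.coeff α : ℤ) : ℝ)| *
            l1 (R (fun i => α i + (β i : ℕ)) β') := by
          refine Finset.sum_le_sum fun β' _ => ?_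
          refine (l1_sum_le _ _).trans (Finset.sum_le_sum fun α hα => ?_)
          refine (l1_mul_le _ _).trans ?_
          refine mul_le_mul ?_ (l1_kill_le _) (l1_nonneg _) (by positivity)
          rw [l1_C]
          push_cast
          rw [abs_mul]
          refine mul_le_mul_of_nonneg_right ?_ (abs_nonneg _)
          have h1 : (∑ i, (α i : ℝ)) ≤ 4 := by exact_mod_cast hsupp α hα
          have h2 : 0 ≤ (∑ i, (α i : ℝ)) := by positivity
          rw [abs_le]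
          constructor <;> linarith
      _ = ∑ α ∈ P.support, 6 * |((P.coeff α : ℤ) : ℝ)| *
            ∑ β', l1 (R (fun i => α i + (β i : ℕ)) β') := by
          rw [Finset.sum_comm]
          refine Finset.sum_congr rfl fun α _ => ?_
          rw [Finset.mul_sum]
      _ ≤ ∑ α ∈ P.support, 6 * |((P.coeff α : ℤ) : ℝ)| * (4 * L) ^ (4 * n + 4) := by
          refine Finset.sum_le_sum fun α hα => ?_
          refine mul_le_mul_of_nonneg_left ?_ (by positivity)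
          refine (hR1 _).trans (pow_le_pow_right₀ h4L ?_)
          rw [Finset.sum_add_distrib]
          have h1 := hsupp α hα
          have h2 : ∑ i, (β i : ℕ) ≤ ∑ _i : Fin n, 4 :=
            Finset.sum_le_sum fun i _ => by have := (β i).isLt; omega
          simp only [Finset.sum_const, Finset.card_univ, Fintype.card_fin, smul_eq_mul] at h2
          omega
      _ = 6 * l1 P * (4 * L) ^ (4 * n + 4) := by
          unfold l1
          rw [Finset.mul_sum, Finset.sum_mul]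
      _ ≤ _ := by
          refine mul_le_mul_of_nonneg_right ?_ (by positivity)
          linarith
  let B : Matrix (Fin n → Fin 5) (Fin n → Fin 5) (MvPolynomial (Fin 2) ℤ) :=
    Matrix.diagonal (fun _ => X 0) - A
  refine ⟨B.det, ?_, ?_, ?_⟩
  · -- nonzero
    intro h0
    let ψ : MvPolynomial (Fin 2) ℤ →ₐ[ℤ] Polynomial ℤ := aeval ![Polynomial.X, 0]
    let A0 : Matrix (Fin n → Fin 5) (Fin n → Fin 5) ℤ := fun β β' => constantCoeff (A β β')
    have hkill : ∀ r : MvPolynomial (Fin 2) ℤ, ψ (kill r) = Polynomial.C (constantCoeff (kill r)) := by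
      intro r
      induction r using MvPolynomial.induction_on with
      | C a => simp [kill, ψ]
      | add p q hp hq => rw [map_add, map_add, hp, hq, map_add, map_add]
      | mul_X p i hp =>
        rw [map_mul, map_mul, hp, map_mul, map_mul]
        congr 1
        fin_cases i <;> simp [kill, ψ]
    have hA : ∀ β β', ψ (A β β') = Polynomial.C (A0 β β') := by
      intro β β'
      have hC : ∀ c : ℤ, ψ (C c) = Polynomial.C c := fun c => by simp [ψ]
      simp only [A, A0]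
      rw [map_sum, map_sum, map_sum]
      refine Finset.sum_congr rfl fun α _ => ?_
      rw [map_mul ψ, hkill, hC, map_mul constantCoeff, constantCoeff_C]
      simp only [Polynomial.C_mul]
    have h1 : ψ B.det = A0.charpoly := by
      unfold Matrix.charpoly
      have := RingHom.map_det (ψ : MvPolynomial (Fin 2) ℤ →+* Polynomial ℤ) B
      rw [show ψ B.det = (ψ : MvPolynomial (Fin 2) ℤ →+* Polynomial ℤ) B.det from rfl, this]
      congr 1
      ext1 β β'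
      rw [Matrix.charmatrix_apply]
      simp only [RingHom.mapMatrix_apply, Matrix.map_apply, B, Matrix.sub_apply]
      rw [map_sub]
      congr 1
      · rcases eq_or_ne β β' with h | h
        · subst h
          simp [ψ]
        · simp [Matrix.diagonal_apply_ne _ h]
      · exact hA β β'
    rw [h0, map_zero] at h1
    exact (Matrix.charpoly_monic A0).ne_zero h1.symm
  · refine (l1_det_le _).trans ?_
    have hB : ∀ β, ∑ β', l1 (B β β') ≤ 1 + 6 * L * (4 * L) ^ (4 * n + 4) := by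
      intro β
      calc ∑ β', l1 (B β β') ≤ ∑ β', ((if β = β' then 1 else 0) + l1 (A β β')) := by
            refine Finset.sum_le_sum fun β' _ => ?_
            refine (l1_sub_le _ _).trans (add_le_add ?_ le_rfl)
            rcases eq_or_ne β β' with h | h
            · subst h
              simp [l1_X]
            · simp [h, l1_zero]
        _ = 1 + ∑ β', l1 (A β β') := by
            rw [Finset.sum_add_distrib]
            simp
        _ ≤ _ := add_le_add le_rfl (hrow β)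
    refine (Finset.prod_le_prod (fun β _ => Finset.sum_nonneg fun _ _ => l1_nonneg _)
      fun β _ => hB β).trans (le_of_eq ?_)
    rw [Finset.prod_const, Finset.card_univ]
    simp
  · intro x t u hx ht
    have hsum : t = ∑ α ∈ P.support, ((6 - ∑ i, (α i : ℤ)) * P.coeff α : ℤ) *
        ∏ i, x i ^ (α i) := by rw [ht, euler]
    let v : (Fin n → Fin 5) → ℝ := fun β => ∏ i, x i ^ (β i : ℕ)
    have hv : v ≠ 0 := by
      intro h
      have := congrFun h (fun _ => 0)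
      simp [v] at this
    have hRk : ∀ γ : Fin n → ℕ, ∏ i, x i ^ γ i = ∑ β', aeval ![t, u] (kill (R γ β')) * v β' := by
      intro γ
      rw [hR2 γ x 0 u hx]
      refine Finset.sum_congr rfl fun β' _ => ?_
      rw [aeval_kill]
    have hmul : (((aeval ![t, u] : MvPolynomial (Fin 2) ℤ →ₐ[ℤ] ℝ) :
        MvPolynomial (Fin 2) ℤ →+* ℝ).mapMatrix B).mulVec v = 0 := by
      funext β
      simp only [Matrix.mulVec, dotProduct, RingHom.mapMatrix_apply, Matrix.map_apply, B,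
        Matrix.sub_apply, Pi.zero_apply, map_sub, sub_mul, Finset.sum_sub_distrib]
      rw [sub_eq_zero]
      have e1 : ∑ β', ((aeval ![t, u] : MvPolynomial (Fin 2) ℤ →ₐ[ℤ] ℝ) :
          MvPolynomial (Fin 2) ℤ →+* ℝ) (Matrix.diagonal (fun _ => X 0) β β') * v β' =
          t * v β := by
        rw [Finset.sum_eq_single β]
        · simp
        · intro β' _ hne
          rw [Matrix.diagonal_apply_ne _ hne.symm]
          simp
        · simp
      rw [e1]
      have e2 : ∑ β', ((aeval ![t, u] : MvPolynomial (Fin 2) ℤ →ₐ[ℤ] ℝ) :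
          MvPolynomial (Fin 2) ℤ →+* ℝ) (A β β') * v β' =
          ∑ α ∈ P.support, ((6 - ∑ i, (α i : ℤ)) * P.coeff α : ℤ) *
            ∏ i, x i ^ (α i + (β i : ℕ)) := by
        have e3 : ∀ β', ((aeval ![t, u] : MvPolynomial (Fin 2) ℤ →ₐ[ℤ] ℝ) :
            MvPolynomial (Fin 2) ℤ →+* ℝ) (A β β') * v β' =
            ∑ α ∈ P.support, (((6 - ∑ i, (α i : ℤ)) * P.coeff α : ℤ) : ℝ) *
              (aeval ![t, u] (kill (R (fun i => α i + (β i : ℕ)) β')) * v β') := by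
          intro β'
          simp only [A]
          rw [RingHom.coe_coe, map_sum, Finset.sum_mul]
          refine Finset.sum_congr rfl fun α _ => ?_
          rw [map_mul, mul_assoc]
          congr 1
          simp
        rw [Finset.sum_congr rfl fun β' _ => e3 β', Finset.sum_comm]
        refine Finset.sum_congr rfl fun α _ => ?_
        rw [← Finset.mul_sum, ← hRk]
      rw [e2]
      conv_lhs => rw [hsum]
      rw [Finset.sum_mul]
      refine Finset.sum_congr rfl fun α _ => ?_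
      simp only [v, pow_add, Finset.prod_mul_distrib]
      ring
    have hdet := (Matrix.exists_mulVec_eq_zero_iff (M :=
      ((aeval ![t, u] : MvPolynomial (Fin 2) ℤ →ₐ[ℤ] ℝ) :
        MvPolynomial (Fin 2) ℤ →+* ℝ).mapMatrix B)).1 ⟨v, hv, hmul⟩
    rw [← RingHom.map_det] at hdet
    exact hdet

end Pool.Agent.Lib.MP_79a9b1_lc
end

section

set_option autoImplicit false

/-!
# A lower bound of the minimum of a positive integer polynomial of degree four
-/

namespace Pool.Agent.Lib.MP_79a9b1_lc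

open MvPolynomial

theorem gap_exp (n : ℕ) : (4 * n + 5) * 5 ^ n + 1 ≤ 8 ^ (n + 2) := by
  have h : (4 * n + 8) * 5 ^ n ≤ 8 ^ (n + 2) := by
    induction n with
    | zero => norm_num
    | succ k ih =>
      calc (4 * (k + 1) + 8) * 5 ^ (k + 1) = ((4 * k + 12) * 5) * 5 ^ k := by ring
        _ ≤ (8 * (4 * k + 8)) * 5 ^ k := Nat.mul_le_mul_right _ (by omega)
        _ = 8 * ((4 * k + 8) * 5 ^ k) := by ring
        _ ≤ 8 * 8 ^ (k + 2) := Nat.mul_le_mul_left _ ih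
        _ = 8 ^ (k + 1 + 2) := by ring
  have h1 : 1 ≤ 5 ^ n := Nat.one_le_pow _ _ (by norm_num)
  calc (4 * n + 5) * 5 ^ n + 1 ≤ (4 * n + 5) * 5 ^ n + 3 * 5 ^ n := by omega
    _ = (4 * n + 8) * 5 ^ n := by ring
    _ ≤ _ := h

theorem gap_num (n : ℕ) (L : ℝ) (hL : 1 ≤ L) :
    6 * (1 + 6 * L * (4 * L) ^ (4 * n + 4)) ^ (5 ^ n) ≤ (10 * (L + 1)) ^ (8 ^ (n + 2)) := by
  have hK : (1 : ℝ) ≤ 10 * (L + 1) := by linarith
  have h1 : 1 + 6 * L * (4 * L) ^ (4 * n + 4) ≤ (10 * (L + 1)) ^ (4 * n + 5) := by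
    have h2 : (1 : ℝ) ≤ (4 * L) ^ (4 * n + 4) := one_le_pow₀ (by linarith)
    calc 1 + 6 * L * (4 * L) ^ (4 * n + 4)
        ≤ (4 * L) ^ (4 * n + 4) + 6 * L * (4 * L) ^ (4 * n + 4) := by linarith
      _ = (4 * L) ^ (4 * n + 4) * (1 + 6 * L) := by ring
      _ ≤ (10 * (L + 1)) ^ (4 * n + 4) * (10 * (L + 1)) := by
          refine mul_le_mul (pow_le_pow_left₀ (by linarith) (by linarith) _) (by linarith)
            (by linarith) (by positivity)
      _ = (10 * (L + 1)) ^ (4 * n + 5) := by rw [← pow_succ]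
  have h3 : (0 : ℝ) ≤ 1 + 6 * L * (4 * L) ^ (4 * n + 4) := by positivity
  calc 6 * (1 + 6 * L * (4 * L) ^ (4 * n + 4)) ^ (5 ^ n)
      ≤ (10 * (L + 1)) * ((10 * (L + 1)) ^ (4 * n + 5)) ^ (5 ^ n) :=
        mul_le_mul (by linarith) (pow_le_pow_left₀ h3 h1 _) (by positivity) (by linarith)
    _ = (10 * (L + 1)) ^ ((4 * n + 5) * 5 ^ n + 1) := by
        rw [← pow_mul, ← pow_succ']
    _ ≤ _ := pow_le_pow_right₀ hK (gap_exp n)

theorem gap {n : ℕ} (P : MvPolynomial (Fin n) ℤ) (L : ℝ) (hL1 : 1 ≤ L)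
    (hdeg : P.totalDegree ≤ 4) (hL : l1 P ≤ L) (m : ℝ) (hm : 0 < m)
    (hmin : ∀ x : Fin n → ℝ, m ≤ aeval x P) (x₀ : Fin n → ℝ) (h0 : aeval x₀ P = m) :
    1 ≤ m * (10 * (L + 1)) ^ (8 ^ (n + 2)) := by
  obtain ⟨D, hD0, hD1, hD2⟩ := exists_elim P L hL1 hdeg hL
  have hcr := fun i : ℕ => exists_crit P hdeg m hmin x₀ h0 ((i : ℝ) + 1) (by positivity)
  choose x hx1 hx2 hx3 using hcr
  have ht : Filter.Tendsto
      (fun i => 6 * aeval (x i) P - ∑ j, x i j * aeval (x i) (pderiv j P)) Filter.atTop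
      (nhds (6 * m)) := by
    refine tendsto_of_tendsto_of_tendsto_of_le_of_le (tendsto_const_nhds)
      (h := fun i : ℕ => 6 * m + (∑ j, x₀ j ^ 6) / ((i : ℝ) + 1)) ?_ hx2 hx3
    have h1 : Filter.Tendsto (fun i : ℕ => (∑ j, x₀ j ^ 6) / ((i : ℝ) + 1)) Filter.atTop
        (nhds 0) := by
      refine Filter.Tendsto.const_div_atTop ?_ _
      exact Filter.tendsto_atTop_add_const_right _ _ tendsto_natCast_atTop_atTop
    simpa using h1.const_add (6 * m)
  have hu : Filter.Tendsto (fun i : ℕ => (i : ℝ) + 1) Filter.atTop Filter.atTop :=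
    Filter.tendsto_atTop_add_const_right _ _ tendsto_natCast_atTop_atTop
  have hb := root_bound D hD0 _ _ (6 * m) ht hu (by linarith)
    (fun i => hD2 (x i) _ _ (hx1 i) rfl)
  calc (1 : ℝ) ≤ 6 * m * l1 D := hb
    _ ≤ 6 * m * (1 + 6 * L * (4 * L) ^ (4 * n + 4)) ^ (5 ^ n) :=
        mul_le_mul_of_nonneg_left hD1 (by linarith)
    _ = m * (6 * (1 + 6 * L * (4 * L) ^ (4 * n + 4)) ^ (5 ^ n)) := by ring
    _ ≤ _ := mul_le_mul_of_nonneg_left (gap_num n L hL1) hm.le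

end Pool.Agent.Lib.MP_79a9b1_lc
end

section

set_option autoImplicit false

/-!
# A lower bound of the residuals of an unsolvable system
-/

namespace Pool.Agent.Lib.MP_79a9b1_lc

open MvPolynomial

namespace BSYS

variable (S : BSYS)

private theorem loj_res_congr {e : ℕ} (hS : S.WF) (he : e < S.ne) (x y : ℕ → ℝ)
    (h : ∀ i < S.nv, x i = y i) : S.res x e = S.res y e := by
  unfold res
  rw [h _ (hS.i e he), h _ (hS.j e he), h _ (hS.k e he)]

private theorem loj_num (nv ne : ℕ) (N : ℝ) (hN : (3 * nv + ne + 21 : ℝ) ≤ N) (R : ℝ) (hR0 : 0 ≤ R)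
    (hR : R ≤ 2 * N) :
    10 * ((9 * ne + 4 + (nv + 1 + nv * R ^ 2) ^ 2) + 1) ≤ N ^ 8 := by
  have h0 : (0 : ℝ) ≤ nv := Nat.cast_nonneg _
  have h1 : (0 : ℝ) ≤ ne := Nat.cast_nonneg _
  have hN1 : 1 ≤ N := by linarith
  have hN2 : 1 ≤ N ^ 2 := one_le_pow₀ hN1
  have hN4 : 1 ≤ N ^ 4 := one_le_pow₀ hN1
  have hR2 : R ^ 2 ≤ 4 * N ^ 2 := by
    calc R ^ 2 ≤ (2 * N) ^ 2 := pow_le_pow_left₀ hR0 hR 2
      _ = 4 * N ^ 2 := by ring
  have h2 : (nv + 1 + nv * R ^ 2 : ℝ) ≤ (5 * nv + 1) * N ^ 2 := by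
    have : (nv : ℝ) * R ^ 2 ≤ nv * (4 * N ^ 2) := mul_le_mul_of_nonneg_left hR2 h0
    nlinarith [mul_le_mul_of_nonneg_left hN2 h0]
  have h3 : (nv + 1 + nv * R ^ 2 : ℝ) ^ 2 ≤ (5 * nv + 1) ^ 2 * N ^ 4 := by
    calc (nv + 1 + nv * R ^ 2 : ℝ) ^ 2 ≤ ((5 * nv + 1) * N ^ 2) ^ 2 :=
          pow_le_pow_left₀ (by positivity) h2 2
      _ = _ := by ring
  have h4 : (10 * (9 * ne + 5 + (5 * nv + 1) ^ 2) : ℝ) ≤ N ^ 4 := by
    have h5 : (441 + 126 * nv + 42 * ne + 9 * nv ^ 2 : ℝ) ≤ N ^ 2 := by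
      calc (441 + 126 * nv + 42 * ne + 9 * nv ^ 2 : ℝ) ≤ (3 * nv + ne + 21) ^ 2 := by
            nlinarith [mul_nonneg h0 h1, mul_nonneg h1 h1]
        _ ≤ N ^ 2 := pow_le_pow_left₀ (by positivity) hN 2
    have h6 : (441 : ℝ) ≤ N ^ 2 := by
      have : (0 : ℝ) ≤ 126 * nv + 42 * ne + 9 * nv ^ 2 := by positivity
      linarith
    have h7 : N ^ 4 = N ^ 2 * N ^ 2 := by ring
    rw [h7]
    have h8 : (441 : ℝ) * (441 + 126 * nv + 42 * ne + 9 * nv ^ 2) ≤ N ^ 2 * N ^ 2 :=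
      mul_le_mul h6 h5 (by positivity) (by positivity)
    nlinarith [mul_nonneg h0 h0]
  calc 10 * ((9 * ne + 4 + (nv + 1 + nv * R ^ 2) ^ 2) + 1)
      ≤ 10 * ((9 * ne + 5) * N ^ 4 + (5 * nv + 1) ^ 2 * N ^ 4) := by
        have : (9 * ne + 5 : ℝ) * 1 ≤ (9 * ne + 5) * N ^ 4 :=
          mul_le_mul_of_nonneg_left hN4 (by positivity)
        linarith
    _ = (10 * (9 * ne + 5 + (5 * nv + 1) ^ 2)) * N ^ 4 := by ring
    _ ≤ N ^ 4 * N ^ 4 := mul_le_mul_of_nonneg_right h4 (by positivity)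
    _ = N ^ 8 := by ring

private theorem loj_fin (δ N : ℝ) (hδ : 0 < δ) (hδ1 : δ ≤ 1) (hNδ : N * δ = 1) (E K : ℕ)
    (hexp : K + 1 ≤ 2 * E) : (δ ^ E) ^ 2 * N ^ K ≤ δ := by
  obtain ⟨d, hd⟩ := Nat.exists_eq_add_of_le hexp
  rw [← pow_mul, mul_comm E 2, hd]
  calc δ ^ (K + 1 + d) * N ^ K
      = (N * δ) ^ K * (δ * δ ^ d) := by ring
    _ = δ * δ ^ d := by rw [hNδ, one_pow, one_mul]
    _ ≤ δ * 1 := mul_le_mul_of_nonneg_left (pow_le_one₀ hδ.le hδ1) hδ.le
    _ = δ := mul_one _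

private theorem loj_chain (m b c N : ℝ) (E K : ℕ) (h1 : 1 ≤ m * b ^ E) (hb0 : 0 ≤ b)
    (hb : b ≤ N ^ 8) (hK : 8 * E = K) (hm : m ≤ c) (hc : 0 ≤ c) : 1 ≤ c * N ^ K := by
  refine h1.trans ?_
  refine mul_le_mul hm ?_ (pow_nonneg hb0 _) hc
  rw [← hK, pow_mul]
  exact pow_le_pow_left₀ hb0 hb _

theorem loj (hS : S.WF) (hn : ¬ S.Solv) (δ : ℝ) (hδ : 0 < δ) (hδ2 : δ * 2 ^ (2 ^ S.M) < 1)
    (x : ℕ → ℝ) (hx0 : x 0 = 1) (hx : ∀ i < S.nv, |x i| ≤ 1 / δ) :
    ∃ e < S.ne, δ ^ (2 ^ S.M - 2) ≤ |S.res x e| := by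
  by_contra hcon
  push Not at hcon
  -- the size of `1 / δ`
  set N : ℝ := 1 / δ with hN
  have hNpos : 0 < N := by positivity
  have hNδ : N * δ = 1 := by rw [hN]; field_simp
  have hNbig : (2 : ℝ) ^ (2 ^ S.M) < N := by
    rw [hN, lt_div_iff₀ hδ]
    linarith
  have hMN : ((S.M : ℝ) + 1) ≤ N := by
    have h1 : S.M + 1 ≤ 2 ^ S.M := Nat.lt_two_pow_self
    have h2 : 2 ^ S.M < 2 ^ (2 ^ S.M) := Nat.lt_two_pow_self
    have h3 : ((S.M + 1 : ℕ) : ℝ) ≤ ((2 ^ (2 ^ S.M) : ℕ) : ℝ) := by exact_mod_cast h1.trans h2.le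
    push_cast at h3
    linarith
  have hMval : (S.M : ℝ) + 1 = 3 * S.nv + S.ne + 21 := by
    unfold M
    push_cast
    ring
  have hN1 : 1 ≤ N := by
    have : (0 : ℝ) ≤ 3 * S.nv + S.ne := by positivity
    linarith
  obtain ⟨R, hR1, hR2⟩ : ∃ R : ℕ, N ≤ R ∧ (R : ℝ) ≤ 2 * N := by
    refine ⟨⌈N⌉₊, Nat.le_ceil _, ?_⟩
    have := Nat.ceil_lt_add_one hNpos.le
    linarith
  obtain ⟨P, hdeg, hl1, hP⟩ := S.loj_poly hS R
  have hPnonneg : ∀ z : Fin (S.nv + 1) → ℝ, (0 : ℝ) ≤ aeval z P := by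
    intro z
    rw [hP]
    positivity
  obtain ⟨z₀, hz₀⟩ := exists_min P (S.nv * (R : ℝ) ^ 2) (fun z => by
    rw [hP]
    have h1 : 0 ≤ ∑ e ∈ Finset.range S.ne, S.res (ext z) e ^ 2 :=
      Finset.sum_nonneg fun _ _ => sq_nonneg _
    have h2 : 0 ≤ (ext z 0 - 1) ^ 2 := sq_nonneg _
    linarith)
  have hm : 0 < aeval z₀ P := by
    refine lt_of_le_of_ne (hPnonneg _) fun h0 => hn ?_
    have h3 := hP z₀
    rw [← h0] at h3
    have h1 : 0 ≤ ∑ e ∈ Finset.range S.ne, S.res (ext z₀) e ^ 2 :=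
      Finset.sum_nonneg fun _ _ => sq_nonneg _
    have h2 : 0 ≤ (ext z₀ 0 - 1) ^ 2 := sq_nonneg _
    have h4 : 0 ≤ (∑ i, z₀ i ^ 2 - S.nv * (R : ℝ) ^ 2) ^ 2 := sq_nonneg _
    refine ⟨ext z₀, ?_, fun e he => ?_⟩
    · have : (ext z₀ 0 - 1) ^ 2 = 0 := by linarith
      have := pow_eq_zero_iff (two_ne_zero) |>.1 this
      linarith
    · have h5 : ∑ e ∈ Finset.range S.ne, S.res (ext z₀) e ^ 2 = 0 := by linarith
      have h6 := (Finset.sum_eq_zero_iff_of_nonneg fun _ _ => sq_nonneg _).1 h5 e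
        (Finset.mem_range.2 he)
      exact pow_eq_zero_iff (two_ne_zero) |>.1 h6
  -- the comparison point
  have hsum : ∑ i : Fin S.nv, x i ^ 2 ≤ S.nv * (R : ℝ) ^ 2 := by
    calc ∑ i : Fin S.nv, x i ^ 2 ≤ ∑ _i : Fin S.nv, (R : ℝ) ^ 2 := by
          refine Finset.sum_le_sum fun i _ => ?_
          rw [← sq_abs]
          exact pow_le_pow_left₀ (abs_nonneg _) ((hx i i.2).trans hR1) 2
      _ = _ := by simp
  let z : Fin (S.nv + 1) → ℝ := Fin.snoc (α := fun _ => ℝ) (fun i : Fin S.nv => x i)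
    (Real.sqrt (S.nv * (R : ℝ) ^ 2 - ∑ i : Fin S.nv, x i ^ 2))
  have hzext : ∀ i < S.nv, ext z i = x i := by
    intro i hi
    unfold ext
    rw [dif_pos (by omega)]
    have : (⟨i, by omega⟩ : Fin (S.nv + 1)) = Fin.castSucc ⟨i, hi⟩ := rfl
    rw [this]
    simp only [z, Fin.snoc_castSucc]
  have hzsum : ∑ i, z i ^ 2 = S.nv * (R : ℝ) ^ 2 := by
    rw [Fin.sum_univ_castSucc]
    simp only [z, Fin.snoc_castSucc, Fin.snoc_last]
    rw [Real.sq_sqrt (by linarith)]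
    ring
  have hPz : aeval z P ≤ S.ne * (δ ^ (2 ^ S.M - 2)) ^ 2 := by
    rw [hP, hzsum, hzext 0 hS.pos, hx0]
    have h1 : ∑ e ∈ Finset.range S.ne, S.res (ext z) e ^ 2 ≤
        ∑ _e ∈ Finset.range S.ne, (δ ^ (2 ^ S.M - 2)) ^ 2 := by
      refine Finset.sum_le_sum fun e he => ?_
      have he' := Finset.mem_range.1 he
      rw [S.loj_res_congr hS he' _ x hzext, ← sq_abs]
      exact pow_le_pow_left₀ (abs_nonneg _) (hcon e he').le 2
    rw [Finset.sum_const, Finset.card_range, nsmul_eq_mul] at h1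
    linarith
  have hgap := gap P (9 * S.ne + 4 + (S.nv + 1 + S.nv * (R : ℝ) ^ 2) ^ 2) (by
    have h1 : (0 : ℝ) ≤ S.ne := Nat.cast_nonneg _
    have h2 : 0 ≤ (S.nv + 1 + S.nv * (R : ℝ) ^ 2) ^ 2 := sq_nonneg _
    linarith) hdeg hl1 (aeval z₀ P) hm hz₀ z₀ rfl
  have hnum := loj_num S.nv S.ne N (by linarith) R (Nat.cast_nonneg _) hR2
  have hK : 8 * 8 ^ (S.nv + 1 + 2) = 2 ^ (3 * S.nv + 12) := by
    rw [show (8 : ℕ) = 2 ^ 3 by norm_num, ← pow_mul, ← pow_add]
    congr 1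
    ring
  have hchain : (1 : ℝ) ≤ (S.ne * (δ ^ (2 ^ S.M - 2)) ^ 2) * N ^ (2 ^ (3 * S.nv + 12)) :=
    loj_chain _ _ _ N _ _ hgap (by positivity) hnum hK ((hz₀ z).trans hPz) (by positivity)
  -- exponents
  have hexp : 2 ^ (3 * S.nv + 12) + 1 ≤ 2 * (2 ^ S.M - 2) := by
    have h1 : 2 ^ (3 * S.nv + 12) * 2 ^ 8 ≤ 2 ^ S.M := by
      rw [← pow_add]
      refine Nat.pow_le_pow_right (by norm_num) ?_
      unfold M
      omega
    have h2 : 1 ≤ 2 ^ (3 * S.nv + 12) := Nat.one_le_two_pow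
    omega
  have hδ1 : δ ≤ 1 := by
    calc δ = 1 * δ := (one_mul _).symm
      _ ≤ N * δ := mul_le_mul_of_nonneg_right hN1 hδ.le
      _ = 1 := hNδ
  have hfin : (δ ^ (2 ^ S.M - 2)) ^ 2 * N ^ (2 ^ (3 * S.nv + 12)) ≤ δ :=
    loj_fin δ N hδ hδ1 hNδ _ _ hexp
  have h9 : (1 : ℝ) ≤ S.ne * δ := by
    calc (1 : ℝ) ≤ _ := hchain
      _ = S.ne * ((δ ^ (2 ^ S.M - 2)) ^ 2 * N ^ (2 ^ (3 * S.nv + 12))) := by ring
      _ ≤ S.ne * δ := mul_le_mul_of_nonneg_left hfin (Nat.cast_nonneg _)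
  have h10 : (S.ne : ℝ) < N := by
    have : (0 : ℝ) ≤ S.nv := Nat.cast_nonneg _
    linarith
  have h11 : (S.ne : ℝ) * δ < N * δ := mul_lt_mul_of_pos_right h10 hδ
  linarith

end BSYS

end Pool.Agent.Lib.MP_79a9b1_lc
end
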