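import Pool.Agent.Lib.MP_79a9b1_lc.Mg.G005
import Pool.Agent.Lib.MP_79a9b1_lc.Mg.G007
import Pool.Agent.Lib.MP_79a9b1_lc.Mg.G004
import Pool.Agent.Lib.MP_79a9b1_lc.Mg.G009

section

set_option autoImplicit false

/-!
# A solution of the network gives values of the straight-line program
-/

namespace Pool.Agent.Lib.MP_79a9b1_lc

namespace SLP

variable (P : SLP)

/-- The calibrators fix the weights. -/
theorem pre_of_sol (Y : Ax P.n → ℝ) (ξ : Rw P.n → Ax P.n → ℝ) (h : P.net.Sol Y ξ) :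
    ∃ y : ℝ, 0 < y ∧ y < 1 ∧ P.Pre y Y ξ := by
  have hfu : ∀ x a, P.ty x a = .fu → ξ x a = 1 := fun x a hx => h.full x a hx
  have hno : ∀ x a, P.ty x a = .no → ξ x a = 0 := by
    intro x a hx
    apply h.none x a
    rintro (h1 | h1)
    · have h2 : P.ty x a = .fu := h1
      rw [hx] at h2
      exact absurd h2 (by decide)
    · have h2 : P.ty x a = .pa := h1
      rw [hx] at h2
      exact absurd h2 (by decide)
  have hsome : ∀ (k : Fin P.n) (σ : Sg), Y (P.ax σ k) + Y (Sum.inr (isMain σ)) = 1 := by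
    intro k σ
    rw [← P.sum_cal_some hfu hno k σ false true]
    exact h.edge _ _ ⟨rfl, by decide⟩
  have hnone : Y (Sum.inr false) + Y (Sum.inr true) = 1 := by
    rw [← P.sum_cal_none hfu hno false true]
    exact h.edge _ _ ⟨rfl, by decide⟩
  have h0 := h.pos (Sum.inr false)
  have h1 := h.pos (Sum.inr true)
  refine ⟨Y (Sum.inr false), h0, by linarith, ⟨?_, ?_, hfu, hno⟩⟩
  · intro k σ hσ
    have h2 := hsome k σ
    rw [hσ] at h2
    linarith
  · intro k σ hσ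
    have h2 := hsome k σ
    rw [hσ] at h2
    linarith

theorem sat_of_sol (hP : P.WF) (Y : Ax P.n → ℝ) (ξ : Rw P.n → Ax P.n → ℝ)
    (h : P.net.Sol Y ξ) : P.Sat := by
  obtain ⟨y, hy0, hy1, hpre⟩ := P.pre_of_sol Y ξ h
  have hcan : ∀ z : ℝ, y * z + (1 - y) = 1 → z = 1 := by
    intro z hz
    have h1 : y * (z - 1) = 0 := by linarith
    have h2 := (mul_eq_zero.1 h1).resolve_left hy0.ne'
    linarith
  refine ⟨fun k => if hk : k < P.n then ξ (P.ro .s ⟨k, hk⟩) (P.ax .al ⟨k, hk⟩) else 0, ?_⟩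
  intro k hk
  have hv : ∀ (m : ℕ) (hm : m < P.n), (fun k => if hk : k < P.n then
      ξ (P.ro .s ⟨k, hk⟩) (P.ax .al ⟨k, hk⟩) else 0) m =
      ξ (P.ro .s ⟨m, hm⟩) (P.ax .al ⟨m, hm⟩) := fun m hm => dif_pos hm
  rw [hv k hk]
  obtain ⟨hp1, hp2⟩ := h.part (P.ro .s ⟨k, hk⟩) (P.ax .al ⟨k, hk⟩) (by
    change P.ty _ _ = Ty.pa
    simp [ty, tyM])
  refine ⟨hp1, hp2, ?_, ?_, ?_⟩
  · intro ho
    have ha := hP.one k hk ho
    have han : P.a k < P.n := ha.trans hk
    rw [hv _ han]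
    have h1 := sum_ss hP hpre (i := ⟨P.a k, han⟩) (k := ⟨k, hk⟩) ho rfl
    rw [h.edge (P.ro .s ⟨P.a k, han⟩) (P.ro .s ⟨k, hk⟩)
      ⟨fun h2 => absurd (congrArg Fin.val h2.1) ha.ne, Or.inl ⟨ho, rfl⟩⟩] at h1
    have h2 := hcan _ h1.symm
    linarith
  · intro ho
    have hb : P.bin k := Or.inl ho
    obtain ⟨ha, hb', -⟩ := hP.bin k hk hb
    have han : P.a k < P.n := ha.trans hk
    have hbn : P.b k < P.n := hb'.trans hk
    rw [hv _ han, hv _ hbn]
    have e1 := sum_us hP hpre (k := ⟨k, hk⟩) hb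
    rw [h.edge (P.ro .u ⟨k, hk⟩) (P.ro .s ⟨k, hk⟩)
      ⟨fun h2 => absurd h2.2 (by decide), Or.inl ⟨hb, rfl⟩⟩] at e1
    have e2 := sum_sr1 hP hpre (i := ⟨P.a k, han⟩) (k := ⟨k, hk⟩) hb rfl
    rw [h.edge (P.ro .s ⟨P.a k, han⟩) (P.ro .r1 ⟨k, hk⟩)
      ⟨fun h2 => absurd h2.2 (by decide), Or.inl ⟨hb, rfl⟩⟩] at e2
    have e3 := sum_sr2 hP hpre (j := ⟨P.b k, hbn⟩) (k := ⟨k, hk⟩) hb rfl
    rw [h.edge (P.ro .s ⟨P.b k, hbn⟩) (P.ro .r2 ⟨k, hk⟩)
      ⟨fun h2 => absurd h2.2 (by decide), Or.inl ⟨hb, rfl⟩⟩] at e3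
    have e4 := sum_r1w hP hpre (k := ⟨k, hk⟩) hb
    rw [h.edge (P.ro .r1 ⟨k, hk⟩) (P.ro .w ⟨k, hk⟩)
      ⟨fun h2 => absurd h2.2 (by decide), Or.inl ⟨hb, rfl⟩⟩] at e4
    have e5 := sum_r2w hP hpre (k := ⟨k, hk⟩) ho
    rw [h.edge (P.ro .r2 ⟨k, hk⟩) (P.ro .w ⟨k, hk⟩)
      ⟨fun h2 => absurd h2.2 (by decide), Or.inl ⟨ho, rfl⟩⟩] at e5
    have e6 := sum_wu_add hP hpre (k := ⟨k, hk⟩) ho
    rw [h.edge (P.ro .w ⟨k, hk⟩) (P.ro .u ⟨k, hk⟩)
      ⟨fun h2 => absurd h2.2 (by decide), Or.inl ⟨hb, rfl⟩⟩] at e6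
    have f1 := hcan _ e1.symm
    have f2 := hcan _ e2.symm
    have f3 := hcan _ e3.symm
    have f4 := hcan _ e4.symm
    have f5 := hcan _ e5.symm
    have f6 := hcan _ e6.symm
    linarith
  · intro ho
    have hb : P.bin k := Or.inr ho
    obtain ⟨ha, hb', -⟩ := hP.bin k hk hb
    have han : P.a k < P.n := ha.trans hk
    have hbn : P.b k < P.n := hb'.trans hk
    rw [hv _ han, hv _ hbn]
    have e1 := sum_us hP hpre (k := ⟨k, hk⟩) hb
    rw [h.edge (P.ro .u ⟨k, hk⟩) (P.ro .s ⟨k, hk⟩)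
      ⟨fun h2 => absurd h2.2 (by decide), Or.inl ⟨hb, rfl⟩⟩] at e1
    have e2 := sum_sr1 hP hpre (i := ⟨P.a k, han⟩) (k := ⟨k, hk⟩) hb rfl
    rw [h.edge (P.ro .s ⟨P.a k, han⟩) (P.ro .r1 ⟨k, hk⟩)
      ⟨fun h2 => absurd h2.2 (by decide), Or.inl ⟨hb, rfl⟩⟩] at e2
    have e3 := sum_sr2 hP hpre (j := ⟨P.b k, hbn⟩) (k := ⟨k, hk⟩) hb rfl
    rw [h.edge (P.ro .s ⟨P.b k, hbn⟩) (P.ro .r2 ⟨k, hk⟩)
      ⟨fun h2 => absurd h2.2 (by decide), Or.inl ⟨hb, rfl⟩⟩] at e3
    have e4 := sum_r1w hP hpre (k := ⟨k, hk⟩) hb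
    rw [h.edge (P.ro .r1 ⟨k, hk⟩) (P.ro .w ⟨k, hk⟩)
      ⟨fun h2 => absurd h2.2 (by decide), Or.inl ⟨hb, rfl⟩⟩] at e4
    have e5 := sum_r2u hP hpre (k := ⟨k, hk⟩) ho
    rw [h.edge (P.ro .r2 ⟨k, hk⟩) (P.ro .u ⟨k, hk⟩)
      ⟨fun h2 => absurd h2.2 (by decide), Or.inl ⟨ho, rfl⟩⟩] at e5
    have e6 := sum_wu_mul hP hpre (k := ⟨k, hk⟩) ho
    rw [h.edge (P.ro .w ⟨k, hk⟩) (P.ro .u ⟨k, hk⟩)
      ⟨fun h2 => absurd h2.2 (by decide), Or.inl ⟨hb, rfl⟩⟩] at e6
    have f1 := hcan _ e1.symm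
    have f2 := hcan _ e2.symm
    have f3 := hcan _ e3.symm
    have f4 := hcan _ e4.symm
    have f5 := hcan _ e5.symm
    have f6 := hcan _ e6.symm
    have g1 : ξ (P.ro .w ⟨k, hk⟩) (P.ax .g1 ⟨k, hk⟩) =
        ξ (P.ro .s ⟨P.a k, han⟩) (P.ax .al ⟨P.a k, han⟩) := by linarith
    have g2 : ξ (P.ro .u ⟨k, hk⟩) (P.ax .g1 ⟨k, hk⟩) =
        ξ (P.ro .s ⟨P.b k, hbn⟩) (P.ax .al ⟨P.b k, hbn⟩) := by linarith
    rw [g1, g2] at f6
    linarith

end SLP

end Pool.Agent.Lib.MP_79a9b1_lc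
end

section

set_option autoImplicit false
set_option linter.unusedVariables false

/-!
# Values of the straight-line program give a solution of the network
-/

namespace Pool.Agent.Lib.MP_79a9b1_lc

namespace SLP

variable (P : SLP)

/-- The proper coordinates which belong to the values `v`. -/
noncomputable def pv (v : ℕ → ℝ) (τ : Rs) (σ : Sg) (k : ℕ) : ℝ :=
  match τ, σ with
  | .s, .al => v k
  | .r1, .b1 => 1 - v (P.a k)
  | .r2, .b2 => 1 - v (P.b k)
  | .w, .g1 => v (P.a k)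
  | .w, .g2 => v (P.b k)
  | .u, .om => 1 - v k
  | .u, .g1 => v (P.b k)
  | _, _ => 1 / 2

/-- The coordinates which belong to the values `v`. -/
noncomputable def xi (v : ℕ → ℝ) (x : Rw P.n) (a : Ax P.n) : ℝ :=
  match P.ty x a with
  | .no => 0
  | .fu => 1
  | .pa => match x, a with
    | .inl (_, τ), .inl (k, σ) => P.pv v τ σ k
    | _, _ => 1 / 2

theorem solofsat_xi_fu (v : ℕ → ℝ) (x : Rw P.n) (a : Ax P.n) (h : P.ty x a = .fu) :
    P.xi v x a = 1 := by
  unfold xi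
  rw [h]

theorem solofsat_xi_no (v : ℕ → ℝ) (x : Rw P.n) (a : Ax P.n) (h : P.ty x a = .no) :
    P.xi v x a = 0 := by
  unfold xi
  rw [h]

theorem solofsat_xi_pa (v : ℕ → ℝ) (τ σ) (m k : Fin P.n) (h : P.tyM τ m σ k = .pa) :
    P.xi v (P.ro τ m) (P.ax σ k) = P.pv v τ σ k := by
  have h' : P.ty (P.ro τ m) (P.ax σ k) = .pa := h
  unfold xi
  rw [h']

theorem solofsat_pv (hP : P.WF) (v : ℕ → ℝ) (hv : ∀ k < P.n, 0 < v k ∧ v k < 1)
    (τ : Rs) (σ : Sg) (m k : Fin P.n) (h : P.tyM τ m σ k = .pa) :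
    0 < P.pv v τ σ k ∧ P.pv v τ σ k < 1 := by
  have hk := hv k k.2
  have hbin : P.bin m → m.1 = k.1 → (0 < v (P.a k) ∧ v (P.a k) < 1) ∧
      (0 < v (P.b k) ∧ v (P.b k) < 1) := by
    intro hb he
    rw [he] at hb
    have h1 := hP.bin k k.2 hb
    exact ⟨hv _ (h1.1.trans k.2), hv _ (h1.2.1.trans k.2)⟩
  have hb2 : P.op m = 2 → P.bin m := fun h => Or.inl h
  have hb3 : P.op m = 3 → P.bin m := fun h => Or.inr h
  cases τ <;> cases σ <;> simp only [tyM] at h <;> (try split_ifs at h with h1 h2) <;>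
    simp only [reduceCtorEq] at h <;> simp only [pv]
  · exact hk
  all_goals
    first
      | (have h4 := hbin h1.1 h1.2
         constructor <;> linarith [h4.1.1, h4.1.2, h4.2.1, h4.2.2])
      | (have h4 := hbin (hb2 h1.1) h1.2
         constructor <;> linarith [h4.1.1, h4.1.2, h4.2.1, h4.2.2])
      | (have h4 := hbin (hb3 h2.1) h2.2
         constructor <;> linarith [h4.1.1, h4.1.2, h4.2.1, h4.2.2])

theorem solofsat_ty_pa (x : Rw P.n) (a : Ax P.n) (h : P.ty x a = .pa) :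
    ∃ m k τ σ, x = P.ro τ m ∧ a = P.ax σ k ∧ P.tyM τ m σ k = .pa := by
  rcases x with ⟨m, τ⟩ | ⟨_ | ⟨c, ρ⟩, t⟩ <;> rcases a with ⟨k, σ⟩ | r
  · exact ⟨m, k, τ, σ, rfl, rfl, h⟩
  all_goals
    simp only [ty] at h
    first
      | exact absurd h (by decide)
      | split_ifs at h

theorem solofsat_xi_mem (hP : P.WF) (v : ℕ → ℝ) (hv : ∀ k < P.n, 0 < v k ∧ v k < 1)
    (x : Rw P.n) (a : Ax P.n) : 0 ≤ P.xi v x a ∧ P.xi v x a ≤ 1 := by
  cases hty : P.ty x a with
  | no =>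
    rw [P.solofsat_xi_no v x a hty]
    exact ⟨le_rfl, zero_le_one⟩
  | pa =>
    obtain ⟨m, k, τ, σ, rfl, rfl, h⟩ := P.solofsat_ty_pa x a hty
    rw [P.solofsat_xi_pa v τ σ m k h]
    have := P.solofsat_pv hP v hv τ σ m k h
    exact ⟨this.1.le, this.2.le⟩
  | fu =>
    rw [P.solofsat_xi_fu v x a hty]
    exact ⟨zero_le_one, le_rfl⟩

theorem solofsat_edge (hP : P.WF) (v : ℕ → ℝ)
    (hv : ∀ k < P.n, 0 < v k ∧ v k < 1 ∧ (P.op k = 1 → v k = 1 - v (P.a k)) ∧
      (P.op k = 2 → v k = v (P.a k) + v (P.b k)) ∧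
      (P.op k = 3 → v k = v (P.a k) * v (P.b k)))
    (τ ρ : Rs) (m k : Fin P.n) (h : P.edM τ m ρ k) :
    ∑ a, (1 / 2 : ℝ) * P.xi v (P.ro τ m) a * P.xi v (P.ro ρ k) a = 1 := by
  have hpre : P.Pre (1 / 2 : ℝ) (fun _ => 1 / 2) (P.xi v) :=
    ⟨fun _ _ _ => rfl, fun _ _ _ => by norm_num, P.solofsat_xi_fu v, P.solofsat_xi_no v⟩
  have hs : ∀ i : Fin P.n, P.xi v (P.ro .s i) (P.ax .al i) = v i := fun i =>
    P.solofsat_xi_pa v .s .al i i (by simp [tyM])
  have hr1 : ∀ i : Fin P.n, P.bin i → P.xi v (P.ro .r1 i) (P.ax .b1 i) = 1 - v (P.a i) :=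
    fun i hi => P.solofsat_xi_pa v .r1 .b1 i i (by simp [tyM, hi])
  have hr2 : ∀ i : Fin P.n, P.bin i → P.xi v (P.ro .r2 i) (P.ax .b2 i) = 1 - v (P.b i) :=
    fun i hi => P.solofsat_xi_pa v .r2 .b2 i i (by simp [tyM, hi])
  have hw1 : ∀ i : Fin P.n, P.bin i → P.xi v (P.ro .w i) (P.ax .g1 i) = v (P.a i) :=
    fun i hi => P.solofsat_xi_pa v .w .g1 i i (by simp [tyM, hi])
  have hw2 : ∀ i : Fin P.n, P.op i = 2 → P.xi v (P.ro .w i) (P.ax .g2 i) = v (P.b i) :=
    fun i hi => P.solofsat_xi_pa v .w .g2 i i (by simp [tyM, hi])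
  have hu1 : ∀ i : Fin P.n, P.op i = 3 → P.xi v (P.ro .u i) (P.ax .g1 i) = v (P.b i) :=
    fun i hi => P.solofsat_xi_pa v .u .g1 i i (by simp [tyM, hi])
  have hu2 : ∀ i : Fin P.n, P.bin i → P.xi v (P.ro .u i) (P.ax .om i) = 1 - v i :=
    fun i hi => P.solofsat_xi_pa v .u .om i i (by simp [tyM, hi])
  have hk := hv k k.2
  cases τ <;> cases ρ <;> simp only [edM] at h
  · have h1 := sum_ss hP hpre h.1 h.2
    rw [hs, hs, hk.2.2.1 h.1, h.2] at h1
    rw [h1]
    ring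
  · have h1 := sum_sr1 hP hpre h.1 h.2
    rw [hs, hr1 k h.1, h.2] at h1
    rw [h1]
    ring
  · have h1 := sum_sr2 hP hpre h.1 h.2
    rw [hs, hr2 k h.1, h.2] at h1
    rw [h1]
    ring
  · obtain ⟨h0, h2⟩ := h
    obtain rfl := Fin.ext h2
    have h1 := sum_r1w hP hpre h0
    rw [hr1 m h0, hw1 m h0] at h1
    rw [h1]
    ring
  · obtain ⟨h0, h2⟩ := h
    obtain rfl := Fin.ext h2
    have h1 := sum_r2w hP hpre h0
    rw [hr2 m (Or.inl h0), hw2 m h0] at h1
    rw [h1]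
    ring
  · obtain ⟨h0, h2⟩ := h
    obtain rfl := Fin.ext h2
    have h1 := sum_r2u hP hpre h0
    rw [hr2 m (Or.inr h0), hu1 m h0] at h1
    rw [h1]
    ring
  · obtain ⟨h0, h2⟩ := h
    obtain rfl := Fin.ext h2
    rcases h0 with h3 | h3
    · have h1 := sum_wu_add hP hpre h3
      rw [hu2 m (Or.inl h3), hw1 m (Or.inl h3), hw2 m h3, hk.2.2.2.1 h3] at h1
      rw [h1]
      ring
    · have h1 := sum_wu_mul hP hpre h3
      rw [hu2 m (Or.inr h3), hw1 m (Or.inr h3), hu1 m h3, hk.2.2.2.2 h3] at h1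
      rw [h1]
      ring
  · obtain ⟨h0, h2⟩ := h
    obtain rfl := Fin.ext h2
    have h1 := sum_us hP hpre h0
    rw [hu2 m h0, hs] at h1
    rw [h1]
    ring

theorem sol_of_sat (hP : P.WF) (v : ℕ → ℝ)
    (hv : ∀ k < P.n, 0 < v k ∧ v k < 1 ∧ (P.op k = 1 → v k = 1 - v (P.a k)) ∧
      (P.op k = 2 → v k = v (P.a k) + v (P.b k)) ∧
      (P.op k = 3 → v k = v (P.a k) * v (P.b k))) :
    P.net.Sol (fun _ => 1 / 2) (P.xi v) := by
  have hv2 : ∀ k < P.n, 0 < v k ∧ v k < 1 := fun k hk => ⟨(hv k hk).1, (hv k hk).2.1⟩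
  refine ⟨fun _ => by norm_num, fun x a h => P.solofsat_xi_fu v x a h, fun x a h => ?_,
    fun x a h => ?_, fun x y h => ?_, fun x y hxy h => ?_⟩
  · obtain ⟨m, k, τ, σ, rfl, rfl, h⟩ := P.solofsat_ty_pa x a h
    rw [P.solofsat_xi_pa v τ σ m k h]
    exact P.solofsat_pv hP v hv2 τ σ m k h
  · apply P.solofsat_xi_no v x a
    have h1 : ¬ (P.ty x a = .fu ∨ P.ty x a = .pa) := h
    cases hty : P.ty x a with
    | no => rfl
    | pa => exact absurd (Or.inr hty) h1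
    | fu => exact absurd (Or.inl hty) h1
  · have h1 : P.ed x y := h
    rcases x with ⟨m, τ⟩ | ⟨c, t⟩ <;> rcases y with ⟨k, ρ⟩ | ⟨d, r⟩ <;> simp only [ed] at h1
    · rcases h1.2 with h2 | h2
      · exact P.solofsat_edge hP v hv τ ρ m k h2
      · have h3 := P.solofsat_edge hP v hv ρ τ k m h2
        refine Eq.trans (Finset.sum_congr rfl fun a _ => ?_) h3
        ring
    · obtain ⟨rfl, _⟩ := h1
      rcases c with _ | ⟨k, σ⟩
      · rw [P.sum_cal_none (P.solofsat_xi_fu v) (P.solofsat_xi_no v)]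
        norm_num
      · rw [P.sum_cal_some (P.solofsat_xi_fu v) (P.solofsat_xi_no v)]
        norm_num
  · have h1 : ¬ P.ed x y := h
    by_cases hc : ∃ a, P.ty x a ≠ .no ∧ P.ty y a ≠ .no
    · obtain ⟨a, ha1, ha2⟩ := hc
      rw [Finset.sum_eq_single a]
      · have h2 := P.solofsat_xi_mem hP v hv2 x a
        have h3 := P.solofsat_xi_mem hP v hv2 y a
        nlinarith [mul_le_one₀ h2.2 h3.1 h3.2]
      · intro b _ hb
        by_cases hb1 : P.ty x b = .no
        · rw [P.solofsat_xi_no v x b hb1]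
          ring
        · by_cases hb2 : P.ty y b = .no
          · rw [P.solofsat_xi_no v y b hb2]
            ring
          · exact absurd (P.one_common hP x y hxy h1 a b ha1 ha2 hb1 hb2).symm hb
      · intro h4
        exact absurd (Finset.mem_univ a) h4
    · push Not at hc
      rw [Finset.sum_eq_zero]
      · exact zero_lt_one
      · intro b _
        by_cases hb1 : P.ty x b = .no
        · rw [P.solofsat_xi_no v x b hb1]
          ring
        · rw [P.solofsat_xi_no v y b (hc b hb1)]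
          ring

end SLP

end Pool.Agent.Lib.MP_79a9b1_lc
end

section

set_option autoImplicit false

/-!
# The graph of a straight-line program
-/

namespace Pool.Agent.Lib.MP_79a9b1_lc

namespace SLP

variable (P : SLP)

/-- The Colin de Verdière invariant of the graph of a straight-line program decides whether the
program has values in `(0, 1)`. -/
theorem mu_iff (hP : P.WF) : 41 * P.n + 4 ≤ mu P.net.graph ↔ P.Sat := by
  have h1 : Fintype.card (Ax P.n) + Fintype.card (Rw P.n) = 41 * P.n + 4 := by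
    rw [card_Ax, card_Rw]; ring
  have h2 : 2 ≤ Fintype.card (Ax P.n) := by rw [card_Ax]; omega
  rw [← h1]
  constructor
  · intro h
    obtain ⟨Y, ξ, hs⟩ := P.net.sol_of_le_mu h2 h
    exact P.sat_of_sol hP Y ξ hs
  · rintro ⟨v, hv⟩
    have hs := P.sol_of_sat hP v hv
    exact P.net.le_mu_of_sol h2 _ _ hs (P.reg_of_sol hP _ _ hs)

end SLP

end Pool.Agent.Lib.MP_79a9b1_lc
end

section

set_option autoImplicit false

/-!
# Values of the straight-line program give a solution of the system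
-/

namespace Pool.Agent.Lib.MP_79a9b1_lc

namespace BSYS

variable (S : BSYS)

theorem solvOfSat_eA_zero (e r c : ℕ) (hr : r < 6) : S.eA e (3 * r) c = S.fY e r := by
  have h1 : 3 * r / 3 = r := by omega
  have h2 : 3 * r % 3 = 0 := by omega
  have h3 : 3 * r < 18 := by omega
  unfold eA
  rw [if_pos h3, if_pos h2, h1]

theorem solvOfSat_eA_one (e r c : ℕ) (hr : r < 6) : S.eA e (3 * r + 1) c = c + 3 * r := by
  have h2 : (3 * r + 1) % 3 = 1 := by omega
  have h2' : ¬ (3 * r + 1) % 3 = 0 := by omega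
  have h3 : 3 * r + 1 < 18 := by omega
  unfold eA
  rw [if_pos h3, if_neg h2', if_pos h2]
  omega

theorem solvOfSat_eA_two (e r c : ℕ) (hr : r < 6) :
    S.eA e (3 * r + 2) c = if S.ty e = 0 then c + 3 * r else S.fX e r := by
  have h1 : (3 * r + 2) / 3 = r := by omega
  have h2 : ¬ (3 * r + 2) % 3 = 1 := by omega
  have h2' : ¬ (3 * r + 2) % 3 = 0 := by omega
  have h3 : 3 * r + 2 < 18 := by omega
  have h4 : c + (3 * r + 2) - 2 = c + 3 * r := by omega
  unfold eA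
  rw [if_pos h3, if_neg h2', if_neg h2, h1, h4]

/-- The lines with the powers. -/
theorem solvOfSat_pow (v : ℕ → ℝ)
    (h1 : ∀ l, 0 < l → l ≤ 6 * S.M → l % 3 = 0 → v l = v (l - 3) * v (l - 1))
    (h2 : ∀ l, 0 < l → l ≤ 6 * S.M → l % 3 ≠ 0 → v l = 1 - v (l - 1)) (t : ℕ)
    (ht : t ≤ 2 * S.M) : v (3 * t) = v 0 ^ (2 ^ t) := by
  induction t with
  | zero => simp
  | succ t ih =>
    have ih' := ih (by omega)
    have a1 := h2 (3 * t + 1) (by omega) (by omega) (by omega)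
    have a2 := h2 (3 * t + 2) (by omega) (by omega) (by omega)
    have a3 := h1 (3 * (t + 1)) (by omega) (by omega) (by omega)
    have e1 : 3 * t + 1 - 1 = 3 * t := by omega
    have e2 : 3 * t + 2 - 1 = 3 * t + 1 := by omega
    have e3 : 3 * (t + 1) - 3 = 3 * t := by omega
    have e4 : 3 * (t + 1) - 1 = 3 * t + 2 := by omega
    rw [e1] at a1
    rw [e2, a1] at a2
    rw [e3, e4, a2, ih'] at a3
    have e5 : (2 : ℕ) ^ (t + 1) = 2 ^ t + 2 ^ t := by ring
    rw [a3, e5, pow_add]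
    ring

/-- The lines of an equation. -/
theorem solvOfSat_eqn (v : ℕ → ℝ) (e c : ℕ)
    (hv : ∀ o < 28, 0 < v (c + o) ∧ v (c + o) < 1 ∧
      (S.eOp e o = 1 → v (c + o) = 1 - v (S.eA e o c)) ∧
      (S.eOp e o = 2 → v (c + o) = v (S.eA e o c) + v (S.eB o c)) ∧
      (S.eOp e o = 3 → v (c + o) = v (S.eA e o c) * v (S.eB o c))) :
    |((if S.ty e = 0 then v (S.fY e 0) else v (S.fX e 0) * v (S.fY e 0)) +
      (if S.ty e = 0 then v (S.fY e 1) else v (S.fX e 1) * v (S.fY e 1)) +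
      (if S.ty e = 0 then v (S.fY e 2) else v (S.fX e 2) * v (S.fY e 2))) -
      ((if S.ty e = 0 then v (S.fY e 3) else v (S.fX e 3) * v (S.fY e 3)) +
      (if S.ty e = 0 then v (S.fY e 4) else v (S.fX e 4) * v (S.fY e 4)) +
      (if S.ty e = 0 then v (S.fY e 5) else v (S.fX e 5) * v (S.fY e 5)))| < v (6 * S.M) := by
  have hT : ∀ r < 6, v (c + (3 * r + 2)) =
      if S.ty e = 0 then v (S.fY e r) else v (S.fX e r) * v (S.fY e r) := by
    intro r hr
    have a0 := (hv (3 * r) (by omega)).2.2.1 (by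
      unfold eOp; rw [if_pos (by omega), if_pos (by omega)])
    have a1 := (hv (3 * r + 1) (by omega)).2.2.1 (by
      unfold eOp; rw [if_pos (by omega), if_pos (by omega)])
    rw [S.solvOfSat_eA_zero e r c hr] at a0
    rw [S.solvOfSat_eA_one e r c hr, a0] at a1
    by_cases ht : S.ty e = 0
    · have a2 := (hv (3 * r + 2) (by omega)).2.2.1 (by
        unfold eOp; rw [if_pos (by omega), if_neg (by omega), if_pos ht])
      rw [S.solvOfSat_eA_two e r c hr, if_pos ht, a0] at a2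
      rw [a2, if_pos ht]
      ring
    · have a2 := (hv (3 * r + 2) (by omega)).2.2.2.2 (by
        unfold eOp; rw [if_pos (by omega), if_neg (by omega), if_neg ht])
      have a3 : S.eB (3 * r + 2) c = c + (3 * r + 1) := by
        unfold eB; rw [if_pos (by omega)]
        omega
      rw [S.solvOfSat_eA_two e r c hr, if_neg ht, a3, a1] at a2
      rw [a2, if_neg ht]
      ring
  have t0 := hT 0 (by omega)
  have t1 := hT 1 (by omega)
  have t2 := hT 2 (by omega)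
  have t3 := hT 3 (by omega)
  have t4 := hT 4 (by omega)
  have t5 := hT 5 (by omega)
  rw [← t0, ← t1, ← t2, ← t3, ← t4, ← t5]
  have b18 := (hv 18 (by omega)).2.2.2.1 (by simp [eOp])
  have b19 := (hv 19 (by omega)).2.2.2.1 (by simp [eOp])
  have b20 := (hv 20 (by omega)).2.2.2.1 (by simp [eOp])
  have b21 := (hv 21 (by omega)).2.2.2.1 (by simp [eOp])
  have b22 := (hv 22 (by omega)).2.2.2.1 (by simp [eOp])
  have b23 := (hv 23 (by omega)).2.2.1 (by simp [eOp])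
  have b24 := (hv 24 (by omega)).2.2.2.1 (by simp [eOp])
  have b25 := (hv 25 (by omega)).2.2.2.1 (by simp [eOp])
  have b26 := (hv 26 (by omega)).2.2.1 (by simp [eOp])
  have b27 := (hv 27 (by omega)).2.2.2.1 (by simp [eOp])
  have l24 := (hv 24 (by omega)).2.1
  have l27 := (hv 27 (by omega)).2.1
  simp [eA, eB] at b18 b19 b20 b21 b22 b23 b24 b25 b26 b27
  norm_num
  rw [abs_lt]
  constructor <;> linarith

/-- Values of the straight-line program give an approximate solution of the system. -/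
theorem approx_of_sat (hS : S.WF) (h : S.slp.Sat) :
    ∃ (δ : ℝ) (x : ℕ → ℝ), 0 < δ ∧ δ * 2 ^ (2 ^ S.M) < 1 ∧ x 0 = 1 ∧
      (∀ i < S.nv, |x i| ≤ 1 / δ) ∧ ∀ e < S.ne, |S.res x e| < δ ^ (2 ^ S.M - 2) := by
  obtain ⟨v, hv⟩ := h
  have hpos := hS.pos
  have hE0 : S.E0 = 6 * S.M + 2 + 2 * S.nv := rfl
  have hM : 20 ≤ S.M := by unfold M; omega
  have hv' : ∀ l < S.E0 + 28 * S.ne, 0 < v l ∧ v l < 1 ∧ (S.sOp l = 1 → v l = 1 - v (S.sA l)) ∧
    (S.sOp l = 2 → v l = v (S.sA l) + v (S.sB l)) ∧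
    (S.sOp l = 3 → v l = v (S.sA l) * v (S.sB l)) := fun l hl => hv l hl
  have h1 : ∀ l, 0 < l → l ≤ 6 * S.M → l % 3 = 0 → v l = v (l - 3) * v (l - 1) := by
    intro l h0 h1 h2
    have a := (hv' l (by omega)).2.2.2.2 (by
      unfold sOp; rw [if_neg (by omega), if_pos h1, if_pos h2])
    have a1 : S.sA l = l - 3 := by
      unfold sA; rw [if_neg (by omega), if_pos h1, if_pos h2]
    have a2 : S.sB l = l - 1 := by
      unfold sB; rw [if_neg (by omega), if_pos h1, if_pos h2]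
    rwa [a1, a2] at a
  have h2 : ∀ l, 0 < l → l ≤ 6 * S.M → l % 3 ≠ 0 → v l = 1 - v (l - 1) := by
    intro l h0 h1 h2
    have a := (hv' l (by omega)).2.2.1 (by
      unfold sOp; rw [if_neg (by omega), if_pos h1, if_neg h2])
    have a1 : S.sA l = l - 1 := by
      unfold sA; rw [if_neg (by omega), if_pos h1, if_neg h2]
    rwa [a1] at a
  have hpow := S.solvOfSat_pow v h1 h2
  have hc0 : 0 < v 0 := (hv' 0 (by omega)).1
  have hδe : v (3 * S.M) = v 0 ^ (2 ^ S.M) := hpow S.M (by omega)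
  have hδ0 : 0 < v (3 * S.M) := (hv' _ (by omega)).1
  have hδ1 : v (3 * S.M) < 1 := (hv' _ (by omega)).2.1
  have hηe : v (6 * S.M) = v (3 * S.M) ^ (2 ^ S.M) := by
    have h6 : 3 * (2 * S.M) = 6 * S.M := by ring
    have h7 := hpow (2 * S.M) le_rfl
    rw [h6] at h7
    have h8 : (2 : ℕ) ^ (2 * S.M) = 2 ^ S.M * 2 ^ S.M := by rw [two_mul, pow_add]
    rw [h7, hδe, h8, pow_mul]
  have h2c : v 0 + v 0 < 1 := by
    have a1 := h2 1 (by omega) (by omega) (by omega)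
    have a2 := h2 2 (by omega) (by omega) (by omega)
    norm_num at a1 a2
    have a3 := (hv' (6 * S.M + 1) (by omega)).2.2.2.1 (by
      unfold sOp; rw [if_neg (by omega), if_neg (by omega), if_pos rfl])
    have a4 : S.sA (6 * S.M + 1) = 0 := by
      unfold sA; rw [if_neg (by omega), if_neg (by omega), if_pos rfl]
    have a5 : S.sB (6 * S.M + 1) = 2 := by
      unfold sB; rw [if_neg (by omega), if_neg (by omega), if_pos rfl]
    rw [a4, a5] at a3
    have a6 := (hv' (6 * S.M + 1) (by omega)).2.1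
    linarith
  have hp0 : v (S.p 0) = v (S.q 0) + v (3 * S.M) := by
    have a3 := (hv' (6 * S.M + 3) (by omega)).2.2.2.1 (by
      unfold sOp
      rw [if_neg (by omega), if_neg (by omega), if_neg (by omega), if_pos (by omega), if_pos rfl])
    have a4 : S.sA (6 * S.M + 3) = 6 * S.M + 2 := by
      unfold sA
      rw [if_neg (by omega), if_neg (by omega), if_neg (by omega), if_pos (by omega), if_pos rfl]
    have a5 : S.sB (6 * S.M + 3) = 3 * S.M := by
      unfold sB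
      rw [if_neg (by omega), if_neg (by omega), if_neg (by omega), if_pos (by omega), if_pos rfl]
    rw [a4, a5] at a3
    exact a3
  refine ⟨v (3 * S.M), fun i => (v (S.p i) - v (S.q i)) / v (3 * S.M), hδ0, ?_, ?_, ?_, ?_⟩
  · rw [hδe, ← mul_pow]
    exact pow_lt_one₀ (by linarith) (by linarith) (by positivity)
  · show (v (S.p 0) - v (S.q 0)) / v (3 * S.M) = 1
    rw [hp0, add_sub_cancel_left, div_self hδ0.ne']
  · intro i hi
    have a1 := hv' (S.p i) (by unfold p; omega)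
    have a2 := hv' (S.q i) (by unfold q; omega)
    show |(v (S.p i) - v (S.q i)) / v (3 * S.M)| ≤ 1 / v (3 * S.M)
    rw [abs_div, abs_of_pos hδ0]
    refine div_le_div_of_nonneg_right ?_ hδ0.le
    rw [abs_le]
    constructor <;> linarith [a1.1, a1.2.1, a2.1, a2.2.1]
  · intro e he
    have hk := S.solvOfSat_eqn v e (S.E0 + 28 * e) (by
      intro o ho
      have d1 : S.E0 + 28 * e + o - S.E0 = 28 * e + o := by omega
      have d2 : (28 * e + o) / 28 = e := by omega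
      have d3 : (28 * e + o) % 28 = o := by omega
      have d4 : S.E0 + 28 * e + o - o = S.E0 + 28 * e := by omega
      have e1 : S.sOp (S.E0 + 28 * e + o) = S.eOp e o := by
        unfold sOp
        rw [if_neg (by omega), if_neg (by omega), if_neg (by omega), if_neg (by omega), d1, d2, d3]
      have e2 : S.sA (S.E0 + 28 * e + o) = S.eA e o (S.E0 + 28 * e) := by
        unfold sA
        rw [if_neg (by omega), if_neg (by omega), if_neg (by omega), if_neg (by omega), d1, d2, d3,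
          d4]
      have e3 : S.sB (S.E0 + 28 * e + o) = S.eB o (S.E0 + 28 * e) := by
        unfold sB
        rw [if_neg (by omega), if_neg (by omega), if_neg (by omega), if_neg (by omega), d1, d3, d4]
      have := hv' (S.E0 + 28 * e + o) (by omega)
      rwa [e1, e2, e3] at this)
    rw [hηe] at hk
    set δ := v (3 * S.M) with hδ
    have hN : 2 ≤ 2 ^ S.M := by
      calc 2 = 2 ^ 1 := by norm_num
        _ ≤ 2 ^ S.M := Nat.pow_le_pow_right (by norm_num) (by omega)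
    obtain ⟨N, hN'⟩ : ∃ N, 2 ^ S.M = N + 2 := ⟨2 ^ S.M - 2, by omega⟩
    rw [hN', Nat.add_sub_cancel]
    rw [hN'] at hk
    unfold res
    by_cases ht : S.ty e = 0
    · rw [if_pos ht]
      simp only [ht, if_true, fY] at hk
      norm_num at hk
      have h5 : (v (S.p (S.i e)) - v (S.q (S.i e))) / δ + (v (S.p (S.j e)) - v (S.q (S.j e))) / δ -
          (v (S.p (S.k e)) - v (S.q (S.k e))) / δ = (v (S.p (S.i e)) + v (S.p (S.j e)) +
          v (S.q (S.k e)) - (v (S.q (S.i e)) + v (S.q (S.j e)) + v (S.p (S.k e)))) / δ := by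
        ring
      rw [h5, abs_div, abs_of_pos hδ0, div_lt_iff₀ hδ0]
      refine lt_of_lt_of_le hk ?_
      rw [show N + 2 = N + 1 + 1 from rfl, pow_succ, pow_succ]
      exact mul_le_of_le_one_right (mul_pos (pow_pos hδ0 N) hδ0).le hδ1.le
    · rw [if_neg ht]
      simp only [ht, if_false, fY, fX] at hk
      norm_num at hk
      have h5 : (v (S.p (S.i e)) - v (S.q (S.i e))) / δ *
          ((v (S.p (S.j e)) - v (S.q (S.j e))) / δ) -
          (v (S.p (S.k e)) - v (S.q (S.k e))) / δ = (v (S.p (S.i e)) * v (S.p (S.j e)) +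
          v (S.q (S.i e)) * v (S.q (S.j e)) + δ * v (S.q (S.k e)) -
          (v (S.p (S.i e)) * v (S.q (S.j e)) + v (S.q (S.i e)) * v (S.p (S.j e)) +
            δ * v (S.p (S.k e)))) / δ ^ 2 := by
        field_simp
        ring
      rw [h5, abs_div, abs_of_pos (pow_pos hδ0 2), div_lt_iff₀ (pow_pos hδ0 2), ← pow_add]
      exact hk

theorem solv_of_sat (hS : S.WF) (h : S.slp.Sat) : S.Solv := by
  by_contra hn
  obtain ⟨δ, x, h1, h2, h3, h4, h5⟩ := S.approx_of_sat hS h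
  obtain ⟨e, he, h6⟩ := S.loj hS hn δ h1 h2 x h3 h4
  exact absurd (h5 e he) (not_lt.2 h6)

end BSYS

end Pool.Agent.Lib.MP_79a9b1_lc
end
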