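import Mathlib
import Pool.Agent.Lib.MP_79a9b1_lc.Bsys

section

set_option autoImplicit false

/-!
# The sum of the absolute values of the coefficients of an integer polynomial
-/

namespace Pool.Agent.Lib.MP_79a9b1_lc

open MvPolynomial

/-- The sum of the absolute values of the coefficients. -/
noncomputable def l1 {σ : Type} (p : MvPolynomial σ ℤ) : ℝ := ∑ m ∈ p.support, |((p.coeff m : ℤ) : ℝ)|

variable {σ : Type}

theorem l1_nonneg (p : MvPolynomial σ ℤ) : 0 ≤ l1 p :=
  Finset.sum_nonneg fun _ _ => abs_nonneg _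

theorem l1_of_subset (p : MvPolynomial σ ℤ) (s : Finset (σ →₀ ℕ)) (hs : p.support ⊆ s) :
    l1 p = ∑ m ∈ s, |((p.coeff m : ℤ) : ℝ)| := by
  refine Finset.sum_subset hs fun m _ hm => ?_
  rw [notMem_support_iff.mp hm]
  simp

theorem l1_zero : l1 (0 : MvPolynomial σ ℤ) = 0 := by
  simp [l1]

theorem l1_monomial (m : σ →₀ ℕ) (c : ℤ) : l1 (monomial m c : MvPolynomial σ ℤ) = |(c : ℝ)| := by
  classical
  rw [l1_of_subset _ {m} support_monomial_subset, Finset.sum_singleton, coeff_monomial,
    if_pos rfl]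

theorem l1_C (c : ℤ) : l1 (C c : MvPolynomial σ ℤ) = |(c : ℝ)| :=
  l1_monomial 0 c

theorem l1_one : l1 (1 : MvPolynomial σ ℤ) = 1 := by
  have h := l1_C (σ := σ) 1
  rw [C_1] at h
  rw [h]
  simp

theorem l1_X (i : σ) : l1 (X i : MvPolynomial σ ℤ) = 1 := by
  have h := l1_monomial (Finsupp.single i 1) 1
  rw [← X] at h
  rw [h]
  simp

theorem l1_neg (p : MvPolynomial σ ℤ) : l1 (-p) = l1 p := by
  unfold l1
  rw [support_neg]
  refine Finset.sum_congr rfl fun m _ => ?_
  rw [coeff_neg, Int.cast_neg, abs_neg]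

theorem l1_add_le (p q : MvPolynomial σ ℤ) : l1 (p + q) ≤ l1 p + l1 q := by
  classical
  rw [l1_of_subset (p + q) (p.support ∪ q.support) support_add,
    l1_of_subset p (p.support ∪ q.support) Finset.subset_union_left,
    l1_of_subset q (p.support ∪ q.support) Finset.subset_union_right, ← Finset.sum_add_distrib]
  refine Finset.sum_le_sum fun m _ => ?_
  rw [coeff_add, Int.cast_add]
  exact abs_add_le _ _

theorem l1_sub_le (p q : MvPolynomial σ ℤ) : l1 (p - q) ≤ l1 p + l1 q := by
  rw [sub_eq_add_neg]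
  exact (l1_add_le p (-q)).trans (by rw [l1_neg])

theorem l1_sum_le {ι : Type} (s : Finset ι) (f : ι → MvPolynomial σ ℤ) :
    l1 (∑ i ∈ s, f i) ≤ ∑ i ∈ s, l1 (f i) := by
  classical
  induction s using Finset.induction_on with
  | empty => simp [l1_zero]
  | insert a s ha ih =>
    rw [Finset.sum_insert ha, Finset.sum_insert ha]
    exact (l1_add_le _ _).trans (by linarith)

theorem l1_mul_le (p q : MvPolynomial σ ℤ) : l1 (p * q) ≤ l1 p * l1 q := by
  classical
  have h : p * q = ∑ m ∈ p.support, ∑ k ∈ q.support,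
      monomial (m + k) (p.coeff m * q.coeff k) := by
    conv_lhs => rw [p.as_sum, q.as_sum]
    rw [Finset.sum_mul_sum]
    refine Finset.sum_congr rfl fun m _ => Finset.sum_congr rfl fun k _ => ?_
    rw [monomial_mul]
  rw [h]
  refine (l1_sum_le _ _).trans ?_
  have h2 : l1 p * l1 q = ∑ m ∈ p.support, ∑ k ∈ q.support,
      |((p.coeff m : ℤ) : ℝ)| * |((q.coeff k : ℤ) : ℝ)| := by
    rw [l1, l1, Finset.sum_mul_sum]
  rw [h2]
  refine Finset.sum_le_sum fun m _ => (l1_sum_le _ _).trans (Finset.sum_le_sum fun k _ => ?_)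
  rw [l1_monomial, Int.cast_mul, abs_mul]

theorem l1_pow_le (p : MvPolynomial σ ℤ) (k : ℕ) : l1 (p ^ k) ≤ l1 p ^ k := by
  induction k with
  | zero => simp [l1_one]
  | succ k ih =>
    rw [pow_succ, pow_succ]
    exact (l1_mul_le _ _).trans (mul_le_mul_of_nonneg_right ih (l1_nonneg _))

theorem l1_prod_le {ι : Type} (s : Finset ι) (f : ι → MvPolynomial σ ℤ) :
    l1 (∏ i ∈ s, f i) ≤ ∏ i ∈ s, l1 (f i) := by
  classical
  induction s using Finset.induction_on with
  | empty => simp [l1_one]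
  | insert a s ha ih =>
    rw [Finset.prod_insert ha, Finset.prod_insert ha]
    exact (l1_mul_le _ _).trans (mul_le_mul_of_nonneg_left ih (l1_nonneg _))

theorem one_le_l1 {p : MvPolynomial σ ℤ} (hp : p ≠ 0) : 1 ≤ l1 p := by
  obtain ⟨m, hm⟩ := ne_zero_iff.mp hp
  have h1 : (1 : ℝ) ≤ |((p.coeff m : ℤ) : ℝ)| := by
    have h2 : 1 ≤ |p.coeff m| := Int.one_le_abs hm
    exact_mod_cast h2
  exact h1.trans (Finset.single_le_sum (f := fun m => |((p.coeff m : ℤ) : ℝ)|)
    (fun _ _ => abs_nonneg _) (mem_support_iff.mpr hm))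

end Pool.Agent.Lib.MP_79a9b1_lc
end

section

set_option autoImplicit false

/-!
# Determinants, derivatives and values
-/

namespace Pool.Agent.Lib.MP_79a9b1_lc

open MvPolynomial

variable {σ : Type}

theorem l1_det_le {ι : Type} [Fintype ι] [DecidableEq ι] (B : Matrix ι ι (MvPolynomial σ ℤ)) :
    l1 B.det ≤ ∏ i, ∑ j, l1 (B i j) := by
  classical
  rw [← Matrix.det_transpose, Matrix.det_apply]
  refine (l1_sum_le _ _).trans ?_
  have h1 : ∀ τ : Equiv.Perm ι,
      l1 (Equiv.Perm.sign τ • ∏ i, B.transpose (τ i) i) ≤ ∏ i, l1 (B i (τ i)) := by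
    intro τ
    have h2 : l1 (Equiv.Perm.sign τ • ∏ i, B.transpose (τ i) i) =
        l1 (∏ i, B.transpose (τ i) i) := by
      rcases Int.units_eq_one_or (Equiv.Perm.sign τ) with h | h
      · rw [h, one_smul]
      · rw [h, Units.neg_smul, one_smul, l1_neg]
    rw [h2]
    exact l1_prod_le _ _
  refine (Finset.sum_le_sum fun τ _ => h1 τ).trans ?_
  rw [Finset.prod_univ_sum, Fintype.piFinset_univ]
  have h3 : ∑ τ : Equiv.Perm ι, ∏ i, l1 (B i (τ i)) =
      ∑ f ∈ Finset.univ.image (fun τ : Equiv.Perm ι => (τ : ι → ι)), ∏ i, l1 (B i (f i)) := by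
    rw [Finset.sum_image]
    intro τ _ τ' _ h
    exact Equiv.coe_fn_injective h
  rw [h3]
  exact Finset.sum_le_sum_of_subset_of_nonneg (Finset.subset_univ _)
    fun f _ _ => Finset.prod_nonneg fun i _ => l1_nonneg _

theorem l1_pderiv_le (p : MvPolynomial σ ℤ) (i : σ) :
    l1 (pderiv i p) ≤ p.totalDegree * l1 p := by
  classical
  have h1 : pderiv i p = ∑ m ∈ p.support, pderiv i (monomial m (p.coeff m)) := by
    conv_lhs => rw [p.as_sum]
    rw [map_sum]
  rw [h1]
  refine (l1_sum_le _ _).trans ?_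
  unfold l1
  rw [Finset.mul_sum]
  refine Finset.sum_le_sum fun m hm => ?_
  show l1 (pderiv i (monomial m (p.coeff m))) ≤ _
  rw [pderiv_monomial, l1_monomial, Int.cast_mul, abs_mul, mul_comm]
  refine mul_le_mul_of_nonneg_right ?_ (abs_nonneg _)
  have h2 : m i ≤ p.totalDegree := by
    refine le_trans ?_ (le_totalDegree hm)
    by_cases hi : i ∈ m.support
    · exact Finset.single_le_sum (f := fun j => m j) (fun j _ => Nat.zero_le _) hi
    · rw [Finsupp.notMem_support_iff.mp hi]
      exact Nat.zero_le _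
  simp only [Int.cast_natCast, Nat.abs_cast]
  exact_mod_cast h2

/-- A monomial expansion of the value of a polynomial. -/
theorem abs_aeval_le (p : MvPolynomial σ ℤ) (x : σ → ℝ) (B : ℝ) (hB : 1 ≤ B)
    (hx : ∀ i, |x i| ≤ B) : |aeval x p| ≤ l1 p * B ^ p.totalDegree := by
  classical
  rw [aeval_def, eval₂_eq, l1, Finset.sum_mul]
  refine (Finset.abs_sum_le_sum_abs _ _).trans (Finset.sum_le_sum fun m hm => ?_)
  rw [abs_mul]
  have h1 : |∏ i ∈ m.support, x i ^ m i| ≤ B ^ p.totalDegree := by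
    rw [Finset.abs_prod]
    calc ∏ i ∈ m.support, |x i ^ m i| ≤ ∏ i ∈ m.support, B ^ m i := by
          refine Finset.prod_le_prod (fun i _ => abs_nonneg _) fun i _ => ?_
          rw [abs_pow]
          exact pow_le_pow_left₀ (abs_nonneg _) (hx i) _
      _ = B ^ (∑ i ∈ m.support, m i) := by rw [Finset.prod_pow_eq_pow_sum]
      _ ≤ B ^ p.totalDegree := pow_le_pow_right₀ hB (le_totalDegree hm)
  exact mul_le_mul_of_nonneg_left h1 (abs_nonneg _)

end Pool.Agent.Lib.MP_79a9b1_lc
end

section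

set_option autoImplicit false

/-!
# Existence of a minimum
-/

namespace Pool.Agent.Lib.MP_79a9b1_lc

open MvPolynomial

/-- A polynomial which dominates the square of the distance to a sphere attains its minimum. -/
theorem exists_min {n : ℕ} (P : MvPolynomial (Fin n) ℤ) (c : ℝ)
    (h : ∀ z : Fin n → ℝ, (∑ i, z i ^ 2 - c) ^ 2 ≤ aeval z P) :
    ∃ z₀ : Fin n → ℝ, ∀ z : Fin n → ℝ, aeval z₀ P ≤ aeval z P := by
  have hc : Continuous fun z : Fin n → ℝ => aeval z P := by
    have h1 : (fun z : Fin n → ℝ => aeval z P) = fun z => eval z (map (Int.castRingHom ℝ) P) := by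
      funext z
      rw [eval_map, aeval_def]
      rfl
    rw [h1]
    exact MvPolynomial.continuous_eval _
  set f0 : ℝ := aeval (0 : Fin n → ℝ) P with hf0
  set K : Set (Fin n → ℝ) := {z | (∑ i, z i ^ 2 - c) ^ 2 ≤ f0} with hK
  have hcl : IsClosed K := by
    apply isClosed_le
    · fun_prop
    · fun_prop
  have hbd : K ⊆ Metric.closedBall 0 (|c| + |f0| + 2) := by
    intro z hz
    have hz' : (∑ i, z i ^ 2 - c) ^ 2 ≤ f0 := hz
    have h1 : ∑ i, z i ^ 2 ≤ |c| + |f0| + 1 := by
      have h2 := le_abs_self c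
      have h3 := le_abs_self f0
      nlinarith [sq_nonneg (∑ i, z i ^ 2 - c - 1)]
    rw [mem_closedBall_zero_iff, pi_norm_le_iff_of_nonneg (by positivity)]
    intro i
    have h4 : z i ^ 2 ≤ ∑ i, z i ^ 2 :=
      Finset.single_le_sum (f := fun i => z i ^ 2) (fun i _ => sq_nonneg _) (Finset.mem_univ i)
    rw [Real.norm_eq_abs, abs_le]
    constructor <;> nlinarith [sq_nonneg (z i - 1), sq_nonneg (z i + 1)]
  have hcomp : IsCompact K := Metric.isCompact_of_isClosed_isBounded hcl
    (Metric.isBounded_closedBall.subset hbd)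
  have h0 : (0 : Fin n → ℝ) ∈ K := h 0
  obtain ⟨z₀, hz₀, hmin⟩ := hcomp.exists_isMinOn ⟨0, h0⟩ hc.continuousOn
  refine ⟨z₀, fun z => ?_⟩
  by_cases hz : z ∈ K
  · exact hmin hz
  · have h1 : f0 < (∑ i, z i ^ 2 - c) ^ 2 := not_le.mp hz
    have h2 : aeval z₀ P ≤ f0 := hmin h0
    linarith [h z]

end Pool.Agent.Lib.MP_79a9b1_lc
end

section

set_option autoImplicit false

/-!
# Critical points of a perturbed polynomial
-/

namespace Pool.Agent.Lib.MP_79a9b1_lc

open MvPolynomial

theorem crit_hasDerivAt {n : ℕ} (x : Fin n → ℝ) (i : Fin n) (P : MvPolynomial (Fin n) ℤ) :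
    HasDerivAt (fun s => aeval (Function.update x i s) P) (aeval x (pderiv i P)) (x i) := by
  classical
  have hup : Function.update x i (x i) = x := Function.update_eq_self i x
  induction P using MvPolynomial.induction_on with
  | C a =>
    simp only [pderiv_C, map_zero, aeval_C]
    exact hasDerivAt_const _ _
  | add p q hp hq =>
    simp only [map_add]
    exact hp.add hq
  | mul_X p j hp =>
    have hX : HasDerivAt (fun s => aeval (Function.update x i s) (X j : MvPolynomial (Fin n) ℤ))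
        (aeval x (pderiv i (X j : MvPolynomial (Fin n) ℤ))) (x i) := by
      simp only [aeval_X]
      by_cases hij : j = i
      · subst hij
        simp only [pderiv_X_self, map_one, Function.update_self]
        exact hasDerivAt_id _
      · rw [pderiv_X_of_ne hij, map_zero]
        simp only [Function.update_of_ne hij]
        exact hasDerivAt_const _ _
    have h := hp.mul hX
    simp only [pderiv_mul, map_add, map_mul]
    rw [hup] at h
    exact h

theorem exists_crit {n : ℕ} (P : MvPolynomial (Fin n) ℤ) (hdeg : P.totalDegree ≤ 4) (m : ℝ)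
    (hmin : ∀ x : Fin n → ℝ, m ≤ aeval x P) (x₀ : Fin n → ℝ) (h0 : aeval x₀ P = m) (u : ℝ)
    (hu : 0 < u) :
    ∃ x : Fin n → ℝ, (∀ i, x i ^ 5 = -u * aeval x (pderiv i P)) ∧
      6 * m ≤ 6 * aeval x P - ∑ i, x i * aeval x (pderiv i P) ∧
      6 * aeval x P - ∑ i, x i * aeval x (pderiv i P) ≤ 6 * m + (∑ i, x₀ i ^ 6) / u := by
  classical
  let F : (Fin n → ℝ) → ℝ := fun x => aeval x P + (∑ i, x i ^ 6) / (6 * u)
  have hFc : Continuous F := by
    have h1 : Continuous fun x : Fin n → ℝ => aeval x P := by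
      simp only [aeval_def, eval₂_eq']
      fun_prop
    exact h1.add ((continuous_finsetSum _ fun i _ => (continuous_apply i).pow 6).div_const _)
  have hev : ∀ᶠ x in Filter.cocompact (Fin n → ℝ), F x₀ ≤ F x := by
    rw [← Metric.cobounded_eq_cocompact, ← comap_norm_atTop]
    have h1 : ∀ᶠ r : ℝ in Filter.atTop, 1 ≤ r ∧ ∑ i, x₀ i ^ 6 ≤ r :=
      (Filter.eventually_ge_atTop 1).and (Filter.eventually_ge_atTop _)
    refine (Filter.tendsto_comap.eventually h1).mono fun x hx => ?_
    obtain ⟨hx1, hx2⟩ := hx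
    have h2 : ‖x‖ ^ 6 ≤ ∑ i, x i ^ 6 := by
      have hpos : (0 : ℝ) < ‖x‖ := by linarith
      obtain ⟨i, hi⟩ : ∃ i, ‖x‖ ≤ ‖x i‖ := by
        by_contra hne
        push Not at hne
        exact lt_irrefl _ ((pi_norm_lt_iff hpos).mpr hne)
      refine (pow_le_pow_left₀ hpos.le hi 6).trans ?_
      have h3 : ‖x i‖ ^ 6 = x i ^ 6 := by
        rw [Real.norm_eq_abs]
        exact Even.pow_abs (by decide) _
      rw [h3]
      exact Finset.single_le_sum (f := fun i => x i ^ 6)
        (fun j _ => Even.pow_nonneg (by decide) _) (Finset.mem_univ i)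
    have h4 : ‖x‖ ≤ ‖x‖ ^ 6 := le_self_pow₀ hx1 (by norm_num)
    show aeval x₀ P + (∑ i, x₀ i ^ 6) / (6 * u) ≤ aeval x P + (∑ i, x i ^ 6) / (6 * u)
    have h5 := hmin x
    rw [h0]
    have h6 : (∑ i, x₀ i ^ 6) / (6 * u) ≤ (∑ i, x i ^ 6) / (6 * u) :=
      div_le_div_of_nonneg_right (by linarith) (by positivity)
    linarith
  obtain ⟨x, hx⟩ := hFc.exists_forall_le' x₀ hev
  have hcrit : ∀ i, x i ^ 5 = -u * aeval x (pderiv i P) := by
    intro i
    have hd1 := crit_hasDerivAt x i P
    have hd2 : HasDerivAt (fun s => (∑ j, (Function.update x i s) j ^ 6) / (6 * u))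
        ((6 * x i ^ 5) / (6 * u)) (x i) := by
      have h1 : (fun s => (∑ j, (Function.update x i s) j ^ 6) / (6 * u)) =
          fun s : ℝ => (s ^ 6 + ∑ j ∈ Finset.univ.erase i, x j ^ 6) / (6 * u) := by
        funext s
        rw [← Finset.add_sum_erase _ _ (Finset.mem_univ i), Function.update_self]
        congr 2
        exact Finset.sum_congr rfl fun j hj => by
          rw [Function.update_of_ne (Finset.ne_of_mem_erase hj)]
      rw [h1]
      have h2 := ((hasDerivAt_pow 6 (x i)).add_const (∑ j ∈ Finset.univ.erase i, x j ^ 6)).div_const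
        (6 * u)
      simpa using h2
    have hd := hd1.add hd2
    have hloc : IsLocalMin ((fun s => aeval (Function.update x i s) P) +
        fun s => (∑ j, (Function.update x i s) j ^ 6) / (6 * u)) (x i) := by
      refine Filter.Eventually.of_forall fun s => ?_
      have h1 := hx (Function.update x i s)
      simp only [Pi.add_apply, Function.update_eq_self]
      exact h1
    have h0' := hloc.hasDerivAt_eq_zero hd
    field_simp at h0'
    linarith
  have hF : 6 * aeval x P - ∑ i, x i * aeval x (pderiv i P) = 6 * F x := by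
    have h1 : ∀ i, x i * aeval x (pderiv i P) = -(x i ^ 6 / u) := by
      intro i
      have h2 := hcrit i
      have h3 : x i ^ 6 = x i * x i ^ 5 := by ring
      rw [h3, h2]
      field_simp
    have h4 : ∑ i, x i * aeval x (pderiv i P) = -((∑ i, x i ^ 6) / u) := by
      rw [Finset.sum_congr rfl fun i _ => h1 i, Finset.sum_neg_distrib, Finset.sum_div]
    rw [h4]
    show _ = 6 * (aeval x P + (∑ i, x i ^ 6) / (6 * u))
    field_simp
    ring
  refine ⟨x, hcrit, ?_, ?_⟩
  · rw [hF]
    have h1 : m ≤ F x := by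
      have h2 := hmin x
      have h3 : 0 ≤ (∑ i, x i ^ 6) / (6 * u) :=
        div_nonneg (Finset.sum_nonneg fun j _ => Even.pow_nonneg (by decide) _) (by positivity)
      show m ≤ aeval x P + (∑ i, x i ^ 6) / (6 * u)
      linarith
    linarith
  · rw [hF]
    have h1 := hx x₀
    have h2 : 6 * F x₀ = 6 * m + (∑ i, x₀ i ^ 6) / u := by
      show 6 * (aeval x₀ P + (∑ i, x₀ i ^ 6) / (6 * u)) = _
      rw [h0]
      field_simp
    linarith

end Pool.Agent.Lib.MP_79a9b1_lc
end

section

set_option autoImplicit false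

/-!
# Reduction of monomials modulo the critical equations
-/

namespace Pool.Agent.Lib.MP_79a9b1_lc

open MvPolynomial

theorem reduce_supp {n : ℕ} (P : MvPolynomial (Fin n) ℤ) (hdeg : P.totalDegree ≤ 4) (i : Fin n)
    (g : Fin n →₀ ℕ) (hg : g ∈ (pderiv i P).support) : ∑ j, g j ≤ 4 := by
  rw [mem_support_iff, coeff_pderiv] at hg
  have h1 : coeff (g + Finsupp.single i 1) P ≠ 0 := left_ne_zero_of_mul hg
  have h2 := le_totalDegree (mem_support_iff.mpr h1)
  rw [Finsupp.sum_fintype _ _ (fun _ => rfl)] at h2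
  have h3 : ∑ j, g j ≤ ∑ j, ((g + Finsupp.single i 1 : Fin n →₀ ℕ) : Fin n → ℕ) j :=
    Finset.sum_le_sum fun j _ => by simp
  omega

/-- Every monomial is, on the solutions of the critical equations, a combination of monomials
with exponents less than `5`. -/
theorem reduce {n : ℕ} (P : MvPolynomial (Fin n) ℤ) (L : ℝ) (hL1 : 1 ≤ L)
    (hdeg : P.totalDegree ≤ 4) (hL : l1 P ≤ L) (α : Fin n → ℕ) :
    ∃ R : (Fin n → Fin 5) → MvPolynomial (Fin 2) ℤ,
      ∑ β, l1 (R β) ≤ (4 * L) ^ (∑ i, α i) ∧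
      ∀ (x : Fin n → ℝ) (t u : ℝ), (∀ i, x i ^ 5 = -u * aeval x (pderiv i P)) →
        ∏ i, x i ^ α i = ∑ β, aeval ![t, u] (R β) * ∏ i, x i ^ (β i : ℕ) := by
  classical
  have h4L : (1 : ℝ) ≤ 4 * L := by linarith
  induction hs : ∑ i, α i using Nat.strong_induction_on generalizing α with
  | _ s ih =>
  subst hs
  by_cases hα : ∀ i, α i < 5
  · refine ⟨fun β => if β = (fun i => ⟨α i, hα i⟩) then 1 else 0, ?_, ?_⟩
    · rw [Finset.sum_eq_single (fun i => ⟨α i, hα i⟩)]
      · simp only [if_true]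
        rw [l1_one]
        exact one_le_pow₀ h4L
      · intro β _ hβ
        simp only [if_neg hβ]
        rw [l1_zero]
      · intro h
        exact absurd (Finset.mem_univ _) h
    · intro x t u _
      rw [Finset.sum_eq_single (fun i => ⟨α i, hα i⟩)]
      · simp only [if_true]
        rw [map_one, one_mul]
      · intro β _ hβ
        simp only [if_neg hβ]
        rw [map_zero, zero_mul]
      · intro h
        exact absurd (Finset.mem_univ _) h
  · push Not at hα
    obtain ⟨i, hi⟩ := hα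
    set Q := pderiv i P with hQ
    -- the exponents
    let γ : (Fin n →₀ ℕ) → Fin n → ℕ := fun g j => g j + (if j = i then α j - 5 else α j)
    have hsumα : ∑ j, (if j = i then α j - 5 else α j) + 5 = ∑ j, α j := by
      rw [← Finset.add_sum_erase _ _ (Finset.mem_univ i),
        ← Finset.add_sum_erase (Finset.univ) α (Finset.mem_univ i)]
      have : ∑ x ∈ Finset.univ.erase i, (if x = i then α x - 5 else α x)
          = ∑ x ∈ Finset.univ.erase i, α x :=
        Finset.sum_congr rfl fun j hj => by rw [if_neg (Finset.ne_of_mem_erase hj)]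
      rw [this, if_pos rfl]
      omega
    have hγ : ∀ g ∈ Q.support, ∑ j, γ g j + 1 ≤ ∑ j, α j := by
      intro g hg
      have h1 := reduce_supp P hdeg i g hg
      have h2 : ∑ j, γ g j = ∑ j, g j + ∑ j, (if j = i then α j - 5 else α j) :=
        Finset.sum_add_distrib
      omega
    have hR : ∀ g : Fin n →₀ ℕ, ∃ R : (Fin n → Fin 5) → MvPolynomial (Fin 2) ℤ, g ∈ Q.support →
        (∑ β, l1 (R β) ≤ (4 * L) ^ (∑ j, γ g j) ∧
        ∀ (x : Fin n → ℝ) (t u : ℝ), (∀ i, x i ^ 5 = -u * aeval x (pderiv i P)) →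
        ∏ i, x i ^ γ g i = ∑ β, aeval ![t, u] (R β) * ∏ i, x i ^ (β i : ℕ)) := by
      intro g
      by_cases hg : g ∈ Q.support
      · obtain ⟨R, hR1, hR2⟩ := ih (∑ j, γ g j) (by have := hγ g hg; omega) (γ g) rfl
        exact ⟨R, fun _ => ⟨hR1, hR2⟩⟩
      · exact ⟨0, fun h => absurd h hg⟩
    choose R hR using hR
    refine ⟨fun β => ∑ g ∈ Q.support, (-X 1 * C (Q.coeff g)) * R g β, ?_, ?_⟩
    · have hK : 1 ≤ ∑ j, α j := le_trans (by omega) (Finset.single_le_sum
        (fun j _ => Nat.zero_le (α j)) (Finset.mem_univ i))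
      have h1 : ∀ β, l1 (∑ g ∈ Q.support, (-X 1 * C (Q.coeff g)) * R g β :
          MvPolynomial (Fin 2) ℤ) ≤
          ∑ g ∈ Q.support, |((Q.coeff g : ℤ) : ℝ)| * l1 (R g β) := by
        intro β
        refine (l1_sum_le _ _).trans (Finset.sum_le_sum fun g _ => ?_)
        refine (l1_mul_le _ _).trans (mul_le_mul_of_nonneg_right ?_ (l1_nonneg _))
        refine (l1_mul_le _ _).trans (le_of_eq ?_)
        rw [l1_neg, l1_X, l1_C, one_mul]
      calc ∑ β, l1 (∑ g ∈ Q.support, (-X 1 * C (Q.coeff g)) * R g β :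
            MvPolynomial (Fin 2) ℤ)
          ≤ ∑ β, ∑ g ∈ Q.support, |((Q.coeff g : ℤ) : ℝ)| * l1 (R g β) :=
            Finset.sum_le_sum fun β _ => h1 β
        _ = ∑ g ∈ Q.support, |((Q.coeff g : ℤ) : ℝ)| * ∑ β, l1 (R g β) := by
            rw [Finset.sum_comm]
            exact Finset.sum_congr rfl fun g _ => by rw [Finset.mul_sum]
        _ ≤ ∑ g ∈ Q.support, |((Q.coeff g : ℤ) : ℝ)| * (4 * L) ^ (∑ j, α j - 1) := by
            refine Finset.sum_le_sum fun g hg => mul_le_mul_of_nonneg_left ?_ (abs_nonneg _)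
            refine ((hR g hg).1).trans (pow_le_pow_right₀ h4L ?_)
            have := hγ g hg
            omega
        _ = l1 Q * (4 * L) ^ (∑ j, α j - 1) := by
            rw [← Finset.sum_mul, l1]
        _ ≤ (4 * L) * (4 * L) ^ (∑ j, α j - 1) := by
            refine mul_le_mul_of_nonneg_right ?_ (by positivity)
            refine (l1_pderiv_le P i).trans ?_
            have h3 : (P.totalDegree : ℝ) ≤ 4 := by exact_mod_cast hdeg
            exact mul_le_mul h3 hL (l1_nonneg _) (by norm_num)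
        _ = (4 * L) ^ (∑ j, α j) := by
            rw [← pow_succ']
            congr 1
            omega
    · intro x t u hx
      have e1 : ∏ j, x j ^ α j = (∏ j, x j ^ (if j = i then α j - 5 else α j)) * x i ^ 5 := by
        rw [← Finset.mul_prod_erase Finset.univ (fun j => x j ^ α j) (Finset.mem_univ i),
          ← Finset.mul_prod_erase Finset.univ
            (fun j => x j ^ (if j = i then α j - 5 else α j)) (Finset.mem_univ i)]
        have : ∏ j ∈ Finset.univ.erase i, x j ^ (if j = i then α j - 5 else α j)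
            = ∏ j ∈ Finset.univ.erase i, x j ^ α j :=
          Finset.prod_congr rfl fun j hj => by rw [if_neg (Finset.ne_of_mem_erase hj)]
        rw [this, if_pos rfl]
        have h5 : x i ^ α i = x i ^ (α i - 5) * x i ^ 5 := by
          rw [← pow_add]; congr 1; omega
        rw [h5]; ring
      have e2 : aeval x Q = ∑ g ∈ Q.support, ((Q.coeff g : ℤ) : ℝ) * ∏ j, x j ^ g j := by
        rw [aeval_def, eval₂_eq']
        rfl
      have e3 : ∀ g ∈ Q.support, ((Q.coeff g : ℤ) : ℝ) * (∏ j, x j ^ g j) *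
          (∏ j, x j ^ (if j = i then α j - 5 else α j)) =
          ((Q.coeff g : ℤ) : ℝ) * ∑ β, aeval ![t, u] (R g β) * ∏ i, x i ^ (β i : ℕ) := by
        intro g hg
        rw [← (hR g hg).2 x t u hx, mul_assoc, ← Finset.prod_mul_distrib]
        congr 1
        exact Finset.prod_congr rfl fun j _ => by rw [← pow_add]
      rw [e1, hx i, ← hQ, e2]
      calc (∏ j, x j ^ (if j = i then α j - 5 else α j)) *
            (-u * ∑ g ∈ Q.support, ((Q.coeff g : ℤ) : ℝ) * ∏ j, x j ^ g j)
          = -u * ∑ g ∈ Q.support, ((Q.coeff g : ℤ) : ℝ) * (∏ j, x j ^ g j) *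
            (∏ j, x j ^ (if j = i then α j - 5 else α j)) := by
            rw [← Finset.sum_mul]; ring
        _ = -u * ∑ g ∈ Q.support, ((Q.coeff g : ℤ) : ℝ) *
            ∑ β, aeval ![t, u] (R g β) * ∏ i, x i ^ (β i : ℕ) := by
            rw [Finset.sum_congr rfl e3]
        _ = ∑ β, aeval ![t, u] (∑ g ∈ Q.support, (-X 1 * C (Q.coeff g)) * R g β) *
            ∏ i, x i ^ (β i : ℕ) := by
            simp only [map_sum, map_mul, map_neg, aeval_X, aeval_C, Finset.mul_sum,
              Finset.sum_mul]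
            rw [Finset.sum_comm]
            refine Finset.sum_congr rfl fun β _ => Finset.sum_congr rfl fun g _ => ?_
            simp
            ring

end Pool.Agent.Lib.MP_79a9b1_lc
end

section

set_option autoImplicit false

/-!
# A lower bound of a limit of roots
-/

namespace Pool.Agent.Lib.MP_79a9b1_lc

open MvPolynomial Filter

private theorem rootbound_aeval (D : MvPolynomial (Fin 2) ℤ) (a b : ℝ) :
    aeval ![a, b] D = ∑ m ∈ D.support, ((D.coeff m : ℤ) : ℝ) * (a ^ (m 0) * b ^ (m 1)) := by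
  rw [aeval_def, eval₂_eq']
  refine Finset.sum_congr rfl fun m _ => ?_
  simp [Fin.prod_univ_two]

private theorem rootbound_tendsto (u : ℕ → ℝ) (hu : Tendsto u atTop atTop) (a b : ℕ) (hab : a ≤ b) :
    Tendsto (fun i => u i ^ a / u i ^ b) atTop (nhds (if a = b then 1 else 0)) := by
  split_ifs with h
  · subst h
    refine Tendsto.congr' ?_ tendsto_const_nhds
    filter_upwards [hu.eventually_gt_atTop 0] with i hi
    rw [div_self (pow_pos hi _).ne']
  · have hlt : a < b := lt_of_le_of_ne hab h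
    have h1 : Tendsto (fun i => (u i ^ (b - a))⁻¹) atTop (nhds 0) :=
      (((tendsto_pow_atTop (by omega)).comp hu)).inv_tendsto_atTop
    refine h1.congr' ?_
    filter_upwards [hu.eventually_gt_atTop 0] with i hi
    rw [pow_sub₀ _ hi.ne' hab]
    field_simp

theorem root_bound (D : MvPolynomial (Fin 2) ℤ) (hD : D ≠ 0) (t u : ℕ → ℝ) (t₀ : ℝ)
    (ht : Tendsto t atTop (nhds t₀)) (hu : Tendsto u atTop atTop) (h0 : 0 < t₀)
    (hz : ∀ i, aeval ![t i, u i] D = 0) : 1 ≤ t₀ * l1 D := by
  classical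
  rcases le_or_gt t₀ 1 with h1 | h1
  swap
  · nlinarith [one_le_l1 hD]
  have hne : D.support.Nonempty := support_nonempty.2 hD
  obtain ⟨mJ, hmJ, hJ⟩ := D.support.exists_max_image (fun m => m 1) hne
  set S := D.support.filter (fun m => m 1 = mJ 1) with hS
  have hSne : S.Nonempty := ⟨mJ, by simp [hS, hmJ]⟩
  obtain ⟨mr, hmr, hr⟩ := S.exists_min_image (fun m => m 0) hSne
  have hq : ∑ m ∈ S, ((D.coeff m : ℤ) : ℝ) * t₀ ^ (m 0) = 0 := by
    have h2 : Tendsto (fun i => ∑ m ∈ D.support,
        ((D.coeff m : ℤ) : ℝ) * (t i ^ (m 0) * (u i ^ (m 1) / u i ^ (mJ 1)))) atTop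
        (nhds (∑ m ∈ D.support, ((D.coeff m : ℤ) : ℝ) * (t₀ ^ (m 0) * (if m 1 = mJ 1 then 1 else 0)))) :=
      tendsto_finsetSum _ fun m hm =>
        ((ht.pow (m 0)).mul (rootbound_tendsto u hu _ _ (hJ m hm))).const_mul _
    have h3 : ∀ i, ∑ m ∈ D.support,
        ((D.coeff m : ℤ) : ℝ) * (t i ^ (m 0) * (u i ^ (m 1) / u i ^ (mJ 1))) = 0 := by
      intro i
      have h4 := hz i
      rw [rootbound_aeval] at h4
      have : ∑ m ∈ D.support, ((D.coeff m : ℤ) : ℝ) * (t i ^ (m 0) * (u i ^ (m 1) / u i ^ (mJ 1))) =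
          (∑ m ∈ D.support, ((D.coeff m : ℤ) : ℝ) * (t i ^ (m 0) * u i ^ (m 1))) / u i ^ (mJ 1) := by
        rw [Finset.sum_div]
        refine Finset.sum_congr rfl fun m _ => ?_
        ring
      rw [this, h4, zero_div]
    have h5 := tendsto_nhds_unique h2 (by simpa only [h3] using tendsto_const_nhds)
    rw [hS, Finset.sum_filter]
    refine Eq.trans (Finset.sum_congr rfl fun m _ => ?_) h5
    split_ifs <;> simp
  have hmr' : mr ∈ D.support ∧ mr 1 = mJ 1 := by simpa [hS] using hmr
  -- divide by `t₀ ^ r`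
  have hq2 : ∑ m ∈ S, ((D.coeff m : ℤ) : ℝ) * t₀ ^ (m 0 - mr 0) = 0 := by
    have h6 : (∑ m ∈ S, ((D.coeff m : ℤ) : ℝ) * t₀ ^ (m 0 - mr 0)) * t₀ ^ (mr 0) = 0 := by
      rw [Finset.sum_mul, ← hq]
      refine Finset.sum_congr rfl fun m hm => ?_
      rw [mul_assoc, ← pow_add, Nat.sub_add_cancel (hr m hm)]
    exact (mul_eq_zero.1 h6).resolve_right (pow_pos h0 _).ne'
  rw [← Finset.add_sum_erase S _ hmr] at hq2
  simp only [Nat.sub_self, pow_zero, mul_one] at hq2
  have hc1 : (1 : ℝ) ≤ |((D.coeff mr : ℤ) : ℝ)| := by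
    have : D.coeff mr ≠ 0 := mem_support_iff.1 hmr'.1
    exact_mod_cast Int.one_le_abs this
  have hsub : ∑ m ∈ S.erase mr, |((D.coeff m : ℤ) : ℝ)| ≤ l1 D := by
    unfold l1
    refine Finset.sum_le_sum_of_subset_of_nonneg ?_ fun _ _ _ => abs_nonneg _
    exact (Finset.erase_subset _ _).trans (Finset.filter_subset _ _)
  calc (1 : ℝ) ≤ |((D.coeff mr : ℤ) : ℝ)| := hc1
    _ = |∑ m ∈ S.erase mr, ((D.coeff m : ℤ) : ℝ) * t₀ ^ (m 0 - mr 0)| := by
        rw [← abs_neg]; congr 1; linarith
    _ ≤ ∑ m ∈ S.erase mr, |((D.coeff m : ℤ) : ℝ) * t₀ ^ (m 0 - mr 0)| := Finset.abs_sum_le_sum_abs _ _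
    _ ≤ ∑ m ∈ S.erase mr, t₀ * |((D.coeff m : ℤ) : ℝ)| := by
        refine Finset.sum_le_sum fun m hm => ?_
        rw [abs_mul, mul_comm, abs_of_nonneg (pow_nonneg h0.le _)]
        refine mul_le_mul_of_nonneg_right ?_ (abs_nonneg _)
        have hmS := Finset.mem_of_mem_erase hm
        have hne' := Finset.ne_of_mem_erase hm
        have hm1 : m 1 = mJ 1 := (Finset.mem_filter.1 hmS).2
        have hlt : mr 0 < m 0 := by
          refine lt_of_le_of_ne (hr m hmS) fun he => hne' ?_
          ext j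
          fin_cases j
          · exact he.symm
          · exact hm1.trans hmr'.2.symm
        calc t₀ ^ (m 0 - mr 0) ≤ t₀ ^ 1 := pow_le_pow_of_le_one h0.le h1 (by omega)
          _ = t₀ := pow_one _
    _ = t₀ * ∑ m ∈ S.erase mr, |((D.coeff m : ℤ) : ℝ)| := by rw [Finset.mul_sum]
    _ ≤ t₀ * l1 D := mul_le_mul_of_nonneg_left hsub h0.le

end Pool.Agent.Lib.MP_79a9b1_lc
end

section

set_option autoImplicit false

/-!
# The polynomial of a system
-/

namespace Pool.Agent.Lib.MP_79a9b1_lc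

open MvPolynomial

namespace BSYS

variable (S : BSYS)

/-- The values of the variables of the system. -/
noncomputable def ext {n : ℕ} (z : Fin (n + 1) → ℝ) : ℕ → ℝ :=
  fun i => if h : i < n + 1 then z ⟨i, h⟩ else 0

/-- The variable `i` as a polynomial. -/
private noncomputable def lojX (n i : ℕ) : MvPolynomial (Fin (n + 1)) ℤ :=
  if h : i < n + 1 then X ⟨i, h⟩ else 0

private theorem lojX_aeval {n : ℕ} (i : ℕ) (z : Fin (n + 1) → ℝ) :
    aeval z (lojX n i) = ext z i := by
  unfold lojX ext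
  split_ifs <;> simp

private theorem lojX_deg (n i : ℕ) : (lojX n i).totalDegree ≤ 1 := by
  unfold lojX
  split_ifs
  · exact (totalDegree_X _).le
  · simp

private theorem lojX_l1 (n i : ℕ) : l1 (lojX n i) ≤ 1 := by
  unfold lojX
  split_ifs
  · exact (l1_X _).le
  · rw [l1_zero]
    norm_num

/-- The polynomial of one equation. -/
private noncomputable def lojR (n e : ℕ) : MvPolynomial (Fin (n + 1)) ℤ :=
  if S.ty e = 0 then lojX n (S.i e) + lojX n (S.j e) - lojX n (S.k e)
  else lojX n (S.i e) * lojX n (S.j e) - lojX n (S.k e)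

private theorem lojR_aeval {n : ℕ} (e : ℕ) (z : Fin (n + 1) → ℝ) :
    aeval z (lojR S n e) = S.res (ext z) e := by
  unfold lojR res
  split_ifs <;> simp [lojX_aeval]

private theorem lojR_deg (n e : ℕ) : (lojR S n e).totalDegree ≤ 2 := by
  have h1 := lojX_deg n (S.i e)
  have h2 := lojX_deg n (S.j e)
  have h3 := lojX_deg n (S.k e)
  unfold lojR
  split_ifs
  · refine (totalDegree_sub _ _).trans (max_le ((totalDegree_add _ _).trans ?_) (by omega))
    exact max_le (by omega) (by omega)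
  · refine (totalDegree_sub _ _).trans (max_le ((totalDegree_mul _ _).trans (by omega)) (by omega))

private theorem lojR_l1 (n e : ℕ) : l1 (lojR S n e) ≤ 3 := by
  have h1 := lojX_l1 n (S.i e)
  have h2 := lojX_l1 n (S.j e)
  have h3 := lojX_l1 n (S.k e)
  have h4 := l1_nonneg (lojX n (S.i e))
  have h5 := l1_nonneg (lojX n (S.j e))
  unfold lojR
  split_ifs
  · have := l1_sub_le (lojX n (S.i e) + lojX n (S.j e)) (lojX n (S.k e))
    have := l1_add_le (lojX n (S.i e)) (lojX n (S.j e))
    linarith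
  · have := l1_sub_le (lojX n (S.i e) * lojX n (S.j e)) (lojX n (S.k e))
    have := l1_mul_le (lojX n (S.i e)) (lojX n (S.j e))
    nlinarith

theorem loj_poly (hS : S.WF) (R : ℕ) :
    ∃ P : MvPolynomial (Fin (S.nv + 1)) ℤ, P.totalDegree ≤ 4 ∧
      l1 P ≤ 9 * S.ne + 4 + (S.nv + 1 + S.nv * (R : ℝ) ^ 2) ^ 2 ∧
      ∀ z : Fin (S.nv + 1) → ℝ, aeval z P =
        ∑ e ∈ Finset.range S.ne, S.res (ext z) e ^ 2 + (ext z 0 - 1) ^ 2 +
          (∑ i, z i ^ 2 - S.nv * (R : ℝ) ^ 2) ^ 2 := by
  set n := S.nv with hn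
  set Q : MvPolynomial (Fin (n + 1)) ℤ := ∑ i, X i ^ 2 - C ((n : ℤ) * (R : ℤ) ^ 2) with hQ
  refine ⟨∑ e ∈ Finset.range S.ne, lojR S n e ^ 2 + (lojX n 0 - 1) ^ 2 + Q ^ 2, ?_, ?_, ?_⟩
  · have hQd : Q.totalDegree ≤ 2 := by
      refine (totalDegree_sub _ _).trans (max_le ?_ (by rw [totalDegree_C]; omega))
      refine (totalDegree_finsetSum _ _).trans (Finset.sup_le fun i _ => ?_)
      exact (totalDegree_pow _ _).trans (by simp)
    refine (totalDegree_add _ _).trans (max_le ((totalDegree_add _ _).trans (max_le ?_ ?_)) ?_)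
    · refine (totalDegree_finsetSum _ _).trans (Finset.sup_le fun e _ => ?_)
      exact (totalDegree_pow _ _).trans (by have := lojR_deg S n e; omega)
    · refine (totalDegree_pow _ _).trans ?_
      have h1 : (lojX n 0 - 1).totalDegree ≤ 1 :=
        (totalDegree_sub _ _).trans (max_le (lojX_deg n 0) (by simp))
      omega
    · exact (totalDegree_pow _ _).trans (by omega)
  · have h1 : l1 (∑ e ∈ Finset.range S.ne, lojR S n e ^ 2) ≤ 9 * S.ne := by
      refine (l1_sum_le _ _).trans ?_
      have h2 : ∀ e ∈ Finset.range S.ne, l1 (lojR S n e ^ 2) ≤ 9 := by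
        intro e _
        refine (l1_pow_le _ _).trans ?_
        have := lojR_l1 S n e
        have := l1_nonneg (lojR S n e)
        nlinarith
      refine (Finset.sum_le_sum h2).trans ?_
      rw [Finset.sum_const, Finset.card_range, nsmul_eq_mul]
      linarith
    have h3 : l1 ((lojX n 0 - 1) ^ 2) ≤ 4 := by
      refine (l1_pow_le _ _).trans ?_
      have h4 := l1_sub_le (lojX n 0) 1
      rw [l1_one] at h4
      have := lojX_l1 n 0
      have := l1_nonneg (lojX n 0 - 1)
      nlinarith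
    have h5 : l1 (Q ^ 2) ≤ (n + 1 + n * (R : ℝ) ^ 2) ^ 2 := by
      refine (l1_pow_le _ _).trans ?_
      have h6 : l1 Q ≤ n + 1 + n * (R : ℝ) ^ 2 := by
        refine (l1_sub_le _ _).trans (add_le_add ?_ ?_)
        · refine (l1_sum_le _ _).trans ?_
          have h7 : ∀ i ∈ (Finset.univ : Finset (Fin (n + 1))),
              l1 (X i ^ 2 : MvPolynomial (Fin (n + 1)) ℤ) ≤ 1 := by
            intro i _
            refine (l1_pow_le _ _).trans ?_
            rw [l1_X]
            norm_num
          refine (Finset.sum_le_sum h7).trans ?_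
          simp
        · rw [l1_C]
          push_cast
          rw [abs_of_nonneg (by positivity)]
      exact pow_le_pow_left₀ (l1_nonneg _) h6 2
    refine (l1_add_le _ _).trans (add_le_add ((l1_add_le _ _).trans (add_le_add h1 h3)) h5)
  · intro z
    rw [map_add, map_add, map_sum, map_pow, map_pow, map_sub, lojX_aeval, map_one]
    congr 1
    · congr 1
      refine Finset.sum_congr rfl fun e _ => ?_
      rw [map_pow, lojR_aeval]
    · rw [hQ, map_sub, map_sum]
      simp

end BSYS

end Pool.Agent.Lib.MP_79a9b1_lc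
end
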